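import Pool.Agent.Helper82.TK.Contract

/-!
# Index exactly two from Theorem D

`Ex3 G c U`: the global class (labelled simple graph `G`, `c`, all edges inside `U`), 3-connected
(vertices of degree two are allowed), at least `2 |U| - 2` odd edges, no vertex meets all odd
cycles, balanced 3-sets (with a nonempty rest) are not dense. If moreover `G - z1 - z2` is balanced then the split graph is a
society (dense, or tight of type 2+2), and Theorem D gives a TOK4.
-/

set_option autoImplicit false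

namespace Pool.Agent.Helper82.TK

open SimpleGraph Pool.Agent.Helper57.TOK Pool.Agent.Helper57.TD

variable {V : Type*}

/-- The odd edges of a labelled graph. -/
def odG (G : SimpleGraph V) (c : Sym2 V → ZMod 2) : SimpleGraph V where
  Adj u v := G.Adj u v ∧ c s(u, v) = 1
  symm := ⟨fun u v h => ⟨h.1.symm, by rw [Sym2.eq_swap]; exact h.2⟩⟩
  loopless := ⟨fun _ h => h.1.ne rfl⟩

lemma odG_adj {G : SimpleGraph V} {c : Sym2 V → ZMod 2} {u v : V} :
    (odG G c).Adj u v ↔ G.Adj u v ∧ c s(u, v) = 1 := Iff.rfl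

lemma odG_le (G : SimpleGraph V) (c : Sym2 V → ZMod 2) : odG G c ≤ G := fun _ _ h => h.1

/-- `κ` is a potential on the edges which avoid `X`. -/
def BalOff (G : SimpleGraph V) (c : Sym2 V → ZMod 2) (X : Set V) (κ : V → ZMod 2) : Prop :=
  ∀ u v, u ∉ X → v ∉ X → G.Adj u v → c s(u, v) = κ u + κ v

/-- `κ` is a potential on the edges which meet `Y`. -/
def BalOn (G : SimpleGraph V) (c : Sym2 V → ZMod 2) (Y : Set V) (κ : V → ZMod 2) : Prop :=
  ∀ u v, u ∈ Y → G.Adj u v → c s(u, v) = κ u + κ v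

/-- The global class. -/
structure Ex3 (G : SimpleGraph V) (c : Sym2 V → ZMod 2) (U : Set V) : Prop where
  edge_mem : ∀ u v, G.Adj u v → u ∈ U
  deg2 : ∀ y ∈ U, 2 ≤ (G.neighborSet y).ncard
  conn : ∀ Y ⊆ U, 2 ≤ Y.ncard → (Nb G Y).ncard ≤ 2 → (U \ (Y ∪ Nb G Y)).ncard ≤ 1
  dens : 2 * U.ncard ≤ (odG G c).edgeSet.ncard + 2
  index2 : ∀ w, ∀ κ, ¬ BalOff G c {w} κ
  sparse : ∀ Y ⊆ U, 2 ≤ Y.ncard → (Nb G Y).ncard = 3 → (U \ (Y ∪ Nb G Y)).Nonempty →
    ∀ κ, BalOn G c Y κ → fden (odG G c) Y ≤ beta κ (Nb G Y)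

section soc

variable {G : SimpleGraph V} {c : Sym2 V → ZMod 2} {κ : V → ZMod 2} {U : Set V}

/-- the section of the projection given by `κ` -/
def lft (κ : V → ZMod 2) (v : V) : V × ZMod 2 := (v, κ v)

lemma lft_injective (κ : V → ZMod 2) : Function.Injective (lft κ) := fun _ _ h =>
  congrArg Prod.fst h

lemma zz (a : ZMod 2) : a + a = 0 := CharTwo.add_self_eq_zero _

lemma zadd {a b d : ZMod 2} (h : a + b = d) : b = a + d := by
  revert a b d; decide

lemma zne {i a b : ZMod 2} (h : i ≠ b + a) : a = b + (i + 1) := by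
  revert i a b; decide

/-- neighbours in the split graph of a vertex outside `D` -/
lemma spG_adj_lft {D : Set V} (hκ : BalOff G c D κ) {u : V} (hu : u ∉ D) {y : V × ZMod 2} :
    (spG G c κ D).Adj (lft κ u) y ↔ G.Adj u y.1 ∧ y.2 = κ u + c s(u, y.1) := by
  rw [spG_adj]
  constructor
  · rintro ⟨h1, h2, -⟩
    exact ⟨h1, zadd h2⟩
  · rintro ⟨h1, h2⟩
    refine ⟨h1, ?_, fun _ => rfl, ?_, Or.inl hu⟩
    · show κ u + y.2 = _
      rw [h2, ← add_assoc, zz, zero_add]; rfl
    · intro hy
      rw [h2, hκ u y.1 hu hy h1, ← add_assoc, zz, zero_add]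

/-- the projection is injective on the edges of the split graph -/
lemma edge_inj {D : Set V} : Set.InjOn (Sym2.map Prod.fst) (spG G c κ D).edgeSet := by
  intro e he e' he' h
  induction e using Sym2.ind with
  | _ x y =>
    induction e' using Sym2.ind with
    | _ x' y' =>
      rw [SimpleGraph.mem_edgeSet] at he he'
      rw [Sym2.map_mk, Sym2.map_mk] at h
      have main : ∀ {x y x' y' : V × ZMod 2}, (spG G c κ D).Adj x y →
          (spG G c κ D).Adj x' y' → x.1 = x'.1 → y.1 = y'.1 → s(x, y) = s(x', y') := by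
        intro x y x' y' h1 h2 h3 h4
        obtain ⟨a, i⟩ := x
        obtain ⟨b, j⟩ := y
        obtain ⟨a', i'⟩ := x'
        obtain ⟨b', j'⟩ := y'
        simp only at h3 h4
        subst h3 h4
        obtain ⟨-, q1, q2, q3, q4⟩ := h1
        obtain ⟨-, r1, r2, r3, -⟩ := h2
        simp only at q1 q2 q3 q4 r1 r2 r3
        rcases q4 with h5 | h5
        · have e1 : i = i' := (q2 h5).trans (r2 h5).symm
          subst e1
          have e2 : j = j' := (zadd q1).trans (zadd r1).symm
          rw [e2]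
        · have e1 : j = j' := (q3 h5).trans (r3 h5).symm
          subst e1
          rw [add_comm] at q1 r1
          have e2 : i = i' := (zadd q1).trans (zadd r1).symm
          rw [e2]
      rw [Sym2.eq_iff] at h
      rcases h with ⟨h1, h2⟩ | ⟨h1, h2⟩
      · exact main he he' h1 h2
      · rw [main he he'.symm h1 h2]
        exact Sym2.eq_swap

/-- number of odd edges -/
lemma fO_lft [Finite V] {D : Set V} (hκ : BalOff G c D κ) {Y : Set V} (hY : Disjoint Y D) :
    fO (spG G c κ D) Prod.snd (lft κ '' Y) = fden (odG G c) Y := by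
  unfold fO fden
  rw [Set.ncard_image_of_injective _ (lft_injective κ)]
  congr 2
  unfold rho
  have himg : EAt (odG G c) Y =
      Sym2.map Prod.fst '' EAt (oddG (spG G c κ D) Prod.snd) (lft κ '' Y) := by
    ext e
    induction e using Sym2.ind with
    | _ u v =>
      have main : ∀ {u v : V}, (odG G c).Adj u v → u ∈ Y → s(u, v) ∈
          Sym2.map Prod.fst '' EAt (oddG (spG G c κ D) Prod.snd) (lft κ '' Y) := by
        intro u v h1 h2
        have huD : u ∉ D := Set.disjoint_left.1 hY h2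
        refine ⟨s(lft κ u, (v, κ u + 1)), ?_, rfl⟩
        rw [mem_EAt]
        refine ⟨⟨(spG_adj_lft hκ huD).2 ⟨h1.1, ?_⟩, ?_⟩, Or.inl ⟨u, h2, rfl⟩⟩
        · rw [h1.2]
        · show κ u + (κ u + 1) = 1
          rw [← add_assoc, zz, zero_add]
      constructor
      · intro h
        rw [mem_EAt] at h
        rcases h with ⟨h1, h2 | h2⟩
        · exact main h1 h2
        · rw [Sym2.eq_swap]; exact main h1.symm h2
      · rintro ⟨e, he, hmap⟩
        induction e using Sym2.ind with
        | _ x y =>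
          rw [mem_EAt] at he
          rw [Sym2.map_mk] at hmap
          rw [← hmap, mem_EAt]
          refine ⟨⟨he.1.1.1, ?_⟩, ?_⟩
          · rw [← he.1.1.2.1]; exact he.1.2
          · rcases he.2 with ⟨w, hw, h⟩ | ⟨w, hw, h⟩
            · left; rw [← h]; exact hw
            · right; rw [← h]; exact hw
  rw [himg]
  rw [Set.ncard_image_of_injOn]
  exact edge_inj.mono (fun e he => SimpleGraph.edgeSet_mono (oddG_le _ _) he.1)

/-- neighbourhood in the split graph -/
lemma mem_Nb_lft {D : Set V} (hκ : BalOff G c D κ) {Y : Set V} (hY : Disjoint Y D)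
    {y : V × ZMod 2} : y ∈ Nb (spG G c κ D) (lft κ '' Y) ↔
      y.1 ∉ Y ∧ ∃ u ∈ Y, G.Adj u y.1 ∧ y.2 = κ u + c s(u, y.1) := by
  rw [mem_Nb]
  constructor
  · rintro ⟨h1, x, ⟨u, hu, rfl⟩, h2⟩
    have huD : u ∉ D := Set.disjoint_left.1 hY hu
    have h3 := (spG_adj_lft hκ huD).1 h2
    refine ⟨?_, u, hu, h3⟩
    intro hy
    have hyD : y.1 ∉ D := Set.disjoint_left.1 hY hy
    apply h1
    refine ⟨y.1, hy, ?_⟩
    rw [Prod.ext_iff]
    exact ⟨rfl, (h2.2.2.2.1 hyD).symm⟩
  · rintro ⟨h1, u, hu, h2⟩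
    have huD : u ∉ D := Set.disjoint_left.1 hY hu
    refine ⟨?_, lft κ u, ⟨u, hu, rfl⟩, (spG_adj_lft hκ huD).2 h2⟩
    rintro ⟨w, hw, hwy⟩
    exact h1 (hwy ▸ hw)

lemma fst_image_Nb {D : Set V} (hκ : BalOff G c D κ) {Y : Set V} (hY : Disjoint Y D) :
    Prod.fst '' Nb (spG G c κ D) (lft κ '' Y) = Nb G Y := by
  ext v
  constructor
  · rintro ⟨y, hy, rfl⟩
    rw [mem_Nb_lft hκ hY] at hy
    obtain ⟨h1, u, hu, h2, -⟩ := hy
    exact ⟨h1, u, hu, h2⟩
  · rintro ⟨h1, u, hu, h2⟩
    refine ⟨(v, κ u + c s(u, v)), ?_, rfl⟩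
    rw [mem_Nb_lft hκ hY]
    exact ⟨h1, u, hu, h2, rfl⟩

lemma ncard_T (z1 z2 : V) (h12 : z1 ≠ z2) :
    ({x | x.1 ∈ ({z1, z2} : Set V)} : Set (V × ZMod 2)).ncard = 4 := by
  classical
  have : ({x | x.1 ∈ ({z1, z2} : Set V)} : Set (V × ZMod 2)) =
      (({(z1, 0), (z1, 1), (z2, 0), (z2, 1)} : Finset (V × ZMod 2)) : Set (V × ZMod 2)) := by
    ext ⟨a, i⟩
    simp only [Set.mem_ofPred_eq, Set.mem_insert_iff, Set.mem_singleton_iff, Finset.coe_insert,
      Finset.coe_singleton, Prod.mk.injEq]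
    constructor
    · rintro (rfl | rfl) <;> rcases zmod2_cases i with rfl | rfl <;> simp
    · rintro (⟨rfl, -⟩ | ⟨rfl, -⟩ | ⟨rfl, -⟩ | ⟨rfl, -⟩) <;> simp
  rw [this, Set.ncard_coe_finset]
  rw [Finset.card_insert_of_notMem, Finset.card_insert_of_notMem, Finset.card_insert_of_notMem,
    Finset.card_singleton]
  · simp
  · simp [h12]
  · simp [h12]

/-- the other vertex of a pair -/
lemma exists_other {z1 z2 z : V} (h12 : z1 ≠ z2) (hz : z ∈ ({z1, z2} : Set V)) :
    ∃ z', z' ≠ z ∧ ({z1, z2} : Set V) = {z', z} := by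
  simp only [Set.mem_insert_iff, Set.mem_singleton_iff] at hz
  rcases hz with rfl | rfl
  · exact ⟨z2, h12.symm, Set.pair_comm _ _⟩
  · exact ⟨z1, h12, rfl⟩

/-- In the class, a set with at most two neighbours sees all four copies. -/
lemma Ex3.four_le [Finite V] (h : Ex3 G c U) {z1 z2 : V} (h12 : z1 ≠ z2)
    (hDU : ({z1, z2} : Set V) ⊆ U) (hκ : BalOff G c {z1, z2} κ) {Y : Set V}
    (hY : Y ⊆ U \ {z1, z2}) (h2 : 2 ≤ Y.ncard) (hN : (Nb G Y).ncard ≤ 2) :
    4 ≤ (Nb (spG G c κ {z1, z2}) (lft κ '' Y)).ncard := by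
  classical
  have hdY : Disjoint Y ({z1, z2} : Set V) := Set.disjoint_sdiff_left.mono_left hY
  have hR := h.conn Y (hY.trans Set.sdiff_subset) h2 hN
  have hRuniq : ∀ s ∈ U, s ∉ Y → s ∉ Nb G Y → ∀ s' ∈ U, s' ∉ Y → s' ∉ Nb G Y → s = s' := by
    intro s h1 h3 h4 s' h1' h3' h4'
    have := (Set.ncard_le_one (Set.toFinite _)).1 hR s ⟨h1, fun hh => hh.elim h3 h4⟩ s'
      ⟨h1', fun hh => hh.elim h3' h4'⟩
    exact this
  have hzY : ∀ z ∈ ({z1, z2} : Set V), z ∉ Y := fun z hz hzY => (hY hzY).2 hz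
  -- both vertices are neighbours
  have hD : ({z1, z2} : Set V) ⊆ Nb G Y := by
    intro z hz
    by_contra hzN
    obtain ⟨z', hz', hset⟩ := exists_other h12 hz
    have hz'D : z' ∈ ({z1, z2} : Set V) := by rw [hset]; exact Or.inl rfl
    have hz'N : z' ∈ Nb G Y := by
      by_contra hn
      exact hz' (hRuniq z' (hDU hz'D) (hzY z' hz'D) hn z (hDU hz) (hzY z hz) hzN)
    -- neighbours of z
    have hnz : ∀ v, G.Adj z v → v ∈ Nb G Y := by
      intro v hv
      by_contra hn
      have hvY : v ∉ Y := fun hvY => hzN ⟨hzY z hz, v, hvY, hv.symm⟩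
      exact hv.ne (hRuniq z (hDU hz) (hzY z hz) hzN v (h.edge_mem v z hv.symm) hvY hn)
    have hone : ∀ v v', G.Adj z v → G.Adj z v' → v ≠ z' → v' ≠ z' → v = v' := by
      intro v v' hv hv' h3 h4
      by_contra hne
      have hsub : ({z', v, v'} : Set V) ⊆ Nb G Y := by
        rintro x (rfl | rfl | hx)
        · exact hz'N
        · exact hnz _ hv
        · rw [Set.mem_singleton_iff] at hx; rw [hx]; exact hnz _ hv'
      have := Set.ncard_le_ncard hsub (Set.toFinite _)
      rw [Set.ncard_insert_of_notMem (by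
        simp only [Set.mem_insert_iff, Set.mem_singleton_iff]
        push Not; exact ⟨h3.symm, h4.symm⟩), Set.ncard_pair hne] at this
      omega
    by_cases hx : ∃ x, G.Adj z x ∧ x ≠ z'
    · obtain ⟨x, hzx, hxz'⟩ := hx
      refine h.index2 z' (fun v => if v = z then κ x + c s(z, x) else κ v) ?_
      intro u v hu hv huv
      rw [Set.mem_singleton_iff] at hu hv
      have hout : ∀ u v, u ≠ z' → v ≠ z' → G.Adj u v → u ≠ z → v ≠ z → c s(u, v) = κ u + κ v := by
        intro u v hu hv huv hu' hv'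
        refine hκ u v ?_ ?_ huv
        · rw [hset]; rintro (h5 | h5)
          · exact hu h5
          · exact hu' h5
        · rw [hset]; rintro (h5 | h5)
          · exact hv h5
          · exact hv' h5
      show c s(u, v) = (if u = z then κ x + c s(z, x) else κ u) +
        (if v = z then κ x + c s(z, x) else κ v)
      by_cases h1 : u = z
      · by_cases h4 : v = z
        · exact absurd (h1.trans h4.symm) huv.ne
        · rw [if_pos h1, if_neg h4]
          subst h1
          have : v = x := hone v x huv hzx hv hxz'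
          subst this
          rw [add_comm (κ v), add_assoc, zz, add_zero]
      · by_cases h4 : v = z
        · rw [if_neg h1, if_pos h4]
          subst h4
          have : u = x := hone u x huv.symm hzx hu hxz'
          subst this
          rw [← add_assoc, zz, zero_add, Sym2.eq_swap]
        · rw [if_neg h1, if_neg h4]
          exact hout u v hu hv huv h1 h4
    · push Not at hx
      refine h.index2 z' κ ?_
      intro u v hu hv huv
      rw [Set.mem_singleton_iff] at hu hv
      have hne : ∀ u v, G.Adj u v → v ≠ z' → u ≠ z := by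
        intro u v huv hv hu
        subst hu
        exact hv (hx v huv)
      refine hκ u v ?_ ?_ huv
      · rw [hset]; rintro (h5 | h5)
        · exact hu h5
        · exact hne u v huv hv h5
      · rw [hset]; rintro (h5 | h5)
        · exact hv h5
        · exact hne v u huv.symm hu h5
  have hDN : ({z1, z2} : Set V) = Nb G Y := by
    apply Set.eq_of_subset_of_ncard_le hD _ (Set.toFinite _)
    rw [Set.ncard_pair h12]; exact hN
  -- all four copies
  have hfull : ∀ z ∈ ({z1, z2} : Set V), ∀ i : ZMod 2,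
      (z, i) ∈ Nb (spG G c κ {z1, z2}) (lft κ '' Y) := by
    intro z hz i
    rw [mem_Nb_lft hκ hdY]
    refine ⟨hzY z hz, ?_⟩
    by_contra hcon
    push Not at hcon
    obtain ⟨z', hz', hset⟩ := exists_other h12 hz
    have hz'D : z' ∈ ({z1, z2} : Set V) := by rw [hset]; exact Or.inl rfl
    -- potential on `G - z'`
    let κ' : V → ZMod 2 := fun v => if v = z then i + 1 else
      if v ∈ Y then κ v else (i + 1) + c s(v, z)
    have key : ∀ u v, u ≠ z' → v ≠ z' → G.Adj u v → v = z → c s(u, v) = κ' u + κ' v := by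
      intro u v hu hv huv hvz
      subst hvz
      have huz : u ≠ v := huv.ne
      have e1 : κ' v = i + 1 := if_pos rfl
      by_cases huY : u ∈ Y
      · have e2 : κ' u = κ u := by
          show (if u = v then i + 1 else if u ∈ Y then κ u else _) = _
          rw [if_neg huz, if_pos huY]
        rw [e1, e2]
        exact zne (hcon u huY huv)
      · have e2 : κ' u = (i + 1) + c s(u, v) := by
          show (if u = v then i + 1 else if u ∈ Y then κ u else _) = _
          rw [if_neg huz, if_neg huY]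
        rw [e1, e2, add_comm (i + 1), add_assoc, zz, add_zero]
    refine h.index2 z' κ' ?_
    intro u v hu hv huv
    rw [Set.mem_singleton_iff] at hu hv
    by_cases h4 : v = z
    · exact key u v hu hv huv h4
    · by_cases h1 : u = z
      · rw [Sym2.eq_swap, add_comm]
        exact key v u hv hu huv.symm h1
      · -- both in `Y`
        have hmem : ∀ u v, u ≠ z' → u ≠ z → v ≠ z' → v ≠ z → G.Adj u v → u ∈ Y := by
          intro u v hu h1 hv h4 huv
          by_contra huY
          have huN : u ∉ Nb G Y := by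
            rw [← hDN, hset]; rintro (h5 | h5)
            · exact hu h5
            · exact h1 h5
          have hvN : v ∉ Nb G Y := by
            rw [← hDN, hset]; rintro (h5 | h5)
            · exact hv h5
            · exact h4 h5
          have hvY : v ∉ Y := fun hvY => huN ⟨huY, v, hvY, huv.symm⟩
          exact huv.ne (hRuniq u (h.edge_mem u v huv) huY huN v (h.edge_mem v u huv.symm)
            hvY hvN)
        have huY := hmem u v hu h1 hv h4 huv
        have hvY := hmem v u hv h4 hu h1 huv.symm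
        show c s(u, v) = (if u = z then i + 1 else if u ∈ Y then κ u else _) +
          (if v = z then i + 1 else if v ∈ Y then κ v else _)
        rw [if_neg h1, if_neg h4, if_pos huY, if_pos hvY]
        exact hκ u v (hY huY).2 (hY hvY).2 huv
  rw [← ncard_T z1 z2 h12]
  apply Set.ncard_le_ncard _ (Set.toFinite _)
  rintro ⟨z, i⟩ hz
  exact hfull z hz i

/-- THE SPLIT GRAPH IS A SOCIETY. -/
theorem Ex3.soc [Finite V] (h : Ex3 G c U) {z1 z2 : V} (h12 : z1 ≠ z2) (h1U : z1 ∈ U)
    (h2U : z2 ∈ U) (hκ : BalOff G c {z1, z2} κ) {md : Bool}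
    (hmd : md = false → ¬ (odG G c).Adj z1 z2 ∨ 2 * U.ncard ≤ (odG G c).edgeSet.ncard + 1)
    (hexc : ∀ Y ⊆ U, (Nb G Y).ncard = 3 → U ⊆ Y ∪ Nb G Y → ∀ κ, BalOn G c Y κ →
      fden (odG G c) Y ≤ beta κ (Nb G Y)) :
    Soc md (spG G c κ {z1, z2}) Prod.snd (lft κ '' (U \ {z1, z2})) {x | x.1 ∈ ({z1, z2} : Set V)} := by
  classical
  have hdis : Disjoint (U \ {z1, z2}) ({z1, z2} : Set V) := Set.disjoint_sdiff_left
  have hDU : ({z1, z2} : Set V) ⊆ U := by
    rintro x (rfl | hx)
    · exact h1U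
    · rw [Set.mem_singleton_iff] at hx; rw [hx]; exact h2U
  have hlftU : ∀ x y, (spG G c κ {z1, z2}).Adj x y → x.1 ∉ ({z1, z2} : Set V) →
      x ∈ lft κ '' (U \ {z1, z2}) := by
    intro x y hxy hx
    refine ⟨x.1, ⟨h.edge_mem _ _ hxy.1, hx⟩, ?_⟩
    rw [Prod.ext_iff]
    exact ⟨rfl, (hxy.2.2.1 hx).symm⟩
  have hnotmono : ¬ Mono Prod.snd ({x | x.1 ∈ ({z1, z2} : Set V)} : Set (V × ZMod 2)) := by
    intro hm
    have := hm (z1, 0) (by simp) (z1, 1) (by simp)
    exact zero_ne_one this
  have hTcard := ncard_T z1 z2 h12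
  -- every subset of S is a lift
  have hlift : ∀ Y' ⊆ lft κ '' (U \ {z1, z2}), ∃ Y ⊆ U \ ({z1, z2} : Set V), Y' = lft κ '' Y ∧
      Y.ncard = Y'.ncard := by
    intro Y' hY'
    obtain ⟨Y, hY, hYY⟩ := (Set.subset_image_iff).1 hY'
    exact ⟨Y, hY, hYY.symm, by rw [← hYY, Set.ncard_image_of_injective _ (lft_injective κ)]⟩
  have hNbcard : ∀ Y ⊆ U \ ({z1, z2} : Set V),
      (Nb G Y).ncard ≤ (Nb (spG G c κ {z1, z2}) (lft κ '' Y)).ncard := by
    intro Y hY
    rw [← fst_image_Nb hκ (hdis.mono_left hY)]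
    exact Set.ncard_image_le (Set.toFinite _)
  have hdeg : ∀ s ∈ lft κ '' (U \ {z1, z2}), 2 ≤ ((spG G c κ {z1, z2}).neighborSet s).ncard := by
    rintro _ ⟨u, hu, rfl⟩
    have h1 := h.deg2 u hu.1
    have h2 : G.neighborSet u = Prod.fst '' (spG G c κ {z1, z2}).neighborSet (lft κ u) := by
      ext v
      constructor
      · intro hv
        refine ⟨(v, κ u + c s(u, v)), ?_, rfl⟩
        rw [SimpleGraph.mem_neighborSet, spG_adj_lft hκ hu.2]
        exact ⟨hv, rfl⟩
      · rintro ⟨y, hy, rfl⟩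
        exact hy.1
    rw [h2] at h1
    exact h1.trans (Set.ncard_image_le (Set.toFinite _))
  refine ⟨hTcard, ?_, ?_, ?_, ?_, ?_, ?_, hdeg, ?_⟩
  · rw [Set.disjoint_left]
    rintro _ ⟨u, hu, rfl⟩ hT
    exact hu.2 hT
  · intro x y hxy
    by_cases hx : x.1 ∈ ({z1, z2} : Set V)
    · exact Or.inr hx
    · exact Or.inl (hlftU x y hxy hx)
  · intro x y hxy
    rcases hxy.2.2.2.2 with hx | hx
    · exact Or.inl (hlftU x y hxy hx)
    · exact Or.inr (hlftU y x hxy.symm hx)
  · -- M1
    rw [fO_lft hκ hdis]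
    have hbeta : beta Prod.snd ({x | x.1 ∈ ({z1, z2} : Set V)} : Set (V × ZMod 2)) = 1 := by
      rw [beta_of_not_mono hnotmono, hTcard]; norm_num
    -- count
    have hd := h.dens
    have h1 : (U \ ({z1, z2} : Set V)).ncard + 2 = U.ncard := by
      have := Set.ncard_sdiff_add_ncard_of_subset hDU (Set.toFinite _)
      rw [Set.ncard_pair h12] at this
      exact this
    have h6 : ((U \ ({z1, z2} : Set V)).ncard : ℤ) + 2 = U.ncard := by exact_mod_cast h1
    have h2 : ∀ e ∈ (odG G c).edgeSet, e ∈ EAt (odG G c) (U \ {z1, z2}) ∨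
        (e = s(z1, z2) ∧ (odG G c).Adj z1 z2) := by
      intro e
      induction e using Sym2.ind with
      | _ u v =>
        intro he
        rw [SimpleGraph.mem_edgeSet] at he
        have huU := h.edge_mem u v he.1
        have hvU := h.edge_mem v u he.1.symm
        by_cases hu : u ∈ ({z1, z2} : Set V)
        · by_cases hv : v ∈ ({z1, z2} : Set V)
          · right
            rw [Sym2.eq_iff]
            simp only [Set.mem_insert_iff, Set.mem_singleton_iff] at hu hv
            rcases hu with rfl | rfl <;> rcases hv with rfl | rfl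
            · exact absurd rfl he.1.ne
            · exact ⟨Or.inl ⟨rfl, rfl⟩, he⟩
            · exact ⟨Or.inr ⟨rfl, rfl⟩, he.symm⟩
            · exact absurd rfl he.1.ne
          · left; rw [mem_EAt]; exact ⟨he, Or.inr ⟨hvU, hv⟩⟩
        · left; rw [mem_EAt]; exact ⟨he, Or.inl ⟨huU, hu⟩⟩
    have h3 : (odG G c).edgeSet.ncard ≤ (EAt (odG G c) (U \ {z1, z2})).ncard + 1 := by
      have h3 := Set.ncard_le_ncard (t := EAt (odG G c) (U \ {z1, z2}) ∪ {s(z1, z2)})
        (fun e he => (h2 e he).imp_right (fun h => h.1)) (Set.toFinite _)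
      have h4 := Set.ncard_union_le (EAt (odG G c) (U \ {z1, z2})) {s(z1, z2)}
      rw [Set.ncard_singleton] at h4
      omega
    have h3' : ¬ (odG G c).Adj z1 z2 →
        (odG G c).edgeSet.ncard ≤ (EAt (odG G c) (U \ {z1, z2})).ncard := by
      intro hn
      refine Set.ncard_le_ncard ?_ (Set.toFinite _)
      intro e he
      rcases h2 e he with h | h
      · exact h
      · exact absurd h.2 hn
    unfold fden rho
    cases md with
    | false =>
      show beta _ _ + 1 ≤ _
      rw [hbeta]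
      have h5 : (2 * U.ncard : ℤ) ≤ (EAt (odG G c) (U \ {z1, z2})).ncard + 2 := by
        have : 2 * U.ncard ≤ (EAt (odG G c) (U \ {z1, z2})).ncard + 2 := by
          rcases hmd rfl with h7 | h7
          · have := h3' h7
            omega
          · omega
        exact_mod_cast this
      linarith
    | true =>
      show beta _ _ ≤ _
      rw [hbeta]
      have h5 : (2 * U.ncard : ℤ) ≤ (EAt (odG G c) (U \ {z1, z2})).ncard + 3 := by
        have : 2 * U.ncard ≤ (EAt (odG G c) (U \ {z1, z2})).ncard + 3 := by omega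
        exact_mod_cast this
      linarith
  · -- TT
    intro _
    refine ⟨(z1, 0), (z2, 0), (z1, 1), (z2, 1), ?_, by simp [h12], by simp [h12], rfl, rfl,
      by simp⟩
    ext ⟨a, i⟩
    simp only [Set.mem_ofPred_eq, Set.mem_insert_iff, Set.mem_singleton_iff, Prod.mk.injEq]
    constructor
    · rintro (rfl | rfl) <;> rcases zmod2_cases i with rfl | rfl <;> simp
    · rintro (⟨rfl, -⟩ | ⟨rfl, -⟩ | ⟨rfl, -⟩ | ⟨rfl, -⟩) <;> simp
  · -- M2
    intro Y' hY' hne hN
    obtain ⟨Y, hY, rfl, hcard⟩ := hlift Y' hY'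
    have hdY := hdis.mono_left hY
    by_cases h2 : 2 ≤ Y.ncard
    · have hNG := (hNbcard Y hY).trans hN
      have hNG3 : 3 ≤ (Nb G Y).ncard := by
        by_contra hlt
        have := h.four_le h12 hDU hκ hY h2 (by omega)
        omega
      have hNG' : (Nb G Y).ncard = 3 := by omega
      have hNZ : (Nb (spG G c κ {z1, z2}) (lft κ '' Y)).ncard = 3 := by
        have := hNbcard Y hY
        omega
      have hinj : Set.InjOn Prod.fst (Nb (spG G c κ {z1, z2}) (lft κ '' Y)) := by
        rw [← Set.ncard_image_iff (Set.toFinite _), fst_image_Nb hκ hdY, hNG', hNZ]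
      -- the colouring
      let κ' : V → ZMod 2 := fun v => if v ∈ Y then κ v else
        if (v, (1 : ZMod 2)) ∈ Nb (spG G c κ {z1, z2}) (lft κ '' Y) then 1 else 0
      have hκN : ∀ y ∈ Nb (spG G c κ {z1, z2}) (lft κ '' Y), κ' y.1 = y.2 := by
        intro y hy
        have hyY : y.1 ∉ Y := ((mem_Nb_lft hκ hdY).1 hy).1
        show (if y.1 ∈ Y then κ y.1 else _) = _
        rw [if_neg hyY]
        obtain ⟨a, i⟩ := y
        rcases zmod2_cases i with rfl | rfl
        · rw [if_neg]
          intro h3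
          have := hinj hy h3 rfl
          rw [Prod.mk.injEq] at this
          exact zero_ne_one this.2
        · rw [if_pos hy]
      have hbal : BalOn G c Y κ' := by
        intro u v hu huv
        have e1 : κ' u = κ u := if_pos hu
        have huD : u ∉ ({z1, z2} : Set V) := (hY hu).2
        by_cases hv : v ∈ Y
        · have e2 : κ' v = κ v := if_pos hv
          rw [e1, e2]
          exact hκ u v huD (hY hv).2 huv
        · have hmem : (v, κ u + c s(u, v)) ∈ Nb (spG G c κ {z1, z2}) (lft κ '' Y) := by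
            rw [mem_Nb_lft hκ hdY]
            exact ⟨hv, u, hu, huv, rfl⟩
          have e2 := hκN _ hmem
          rw [e1, e2, ← add_assoc, zz, zero_add]
      have hsp : fden (odG G c) Y ≤ beta κ' (Nb G Y) := by
        by_cases hne : (U \ (Y ∪ Nb G Y)).Nonempty
        · exact h.sparse Y (hY.trans Set.sdiff_subset) h2 hNG' hne κ' hbal
        · refine hexc Y (hY.trans Set.sdiff_subset) hNG' ?_ κ' hbal
          rw [Set.not_nonempty_iff_eq_empty, Set.sdiff_eq_empty] at hne
          exact hne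
      rw [fO_lft hκ hdY]
      refine hsp.trans (le_of_eq ?_)
      -- beta
      have hm : Mono κ' (Nb G Y) ↔ Mono Prod.snd (Nb (spG G c κ {z1, z2}) (lft κ '' Y)) := by
        rw [← fst_image_Nb hκ hdY]
        constructor
        · intro hm x hx y hy
          rw [← hκN x hx, ← hκN y hy]
          exact hm _ ⟨x, hx, rfl⟩ _ ⟨y, hy, rfl⟩
        · rintro hm _ ⟨x, hx, rfl⟩ _ ⟨y, hy, rfl⟩
          rw [hκN x hx, hκN y hy]
          exact hm x hx y hy
      by_cases h3 : Mono κ' (Nb G Y)
      · rw [beta_of_mono h3, beta_of_mono (hm.1 h3), hNG', hNZ]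
      · rw [beta_of_not_mono h3, beta_of_not_mono (fun h4 => h3 (hm.2 h4)), hNG', hNZ]
    · have h1 : (lft κ '' Y).ncard = 1 := by
        have := (Set.ncard_pos (Set.toFinite _)).2 hne
        omega
      obtain ⟨s, hs⟩ := Set.ncard_eq_one.1 h1
      rw [hs]
      apply fO_singleton_le
      rw [← Set.ncard_pos (Set.toFinite _)]
      have := hdeg s (hY' (by rw [hs]; rfl))
      omega
  · -- C2
    intro Y' hY' h2
    obtain ⟨Y, hY, rfl, hcard⟩ := hlift Y' hY'
    rw [← hcard] at h2
    by_contra hlt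
    have h3 := hNbcard Y hY
    have h4 := h.four_le h12 hDU hκ hY h2 (by omega)
    omega

/-- THEOREM D (with its tight version) implies a TOK4 in every member of the class with index
two. -/
theorem Ex3.hasTOK4s_of_index_two [Finite V] (h : Ex3 G c U) {z1 z2 : V} (h12 : z1 ≠ z2)
    (h1U : z1 ∈ U) (h2U : z2 ∈ U) (hκ : BalOff G c {z1, z2} κ)
    (hexc : ∀ Y ⊆ U, (Nb G Y).ncard = 3 → U ⊆ Y ∪ Nb G Y → ∀ κ, BalOn G c Y κ →
      fden (odG G c) Y ≤ beta κ (Nb G Y))
    (hD : ∀ (md : Bool) (Z : SimpleGraph (V × ZMod 2)) (κ : V × ZMod 2 → ZMod 2)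
      (S T : Set (V × ZMod 2)), Soc md Z κ S T → Goal md Z κ T) : HasTOK4s G c := by
  by_cases hadj : (odG G c).Adj z1 z2
  · have hsoc := h.soc h12 h1U h2U hκ (md := true) (fun h => absurd h (by simp)) hexc
    exact hasTOK4s_of_HT h12 hadj.1 hadj.2 (hD true _ _ _ _ hsoc)
  · have hsoc := h.soc h12 h1U h2U hκ (md := false) (fun _ => Or.inl hadj) hexc
    have hfr : AllFramesE _ _ _ := hD false _ _ _ _ hsoc
    refine hasTOK4s_of_frame h12 (hfr (z1, 0) (by simp) (z1, 1) (by simp) (z2, 0) (by simp)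
      (z2, 1) (by simp) ?_ ?_ ?_ ?_ ?_ ?_)
    all_goals simp [h12]

/-- The same from the dense version of Theorem D alone, if there are at least `2 |U| - 1` odd
edges. -/
theorem Ex3.hasTOK4s_of_index_two' [Finite V] (h : Ex3 G c U)
    (hdens : 2 * U.ncard ≤ (odG G c).edgeSet.ncard + 1) {z1 z2 : V} (h12 : z1 ≠ z2)
    (h1U : z1 ∈ U) (h2U : z2 ∈ U) (hκ : BalOff G c {z1, z2} κ)
    (hexc : ∀ Y ⊆ U, (Nb G Y).ncard = 3 → U ⊆ Y ∪ Nb G Y → ∀ κ, BalOn G c Y κ →
      fden (odG G c) Y ≤ beta κ (Nb G Y))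
    (hD : ∀ (Z : SimpleGraph (V × ZMod 2)) (κ : V × ZMod 2 → ZMod 2)
      (S T : Set (V × ZMod 2)), Soc false Z κ S T → AllFramesE Z κ T) : HasTOK4s G c := by
  have hsoc := h.soc h12 h1U h2U hκ (md := false) (fun _ => Or.inr hdens) hexc
  have hfr := hD _ _ _ _ hsoc
  refine hasTOK4s_of_frame h12 (hfr (z1, 0) (by simp) (z1, 1) (by simp) (z2, 0) (by simp)
    (z2, 1) (by simp) ?_ ?_ ?_ ?_ ?_ ?_)
  all_goals simp [h12]

end soc

end Pool.Agent.Helper82.TK
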