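import Pool.Agent.Helper82.TK.PackMatch

/-!
# The packing theorem for two disjoint non-zero A-paths, |A| = 4

`pack4`: either two disjoint non-zero paths cover the four terminals, or there is an obstruction
(`Obs`): at most one deleted vertex `X`, a potential on `A1 ⊇ A \ X` and a set `B ⊆ A1` of at most
three vertices (empty if a vertex is deleted) such that every `A1`-path avoiding `X` which is not
a zero edge joins two vertices of `B`.
-/

set_option autoImplicit false

namespace Pool.Agent.Helper82.TK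

open SimpleGraph Pool.Agent.Helper57.TOK

section Count

variable {Y V : Type*} [Finite Y] {K : SimpleGraph Y} {f : Y → V}

/-- vertices alone in their fibre -/
def Sg (f : Y → V) : Set Y := {x | ∀ y, f y = f x → y = x}

lemma even_compl (hK : ∀ x y, x ≠ y → f x = f y → K.Adj x y)
    (h2 : ∀ x y z, f x = f y → f y = f z → x = y ∨ y = z ∨ x = z) (C : K.ConnectedComponent) :
    Even (C.supp \ Sg f).ncard := by
  classical
  have := Fintype.ofFinite Y
  have hp : ∀ x : Y, ∃ y, x ∉ Sg f → f y = f x ∧ y ≠ x := by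
    intro x
    by_cases hx : x ∈ Sg f
    · exact ⟨x, fun h => absurd hx h⟩
    · simp only [Sg, Set.mem_ofPred_eq, not_forall] at hx
      obtain ⟨y, hy, hyx⟩ := hx
      exact ⟨y, fun _ => ⟨hy, hyx⟩⟩
  choose g hg using hp
  have hg1 : ∀ x, x ∉ Sg f → g x ∉ Sg f := by
    intro x hx h
    exact (hg x hx).2 (h x (hg x hx).1.symm).symm
  have hgg : ∀ x, x ∉ Sg f → g (g x) = x := by
    intro x hx
    have h1 := hg x hx
    have h3 := hg (g x) (hg1 x hx)
    rcases h2 x (g x) (g (g x)) h1.1.symm h3.1.symm with h | h | h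
    · exact absurd h.symm h1.2
    · exact absurd h.symm h3.2
    · exact h.symm
  have hsum : ∑ x ∈ (C.supp \ Sg f).toFinset, (1 : ZMod 2) = 0 := by
    apply Finset.sum_involution (fun x _ => g x)
    · intro x _; rfl
    · intro x hx _
      rw [Set.mem_toFinset] at hx
      exact (hg x hx.2).2
    · intro x hx
      rw [Set.mem_toFinset] at hx ⊢
      refine ⟨?_, hg1 x hx.2⟩
      have h1 := hg x hx.2
      have hadj : K.Adj (g x) x := hK _ _ h1.2 h1.1
      have hx1 := hx.1
      rw [ConnectedComponent.mem_supp_iff] at hx1 ⊢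
      rw [← hx1]
      exact ConnectedComponent.sound hadj.reachable
    · intro x hx
      rw [Set.mem_toFinset] at hx
      exact hgg x hx.2
  rw [Finset.sum_const, nsmul_eq_mul, mul_one] at hsum
  rw [Set.ncard_eq_toFinset_card']
  exact (ZMod.natCast_eq_zero_iff_even).1 hsum

lemma odd_iff (hK : ∀ x y, x ≠ y → f x = f y → K.Adj x y)
    (h2 : ∀ x y z, f x = f y → f y = f z → x = y ∨ y = z ∨ x = z) (C : K.ConnectedComponent) :
    Odd C.supp.ncard ↔ Odd (C.supp ∩ Sg f).ncard := by
  have h1 := Set.ncard_inter_add_ncard_sdiff_eq_ncard C.supp (Sg f) (Set.toFinite _)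
  have h3 := even_compl hK h2 C
  rw [← h1, Nat.odd_add]
  exact ⟨fun h => h.2 h3, fun h => ⟨fun _ => h3, fun _ => h⟩⟩

/-- The counting lemma. -/
lemma exists_B (hK : ∀ x y, x ≠ y → f x = f y → K.Adj x y)
    (h2 : ∀ x y z, f x = f y → f y = f z → x = y ∨ y = z ∨ x = z)
    (hc : (Sg f).ncard ≤ K.oddComponents.ncard + 2) :
    K.oddComponents.ncard ≤ (Sg f).ncard ∧
    ∃ B ⊆ Sg f, B.ncard ≤ 3 ∧ (K.oddComponents.ncard = (Sg f).ncard → B = ∅) ∧
      ∀ x ∈ Sg f, ∀ y ∈ Sg f, x ≠ y → K.Reachable x y → x ∈ B ∧ y ∈ B := by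
  classical
  have hne : ∀ C : K.ConnectedComponent, ∃ x, C ∈ K.oddComponents → x ∈ C.supp ∩ Sg f := by
    intro C
    by_cases hC : C ∈ K.oddComponents
    · have hodd : Odd C.supp.ncard := hC
      rw [odd_iff hK h2] at hodd
      have : (C.supp ∩ Sg f).Nonempty := by
        rw [← Set.ncard_pos (Set.toFinite _)]
        exact hodd.pos
      obtain ⟨x, hx⟩ := this
      exact ⟨x, fun _ => hx⟩
    · obtain ⟨x, -⟩ := C.exists_rep
      exact ⟨x, fun h => absurd h hC⟩
  choose r hr using hne
  set R : Set Y := r '' K.oddComponents with hR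
  have hRS : R ⊆ Sg f := by
    rintro x ⟨C, hC, rfl⟩
    exact (hr C hC).2
  have hcomp : ∀ C ∈ K.oddComponents, K.connectedComponentMk (r C) = C := by
    intro C hC
    exact (ConnectedComponent.mem_supp_iff _ _).1 (hr C hC).1
  have hRcard : R.ncard = K.oddComponents.ncard := by
    apply Set.InjOn.ncard_image
    intro C hC D hD hCD
    rw [← hcomp C hC, ← hcomp D hD, hCD]
  have hle : K.oddComponents.ncard ≤ (Sg f).ncard := by
    rw [← hRcard]; exact Set.ncard_le_ncard hRS (Set.toFinite _)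
  -- representatives in the same component are equal
  have hRuniq : ∀ x ∈ R, ∀ y ∈ R, K.Reachable x y → x = y := by
    rintro x ⟨C, hC, rfl⟩ y ⟨D, hD, rfl⟩ h
    have h1 : K.connectedComponentMk (r C) = K.connectedComponentMk (r D) :=
      ConnectedComponent.sound h
    rw [hcomp C hC, hcomp D hD] at h1
    rw [h1]
  refine ⟨hle, {x | x ∈ Sg f ∧ ∃ y ∈ Sg f, y ≠ x ∧ K.Reachable x y}, fun x hx => hx.1, ?_, ?_,
    ?_⟩
  · set B : Set Y := {x | x ∈ Sg f ∧ ∃ y ∈ Sg f, y ≠ x ∧ K.Reachable x y} with hB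
    have hrest : (Sg f \ R).ncard ≤ 2 := by
      rw [Set.ncard_sdiff hRS (Set.toFinite _), hRcard]; omega
    -- at most one representative lies in B
    have hone : (B ∩ R).ncard ≤ 1 := by
      rw [Set.ncard_le_one_iff]
      have key : ∀ x ∈ B ∩ R, ∀ z ∈ Sg f \ R, K.Reachable x z := by
        rintro x ⟨⟨hxS, y, hyS, hyx, hxy⟩, hxR⟩ z hz
        obtain ⟨C, hC, hCx⟩ := hxR
        have hodd : Odd C.supp.ncard := hC
        rw [odd_iff hK h2] at hodd
        have hCx' : K.connectedComponentMk x = C := by rw [← hCx]; exact hcomp C hC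
        have hxC : x ∈ C.supp ∩ Sg f := ⟨(ConnectedComponent.mem_supp_iff _ _).2 hCx', hxS⟩
        have hyC : y ∈ C.supp ∩ Sg f := by
          refine ⟨(ConnectedComponent.mem_supp_iff _ _).2 ?_, hyS⟩
          rw [← hCx']
          exact (ConnectedComponent.sound hxy).symm
        -- C ∩ Sg has at least three elements
        have h3 : 3 ≤ (C.supp ∩ Sg f).ncard := by
          have h4 : 2 ≤ (C.supp ∩ Sg f).ncard := by
            rw [← Set.ncard_pair hyx.symm]
            apply Set.ncard_le_ncard _ (Set.toFinite _)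
            rintro w (rfl | rfl)
            · exact hxC
            · exact hyC
          rcases Nat.lt_or_ge (C.supp ∩ Sg f).ncard 3 with h5 | h5
          · have : (C.supp ∩ Sg f).ncard = 2 := by omega
            rw [this] at hodd
            exact absurd hodd (by decide)
          · exact h5
        have hCR : C.supp ∩ Sg f ∩ R ⊆ {x} := by
          rintro w ⟨⟨hw, -⟩, hwR⟩
          rw [Set.mem_singleton_iff]
          apply hRuniq w hwR x (by rw [← hCx]; exact ⟨C, hC, rfl⟩)
          rw [ConnectedComponent.mem_supp_iff] at hw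
          rw [← ConnectedComponent.eq, hw, hCx']
        have h6 : 2 ≤ ((C.supp ∩ Sg f) \ R).ncard := by
          have h7 := Set.ncard_inter_add_ncard_sdiff_eq_ncard (C.supp ∩ Sg f) R (Set.toFinite _)
          have h8 := Set.ncard_le_ncard hCR (Set.toFinite _)
          rw [Set.ncard_singleton] at h8
          omega
        have hsub : (C.supp ∩ Sg f) \ R ⊆ Sg f \ R := fun w hw => ⟨hw.1.2, hw.2⟩
        have heq : (C.supp ∩ Sg f) \ R = Sg f \ R :=
          Set.eq_of_subset_of_ncard_le hsub (by omega) (Set.toFinite _)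
        have hz' : z ∈ (C.supp ∩ Sg f) \ R := by rw [heq]; exact hz
        have hzC := hz'.1.1
        rw [ConnectedComponent.mem_supp_iff] at hzC
        rw [← ConnectedComponent.eq, hzC, hCx']
      intro x x' hx hx'
      obtain ⟨⟨hxS, y, hyS, hyx, hxy⟩, hxR⟩ := hx
      have hyR : y ∉ R := fun h => hyx (hRuniq y h x hxR hxy.symm)
      have h1 := key x' hx' y ⟨hyS, hyR⟩
      exact hRuniq x hxR x' hx'.2 (hxy.trans h1.symm)
    have hB2 : B ⊆ (B ∩ R) ∪ (Sg f \ R) := by
      intro x hx
      by_cases hxR : x ∈ R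
      · exact Or.inl ⟨hx, hxR⟩
      · exact Or.inr ⟨hx.1, hxR⟩
    calc B.ncard ≤ ((B ∩ R) ∪ (Sg f \ R)).ncard := Set.ncard_le_ncard hB2 (Set.toFinite _)
      _ ≤ (B ∩ R).ncard + (Sg f \ R).ncard := Set.ncard_union_le _ _
      _ ≤ 3 := by omega
  · intro heq
    have hRS' : R = Sg f := by
      apply Set.eq_of_subset_of_ncard_le hRS _ (Set.toFinite _)
      rw [hRcard, heq]
    rw [Set.eq_empty_iff_forall_notMem]
    rintro x ⟨hx, y, hy, hyx, hxy⟩
    rw [← hRS'] at hx hy
    exact hyx (hRuniq y hy x hx hxy.symm)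
  · intro x hx y hy hxy hr
    exact ⟨⟨hx, y, hy, hxy.symm, hr⟩, ⟨hy, x, hx, hxy, hr.symm⟩⟩

end Count

variable {V : Type*}

/-- Obstruction to two disjoint non-zero paths on the terminals `A` with potential `π`. -/
structure Obs (H : SimpleGraph V) (c : Sym2 V → ZMod 2) (π : V → ZMod 2) (A : Set V)
    (X A1 B : Set V) (ρ : V → ZMod 2) : Prop where
  X_le : X.ncard ≤ 1
  B_le : B.ncard ≤ 3
  B_empty : X.Nonempty → B = ∅
  disj : Disjoint X A1
  A_sub : A ⊆ A1 ∪ X
  B_sub : B ⊆ A1
  pot : ∀ a ∈ A, a ∈ A1 → ρ a = π a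
  edge : ∀ u ∈ A1, ∀ v ∈ A1, H.Adj u v → ¬ (u ∈ B ∧ v ∈ B) → c s(u, v) = ρ u + ρ v
  walk : ∀ u ∈ A1, ∀ v ∈ A1, u ≠ v → ∀ u' v', H.Adj u u' → H.Adj v v' →
    ∀ p : H.Walk u' v', (∀ x ∈ p.support, x ∉ A1 ∧ x ∉ X) → u ∈ B ∧ v ∈ B

/-- **Packing theorem** for two non-zero paths on four terminals. -/
theorem pack4 [Finite V] (H : SimpleGraph V) (c : Sym2 V → ZMod 2) (π : V → ZMod 2) (A : Set V)
    (hA : A.ncard = 4) :
    Two H c π A Aᶜ ∨ ∃ (X A1 B : Set V) (ρ : V → ZMod 2), Obs H c π A X A1 B ρ := by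
  classical
  have := Fintype.ofFinite V
  set PV : Set (V × ZMod 2) := Pres A π Aᶜ with hPV
  let G' : SimpleGraph PV := (MG H c).induce PV
  by_cases hM : ∃ M : G'.Subgraph, M.IsPerfectMatching
  · left
    obtain ⟨M, hM⟩ := hM
    rw [Subgraph.isPerfectMatching_iff] at hM
    have hσ : ∀ x : V × ZMod 2, ∃ y : V × ZMod 2, ∀ hx : x ∈ PV, ∃ hy : y ∈ PV,
        M.Adj ⟨x, hx⟩ ⟨y, hy⟩ := by
      intro x
      by_cases hx : x ∈ PV
      · obtain ⟨y, hy, -⟩ := hM ⟨x, hx⟩
        exact ⟨y.1, fun _ => ⟨y.2, hy⟩⟩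
      · exact ⟨x, fun h => absurd h hx⟩
    choose σ hσ using hσ
    apply two_of_matching H c _ A Aᶜ π σ rfl hA disjoint_compl_right
    intro x hx
    obtain ⟨hy, hadj⟩ := hσ x hx
    obtain ⟨hz, hadj'⟩ := hσ (σ x) hy
    refine ⟨hy, ?_, M.adj_sub hadj⟩
    obtain ⟨w, hw, huniq⟩ := hM ⟨σ x, hy⟩
    have e1 := huniq _ hadj'
    have e2 := huniq _ hadj.symm
    have := e1.trans e2.symm
    exact congrArg Subtype.val this
  · right
    have hviol : ∃ u, G'.IsTutteViolator u := by
      by_contra hcon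
      push Not at hcon
      exact hM (SimpleGraph.tutte.2 hcon)
    obtain ⟨u, hu⟩ := hviol
    let Yv : Set PV := ((⊤ : G'.Subgraph).deleteVerts u).verts
    let K : SimpleGraph Yv := ((⊤ : G'.Subgraph).deleteVerts u).coe
    have hu : u.ncard < K.oddComponents.ncard := hu
    have hYv : ∀ x : PV, x ∈ Yv ↔ x ∉ u := by
      intro x
      simp [Yv]
    let f : Yv → V := fun x => x.1.1.1
    have hKadj : ∀ x y : Yv, (MG H c).Adj x.1.1 y.1.1 → K.Adj x y := by
      intro x y h
      simp only [K, Subgraph.coe_adj, Subgraph.deleteVerts_adj]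
      exact ⟨trivial, (hYv _).1 x.2, trivial, (hYv _).1 y.2, h⟩
    have hK : ∀ x y : Yv, x ≠ y → f x = f y → K.Adj x y := by
      intro x y hne hxy
      apply hKadj
      right
      refine ⟨hxy, fun h => hne ?_⟩
      exact Subtype.ext (Subtype.ext (Prod.ext hxy h))
    have h2 : ∀ x y z : Yv, f x = f y → f y = f z → x = y ∨ y = z ∨ x = z := by
      intro x y z hxy hyz
      by_cases h1 : x.1.1.2 = y.1.1.2
      · left; exact Subtype.ext (Subtype.ext (Prod.ext hxy h1))
      by_cases h3 : y.1.1.2 = z.1.1.2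
      · right; left; exact Subtype.ext (Subtype.ext (Prod.ext hyz h3))
      right; right
      refine Subtype.ext (Subtype.ext (Prod.ext (hxy.trans hyz) ?_))
      rw [zmod2_ne h3, zmod2_ne h1]
      have : ∀ a : ZMod 2, a = a + 1 + 1 := by decide
      exact this _
    -- the missing copies
    have hMiss : (PVᶜ : Set (V × ZMod 2)).ncard = 4 := by
      have himg : (PVᶜ : Set (V × ZMod 2)) = (fun a => (a, π a + 1)) '' A := by
        ext ⟨v, i⟩
        simp only [Set.mem_compl_iff, hPV, Pres, Set.mem_ofPred_eq, not_or, not_not, not_and,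
          Set.mem_image, Prod.mk.injEq]
        constructor
        · rintro ⟨h1, h3⟩
          exact ⟨v, h1, rfl, (zmod2_ne (fun h => h3 h1 h.symm)).symm⟩
        · rintro ⟨a, ha, rfl, rfl⟩
          refine ⟨ha, fun _ h => ?_⟩
          have : ∀ i : ZMod 2, i + 1 ≠ i := by decide
          exact this _ h
      rw [himg, Set.ncard_image_of_injective _ (fun a b h => (Prod.ext_iff.1 h).1), hA]
    have hcardVZ : Nat.card (V × ZMod 2) = Nat.card V * 2 := by
      rw [Nat.card_prod]; simp
    have hPVcard : PV.ncard + 4 = Nat.card V * 2 := by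
      rw [← hMiss, Set.ncard_add_ncard_compl, hcardVZ]
    have hYcard : Nat.card Yv + u.ncard = PV.ncard := by
      have h1 : Yv = uᶜ := by ext x; rw [hYv]; rfl
      have h3 : Nat.card Yv = Yv.ncard := rfl
      rw [h3, h1, add_comm, Set.ncard_add_ncard_compl]
      rfl
    have hpar : K.oddComponents.ncard ≥ u.ncard + 2 := by
      have h1 : Odd K.oddComponents.ncard ↔ Odd (Nat.card Yv) := odd_ncard_oddComponents K
      rcases Nat.lt_or_ge K.oddComponents.ncard (u.ncard + 2) with h3 | h3
      · exfalso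
        have h4 : K.oddComponents.ncard = u.ncard + 1 := by omega
        rw [h4] at h1
        rcases Nat.even_or_odd u.ncard with h5 | h5
        · have h6 : Odd (u.ncard + 1) := h5.add_one
          have h7 := h1.1 h6
          obtain ⟨k, hk⟩ := h5
          obtain ⟨l, hl⟩ := h7
          omega
        · have h6 : ¬ Odd (u.ncard + 1) := by
            rw [Nat.not_odd_iff_even]; exact h5.add_one
          have h7 : ¬ Odd (Nat.card Yv) := fun h => h6 (h1.2 h)
          rw [Nat.not_odd_iff_even] at h7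
          obtain ⟨k, hk⟩ := h5
          obtain ⟨l, hl⟩ := h7
          omega
      · exact h3
    -- the sets
    let X : Set V := {v | ∀ x : Yv, f x ≠ v}
    have hineq : 2 * X.ncard + (Sg f).ncard ≤ u.ncard + 4 := by
      let T1 : Set (V × ZMod 2) := X ×ˢ (Set.univ : Set (ZMod 2))
      let T2 : Set (V × ZMod 2) := (fun x : Yv => ((f x, x.1.1.2 + 1) : V × ZMod 2)) '' Sg f
      have hT1 : T1.ncard = 2 * X.ncard := by
        have : T1.ncard = X.ncard * (Set.univ : Set (ZMod 2)).ncard := Set.ncard_prod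
        rw [this, Set.ncard_univ, Nat.card_eq_fintype_card, ZMod.card, mul_comm]
      have hT2 : T2.ncard = (Sg f).ncard := by
        apply Set.InjOn.ncard_image
        intro x hx y hy h
        exact (hy x (Prod.ext_iff.1 h).1)
      have hdisj : Disjoint T1 T2 := by
        rw [Set.disjoint_left]
        rintro w ⟨h1, -⟩ ⟨x, -, rfl⟩
        exact h1 x rfl
      have hsub : T1 ∪ T2 ⊆ (Subtype.val '' u) ∪ PVᶜ := by
        rintro w (h1 | h1)
        · by_cases hw : w ∈ PV
          · left
            by_contra hcon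
            have hwu : (⟨w, hw⟩ : PV) ∉ u := fun h => hcon ⟨_, h, rfl⟩
            exact h1.1 ⟨⟨w, hw⟩, (hYv _).2 hwu⟩ rfl
          · right; exact hw
        · obtain ⟨x, hx, rfl⟩ := h1
          by_cases hw : ((f x, x.1.1.2 + 1) : V × ZMod 2) ∈ PV
          · left
            by_contra hcon
            have hwu : (⟨_, hw⟩ : PV) ∉ u := fun h => hcon ⟨_, h, rfl⟩
            have h3 := hx ⟨⟨_, hw⟩, (hYv _).2 hwu⟩ rfl
            have h4 := congrArg (fun z : Yv => z.1.1.2) h3
            simp only at h4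
            have : ∀ i : ZMod 2, i + 1 ≠ i := by decide
            exact this _ h4
          · right; exact hw
      calc 2 * X.ncard + (Sg f).ncard = (T1 ∪ T2).ncard := by
            rw [Set.ncard_union_eq hdisj (Set.toFinite _) (Set.toFinite _), hT1, hT2]
        _ ≤ ((Subtype.val '' u) ∪ PVᶜ).ncard := Set.ncard_le_ncard hsub (Set.toFinite _)
        _ ≤ (Subtype.val '' u : Set (V × ZMod 2)).ncard + (PVᶜ).ncard := Set.ncard_union_le _ _
        _ = u.ncard + 4 := by
            rw [hMiss, Set.ncard_image_of_injective _ Subtype.val_injective]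
    obtain ⟨hle, B, hBS, hB3, hB0, hB⟩ := exists_B (K := K) (f := f) hK h2 (by omega)
    let A1 : Set V := f '' Sg f
    have hρ : ∀ v : V, ∃ i : ZMod 2, ∀ x ∈ Sg f, f x = v → x.1.1.2 = i := by
      intro v
      by_cases h : ∃ x ∈ Sg f, f x = v
      · obtain ⟨x, hx, hxv⟩ := h
        refine ⟨x.1.1.2, ?_⟩
        intro y hy hyv
        have := hx y (hyv.trans hxv.symm)
        rw [this]
      · exact ⟨0, fun x hx hxv => absurd ⟨x, hx, hxv⟩ h⟩
    choose ρ hρ using hρ
    have hX1 : X.ncard ≤ 1 := by omega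
    refine ⟨X, A1, f '' B, ρ, ?_⟩
    -- vertices outside A1 ∪ X have both copies
    have hboth : ∀ w, w ∉ A1 → w ∉ X → ∀ i : ZMod 2, ∃ x : Yv, x.1.1 = (w, i) := by
      intro w hw1 hw2 i
      simp only [X, Set.mem_ofPred_eq, not_forall, not_not] at hw2
      obtain ⟨x, hx⟩ := hw2
      have hxS : x ∉ Sg f := fun h => hw1 ⟨x, h, hx⟩
      simp only [Sg, Set.mem_ofPred_eq, not_forall] at hxS
      obtain ⟨y, hy, hyx⟩ := hxS
      have hne : x.1.1.2 ≠ y.1.1.2 := by
        intro h
        exact hyx (Subtype.ext (Subtype.ext (Prod.ext hy h.symm)))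
      by_cases h : x.1.1.2 = i
      · exact ⟨x, Prod.ext hx h⟩
      · refine ⟨y, Prod.ext (hy.trans hx) ?_⟩
        rw [zmod2_ne hne, zmod2_ne h]
    have hstep : ∀ (x : Yv) (w : V), H.Adj (f x) w → w ∉ A1 → w ∉ X →
        ∀ z : Yv, f z = w → K.Reachable x z := by
      intro x w hxw hw1 hw2 z hz
      obtain ⟨y, hy⟩ := hboth w hw1 hw2 (1 + c s(f x, w) + x.1.1.2)
      have h1 : K.Adj x y := by
        apply hKadj
        left
        rw [hy]
        refine ⟨hxw, ?_⟩
        simp only [f]
        have : ∀ a b : ZMod 2, a + (1 + b + a) = 1 + b := by decide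
        exact this _ _
      by_cases hyz : y = z
      · rw [← hyz]; exact h1.reachable
      · have h3 : K.Adj y z := hK y z hyz (by
          change y.1.1.1 = z.1.1.1
          rw [hy]; exact hz.symm)
        exact h1.reachable.trans h3.reachable
    refine ⟨hX1, ?_, ?_, ?_, ?_, ?_, ?_, ?_, ?_⟩
    · exact le_trans (Set.ncard_image_le (Set.toFinite _)) hB3
    · intro hXne
      have h1 : 1 ≤ X.ncard := by
        rw [Nat.one_le_iff_ne_zero]
        intro h
        rw [Set.ncard_eq_zero (Set.toFinite _)] at h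
        rw [h] at hXne
        exact Set.not_nonempty_empty hXne
      rw [hB0 (by omega), Set.image_empty]
    · rw [Set.disjoint_left]
      rintro v hv ⟨x, -, hx⟩
      exact hv x hx
    · intro a ha
      by_cases haX : a ∈ X
      · exact Or.inr haX
      · left
        simp only [X, Set.mem_ofPred_eq, not_forall, not_not] at haX
        obtain ⟨x, hx⟩ := haX
        refine ⟨x, ?_, hx⟩
        intro y hy
        have key : ∀ z : Yv, f z = a → z.1.1.2 = π a := by
          intro z hz
          rcases z.1.2 with h | ⟨-, h⟩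
          · exact absurd ha (by change z.1.1.1 = a at hz; rw [← hz]; exact h)
          · rw [h]; congr 1
        exact Subtype.ext (Subtype.ext (Prod.ext hy ((key y (hy.trans hx)).trans (key x hx).symm)))
    · exact Set.image_mono hBS
    · rintro a ha ⟨x, hx, hxa⟩
      rw [← hρ a x hx hxa]
      rcases x.1.2 with h | ⟨-, h⟩
      · exact absurd ha (by change x.1.1.1 = a at hxa; rw [← hxa]; exact h)
      · rw [h]; change π (f x) = π a; rw [hxa]
    · rintro v ⟨x, hx, rfl⟩ w ⟨y, hy, rfl⟩ hvw hnB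
      by_contra hne
      have hxy : x ≠ y := fun h => hvw.ne (by rw [h])
      have hadj : K.Adj x y := by
        apply hKadj
        left
        refine ⟨hvw, ?_⟩
        rw [hρ _ x hx rfl, hρ _ y hy rfl]
        have : ∀ a b d : ZMod 2, d ≠ a + b → a + b = 1 + d := by decide
        exact this _ _ _ hne
      have := hB x hx y hy hxy hadj.reachable
      exact hnB ⟨⟨x, this.1, rfl⟩, ⟨y, this.2, rfl⟩⟩
    · rintro v ⟨x, hx, rfl⟩ w ⟨y, hy, rfl⟩ hvw v' w' hv' hw' p hp
      have hxy : x ≠ y := fun h => hvw (by rw [h])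
      have hwalk : ∀ {s t : V} (q : H.Walk s t), (∀ z ∈ q.support, z ∉ A1 ∧ z ∉ X) →
          ∀ zs zt : Yv, f zs = s → f zt = t → K.Reachable zs zt := by
        intro s t q
        induction q with
        | nil =>
          intro _ zs zt hzs hzt
          by_cases h : zs = zt
          · rw [h]
          · exact (hK zs zt h (hzs.trans hzt.symm)).reachable
        | @cons s m t hsm q ih =>
          intro hq zs zt hzs hzt
          have hm := hq m (by simp)
          obtain ⟨zm, hzm⟩ := hboth m hm.1 hm.2 0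
          have h1 : K.Reachable zs zm :=
            hstep zs m (by rw [hzs]; exact hsm) hm.1 hm.2 zm (by change zm.1.1.1 = m; rw [hzm])
          exact h1.trans (ih (fun z hz => hq z (by simp [hz])) zm zt
            (by change zm.1.1.1 = m; rw [hzm]) hzt)
      have hv1 := hp v' p.start_mem_support
      have hw1 := hp w' p.end_mem_support
      obtain ⟨zv, hzv⟩ := hboth v' hv1.1 hv1.2 0
      obtain ⟨zw, hzw⟩ := hboth w' hw1.1 hw1.2 0
      have r1 : K.Reachable x zv := hstep x v' hv' hv1.1 hv1.2 zv (by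
        change zv.1.1.1 = v'; rw [hzv])
      have r2 : K.Reachable y zw := hstep y w' hw' hw1.1 hw1.2 zw (by
        change zw.1.1.1 = w'; rw [hzw])
      have r3 : K.Reachable zv zw := hwalk p hp zv zw (by
        change zv.1.1.1 = v'; rw [hzv]) (by change zw.1.1.1 = w'; rw [hzw])
      have := hB x hx y hy hxy (r1.trans (r3.trans r2.symm))
      exact ⟨⟨x, this.1, rfl⟩, ⟨y, this.2, rfl⟩⟩

end Pool.Agent.Helper82.TK
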