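import Pool.Agent.Helper57.TOK.Menger
import Pool.Agent.Helper57.TOK.Sub

/-!
# Fans, trimmed linkages and set forms of Menger's theorem

On top of `Helper57/TOK/Menger.lean`.

* `Linked.trim`: a linkage whose paths meet `A` only in the start and `B` only in the end.
* `Linked.enum`: if `A` is enumerated by `Fin k`, the linkage starts in the given order.
* `Fan G w B k`: `k` paths from `w` to `B` which share only `w` and meet `B` only in their ends.
* `fan_of_not_sep`: Menger for fans.
* `fan_or_set`, `fan_of_Nb`: set form.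
* `linked_of_Nb`: linkage from `Nb Y` to `T` outside `Y`.
-/

set_option autoImplicit false

namespace Pool.Agent.Helper82.TK

open SimpleGraph Pool.Agent.Helper57.TOK

variable {V : Type*}

/-- The graph with all edges at `Y` deleted. -/
def delG (G : SimpleGraph V) (Y : Set V) : SimpleGraph V where
  Adj x y := G.Adj x y ∧ x ∉ Y ∧ y ∉ Y
  symm := ⟨fun _ _ h => ⟨h.1.symm, h.2.2, h.2.1⟩⟩
  loopless := ⟨fun _ h => h.1.ne rfl⟩

lemma delG_adj {G : SimpleGraph V} {Y : Set V} {x y : V} :
    (delG G Y).Adj x y ↔ G.Adj x y ∧ x ∉ Y ∧ y ∉ Y := Iff.rfl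

lemma delG_le (G : SimpleGraph V) (Y : Set V) : delG G Y ≤ G := fun _ _ h => h.1

/-- a walk of `delG G Y` starting outside `Y` avoids `Y` -/
lemma notMem_of_mem_support_delG {G : SimpleGraph V} {Y : Set V} {u v : V}
    (p : (delG G Y).Walk u v) (hu : u ∉ Y) : ∀ x ∈ p.support, x ∉ Y := by
  induction p with
  | nil =>
    intro x hx
    simp only [Walk.support_nil, List.mem_cons, List.not_mem_nil, or_false] at hx
    rwa [hx]
  | cons h q ih =>
    intro x hx
    rw [Walk.support_cons, List.mem_cons] at hx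
    rcases hx with rfl | hx
    · exact hu
    · exact ih h.2.2 x hx

/-- a walk of `G` avoiding `Y` is a walk of `delG G Y` -/
lemma exists_walk_delG {G : SimpleGraph V} {Y : Set V} {u v : V}
    (p : G.Walk u v) (hp : ∀ x ∈ p.support, x ∉ Y) :
    ∃ q : (delG G Y).Walk u v, q.support = p.support := by
  induction p with
  | nil => exact ⟨Walk.nil, rfl⟩
  | @cons u w v h q ih =>
    obtain ⟨q', hq'⟩ := ih (fun x hx => hp x (by simp [hx]))
    have hu : u ∉ Y := hp u (by simp)
    have hw : w ∉ Y := hp w (by simp)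
    exact ⟨Walk.cons ⟨h, hu, hw⟩ q', by rw [Walk.support_cons, Walk.support_cons, hq']⟩

/-- Inside every `A`-`B` path there is one which meets `A` only in its start and `B` only
in its end. -/
lemma exists_trim {G : SimpleGraph V} {A B : Set V} {a b : V} (p : G.Walk a b)
    (ha : a ∈ A) (hb : b ∈ B) (hp : p.IsPath) :
    ∃ (a' b' : V) (q : G.Walk a' b'), a' ∈ A ∧ b' ∈ B ∧ q.IsPath ∧
      (∀ x ∈ q.support, x ∈ p.support) ∧ (∀ x ∈ q.support, x ∈ A → x = a') ∧
      (∀ x ∈ q.support, x ∈ B → x = b') := by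
  classical
  have hex : ∃ n : ℕ, ∃ (a' b' : V) (q : G.Walk a' b'), a' ∈ A ∧ b' ∈ B ∧ q.IsPath ∧
      (∀ x ∈ q.support, x ∈ p.support) ∧ q.length = n :=
    ⟨p.length, a, b, p, ha, hb, hp, fun x hx => hx, rfl⟩
  obtain ⟨a', b', q, ha', hb', hq, hsub, hlen⟩ := Nat.find_spec hex
  refine ⟨a', b', q, ha', hb', hq, hsub, ?_, ?_⟩
  · intro x hx hxA
    by_contra hne
    have hlt : (q.dropUntil x hx).length < Nat.find hex := by
      rw [← hlen]
      have h1 := congrArg Walk.length (q.take_spec hx)
      rw [Walk.length_append] at h1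
      have h2 : 0 < (q.takeUntil x hx).length := by
        rw [Nat.pos_iff_ne_zero]
        intro h0
        exact hne (Walk.eq_of_length_eq_zero h0).symm
      omega
    exact Nat.find_min hex hlt ⟨x, b', q.dropUntil x hx, hxA, hb', hq.dropUntil hx,
      fun z hz => hsub z (Walk.support_dropUntil_subset_support _ _ hz), rfl⟩
  · intro x hx hxB
    by_contra hne
    have hlt : (q.takeUntil x hx).length < Nat.find hex := by
      rw [← hlen]
      have h1 := congrArg Walk.length (q.take_spec hx)
      rw [Walk.length_append] at h1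
      have h2 : 0 < (q.dropUntil x hx).length := by
        rw [Nat.pos_iff_ne_zero]
        intro h0
        exact hne (Walk.eq_of_length_eq_zero h0)
      omega
    exact Nat.find_min hex hlt ⟨a', x, q.takeUntil x hx, ha', hxB, hq.takeUntil hx,
      fun z hz => hsub z (Walk.support_takeUntil_subset_support _ _ hz), rfl⟩

/-- Trimmed linkages. -/
theorem Linked.trim {G : SimpleGraph V} {A B : Set V} {k : ℕ} (h : Linked G A B k) :
    ∃ (a b : Fin k → V) (P : ∀ i, G.Walk (a i) (b i)),
      (∀ i, a i ∈ A ∧ b i ∈ B ∧ (P i).IsPath) ∧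
      (∀ i, ∀ x ∈ (P i).support, x ∈ A → x = a i) ∧
      (∀ i, ∀ x ∈ (P i).support, x ∈ B → x = b i) ∧
      ∀ i j, i ≠ j → ∀ x, x ∈ (P i).support → x ∉ (P j).support := by
  obtain ⟨a, b, P, h1, h2⟩ := h
  choose a' b' Q ha' hb' hQ hsub hA hB using
    fun i => exists_trim (P i) (h1 i).1 (h1 i).2.1 (h1 i).2.2
  exact ⟨a', b', Q, fun i => ⟨ha' i, hb' i, hQ i⟩, hA, hB,
    fun i j hij x hx hx' => h2 i j hij x (hsub i x hx) (hsub j x hx')⟩

/-- The starts (and ends) of a linkage are distinct. -/
lemma injective_start {G : SimpleGraph V} {k : ℕ} {a b : Fin k → V} {P : ∀ i, G.Walk (a i) (b i)}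
    (hd : ∀ i j, i ≠ j → ∀ x, x ∈ (P i).support → x ∉ (P j).support) :
    Function.Injective a := by
  intro i j hij
  by_contra hne
  refine hd i j hne (a i) (P i).start_mem_support ?_
  rw [hij]; exact (P j).start_mem_support

lemma injective_end {G : SimpleGraph V} {k : ℕ} {a b : Fin k → V} {P : ∀ i, G.Walk (a i) (b i)}
    (hd : ∀ i j, i ≠ j → ∀ x, x ∈ (P i).support → x ∉ (P j).support) :
    Function.Injective b := by
  intro i j hij
  by_contra hne
  refine hd i j hne (b i) (P i).end_mem_support ?_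
  rw [hij]; exact (P j).end_mem_support

/-- If `A` is the range of an injective `n : Fin k → V`, a linkage of size `k` from `A` to `B`
can be indexed by `n`. -/
theorem Linked.enum {G : SimpleGraph V} {B : Set V} {k : ℕ} {n : Fin k → V}
    (hn : Function.Injective n) (h : Linked G (Set.range n) B k) :
    ∃ (b : Fin k → V) (P : ∀ i, G.Walk (n i) (b i)),
      (∀ i, b i ∈ B ∧ (P i).IsPath) ∧
      (∀ i, ∀ x ∈ (P i).support, x ∈ Set.range n → x = n i) ∧
      (∀ i, ∀ x ∈ (P i).support, x ∈ B → x = b i) ∧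
      ∀ i j, i ≠ j → ∀ x, x ∈ (P i).support → x ∉ (P j).support := by
  classical
  obtain ⟨a, b, P, h1, hA, hB, h2⟩ := Linked.trim h
  choose σ hσ using fun i => (h1 i).1
  have hainj := injective_start h2
  have hσinj : Function.Injective σ := by
    intro i j hij
    apply hainj
    rw [← hσ i, ← hσ j, hij]
  have hσbij : Function.Bijective σ := Finite.injective_iff_bijective.1 hσinj
  let e := Equiv.ofBijective σ hσbij
  have he : ∀ i, a (e.symm i) = n i := by
    intro i
    rw [← hσ (e.symm i)]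
    exact congrArg n (e.apply_symm_apply i)
  refine ⟨fun i => b (e.symm i), fun i => (P (e.symm i)).copy (he i) rfl, ?_, ?_, ?_, ?_⟩
  · intro i
    refine ⟨(h1 _).2.1, ?_⟩
    rw [Walk.isPath_copy]; exact (h1 _).2.2
  · intro i x hx hxn
    rw [Walk.support_copy] at hx
    rw [hA _ x hx hxn, he]
  · intro i x hx hxB
    rw [Walk.support_copy] at hx
    exact hB _ x hx hxB
  · intro i j hij x hx
    rw [Walk.support_copy] at hx ⊢
    exact h2 _ _ (fun h => hij (e.symm.injective h)) x hx

/-- `k` paths from `w` to `B` which share only `w` and meet `B` only in their ends. -/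
def Fan (G : SimpleGraph V) (w : V) (B : Set V) (k : ℕ) : Prop :=
  ∃ (b : Fin k → V) (P : ∀ i, G.Walk w (b i)),
    (∀ i, b i ∈ B ∧ (P i).IsPath) ∧
    (∀ i, ∀ x ∈ (P i).support, x ∈ B → x = b i) ∧
    ∀ i j, i ≠ j → ∀ x, x ∈ (P i).support → x ∈ (P j).support → x = w

lemma Fan.mono {G H : SimpleGraph V} {w : V} {B : Set V} {k : ℕ} (hle : G ≤ H)
    (h : Fan G w B k) : Fan H w B k := by
  obtain ⟨b, P, h1, h2, h3⟩ := h
  refine ⟨b, fun i => (P i).mapLe hle, fun i => ⟨(h1 i).1, (Walk.isPath_mapLe hle).2 (h1 i).2⟩,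
    ?_, ?_⟩
  · intro i x hx hxB
    rw [Walk.support_mapLe_eq_support] at hx
    exact h2 i x hx hxB
  · intro i j hij x hx hx'
    rw [Walk.support_mapLe_eq_support] at hx hx'
    exact h3 i j hij x hx hx'

/-- A fan with fewer paths. -/
lemma Fan.le {G : SimpleGraph V} {w : V} {B : Set V} {k l : ℕ} (hlk : l ≤ k)
    (h : Fan G w B k) : Fan G w B l := by
  obtain ⟨b, P, h1, h2, h3⟩ := h
  exact ⟨fun i => b (Fin.castLE hlk i), fun i => P (Fin.castLE hlk i), fun i => h1 _,
    fun i => h2 _, fun i j hij => h3 _ _ (fun h => hij (Fin.castLE_injective hlk h))⟩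

/-- Menger for fans. -/
theorem fan_of_not_sep [Finite V] {G : SimpleGraph V} {w : V} {B : Set V} {k : ℕ} (hw : w ∉ B)
    (h : ∀ S : Finset V, w ∉ S → S.card < k → ¬ Sep G {w} B S) : Fan G w B k := by
  classical
  have hlink : Linked (delG G {w}) (G.neighborSet w) B k := by
    apply menger
    intro S hS hsep
    apply h (S.erase w) (Finset.notMem_erase w S)
      (lt_of_le_of_lt (Finset.card_le_card (Finset.erase_subset _ _)) hS)
    intro a ha b hb p
    rw [Set.mem_singleton_iff] at ha
    subst ha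
    have hpath : p.bypass.IsPath := Walk.bypass_isPath p
    have hsubs : ∀ z ∈ p.bypass.support, z ∈ p.support :=
      fun z hz => Walk.support_bypass_subset_support p hz
    generalize p.bypass = q at hpath hsubs
    cases q with
    | nil => exact absurd hb hw
    | @cons _ u _ hadj q =>
      rw [Walk.cons_isPath_iff] at hpath
      have hav : ∀ x ∈ q.support, x ∉ ({a} : Set V) := by
        intro x hx hxa
        rw [Set.mem_singleton_iff] at hxa
        exact hpath.2 (hxa ▸ hx)
      obtain ⟨q', hq'⟩ := exists_walk_delG q hav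
      obtain ⟨z, hz, hzS⟩ := hsep u hadj b hb q'
      rw [hq'] at hz
      refine ⟨z, hsubs z (by simp [hz]), ?_⟩
      rw [Finset.coe_erase]
      exact ⟨hzS, hav z hz⟩
  obtain ⟨a, b, P, h1, hA, hB, h2⟩ := Linked.trim hlink
  have havoid : ∀ i, ∀ x ∈ (P i).support, x ≠ w := by
    intro i x hx hxw
    refine notMem_of_mem_support_delG (P i) ?_ x hx hxw
    intro hh
    have h3 : G.Adj w (a i) := (h1 i).1
    rw [Set.mem_singleton_iff] at hh
    exact h3.ne hh.symm
  refine ⟨b, fun i => Walk.cons (h1 i).1 ((P i).mapLe (delG_le G {w})), ?_, ?_, ?_⟩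
  · intro i
    refine ⟨(h1 i).2.1, ?_⟩
    rw [Walk.cons_isPath_iff, Walk.isPath_mapLe, Walk.support_mapLe_eq_support]
    exact ⟨(h1 i).2.2, fun hh => havoid i w hh rfl⟩
  · intro i x hx hxB
    rw [Walk.support_cons, List.mem_cons, Walk.support_mapLe_eq_support] at hx
    rcases hx with rfl | hx
    · exact absurd hxB hw
    · exact hB i x hx hxB
  · intro i j hij x hx hx'
    rw [Walk.support_cons, List.mem_cons, Walk.support_mapLe_eq_support] at hx hx'
    rcases hx with hx | hx
    · exact hx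
    · rcases hx' with hx' | hx'
      · exact hx'
      · exact absurd hx' (h2 i j hij x hx)

/-- The ends of a fan from a vertex outside `B` are distinct. -/
lemma Fan.injective_end {G : SimpleGraph V} {w : V} {B : Set V} {k : ℕ} (hw : w ∉ B)
    {b : Fin k → V} {P : ∀ i, G.Walk w (b i)} (hb : ∀ i, b i ∈ B)
    (hd : ∀ i j, i ≠ j → ∀ x, x ∈ (P i).support → x ∈ (P j).support → x = w) :
    Function.Injective b := by
  intro i j hij
  by_contra hne
  have := hd i j hne (b i) (P i).end_mem_support (by rw [hij]; exact (P j).end_mem_support)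
  exact hw (this ▸ hb i)

/-- Set form: no `k`-fan from `w` to `B` gives a connected set `Y` around `w`, disjoint from `B`,
with fewer than `k` neighbours. -/
theorem fan_or_set [Finite V] {G : SimpleGraph V} {w : V} {B : Set V} {k : ℕ} (hw : w ∉ B) :
    Fan G w B k ∨ ∃ Y : Set V, w ∈ Y ∧ Disjoint Y B ∧ (Nb G Y).ncard < k ∧
      ∀ y ∈ Y, ∃ p : G.Walk w y, ∀ z ∈ p.support, z ∈ Y := by
  classical
  by_cases h : ∀ S : Finset V, w ∉ S → S.card < k → ¬ Sep G {w} B S
  · exact Or.inl (fan_of_not_sep hw h)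
  · right
    push Not at h
    obtain ⟨S, hwS, hS, hsep⟩ := h
    have hwS' : w ∉ (S : Set V) := by simpa using hwS
    refine ⟨Reach G {w} (S : Set V), reach_of_mem rfl hwS', ?_, ?_, ?_⟩
    · rw [Set.disjoint_left]
      intro z hz hzB
      rw [sep_iff_reach] at hsep
      exact hsep z hz (reach_of_mem hzB (not_mem_of_reach hz))
    · refine lt_of_le_of_lt ?_ hS
      rw [← Set.ncard_coe_finset]
      apply Set.ncard_le_ncard _ (Set.toFinite _)
      rintro v ⟨hv, u, hu, huv⟩
      by_contra hvS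
      exact hv (reach_adj hu huv hvS)
    · rintro y ⟨a, ha, p, hp⟩
      rw [Set.mem_singleton_iff] at ha
      subst ha
      refine ⟨p, ?_⟩
      intro z hz
      exact ⟨a, rfl, p.takeUntil z hz,
        fun x hx => hp x (Walk.support_takeUntil_subset_support _ _ hx)⟩

/-- If every (connected) set around `w` disjoint from `B` has at least `k` neighbours, there is a
`k`-fan from `w` to `B`. -/
theorem fan_of_Nb [Finite V] {G : SimpleGraph V} {w : V} {B : Set V} {k : ℕ} (hw : w ∉ B)
    (h : ∀ Y : Set V, w ∈ Y → Disjoint Y B →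
      (∀ y ∈ Y, ∃ p : G.Walk w y, ∀ z ∈ p.support, z ∈ Y) → k ≤ (Nb G Y).ncard) :
    Fan G w B k := by
  rcases fan_or_set (G := G) (k := k) hw with h1 | ⟨Y, h1, h2, h3, h4⟩
  · exact h1
  · exact absurd (h Y h1 h2 h4) (not_le.2 h3)

/-- Linkage from `Nb G Y` to `T` outside `Y`: if every `Y' ⊇ Y` disjoint from `T` has at least `k`
neighbours then there are `k` disjoint paths from `Nb G Y` to `T` which avoid `Y`. -/
theorem linked_of_Nb [Finite V] {G : SimpleGraph V} {Y T : Set V} {k : ℕ}
    (hYT : Disjoint Y T)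
    (h : ∀ Y' : Set V, Y ⊆ Y' → Disjoint Y' T → k ≤ (Nb G Y').ncard) :
    Linked (delG G Y) (Nb G Y) T k := by
  classical
  apply menger
  intro S hS hsep
  set R := Reach (delG G Y) (Nb G Y) (S : Set V) with hR
  have hRY : ∀ z ∈ R, z ∉ Y := by
    rintro z ⟨a, ha, p, -⟩
    exact notMem_of_mem_support_delG p ha.1 z p.end_mem_support
  have hdis : Disjoint (Y ∪ R) T := by
    rw [Set.disjoint_union_left]
    refine ⟨hYT, ?_⟩
    rw [Set.disjoint_left]
    intro z hz hzT
    rw [sep_iff_reach] at hsep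
    exact hsep z hz (reach_of_mem hzT (not_mem_of_reach hz))
  have hle := h (Y ∪ R) Set.subset_union_left hdis
  have hsub : Nb G (Y ∪ R) ⊆ (S : Set V) := by
    rintro v ⟨hv, u, hu, huv⟩
    by_contra hvS
    have hvY : v ∉ Y := fun hh => hv (Or.inl hh)
    apply hv
    right
    rcases hu with hu | hu
    · exact reach_of_mem ⟨hvY, u, hu, huv⟩ hvS
    · exact reach_adj hu ⟨huv, hRY u hu, hvY⟩ hvS
  have := Set.ncard_le_ncard hsub (Set.toFinite _)
  rw [Set.ncard_coe_finset] at this
  omega

/-- The same with an enumeration `n` of `Nb G Y`, `|Nb G Y| = k`: disjoint paths of `G`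
from `n i` to `T`, avoiding `Y`, meeting `Nb G Y` only in the start and `T` only in the end. -/
theorem linkage_of_Nb [Finite V] {G : SimpleGraph V} {Y T : Set V} {k : ℕ} {n : Fin k → V}
    (hn : Function.Injective n) (hY : Nb G Y = Set.range n)
    (hYT : Disjoint Y T)
    (h : ∀ Y' : Set V, Y ⊆ Y' → Disjoint Y' T → k ≤ (Nb G Y').ncard) :
    ∃ (t : Fin k → V) (P : ∀ i, G.Walk (n i) (t i)),
      (∀ i, t i ∈ T ∧ (P i).IsPath) ∧
      (∀ i, ∀ x ∈ (P i).support, x ∉ Y) ∧
      (∀ i, ∀ x ∈ (P i).support, x ∈ Nb G Y → x = n i) ∧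
      (∀ i, ∀ x ∈ (P i).support, x ∈ T → x = t i) ∧
      ∀ i j, i ≠ j → ∀ x, x ∈ (P i).support → x ∉ (P j).support := by
  have hl := linked_of_Nb hYT h
  rw [hY] at hl
  obtain ⟨t, P, h1, h2, h3, h4⟩ := Linked.enum hn hl
  refine ⟨t, fun i => (P i).mapLe (delG_le G Y), ?_, ?_, ?_, ?_, ?_⟩
  · exact fun i => ⟨(h1 i).1, (Walk.isPath_mapLe _).2 (h1 i).2⟩
  · intro i x hx
    rw [Walk.support_mapLe_eq_support] at hx
    refine notMem_of_mem_support_delG (P i) ?_ x hx
    have : n i ∈ Nb G Y := by rw [hY]; exact ⟨i, rfl⟩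
    exact this.1
  · intro i x hx hxn
    rw [Walk.support_mapLe_eq_support] at hx
    rw [hY] at hxn
    exact h2 i x hx hxn
  · intro i x hx hxT
    rw [Walk.support_mapLe_eq_support] at hx
    exact h3 i x hx hxT
  · intro i j hij x hx
    rw [Walk.support_mapLe_eq_support] at hx ⊢
    exact h4 i j hij x hx

/-- Cardinality form of the enumeration: any set with `k` elements is the range of an injective
`Fin k → V`. -/
lemma exists_enum [Finite V] {S : Set V} {k : ℕ} (h : S.ncard = k) :
    ∃ n : Fin k → V, Function.Injective n ∧ Set.range n = S := by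
  classical
  have := Fintype.ofFinite V
  have hc : S.toFinset.card = k := by rw [← h, Set.ncard_eq_toFinset_card']
  let e := (S.toFinset.equivFinOfCardEq hc).symm
  refine ⟨fun i => (e i : V), ?_, ?_⟩
  · intro i j hij
    exact e.injective (Subtype.ext hij)
  · ext x
    constructor
    · rintro ⟨i, rfl⟩
      exact Set.mem_toFinset.1 (e i).2
    · intro hx
      refine ⟨e.symm ⟨x, Set.mem_toFinset.2 hx⟩, ?_⟩
      simp

end Pool.Agent.Helper82.TK
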