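import Pool.Agent.Helper57.TOK.Merge

/-!
# Projecting a TOK4 along a map which contracts edges of weight zero

`IsTOK F C v P`: the data of a subdivided `K4` all of whose six paths have weight one.
`IsTOK.project`: if any two vertices with the same image are joined by an edge (of weight zero)
which is used by the subdivision, the image is again such a subdivision.
`IsTOK.two_virt`: if all but two edges are consistent with a potential, the two inconsistent edges
are used on opposite paths.
-/

set_option autoImplicit false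

namespace Pool.Agent.Helper82.TK

open SimpleGraph Pool.Agent.Helper57.TOK

variable {V W : Type*}

/-- A path from `x` to `y` which contains the edge `xy` is this edge. -/
lemma wt_of_edge_mem {G : SimpleGraph V} (c : Sym2 V → ZMod 2) {x y : V} (p : G.Walk x y)
    (hp : p.IsPath) (hxy : s(x, y) ∈ p.edges) : wt c p = c s(x, y) := by
  cases p with
  | nil => simp at hxy
  | @cons _ w _ h q =>
    rw [Walk.cons_isPath_iff] at hp
    rw [Walk.edges_cons, List.mem_cons] at hxy
    rcases hxy with h1 | h1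
    · have hw : y = w := by rwa [Sym2.congr_right] at h1
      subst hw
      have hq : q = Walk.nil := (Walk.isPath_iff_nil.1 hp.1).eq_nil
      rw [hq]; simp
    · exact absurd (Walk.fst_mem_support_of_mem_edges _ h1) hp.2

/-- Projection of a walk. -/
lemma exists_projW {F : SimpleGraph W} {C : Sym2 W → ZMod 2} {G : SimpleGraph V}
    {c : Sym2 V → ZMod 2} (π : W → V)
    (hF : ∀ x y, F.Adj x y → (G.Adj (π x) (π y) ∧ C s(x, y) = c s(π x, π y)) ∨
      (π x = π y ∧ C s(x, y) = 0)) {x y : W} (p : F.Walk x y) :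
    ∃ q : G.Walk (π x) (π y), wt c q = wt C p ∧
      (∀ z ∈ q.support, ∃ w ∈ p.support, π w = z) ∧
      (p.IsPath → (∀ w ∈ p.support, ∀ w' ∈ p.support, w ≠ w' → π w = π w' → s(w, w') ∈ p.edges) →
        q.IsPath) := by
  induction p with
  | @nil u =>
    refine ⟨Walk.nil, by simp, ?_, fun _ _ => Walk.IsPath.nil⟩
    intro z hz
    simp only [Walk.support_nil, List.mem_singleton] at hz
    exact ⟨u, by simp, hz.symm⟩
  | @cons a b d hadj p ih =>
    obtain ⟨q, hq1, hq2, hq3⟩ := ih
    have hsub : (Walk.cons hadj p).IsPath →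
        (∀ w ∈ (Walk.cons hadj p).support, ∀ w' ∈ (Walk.cons hadj p).support, w ≠ w' →
          π w = π w' → s(w, w') ∈ (Walk.cons hadj p).edges) → q.IsPath := by
      intro hp hinj
      rw [Walk.cons_isPath_iff] at hp
      refine hq3 hp.1 ?_
      intro w hw w' hw' hne hfst
      have h1 := hinj w (by simp [hw]) w' (by simp [hw']) hne hfst
      rw [Walk.edges_cons, List.mem_cons] at h1
      rcases h1 with h1 | h1
      · exfalso
        have : a ∈ s(w, w') := h1 ▸ Sym2.mem_mk_left a b
        rw [Sym2.mem_iff] at this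
        rcases this with h2 | h2
        · exact hp.2 (h2 ▸ hw)
        · exact hp.2 (h2 ▸ hw')
      · exact h1
    rcases hF _ _ hadj with h1 | h1
    · refine ⟨Walk.cons h1.1 q, ?_, ?_, ?_⟩
      · rw [wt_cons, wt_cons, hq1, h1.2]
      · intro z hz
        rw [Walk.support_cons, List.mem_cons] at hz
        rcases hz with rfl | hz
        · exact ⟨a, by simp, rfl⟩
        · obtain ⟨w, hw, hwz⟩ := hq2 z hz
          exact ⟨w, by simp [hw], hwz⟩
      · intro hp hinj
        rw [Walk.cons_isPath_iff]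
        refine ⟨hsub hp hinj, ?_⟩
        intro hmem
        obtain ⟨w, hw, hwz⟩ := hq2 _ hmem
        rw [Walk.cons_isPath_iff] at hp
        have hne : a ≠ w := fun h => hp.2 (h ▸ hw)
        have h2 := hinj a (by simp) w (by simp [hw]) hne hwz.symm
        rw [Walk.edges_cons, List.mem_cons] at h2
        rcases h2 with h2 | h2
        · have : w = b := by rwa [Sym2.congr_right] at h2
          exact h1.1.ne (this ▸ hwz.symm)
        · exact hp.2 (Walk.fst_mem_support_of_mem_edges _ h2)
    · refine ⟨q.copy h1.1.symm rfl, ?_, ?_, ?_⟩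
      · rw [wt_copy, wt_cons, hq1, h1.2, zero_add]
      · intro z hz
        rw [Walk.support_copy] at hz
        obtain ⟨w, hw, hwz⟩ := hq2 z hz
        exact ⟨w, by simp [hw], hwz⟩
      · intro hp hinj
        have := hsub hp hinj
        simpa using this

/-- The data of a TOK4. -/
structure IsTOK (F : SimpleGraph W) (C : Sym2 W → ZMod 2) (v : Fin 4 → W)
    (P : ∀ i j : Fin 4, F.Walk (v i) (v j)) : Prop where
  inj : Function.Injective v
  path : ∀ i j : Fin 4, i < j → (P i j).IsPath ∧ wt C (P i j) = 1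
  disj : ∀ i j k l : Fin 4, i < j → k < l → (i, j) ≠ (k, l) →
    ∀ x : W, x ∈ (P i j).support → x ∈ (P k l).support →
      ((x = v i ∨ x = v j) ∧ (x = v k ∨ x = v l))

lemma hasTOK4s_iff_isTOK {F : SimpleGraph W} {C : Sym2 W → ZMod 2} :
    HasTOK4s F C ↔ ∃ v P, IsTOK F C v P := by
  constructor
  · rintro ⟨v, hv, P, h1, h2⟩; exact ⟨v, P, hv, h1, h2⟩
  · rintro ⟨v, P, hv, h1, h2⟩; exact ⟨v, hv, P, h1, h2⟩

section

variable {F : SimpleGraph W} {C : Sym2 W → ZMod 2} {v : Fin 4 → W}
  {P : ∀ i j : Fin 4, F.Walk (v i) (v j)}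

/-- branch vertices on paths -/
lemma IsTOK.branch (h : IsTOK F C v P) {i j k : Fin 4} (hij : i < j)
    (hk : v k ∈ (P i j).support) : k = i ∨ k = j := by
  by_contra hcon
  push Not at hcon
  rcases lt_trichotomy k i with h0 | h0 | h0
  · have h1 := (h.disj i j k i hij h0 (fun hh => by
      have := congrArg Prod.fst hh; exact hcon.1 this.symm) _ hk
      (P k i).start_mem_support).1
    rcases h1 with h1 | h1
    · exact hcon.1 (h.inj h1)
    · exact hcon.2 (h.inj h1)
  · exact hcon.1 h0
  · have h1 := (h.disj i j i k hij h0 (fun hh => by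
      have := congrArg Prod.snd hh; exact hcon.2 this.symm) _ hk
      (P i k).end_mem_support).1
    rcases h1 with h1 | h1
    · exact hcon.1 (h.inj h1)
    · exact hcon.2 (h.inj h1)

/-- different paths have no common edge -/
lemma IsTOK.uniq (h : IsTOK F C v P) {i j k l : Fin 4} (hij : i < j) (hkl : k < l) {e : Sym2 W}
    (h1 : e ∈ (P i j).edges) (h2 : e ∈ (P k l).edges) : (i, j) = (k, l) := by
  induction e using Sym2.ind with
  | _ x y =>
    by_contra hne
    have hxy : x ≠ y := (Walk.adj_of_mem_edges _ h1).ne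
    have ax := h.disj i j k l hij hkl hne x (Walk.fst_mem_support_of_mem_edges _ h1)
      (Walk.fst_mem_support_of_mem_edges _ h2)
    have ay := h.disj i j k l hij hkl hne y (Walk.snd_mem_support_of_mem_edges _ h1)
      (Walk.snd_mem_support_of_mem_edges _ h2)
    have e1 : (x = v i ∧ y = v j) ∨ (x = v j ∧ y = v i) := by
      rcases ax.1 with h3 | h3 <;> rcases ay.1 with h4 | h4
      · exact absurd (h3.trans h4.symm) hxy
      · exact Or.inl ⟨h3, h4⟩
      · exact Or.inr ⟨h3, h4⟩
      · exact absurd (h3.trans h4.symm) hxy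
    have e2 : (x = v k ∧ y = v l) ∨ (x = v l ∧ y = v k) := by
      rcases ax.2 with h3 | h3 <;> rcases ay.2 with h4 | h4
      · exact absurd (h3.trans h4.symm) hxy
      · exact Or.inl ⟨h3, h4⟩
      · exact Or.inr ⟨h3, h4⟩
      · exact absurd (h3.trans h4.symm) hxy
    apply hne
    rcases e1 with ⟨a1, a2⟩ | ⟨a1, a2⟩ <;> rcases e2 with ⟨b1, b2⟩ | ⟨b1, b2⟩
    · rw [h.inj (a1.symm.trans b1), h.inj (a2.symm.trans b2)]
    · exfalso
      have c1 : i = l := h.inj (a1.symm.trans b1)
      have c2 : j = k := h.inj (a2.symm.trans b2)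
      subst c1 c2
      exact absurd hij (not_lt_of_gt hkl)
    · exfalso
      have c1 : j = k := h.inj (a1.symm.trans b1)
      have c2 : i = l := h.inj (a2.symm.trans b2)
      subst c1 c2
      exact absurd hij (not_lt_of_gt hkl)
    · rw [h.inj (a1.symm.trans b1), h.inj (a2.symm.trans b2)]

lemma IsTOK.mem_supp_branch (h : IsTOK F C v P) (i : Fin 4) : v i ∈ supp F := by
  by_cases hi : i < 3
  · have hne : v i ≠ v 3 := fun hh => (ne_of_lt hi) (h.inj hh)
    obtain ⟨z, hz, -⟩ := exists_first_edge (P i 3) hne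
    exact ⟨z, hz⟩
  · have h0 : (0 : Fin 4) < i := by omega
    have hne : v 0 ≠ v i := fun hh => (ne_of_lt h0) (h.inj hh)
    obtain ⟨z, hz, -⟩ := exists_last_edge (P 0 i) hne
    exact mem_supp_right hz

lemma IsTOK.mem_supp (h : IsTOK F C v P) {i j : Fin 4} {x : W} (hx : x ∈ (P i j).support) :
    x ∈ supp F := mem_supp_of_mem_support _ (h.mem_supp_branch i) x hx

/-- an edge of weight zero has not both ends branch vertices -/
lemma IsTOK.no_branch_edge (h : IsTOK F C v P) {i j k l : Fin 4} (hij : i < j)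
    (he : s(v k, v l) ∈ (P i j).edges) (h0 : C s(v k, v l) = 0) : False := by
  have hk := h.branch hij (Walk.fst_mem_support_of_mem_edges _ he)
  have hl := h.branch hij (Walk.snd_mem_support_of_mem_edges _ he)
  have hadj := Walk.adj_of_mem_edges _ he
  have hkl : k ≠ l := fun hh => hadj.ne (hh ▸ rfl)
  have hes : s(v k, v l) = s(v i, v j) := by
    rcases hk with rfl | rfl <;> rcases hl with rfl | rfl
    · exact absurd rfl hkl
    · rfl
    · exact Sym2.eq_swap
    · exact absurd rfl hkl
  have h1 := wt_of_edge_mem C (P i j) (h.path i j hij).1 (hes ▸ he)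
  rw [(h.path i j hij).2, ← hes, h0] at h1
  exact one_ne_zero h1

/-- PROJECTION of a TOK4. -/
theorem IsTOK.project {G : SimpleGraph V} {c : Sym2 V → ZMod 2} (h : IsTOK F C v P) (π : W → V)
    (hF : ∀ x y, F.Adj x y → (G.Adj (π x) (π y) ∧ C s(x, y) = c s(π x, π y)) ∨
      (π x = π y ∧ C s(x, y) = 0))
    (hused : ∀ x y, x ∈ supp F → y ∈ supp F → x ≠ y → π x = π y →
      ∃ i j : Fin 4, i < j ∧ s(x, y) ∈ (P i j).edges) : HasTOK4s G c := by
  classical
  have hzero : ∀ x y, F.Adj x y → π x = π y → C s(x, y) = 0 := by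
    intro x y hxy hxy'
    rcases hF x y hxy with h1 | h1
    · exact absurd hxy' h1.1.ne
    · exact h1.2
  have hnobr : ∀ k l : Fin 4, k ≠ l → π (v k) = π (v l) → False := by
    intro k l hkl hπ
    obtain ⟨i, j, hij, he⟩ := hused _ _ (h.mem_supp_branch k) (h.mem_supp_branch l)
      (fun hh => hkl (h.inj hh)) hπ
    exact h.no_branch_edge hij he (hzero _ _ (Walk.adj_of_mem_edges _ he) hπ)
  -- key property
  have hkey : ∀ i j k l : Fin 4, i < j → k < l → ∀ a ∈ (P i j).support, ∀ b ∈ (P k l).support,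
      a ≠ b → π a = π b → s(a, b) ∈ (P i j).edges ∨ s(a, b) ∈ (P k l).edges := by
    intro i j k l hij hkl a ha b hb hab hfst
    obtain ⟨m, n, hmn, he⟩ := hused a b (h.mem_supp ha) (h.mem_supp hb) hab hfst
    by_cases h1 : (i, j) = (m, n)
    · left
      rw [Prod.mk.injEq] at h1
      rw [h1.1, h1.2]; exact he
    · by_cases h2 : (k, l) = (m, n)
      · right
        rw [Prod.mk.injEq] at h2
        rw [h2.1, h2.2]; exact he
      · exfalso
        have ha' := (h.disj i j m n hij hmn h1 a ha (Walk.fst_mem_support_of_mem_edges _ he)).1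
        have hb' := (h.disj k l m n hkl hmn h2 b hb (Walk.snd_mem_support_of_mem_edges _ he)).1
        have hz := hzero _ _ (Walk.adj_of_mem_edges _ he) hfst
        rcases ha' with rfl | rfl <;> rcases hb' with rfl | rfl <;>
          exact h.no_branch_edge hmn he hz
  have hex : ∀ i j : Fin 4, ∃ q : G.Walk (π (v i)) (π (v j)), wt c q = wt C (P i j) ∧
      (∀ z ∈ q.support, ∃ w ∈ (P i j).support, π w = z) ∧
      ((P i j).IsPath → (∀ w ∈ (P i j).support, ∀ w' ∈ (P i j).support, w ≠ w' → π w = π w' →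
        s(w, w') ∈ (P i j).edges) → q.IsPath) := fun i j => exists_projW π hF (P i j)
  choose Q hQ1 hQ2 hQ3 using hex
  refine ⟨fun i => π (v i), ?_, Q, ?_, ?_⟩
  · intro i j hij
    by_contra hne
    exact hnobr i j hne hij
  · intro i j hij
    refine ⟨hQ3 i j (h.path i j hij).1 ?_, ?_⟩
    · intro w hw w' hw' hne hfst
      rcases hkey i j i j hij hij w hw w' hw' hne hfst with h1 | h1
      · exact h1
      · exact h1
    · rw [hQ1]; exact (h.path i j hij).2
  · intro i j k l hij hkl hne x hx hx'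
    obtain ⟨a, ha, hax⟩ := hQ2 i j x hx
    obtain ⟨b, hb, hbx⟩ := hQ2 k l x hx'
    have fin : ∀ a, π a = x → a ∈ (P i j).support → a ∈ (P k l).support →
        ((x = π (v i) ∨ x = π (v j)) ∧ (x = π (v k) ∨ x = π (v l))) := by
      intro a hax h1 h2
      obtain ⟨h3, h4⟩ := h.disj i j k l hij hkl hne a h1 h2
      constructor
      · rcases h3 with h3 | h3
        · left; rw [← hax, h3]
        · right; rw [← hax, h3]
      · rcases h4 with h4 | h4
        · left; rw [← hax, h4]
        · right; rw [← hax, h4]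
    by_cases hab : a = b
    · subst hab
      exact fin a hax ha hb
    · rcases hkey i j k l hij hkl a ha b hb hab (hax.trans hbx.symm) with h1 | h1
      · exact fin b hbx (Walk.snd_mem_support_of_mem_edges _ h1) hb
      · exact fin a hax ha (Walk.fst_mem_support_of_mem_edges _ h1)

/-- A walk without inconsistent edges. -/
lemma wt_of_consistent {κ : W → ZMod 2} {Vt : Sym2 W → Prop}
    (hc : ∀ x y, F.Adj x y → ¬ Vt s(x, y) → C s(x, y) = κ x + κ y) {x y : W} (p : F.Walk x y)
    (h : ∀ e ∈ p.edges, ¬ Vt e) : wt C p = κ x + κ y := by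
  induction p with
  | nil => simp only [wt_nil]; exact (CharTwo.add_self_eq_zero _).symm
  | @cons a b d hadj p ih =>
    rw [wt_cons, ih (fun e he => h e (by simp [he])), hc a b hadj (h _ (by simp))]
    have h2 : κ b + κ b = 0 := CharTwo.add_self_eq_zero _
    calc κ a + κ b + (κ b + κ d) = κ a + κ d + (κ b + κ b) := by ring
      _ = κ a + κ d := by rw [h2, add_zero]

lemma fin4_triangle : ∀ a b c d : Fin 4, a < b → c < d →
    (a ≠ c ∧ a ≠ d ∧ b ≠ c ∧ b ≠ d) ∨ ∃ i j k : Fin 4, i < j ∧ j < k ∧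
      (i, j) ≠ (a, b) ∧ (j, k) ≠ (a, b) ∧ (i, k) ≠ (a, b) ∧
      (i, j) ≠ (c, d) ∧ (j, k) ≠ (c, d) ∧ (i, k) ≠ (c, d) := by
  decide

/-- If only two edges are inconsistent with a potential, they are used on opposite paths. -/
theorem IsTOK.two_virt (h : IsTOK F C v P) {κ : W → ZMod 2} {Vt : Sym2 W → Prop}
    (hc : ∀ x y, F.Adj x y → ¬ Vt s(x, y) → C s(x, y) = κ x + κ y) {f1 f2 : Sym2 W}
    (hf : ∀ i j : Fin 4, i < j → ∀ e ∈ (P i j).edges, Vt e → e = f1 ∨ e = f2) :
    ∃ a b c d : Fin 4, a < b ∧ c < d ∧ a ≠ c ∧ a ≠ d ∧ b ≠ c ∧ b ≠ d ∧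
      f1 ∈ (P a b).edges ∧ f2 ∈ (P c d).edges := by
  classical
  -- a triangle without inconsistent edges is impossible
  have htri : ∀ i j k : Fin 4, i < j → j < k →
      (∀ e ∈ (P i j).edges, ¬ Vt e) → (∀ e ∈ (P j k).edges, ¬ Vt e) →
      (∀ e ∈ (P i k).edges, ¬ Vt e) → False := by
    intro i j k hij hjk h1 h2 h3
    have w1 := (h.path i j hij).2
    have w2 := (h.path j k hjk).2
    have w3 := (h.path i k (hij.trans hjk)).2
    rw [wt_of_consistent hc _ h1] at w1
    rw [wt_of_consistent hc _ h2] at w2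
    rw [wt_of_consistent hc _ h3] at w3
    revert w1 w2 w3
    generalize κ (v i) = a
    generalize κ (v j) = b
    generalize κ (v k) = d
    revert a b d
    decide
  -- location of an edge
  have hloc : ∀ f : Sym2 W, ∃ a b : Fin 4, a < b ∧
      (∀ i j : Fin 4, i < j → f ∈ (P i j).edges → (i, j) = (a, b)) ∧
      (f ∉ (P a b).edges → ∀ i j : Fin 4, i < j → f ∉ (P i j).edges) := by
    intro f
    by_cases hex : ∃ a b : Fin 4, a < b ∧ f ∈ (P a b).edges
    · obtain ⟨a, b, hab, hfa⟩ := hex
      exact ⟨a, b, hab, fun i j hij hfi => h.uniq hij hab hfi hfa, fun hn => absurd hfa hn⟩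
    · push Not at hex
      exact ⟨0, 1, by decide, fun i j hij hfi => absurd hfi (hex i j hij), fun _ => hex⟩
  obtain ⟨a, b, hab, ha1, ha2⟩ := hloc f1
  obtain ⟨c, d, hcd, hc1, hc2⟩ := hloc f2
  have key : ∀ a b c d : Fin 4, a < b → c < d →
      (∀ i j : Fin 4, i < j → (i, j) ≠ (a, b) → (i, j) ≠ (c, d) →
        ∀ e ∈ (P i j).edges, ¬ Vt e) → (a ≠ c ∧ a ≠ d ∧ b ≠ c ∧ b ≠ d) := by
    intro a b c d hab hcd hfree
    rcases fin4_triangle a b c d hab hcd with h1 | ⟨i, j, k, hij, hjk, t1, t2, t3, t4, t5, t6⟩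
    · exact h1
    · exact absurd (htri i j k hij hjk (hfree i j hij t1 t4) (hfree j k hjk t2 t5)
        (hfree i k (hij.trans hjk) t3 t6)) (fun h => h)
  have hfree : ∀ i j : Fin 4, i < j → f1 ∉ (P i j).edges → f2 ∉ (P i j).edges →
      ∀ e ∈ (P i j).edges, ¬ Vt e := by
    intro i j hij h1 h2 e he hv
    rcases hf i j hij e he hv with rfl | rfl
    · exact h1 he
    · exact h2 he
  have hopp := key a b c d hab hcd (fun i j hij h1 h2 => hfree i j hij
    (fun h3 => h1 (ha1 i j hij h3)) (fun h3 => h2 (hc1 i j hij h3)))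
  refine ⟨a, b, c, d, hab, hcd, hopp.1, hopp.2.1, hopp.2.2.1, hopp.2.2.2, ?_, ?_⟩
  · by_contra hn
    have := key c d c d hcd hcd (fun i j hij h1 _ => hfree i j hij (ha2 hn i j hij)
      (fun h3 => h1 (hc1 i j hij h3)))
    exact this.1 rfl
  · by_contra hn
    have := key a b a b hab hab (fun i j hij h1 _ => hfree i j hij
      (fun h3 => h1 (ha1 i j hij h3)) (hc2 hn i j hij))
    exact this.1 rfl

end

end Pool.Agent.Helper82.TK
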