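import Pool.Agent.Helper57.TOK.Lists
import Pool.Agent.Helper82.TK.Fan
import Pool.Agent.Helper82.TK.Project

/-!
# A three-fan to an odd triangle is a TOK4
-/

set_option autoImplicit false

namespace Pool.Agent.Helper82.TK

open SimpleGraph Pool.Agent.Helper57.TOK

variable {V : Type*}

/-- `K4` itself. -/
lemma hasTOK4s_top : HasTOK4s (⊤ : SimpleGraph (Fin 4)) (fun _ => 1) := by
  refine HasTOK4s.of_lists id (fun i j => [i, j]) Function.injective_id ?_ ?_
  · intro i j hij
    refine ⟨?_, rfl, rfl, ?_, ?_⟩
    · simp only [List.isChain_cons_cons, List.isChain_singleton, and_true]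
      exact (SimpleGraph.top_adj i j).2 (ne_of_lt hij)
    · simp only [List.nodup_cons, List.mem_cons, List.not_mem_nil, or_false, not_false_eq_true,
        List.nodup_nil, and_true]
      exact ne_of_lt hij
    · simp [lw]
  · intro i j k l _ _ _ x hx hx'
    simp only [List.mem_cons, List.not_mem_nil, or_false] at hx hx'
    exact ⟨hx, hx'⟩

/-- A fan of three paths of weight one from `w` to the vertices of a triangle with three edges of
weight one. -/
theorem hasTOK4s_of_fan_triangle {G : SimpleGraph V} {c : Sym2 V → ZMod 2} {w : V}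
    {b : Fin 3 → V} (P : ∀ i, G.Walk w (b i)) (hP : ∀ i, (P i).IsPath)
    (hw : ∀ i, wt c (P i) = 1) (hb : Function.Injective b) (hwb : ∀ i, w ≠ b i)
    (hend : ∀ i j, i ≠ j → b j ∉ (P i).support)
    (hd : ∀ i j, i ≠ j → ∀ x, x ∈ (P i).support → x ∈ (P j).support → x = w)
    (htri : ∀ i j, i ≠ j → G.Adj (b i) (b j) ∧ c s(b i, b j) = 1) : HasTOK4s G c := by
  classical
  let φ : Fin 4 → V := ![w, b 0, b 1, b 2]
  let lab : V → Sym2 (Fin 4) := fun x => if x ∈ (P 0).support then s(0, 1) else
    if x ∈ (P 1).support then s(0, 2) else s(0, 3)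
  have hφ : Function.Injective φ := by
    intro i j hij
    have h01 : b 0 ≠ b 1 := fun h => absurd (hb h) (by decide)
    have h02 : b 0 ≠ b 2 := fun h => absurd (hb h) (by decide)
    have h12 : b 1 ≠ b 2 := fun h => absurd (hb h) (by decide)
    have hw0 := hwb 0
    have hw1 := hwb 1
    have hw2 := hwb 2
    fin_cases i <;> fin_cases j <;> simp [φ] at hij ⊢ <;> first
      | exact absurd hij hw0
      | exact absurd hij hw1
      | exact absurd hij hw2
      | exact absurd hij.symm hw0
      | exact absurd hij.symm hw1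
      | exact absurd hij.symm hw2
      | exact absurd hij h01
      | exact absurd hij h02
      | exact absurd hij h12
      | exact absurd hij.symm h01
      | exact absurd hij.symm h02
      | exact absurd hij.symm h12
  -- interiors
  have hint : ∀ i, ∀ x ∈ (P i).support, x = w ∨ x = b i ∨
      (x ∉ φ '' supp (⊤ : SimpleGraph (Fin 4)) ∧ ∀ j, j ≠ i → x ∉ (P j).support) := by
    intro i x hx
    by_cases h1 : x = w
    · exact Or.inl h1
    · by_cases h2 : x = b i
      · exact Or.inr (Or.inl h2)
      · right; right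
        refine ⟨?_, fun j hj hxj => h1 (hd i j hj.symm x hx hxj)⟩
        rintro ⟨k, -, hk⟩
        have hne : ∀ j : Fin 3, x ≠ b j := by
          intro j hxj
          by_cases hji : j = i
          · exact h2 (hji ▸ hxj)
          · exact hend i j (Ne.symm hji) (hxj ▸ hx)
        fin_cases k
        · exact h1 hk.symm
        · exact hne 0 hk.symm
        · exact hne 1 hk.symm
        · exact hne 2 hk.symm
  have hspoke : ∀ i : Fin 3, ∃ R : G.Walk (φ 0) (φ i.succ), R.IsPath ∧ wt c R = 1 ∧
      ∀ x ∈ R.support, x = φ 0 ∨ x = φ i.succ ∨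
        (lab x = s(0, i.succ) ∧ x ∉ φ '' supp (⊤ : SimpleGraph (Fin 4))) := by
    intro i
    have hlab : ∀ x ∈ (P i).support, (∀ j, j ≠ i → x ∉ (P j).support) →
        lab x = s(0, i.succ) := by
      intro x hx hxj
      fin_cases i
      · exact if_pos hx
      · have h1 : x ∉ (P 0).support := hxj 0 (by decide)
        show (if x ∈ (P 0).support then _ else if x ∈ (P 1).support then _ else _) = _
        rw [if_neg h1]
        exact if_pos hx
      · have h1 : x ∉ (P 0).support := hxj 0 (by decide)
        have h2 : x ∉ (P 1).support := hxj 1 (by decide)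
        show (if x ∈ (P 0).support then _ else if x ∈ (P 1).support then _ else _) = _
        rw [if_neg h1, if_neg h2]
        rfl
    have hφi : φ i.succ = b i := by fin_cases i <;> rfl
    refine ⟨(P i).copy rfl hφi.symm, by simpa using hP i, by rw [wt_copy]; exact hw i, ?_⟩
    intro x hx
    rw [Walk.support_copy] at hx
    rcases hint i x hx with h | h | ⟨h1, h2⟩
    · exact Or.inl h
    · exact Or.inr (Or.inl (h.trans hφi.symm))
    · exact Or.inr (Or.inr ⟨hlab x hx h2, h1⟩)
  have hrim : ∀ i j : Fin 3, i ≠ j → ∃ R : G.Walk (φ i.succ) (φ j.succ), R.IsPath ∧ wt c R = 1 ∧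
      ∀ x ∈ R.support, x = φ i.succ ∨ x = φ j.succ ∨
        (lab x = s(i.succ, j.succ) ∧ x ∉ φ '' supp (⊤ : SimpleGraph (Fin 4))) := by
    intro i j hij
    have hφi : ∀ i : Fin 3, φ i.succ = b i := by intro i; fin_cases i <;> rfl
    obtain ⟨R, h1, h2, h3⟩ := exists_edge_walk c (htri i j hij).1
    refine ⟨R.copy (hφi i).symm (hφi j).symm, by simpa using h1, ?_, ?_⟩
    · rw [wt_copy, h2]; exact (htri i j hij).2
    · intro x hx
      rw [Walk.support_copy, h3] at hx
      simp only [List.mem_cons, List.not_mem_nil, or_false] at hx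
      rcases hx with h | h
      · exact Or.inl (h.trans (hφi i).symm)
      · exact Or.inr (Or.inl (h.trans (hφi j).symm))
  refine HasTOK4s.subst (K := (⊤ : SimpleGraph (Fin 4))) (cK := fun _ => 1) φ lab
    (fun x _ y _ h => hφ h) ?_ hasTOK4s_top
  intro u v huv
  rw [SimpleGraph.top_adj] at huv
  by_cases hu : u = 0
  · obtain ⟨j, rfl⟩ := Fin.exists_succ_eq.2 (fun h => huv (hu.trans h.symm))
    subst hu
    exact hspoke j
  · obtain ⟨i, rfl⟩ := Fin.exists_succ_eq.2 hu
    by_cases hv : v = 0
    · subst hv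
      obtain ⟨R, h1, h2, h3⟩ := hspoke i
      refine ⟨R.reverse, h1.reverse, by rw [wt_reverse]; exact h2, ?_⟩
      intro x hx
      rw [Walk.support_reverse, List.mem_reverse] at hx
      rcases h3 x hx with h | h | ⟨h, h'⟩
      · exact Or.inr (Or.inl h)
      · exact Or.inl h
      · exact Or.inr (Or.inr ⟨h.trans Sym2.eq_swap, h'⟩)
    · obtain ⟨j, rfl⟩ := Fin.exists_succ_eq.2 hv
      exact hrim i j (fun h => huv (h ▸ rfl))

end Pool.Agent.Helper82.TK
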