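import Pool.Agent.Helper82.TK.Index2
import Pool.Agent.Helper82.TK.FanTri
import Pool.Agent.Helper57.TOK.Translate

/-!
# A 4-connected graph of index at least two is in the class `Ex3` or has a TOK4
-/

set_option autoImplicit false

namespace Pool.Agent.Helper82.TK

open SimpleGraph Pool.Agent.Helper57.TOK Pool.Agent.Helper57.TD

variable {V : Type*}

/-- In a 4-connected graph a set with at most three neighbours covers everything. -/
lemma conn4_cover [Finite V] {G : SimpleGraph V} (h : Conn4 G) {Y : Set V} (hne : Y.Nonempty)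
    (hN : (Nb G Y).ncard ≤ 3) : Y ∪ Nb G Y = Set.univ := by
  classical
  by_contra hcon
  obtain ⟨b, hb⟩ := (Set.ne_univ_iff_exists_notMem _).1 hcon
  obtain ⟨a, ha⟩ := hne
  have hfin : (Nb G Y).Finite := Set.toFinite _
  have hcard : hfin.toFinset.card < 4 := by
    rw [← Set.ncard_eq_toFinset_card _ hfin]; omega
  obtain ⟨p, hp⟩ := h hfin.toFinset hcard a b
    (by rw [Set.Finite.mem_toFinset]; exact fun h' => h'.1 ha)
    (by rw [Set.Finite.mem_toFinset]; exact fun h' => hb (Or.inr h'))
  have key : ∀ {x y : V} (p : G.Walk x y), x ∈ Y → (∀ z ∈ p.support, z ∉ Nb G Y) → y ∈ Y := by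
    intro x y p
    induction p with
    | nil => intro hx _; exact hx
    | @cons x w y hadj p ih =>
      intro hx hall
      apply ih
      · by_contra hw
        exact hall w (by simp) ⟨hw, x, hx, hadj⟩
      · intro z hz; exact hall z (by simp [hz])
  exact hb (Or.inl (key p ha (fun z hz => by
    have := hp z hz
    rwa [Set.Finite.mem_toFinset] at this)))

lemma conn4_deg [Finite V] {G : SimpleGraph V} (h : Conn4 G) (hV : 4 < Nat.card V) (y : V) :
    4 ≤ (G.neighborSet y).ncard := by
  by_contra hlt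
  push Not at hlt
  have h1 := conn4_cover h (Set.singleton_nonempty y) (by rw [Nb_singleton]; omega)
  rw [Nb_singleton] at h1
  have h2 := Set.ncard_union_le {y} (G.neighborSet y)
  rw [h1, Set.ncard_singleton, Set.ncard_univ] at h2
  omega

lemma odG_one (G : SimpleGraph V) : odG G (fun _ => 1) = G := by
  ext u v
  rw [odG_adj]
  simp

lemma edge_count [Finite V] {G : SimpleGraph V} (h : ∀ y, 4 ≤ (G.neighborSet y).ncard) :
    2 * Nat.card V ≤ G.edgeSet.ncard := by
  classical
  have := Fintype.ofFinite V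
  have h1 := G.sum_degrees_eq_twice_card_edges
  have h2 : ∀ y, 4 ≤ G.degree y := by
    intro y
    have := h y
    rwa [Set.ncard_eq_toFinset_card', ← SimpleGraph.neighborFinset_def,
      SimpleGraph.card_neighborFinset_eq_degree] at this
  have h3 : ∑ _v : V, 4 ≤ ∑ v, G.degree v := Finset.sum_le_sum (fun v _ => h2 v)
  rw [Finset.sum_const, Finset.card_univ, smul_eq_mul] at h3
  have h4 : G.edgeSet.ncard = G.edgeFinset.card := by
    rw [Set.ncard_eq_toFinset_card']; rfl
  rw [Nat.card_eq_fintype_card, h4]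
  omega

/-- If all vertices of `W` have degree at most two, `W` meets at most `2 |W|` edges. -/
lemma rho_le_of_deg [Finite V] {G : SimpleGraph V} {W : Set V}
    (h : ∀ w ∈ W, (G.neighborSet w).ncard ≤ 2) : rho G W ≤ 2 * W.ncard := by
  classical
  induction W, W.toFinite using Set.Finite.induction_on with
  | empty => simp
  | @insert a s ha _ ih =>
    rw [rho_insert G ha, Set.ncard_insert_of_notMem ha (Set.toFinite _)]
    have h1 := ih (fun w hw => h w (Set.mem_insert_of_mem _ hw))
    have h2 := h a (Set.mem_insert _ _)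
    have h3 : (G.neighborSet a \ s).ncard ≤ (G.neighborSet a).ncard :=
      Set.ncard_le_ncard Set.sdiff_subset (Set.toFinite _)
    omega

/-- The exceptional case `U = Y ∪ Nb G Y`, `|Nb G Y| = 3`, `Y` balanced: bipartite plus a
triangle. -/
theorem Ex3.exc [Finite V] {G : SimpleGraph V} {U : Set V} (h : Ex3 G (fun _ => 1) U)
    {Y : Set V} (hYU : Y ⊆ U) {κ : V → ZMod 2} (hN : (Nb G Y).ncard = 3) (hcov : U ⊆ Y ∪ Nb G Y)
    (hκ : BalOn G (fun _ => 1) Y κ) :
    HasTOK4s G (fun _ => 1) ∨ fden (odG G (fun _ => 1)) Y ≤ beta κ (Nb G Y) := by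
  classical
  have hNU : Nb G Y ⊆ U := by
    rintro v ⟨-, u, -, huv⟩
    exact h.edge_mem v u huv.symm
  have hout : ∀ v ∈ U, v ∉ Nb G Y → v ∈ Y := by
    intro v hvU hv
    rcases hcov hvU with h1 | h1
    · exact h1
    · exact absurd h1 hv
  -- two elements of the boundary are adjacent and of the same colour
  have hpair : ∀ a ∈ Nb G Y, ∀ b ∈ Nb G Y, a ≠ b → G.Adj a b ∧ κ a = κ b := by
    intro a ha b hb hab
    by_contra hcon
    -- the third vertex
    obtain ⟨d, hd, hda, hdb⟩ : ∃ d ∈ Nb G Y, d ≠ a ∧ d ≠ b := by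
      by_contra hno
      push Not at hno
      have : Nb G Y ⊆ {a, b} := by
        intro x hx
        by_cases hxa : x = a
        · exact Or.inl hxa
        · exact Or.inr (hno x hx hxa)
      have h1 := Set.ncard_le_ncard this (Set.toFinite _)
      rw [hN, Set.ncard_pair hab] at h1
      omega
    have hset : ∀ x ∈ Nb G Y, x = a ∨ x = b ∨ x = d := by
      intro x hx
      have h3 : ({a, b, d} : Set V) ⊆ Nb G Y := by
        rintro y (rfl | rfl | hy)
        · exact ha
        · exact hb
        · rw [Set.mem_singleton_iff] at hy; rw [hy]; exact hd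
      have h4 : ({a, b, d} : Set V) = Nb G Y := by
        apply Set.eq_of_subset_of_ncard_le h3 _ (Set.toFinite _)
        rw [hN, Set.ncard_insert_of_notMem (by
          simp only [Set.mem_insert_iff, Set.mem_singleton_iff]
          push Not; exact ⟨hab, hda.symm⟩), Set.ncard_pair hdb.symm]
      rw [← h4] at hx
      simpa using hx
    refine h.index2 d κ ?_
    intro u v hu hv huv
    rw [Set.mem_singleton_iff] at hu hv
    show (1 : ZMod 2) = κ u + κ v
    by_cases huY : u ∈ Y
    · exact hκ u v huY huv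
    · by_cases hvY : v ∈ Y
      · rw [add_comm]; exact hκ v u hvY huv.symm
      · have huN : u ∈ Nb G Y := by
          by_contra h1; exact huY (hout u (h.edge_mem u v huv) h1)
        have hvN : v ∈ Nb G Y := by
          by_contra h1; exact hvY (hout v (h.edge_mem v u huv.symm) h1)
        have hne : κ u ≠ κ v := by
          intro heq
          apply hcon
          rcases hset u huN with rfl | rfl | rfl
          · rcases hset v hvN with rfl | rfl | rfl
            · exact absurd rfl huv.ne
            · exact ⟨huv, heq⟩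
            · exact absurd rfl hv
          · rcases hset v hvN with rfl | rfl | rfl
            · exact ⟨huv.symm, heq.symm⟩
            · exact absurd rfl huv.ne
            · exact absurd rfl hv
          · exact absurd rfl hu
        exact (add_eq_one_iff.2 hne).symm
  obtain ⟨n, hninj, hn⟩ := exists_enum hN
  have hnN : ∀ i, n i ∈ Nb G Y := fun i => hn ▸ Set.mem_range_self i
  have hcolN : ∀ x ∈ Nb G Y, κ x = κ (n 0) := by
    intro x hx
    by_cases hxn : x = n 0
    · rw [hxn]
    · exact (hpair _ hx _ (hnN 0) hxn).2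
  have hmono : Mono κ (Nb G Y) := fun x hx y hy => (hcolN x hx).trans (hcolN y hy).symm
  by_cases hex : ∃ w ∈ Y, κ w ≠ κ (n 0) ∧ 3 ≤ (G.neighborSet w).ncard
  swap
  · -- few edges
    right
    push Not at hex
    rw [odG_one, beta_of_mono hmono, hN]
    have hsub : EAt G Y ⊆ EAt G {w | w ∈ Y ∧ κ w ≠ κ (n 0)} := by
      intro e
      induction e using Sym2.ind with
      | _ u v =>
        rw [mem_EAt, mem_EAt]
        have main : ∀ u v, G.Adj u v → u ∈ Y → (u ∈ Y ∧ κ u ≠ κ (n 0)) ∨
            (v ∈ Y ∧ κ v ≠ κ (n 0)) := by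
          intro u v huv hu
          have h1 := add_eq_one_iff.1 (hκ u v hu huv).symm
          by_cases h2 : κ u = κ (n 0)
          · right
            have h3 : κ v ≠ κ (n 0) := fun h3 => h1 (h2.trans h3.symm)
            refine ⟨?_, h3⟩
            apply hout v (h.edge_mem v u huv.symm)
            intro h4
            exact h3 (hcolN v h4)
          · exact Or.inl ⟨hu, h2⟩
        rintro ⟨h1, h2 | h2⟩
        · exact ⟨h1, main u v h1 h2⟩
        · exact ⟨h1, (main v u h1.symm h2).symm⟩
    have h1 : rho G Y ≤ rho G {w | w ∈ Y ∧ κ w ≠ κ (n 0)} :=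
      Set.ncard_le_ncard hsub (Set.toFinite _)
    have h2 : rho G {w | w ∈ Y ∧ κ w ≠ κ (n 0)} ≤ 2 * {w | w ∈ Y ∧ κ w ≠ κ (n 0)}.ncard := by
      apply rho_le_of_deg
      rintro w ⟨hw, hw'⟩
      have := hex w hw hw'
      omega
    have h3 : {w | w ∈ Y ∧ κ w ≠ κ (n 0)}.ncard ≤ Y.ncard :=
      Set.ncard_le_ncard (fun w hw => hw.1) (Set.toFinite _)
    unfold fden
    have h4 : (rho G Y : ℤ) ≤ 2 * (Y.ncard : ℤ) := by
      have : rho G Y ≤ 2 * Y.ncard := by omega
      exact_mod_cast this
    push_cast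
    linarith
  left
  obtain ⟨w, hwY, hwc', hwdeg⟩ := hex
  have hwc : κ w + κ (n 0) = 1 := add_eq_one_iff.2 hwc'
  have hwN : w ∉ Nb G Y := fun h1 => h1.1 hwY
  have hfan : Fan G w (Nb G Y) 3 := by
    apply fan_of_Nb hwN
    intro Y' hw' hdis hreach
    by_contra hlt
    -- `Y'` lies in `U`
    have hY'U : Y' ⊆ U := by
      have key : ∀ {x y : V} (p : G.Walk x y), x ∈ U → y ∈ U := by
        intro x y p
        induction p with
        | nil => exact fun h => h
        | @cons x w y hadj p ih => exact fun _ => ih (h.edge_mem w x hadj.symm)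
      intro y hy
      obtain ⟨p, -⟩ := hreach y hy
      exact key p (hYU hwY)
    have h2 : 2 ≤ Y'.ncard := by
      by_contra h1
      have h3 : Y' = {w} := by
        have h4 : Y'.ncard = 1 := by
          have := (Set.ncard_pos (Set.toFinite Y')).2 ⟨w, hw'⟩
          omega
        obtain ⟨x, hx⟩ := Set.ncard_eq_one.1 h4
        rw [hx] at hw' ⊢
        rw [Set.mem_singleton_iff] at hw'
        rw [hw']
      rw [h3, Nb_singleton] at hlt
      omega
    have hR := h.conn Y' hY'U h2 (by omega)
    -- a boundary vertex outside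
    obtain ⟨a, ha, haN⟩ : ∃ a ∈ Nb G Y, a ∉ Nb G Y' := by
      by_contra hno
      push Not at hno
      have := Set.ncard_le_ncard (show Nb G Y ⊆ Nb G Y' from hno) (Set.toFinite _)
      omega
    have haY' : a ∉ Y' := fun h1 => Set.disjoint_left.1 hdis h1 ha
    obtain ⟨haY, u, huY, hua⟩ := ha
    have huY' : u ∉ Y' := fun h1 => haN ⟨haY', u, h1, hua⟩
    by_cases huN : u ∈ Nb G Y'
    · -- then `Nb G Y'` has at least three elements
      have hsub : (Nb G Y \ {a}) ∪ {u} ⊆ Nb G Y' := by
        rintro x (⟨hx, hxa⟩ | hx)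
        · by_contra hxN
          have hxY' : x ∉ Y' := fun h1 => Set.disjoint_left.1 hdis h1 hx
          exact hxa ((Set.ncard_le_one (Set.toFinite _)).1 hR x
            ⟨hNU hx, fun hh => hh.elim hxY' hxN⟩ a
            ⟨h.edge_mem a u hua.symm, fun hh => hh.elim haY' haN⟩)
        · rw [Set.mem_singleton_iff] at hx; rw [hx]; exact huN
      have h3 := Set.ncard_le_ncard hsub (Set.toFinite _)
      have hdis2 : Disjoint (Nb G Y \ {a}) {u} := by
        rw [Set.disjoint_right]
        rintro x hx ⟨hx', -⟩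
        rw [Set.mem_singleton_iff] at hx
        rw [hx] at hx'
        exact hx'.1 huY
      rw [Set.ncard_union_eq hdis2 (Set.toFinite _) (Set.toFinite _), Set.ncard_singleton,
        Set.ncard_sdiff_singleton_of_mem (show a ∈ Nb G Y from ⟨haY, u, huY, hua⟩), hN] at h3
      omega
    · have := (Set.ncard_le_one (Set.toFinite _)).1 hR u
        ⟨hYU huY, fun hh => hh.elim huY' huN⟩ a
        ⟨h.edge_mem a u hua.symm, fun hh => hh.elim haY' haN⟩
      exact hua.ne this
  obtain ⟨b, P, h1, h2, h3⟩ := hfan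
  have hbinj := Fan.injective_end hwN (fun i => (h1 i).1) h3
  have hwb : ∀ i, w ≠ b i := fun i hh => hwN (hh ▸ (h1 i).1)
  refine hasTOK4s_of_fan_triangle P (fun i => (h1 i).2) ?_ hbinj hwb ?_ h3 ?_
  · intro i
    rw [wt_of_consistent (κ := κ) (Vt := fun e => ∀ z ∈ e, z ∈ Nb G Y) ?_ (P i) ?_]
    · rw [hcolN _ (h1 i).1]; exact hwc
    · intro x y hxy hn
      by_cases hx : x ∈ Y
      · exact hκ x y hx hxy
      · have hxN : x ∈ Nb G Y := by
          by_contra h5; exact hx (hout x (h.edge_mem x y hxy) h5)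
        have hyY : y ∈ Y := by
          apply hout y (h.edge_mem y x hxy.symm)
          intro hyN
          apply hn
          intro z hz
          rw [Sym2.mem_iff] at hz
          rcases hz with rfl | rfl
          · exact hxN
          · exact hyN
        rw [add_comm]
        exact hκ y x hyY hxy.symm
    · intro e he hall
      induction e using Sym2.ind with
      | _ x y =>
        have hx := h2 i x (Walk.fst_mem_support_of_mem_edges _ he) (hall x (Sym2.mem_mk_left x y))
        have hy := h2 i y (Walk.snd_mem_support_of_mem_edges _ he) (hall y (Sym2.mem_mk_right x y))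
        exact (Walk.adj_of_mem_edges _ he).ne (hx.trans hy.symm)
  · intro i j hij hmem
    exact hij (hbinj (h2 i _ hmem (h1 j).1)).symm
  · intro i j hij
    exact ⟨(hpair _ (h1 i).1 _ (h1 j).1 (fun h5 => hij (hbinj h5))).1, rfl⟩

/-- INDEX EXACTLY TWO in the unlabelled class, from Theorem D and its tight version. -/
theorem Ex3.index_two [Finite V] {G : SimpleGraph V} {U : Set V} (h : Ex3 G (fun _ => 1) U)
    {z1 z2 : V} {κ : V → ZMod 2} (hκ : BalOff G (fun _ => 1) {z1, z2} κ)
    (hD : ∀ (md : Bool) (Z : SimpleGraph (V × ZMod 2)) (κ : V × ZMod 2 → ZMod 2)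
      (S T : Set (V × ZMod 2)), Soc md Z κ S T → Goal md Z κ T) : HasTOK4 G := by
  rw [hasTOK4_iff]
  by_contra hno
  have h12 : z1 ≠ z2 := by
    rintro rfl
    refine h.index2 z1 κ ?_
    rwa [Set.pair_eq_singleton] at hκ
  have hmem : ∀ z ∈ ({z1, z2} : Set V), z ∈ U := by
    intro z hz
    by_contra hzU
    obtain ⟨z', hz', hset⟩ := exists_other h12 hz
    refine h.index2 z' κ ?_
    intro u v hu hv huv
    rw [Set.mem_singleton_iff] at hu hv
    refine hκ u v ?_ ?_ huv
    · rw [hset]; rintro (h5 | h5)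
      · exact hu h5
      · rw [Set.mem_singleton_iff] at h5
        exact hzU (h5 ▸ h.edge_mem u v huv)
    · rw [hset]; rintro (h5 | h5)
      · exact hv h5
      · rw [Set.mem_singleton_iff] at h5
        exact hzU (h5 ▸ h.edge_mem v u huv.symm)
  exact hno (h.hasTOK4s_of_index_two h12 (hmem z1 (Or.inl rfl)) (hmem z2 (Or.inr rfl)) hκ
    (fun Y hY hN hcov κ hκ => (h.exc hY hN hcov hκ).resolve_left hno) hD)

/-- The same from the dense version of Theorem D alone, with at least `2 |U| - 1` edges. -/
theorem Ex3.index_two' [Finite V] {G : SimpleGraph V} {U : Set V} (h : Ex3 G (fun _ => 1) U)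
    (hdens : 2 * U.ncard ≤ (odG G (fun _ => 1)).edgeSet.ncard + 1)
    {z1 z2 : V} {κ : V → ZMod 2} (hκ : BalOff G (fun _ => 1) {z1, z2} κ)
    (hD : ∀ (Z : SimpleGraph (V × ZMod 2)) (κ : V × ZMod 2 → ZMod 2)
      (S T : Set (V × ZMod 2)), Soc false Z κ S T → AllFramesE Z κ T) : HasTOK4 G := by
  rw [hasTOK4_iff]
  by_contra hno
  have h12 : z1 ≠ z2 := by
    rintro rfl
    refine h.index2 z1 κ ?_
    rwa [Set.pair_eq_singleton] at hκ
  have hmem : ∀ z ∈ ({z1, z2} : Set V), z ∈ U := by
    intro z hz
    by_contra hzU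
    obtain ⟨z', hz', hset⟩ := exists_other h12 hz
    refine h.index2 z' κ ?_
    intro u v hu hv huv
    rw [Set.mem_singleton_iff] at hu hv
    refine hκ u v ?_ ?_ huv
    · rw [hset]; rintro (h5 | h5)
      · exact hu h5
      · rw [Set.mem_singleton_iff] at h5
        exact hzU (h5 ▸ h.edge_mem u v huv)
    · rw [hset]; rintro (h5 | h5)
      · exact hv h5
      · rw [Set.mem_singleton_iff] at h5
        exact hzU (h5 ▸ h.edge_mem v u huv.symm)
  exact hno (h.hasTOK4s_of_index_two' hdens h12 (hmem z1 (Or.inl rfl)) (hmem z2 (Or.inr rfl)) hκ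
    (fun Y hY hN hcov κ hκ => (h.exc hY hN hcov hκ).resolve_left hno) hD)

/-- ENTERING THE CLASS. -/
theorem conn4_enter [Finite V] {G : SimpleGraph V} (h : Conn4 G) (hi : Index2 G)
    (hV : 4 < Nat.card V) : Ex3 G (fun _ => 1) Set.univ ∧ 2 * Nat.card V ≤ G.edgeSet.ncard := by
  classical
  have hcount := edge_count (fun y => conn4_deg h hV y)
  refine ⟨⟨fun _ _ _ => trivial, ?_, ?_, ?_, ?_, ?_⟩, hcount⟩
  · intro y _
    have := conn4_deg h hV y
    omega
  · intro Y _ h2 hN
    have hne : Y.Nonempty := by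
      rw [← Set.ncard_pos (Set.toFinite _)]; omega
    rw [conn4_cover h hne (by omega)]
    simp
  · rw [odG_one, Set.ncard_univ]
    omega
  · intro w κ hκ
    apply hi w
    refine ⟨fun v => decide (κ v = 1), ?_⟩
    intro u v hu hv huv
    have h1 := add_eq_one_iff.1 (hκ u v (by simpa using hu) (by simpa using hv) huv).symm
    show decide (κ u = 1) ≠ decide (κ v = 1)
    revert h1
    generalize κ u = s
    generalize κ v = t
    revert s t
    decide
  · intro Y _ h2 hN hrest κ hκ
    have hne : Y.Nonempty := by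
      rw [← Set.ncard_pos (Set.toFinite _)]; omega
    rw [conn4_cover h hne (by omega)] at hrest
    simp at hrest

/-- 4-CONNECTED GRAPHS OF INDEX EXACTLY TWO, from Theorem D. -/
theorem hasTOK4_conn4_index_two [Finite V] {G : SimpleGraph V} (h : Conn4 G) (hi : Index2 G)
    (hV : 4 < Nat.card V) {z1 z2 : V}
    (hbip : ∃ κ : V → Bool, ∀ u v, u ≠ z1 → u ≠ z2 → v ≠ z1 → v ≠ z2 → G.Adj u v → κ u ≠ κ v)
    (hD : ∀ (Z : SimpleGraph (V × ZMod 2)) (κ : V × ZMod 2 → ZMod 2)
      (S T : Set (V × ZMod 2)), Soc false Z κ S T → AllFramesE Z κ T) : HasTOK4 G := by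
  classical
  obtain ⟨κ, hκ⟩ := hbip
  obtain ⟨h1, h2⟩ := conn4_enter h hi hV
  refine h1.index_two' ?_ (z1 := z1) (z2 := z2) (κ := fun v => if κ v then 1 else 0) ?_ hD
  · rw [odG_one, Set.ncard_univ]
    omega
  · intro u v hu hv huv
    simp only [Set.mem_insert_iff, Set.mem_singleton_iff] at hu hv
    push Not at hu hv
    have := hκ u v hu.1 hu.2 hv.1 hv.2 huv
    show (1 : ZMod 2) = (if κ u then 1 else 0) + (if κ v then 1 else 0)
    revert this
    generalize κ u = s
    generalize κ v = t
    revert s t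
    decide

end Pool.Agent.Helper82.TK
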