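import Pool.Agent.Helper82.TK.BalFan

/-!
# The star graph of a maximal balanced set is sparse
-/

set_option autoImplicit false

namespace Pool.Agent.Helper82.TK

open SimpleGraph Pool.Agent.Helper57.TOK Pool.Agent.Helper57.TD

variable {V : Type*}

/-- Sets away from `F` and its boundary. -/
lemma StarPos.away_eq {G : SimpleGraph V} {U F : Set V} {u : V} {t h : Fin 3 → V}
    {O E : Finset (Fin 3)} (hs : StarPos G U F u t h O E) {Y : Set V} (hYF : Disjoint Y F)
    (hYN : Disjoint Y (Nb G F)) : Nb (starL G F u t h O E) Y = Nb G Y ∧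
      fden (starL G F u t h O E) Y = fden G Y ∧
      ∀ x y, x ∈ Y → ((starL G F u t h O E).Adj x y ↔ G.Adj x y) := by
  have hF' := Set.disjoint_left.1 hYF
  have hN' := Set.disjoint_left.1 hYN
  have hadj : ∀ x y, x ∈ Y → ((starL G F u t h O E).Adj x y ↔ G.Adj x y) := by
    intro x y hx
    have hxF := hF' hx
    by_cases hyF : y ∈ F
    · constructor
      · intro h1
        obtain ⟨i, h2, -⟩ := hs.adj_FF hxF hyF h1
        exact absurd (h2 ▸ hs.t_mem i) (hN' hx)
      · intro h1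
        exact absurd ⟨hxF, y, hyF, h1.symm⟩ (hN' hx)
    · exact hs.adj_out hxF hyF
  refine ⟨Nb_congr (fun x y hx _ => hadj x y hx), ?_, hadj⟩
  unfold fden rho
  have : EAt (starL G F u t h O E) Y = EAt G Y := by
    ext e
    induction e using Sym2.ind with
    | _ x y =>
      rw [mem_EAt, mem_EAt]
      constructor
      · rintro ⟨h1, h2 | h2⟩
        · exact ⟨(hadj x y h2).1 h1, Or.inl h2⟩
        · exact ⟨((hadj y x h2).1 h1.symm).symm, Or.inr h2⟩
      · rintro ⟨h1, h2 | h2⟩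
        · exact ⟨(hadj x y h2).2 h1, Or.inl h2⟩
        · exact ⟨((hadj y x h2).2 h1.symm).symm, Or.inr h2⟩
  rw [this]

lemma ncard_le_one_of [Finite V] {S : Set V} {a : V} (h : ∀ x ∈ S, x = a) : S.ncard ≤ 1 := by
  have h1 : S ⊆ {a} := fun x hx => h x hx
  have h2 := Set.ncard_le_ncard h1 (Set.toFinite _)
  rwa [Set.ncard_singleton] at h2

/-- **Sparsity.** -/
theorem BD.no_dense [Finite V] {G : SimpleGraph V} {U M : Set V} {κ : V → ZMod 2} {u : V}
    {n m x hh : Fin 3 → V} {B : Finset (Fin 3)} (h : BD G U M κ n m x B) (hu : u ∈ M)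
    (hs : StarPos G U (FB M n m B) u (tB n x B) hh (OB κ n u B) (EB κ n u B))
    (hhB : ∀ i ∈ B, hh i = m i) (hhM : ∀ i ∈ EB κ n u B, i ∉ B → hh i ∈ M) :
    ¬ ∃ Y κ1, Dense3 (starL G (FB M n m B) u (tB n x B) hh (OB κ n u B) (EB κ n u B))
      (starLU U (FB M n m B) u hh (EB κ n u B)) Y κ1 := by
  classical
  intro hex
  obtain ⟨Y, κ1, hm⟩ := exists_minDense3 hex
  set F := FB M n m B with hF
  set t := tB n x B with ht
  set O := OB κ n u B with hO
  set E := EB κ n u B with hE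
  set H := starL G F u t hh O E with hH
  have hp : Pre2 H (starLU U F u hh E) := hs.pre2' h.bm.pre h.F_two h.goodB
  have htwo := fun s hs => hm.two_nbrs hp (s := s) hs
  have hd := hm.1
  have hMF : M ⊆ F := Set.subset_union_left
  have huN : u ∉ Nb G M := fun hh => hh.1 hu
  have huF : u ∈ F := hMF hu
  -- (A)
  have hA : ∀ i ∈ E, hh i ∈ Nb H Y → u ∈ Y ∧ t i ∈ Y := by
    intro i hi hN
    have h2 := htwo _ hN
    have h3 : ∀ w ∈ H.neighborSet (hh i) ∩ Y, w = u ∨ w = t i := fun w hw =>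
      (hs.adj_h hi).1 hw.1
    constructor
    · by_contra hcon
      have : (H.neighborSet (hh i) ∩ Y).ncard ≤ 1 := ncard_le_one_of (a := t i) (fun w hw =>
        (h3 w hw).resolve_left (fun h4 => hcon (h4 ▸ hw.2)))
      omega
    · by_contra hcon
      have : (H.neighborSet (hh i) ∩ Y).ncard ≤ 1 := ncard_le_one_of (a := u) (fun w hw =>
        (h3 w hw).resolve_right (fun h4 => hcon (h4 ▸ hw.2)))
      omega
  have hYN : ∀ y ∈ Y, ∀ w, H.Adj y w → w ∈ Y ∨ w ∈ Nb H Y := by
    intro y hy w hyw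
    by_cases hw : w ∈ Y
    · exact Or.inl hw
    · exact Or.inr ⟨hw, y, hy, hyw⟩
  have hprop : ∀ a b, (a ∈ Y ∨ b ∈ Y) → H.Adj a b → κ1 a ≠ κ1 b := by
    rintro a b (h1 | h1) hab
    · exact hd.bal a b h1 hab
    · exact (hd.bal b a h1 hab.symm).symm
  have htri : ∀ a b c, H.Adj a b → H.Adj b c → H.Adj a c → (a ∈ Y ∨ b ∈ Y) → (b ∈ Y ∨ c ∈ Y) →
      (a ∈ Y ∨ c ∈ Y) → False := by
    intro a b c hab hbc hac h1 h2 h3
    have e1 := hprop a b h1 hab
    have e2 := hprop b c h2 hbc
    have e3 := hprop a c h3 hac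
    have key : ∀ p q r : ZMod 2, p ≠ q → q ≠ r → p ≠ r → False := by decide
    exact key _ _ _ e1 e2 e3
  -- (B)
  have hBO : ∀ i ∈ B, i ∈ O := fun i hi => mem_OB.2 (Or.inl hi)
  have hBE : ∀ i ∈ B, i ∈ E := fun i hi => mem_EB.2 (Or.inl hi)
  have aut : ∀ i ∈ O, H.Adj u (t i) := fun i hi => (hs.adj_u).2 (Or.inl ⟨i, hi, rfl⟩)
  have auh : ∀ i ∈ E, H.Adj u (hh i) := fun i hi => (hs.adj_u).2 (Or.inr ⟨i, hi, rfl⟩)
  have aht : ∀ i ∈ E, H.Adj (hh i) (t i) := fun i hi => (hs.adj_h hi).2 (Or.inr rfl)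
  have hB : ∀ i ∈ B, u ∉ Y ∧ t i ∉ Y ∧ hh i ∉ Y := by
    intro i hi
    have g1 := aut i (hBO i hi)
    have g2 := auh i (hBE i hi)
    have g3 := aht i (hBE i hi)
    have huY : u ∉ Y := by
      intro huY
      have hhY : hh i ∉ Y := fun h1 =>
        htri u (hh i) (t i) g2 g3 g1 (Or.inl huY) (Or.inl h1) (Or.inl huY)
      have hN : hh i ∈ Nb H Y := (hYN u huY _ g2).resolve_left hhY
      have htY := (hA i (hBE i hi) hN).2
      exact htri u (hh i) (t i) g2 g3 g1 (Or.inl huY) (Or.inr htY) (Or.inl huY)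
    have htY : t i ∉ Y := by
      intro htY
      rcases hYN _ htY _ g3.symm with h1 | h1
      · exact htri u (hh i) (t i) g2 g3 g1 (Or.inr h1) (Or.inl h1) (Or.inr htY)
      · exact huY (hA i (hBE i hi) h1).1
    refine ⟨huY, htY, ?_⟩
    intro hhY
    apply hm.no_link hp hhY
    · intro w hw
      rcases (hs.adj_h (hBE i hi)).1 hw with h1 | h1
      · rw [h1]; exact (hYN _ hhY _ g2.symm).resolve_left huY
      · rw [h1]; exact (hYN _ hhY _ g3).resolve_left htY
    · exact ncard_le_two_of (a := u) (b := t i) (fun w hw => (hs.adj_h (hBE i hi)).1 hw)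
  -- good legs
  have htn : ∀ i, i ∉ B → t i = n i := fun i hi => BD.t_good hi
  have htx : ∀ i, i ∈ B → t i = x i := fun i hi => BD.t_bad hi
  have hEO : ∀ i ∈ E, i ∉ B → i ∉ O := by
    intro i hi hiB hiO
    exact (mem_OB.1 hiO).resolve_left hiB ((mem_EB.1 hi).resolve_left hiB)
  have hnF : ∀ i, i ∉ B → n i ∉ F := fun i hi => htn i hi ▸ hs.t_notF i
  -- bad boundary vertices are not in the new graph
  have hnB : ∀ i ∈ B, n i ∉ Y ∧ n i ∉ Nb H Y := by
    intro i hi
    have hU : n i ∉ starLU U F u hh E := by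
      intro h1
      rcases hs.mem_F h1 (Or.inr ⟨i, hi, Or.inl rfl⟩) with h2 | ⟨j, hj, h2⟩
      · exact h.nM i (h2 ▸ hu)
      · by_cases hjB : j ∈ B
        · exact h.m_ne_n hjB i ((hhB j hjB).symm.trans h2.symm)
        · exact h.nM i (h2 ▸ hhM j hj hjB)
    exact ⟨fun h1 => hU (hd.sub h1), fun h1 => hU (hp.Nb_sub Y h1)⟩
  -- vertices of `Y` in `F`
  have hYF : ∀ y ∈ Y, y ∈ F → y = u ∨ ∃ i ∈ E, i ∉ B ∧ y = hh i := by
    intro y hy hyF
    rcases hs.mem_F (hd.sub hy) hyF with h1 | ⟨i, hi, h1⟩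
    · exact Or.inl h1
    · refine Or.inr ⟨i, hi, fun hiB => ?_, h1⟩
      exact (hB i hiB).2.2 (h1 ▸ hy)
  have hYM : ∀ y ∈ Y, y ∈ F → y ∈ M := by
    intro y hy hyF
    rcases hYF y hy hyF with h1 | ⟨i, hi, hiB, h1⟩
    · rw [h1]; exact hu
    · rw [h1]; exact hhM i hi hiB
  -- neighbours in `G` of vertices of `Y` outside `F`
  have hYout : ∀ y ∈ Y, y ∉ F → ∀ w, G.Adj y w → w ∈ M ∨ (w ∉ F ∧ (w ∈ Y ∨ w ∈ Nb H Y)) := by
    intro y hy hyF w hyw
    by_cases hwF : w ∈ F
    · rcases hwF with h1 | ⟨l, hl, h1 | h1⟩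
      · exact Or.inl h1
      · exfalso
        subst h1
        rcases (h.bad l hl).out' hyw.symm (fun h2 => hyF (hMF h2)) with h2 | h2
        · exact hyF (Or.inr ⟨l, hl, Or.inr h2⟩)
        · exact (hB l hl).2.1 (by rw [htx l hl, ← h2]; exact hy)
      · exfalso
        subst h1
        rcases (h.bad l hl).nbm' hyw.symm with h2 | h2
        · exact hyF (Or.inr ⟨l, hl, Or.inl h2⟩)
        · exact (hB l hl).2.1 (by rw [htx l hl, ← h2]; exact hy)
    · exact Or.inr ⟨hwF, hYN y hy w ((hs.adj_out hyF hwF).2 hyw)⟩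
  -- the big set
  set δ : ZMod 2 := κ1 u + κ u with hδ
  set X : Set V := {y | y ∈ Y ∧ y ∉ F} ∪ M with hX
  have hXU : X ⊆ U := by
    rintro y (⟨h1, h2⟩ | h1)
    · exact hs.starLU_sub (hd.sub h1)
    · exact h.bm.MU h1
  have hMX : M ⊆ X := Set.subset_union_right
  have hNX : ∀ v ∈ Nb G X, v ∉ M ∧ v ∉ Y ∧ (v ∈ Nb H Y ∨ ∃ i, v = n i) := by
    rintro v ⟨hv, y, hy, hyv⟩
    have hvM : v ∉ M := fun h1 => hv (Or.inr h1)
    have hvY : v ∉ Y := fun h1 => hv (Or.inl ⟨h1, fun h2 => hvM (hYM v h1 h2)⟩)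
    refine ⟨hvM, hvY, ?_⟩
    rcases hy with ⟨h1, h2⟩ | h1
    · rcases hYout y h1 h2 v hyv with h3 | ⟨-, h3 | h3⟩
      · exact absurd h3 hvM
      · exact absurd h3 hvY
      · exact Or.inl h3
    · exact Or.inr (h.exists_n ⟨hvM, y, h1, hyv⟩)
  have hext : (∀ i, (n i ∈ Y ∨ n i ∈ Nb H Y) → κ1 (n i) = κ (n i) + δ) →
      ∃ f, PB G f X := by
    intro hcol
    let D : Set V := {v | ∃ i, v = n i ∧ v ∉ Y ∧ v ∉ Nb H Y}
    let f : V → ZMod 2 := fun v => if v ∈ M ∪ D then κ v + δ else κ1 v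
    have fp : ∀ v, v ∈ M ∪ D → f v = κ v + δ := fun v hv => if_pos hv
    have fn : ∀ v, v ∉ M ∪ D → f v = κ1 v := fun v hv => if_neg hv
    have key : ∀ i, f (n i) = κ (n i) + δ := by
      intro i
      by_cases h1 : n i ∈ M ∪ D
      · exact fp _ h1
      · rw [fn _ h1]
        apply hcol
        by_contra hcon
        push Not at hcon
        exact h1 (Or.inr ⟨i, rfl, hcon.1, hcon.2⟩)
    have fY : ∀ v, v ∉ M → (v ∈ Y ∨ v ∈ Nb H Y) → f v = κ1 v := by
      intro v hvM hv
      apply fn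
      rintro (h1 | ⟨i, -, h1, h2⟩)
      · exact hvM h1
      · exact hv.elim h1 h2
    refine ⟨f, ?_⟩
    rintro y w (⟨hy, hyF⟩ | hy) hyw
    · have hyM : y ∉ M := fun h1 => hyF (hMF h1)
      rcases hYout y hy hyF w hyw with h3 | ⟨h2, h3⟩
      · obtain ⟨i, rfl⟩ := h.exists_n ⟨hyM, w, h3, hyw.symm⟩
        rw [key i, fp w (Or.inl h3)]
        intro h4
        exact h.bm.bal w _ h3 hyw.symm (add_right_cancel h4).symm
      · rw [fY y hyM (Or.inl hy), fY w (fun h4 => h2 (hMF h4)) h3]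
        exact hd.bal y w hy ((hs.adj_out hyF h2).2 hyw)
    · rw [fp y (Or.inl hy)]
      by_cases hwM : w ∈ M
      · rw [fp w (Or.inl hwM)]
        intro h4
        exact h.bm.bal y w hy hyw (add_right_cancel h4)
      · obtain ⟨i, rfl⟩ := h.exists_n ⟨hwM, y, hy, hyw⟩
        rw [key i]
        intro h4
        exact h.bm.bal y _ hy hyw (add_right_cancel h4)
  -- `Y` is not contained in `F`
  have hYnF : (∃ i ∈ E, i ∉ B ∧ hh i ∈ Y) → ∃ y ∈ Y, y ∉ F := by
    rintro ⟨i, hi, hiB, hiY⟩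
    by_contra hcon
    push Not at hcon
    have htF := hs.t_notF i
    have htY : t i ∉ Y := fun h1 => htF (hcon _ h1)
    have hN : t i ∈ Nb H Y := (hYN _ hiY _ (aht i hi)).resolve_left htY
    have h2 := htwo _ hN
    have : (H.neighborSet (t i) ∩ Y).ncard ≤ 1 := by
      apply ncard_le_one_of (a := hh i)
      rintro w ⟨hw, hwY⟩
      obtain ⟨j, hj, h3⟩ := hs.adj_FF htF (hcon w hwY) hw
      have hij : i = j := hs.tinj hj
      subst hij
      rcases h3 with ⟨h3, -⟩ | ⟨-, h3⟩
      · exact absurd h3 (hEO i hi hiB)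
      · exact h3
    omega
  have hXne : (∃ y ∈ Y, y ∉ F) → X ≠ M := by
    rintro ⟨y, hy, hyF⟩ hXM
    have : y ∈ X := Or.inl ⟨hy, hyF⟩
    rw [hXM] at this
    exact hyF (hMF this)
  -- colour through a leg
  have hleg : ∀ i, i ∉ B → (i ∈ O → u ∈ Y ∨ t i ∈ Y) →
      (i ∈ E → (u ∈ Y ∨ hh i ∈ Y) ∧ (hh i ∈ Y ∨ t i ∈ Y)) → κ1 (n i) = κ (n i) + δ := by
    intro i hiB h1 h2
    rw [← htn i hiB]
    rcases hs.OE i with h3 | h3
    · have g1 := hprop u (t i) (h1 h3) (aut i h3)
      have g2 := (mem_OB.1 h3).resolve_left hiB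
      rw [htn i hiB] at g1 ⊢
      rw [hδ]
      have key : ∀ a b c d : ZMod 2, a ≠ b → c ≠ d → b = c + (a + d) := by decide
      exact key _ _ _ _ g1 g2
    · obtain ⟨h4, h5⟩ := h2 h3
      have g1 := hprop u (hh i) h4 (auh i h3)
      have g3 := hprop (hh i) (t i) h5 (aht i h3)
      have g2 := (mem_EB.1 h3).resolve_left hiB
      rw [htn i hiB] at g3 ⊢
      rw [hδ, g2]
      have key : ∀ a b c d : ZMod 2, a ≠ b → b ≠ c → c = d + (a + d) := by decide
      exact key _ _ _ _ g1 g3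
  have hNle := Set.ncard_le_ncard (s := Nb G X) (t := Nb G X) subset_rfl (Set.toFinite _)
  by_cases huY : u ∈ Y
  · -- (C)
    have hBe : ∀ i, i ∉ B := fun i hi => (hB i hi).1 huY
    have hnY : ∀ i, n i ∈ Y ∨ n i ∈ Nb H Y := by
      intro i
      rw [← htn i (hBe i)]
      rcases hs.OE i with h1 | h1
      · exact hYN u huY _ (aut i h1)
      · rcases hYN u huY _ (auh i h1) with h2 | h2
        · exact hYN _ h2 _ (aht i h1)
        · exact Or.inl (hA i h1 h2).2
    obtain ⟨f, hf⟩ := hext (fun i _ => hleg i (hBe i) (fun _ => Or.inl huY) (fun h1 =>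
      ⟨Or.inl huY, by
        rcases hYN u huY _ (auh i h1) with h2 | h2
        · exact Or.inl h2
        · exact Or.inr (hA i h1 h2).2⟩))
    have hne : ∃ y ∈ Y, y ∉ F := by
      by_contra hcon
      push Not at hcon
      obtain ⟨y, hy, hyu⟩ := exists_ne_of_two hd.two u
      rcases hYF y hy (hcon y hy) with h1 | ⟨i, hi, hiB, h1⟩
      · exact hyu h1
      · obtain ⟨z, hz, hzF⟩ := hYnF ⟨i, hi, hiB, h1 ▸ hy⟩
        exact hzF (hcon z hz)
    have h4 := h.bm.max X hMX hXU (hXne hne) f hf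
    have h5 : Nb G X ⊆ Nb H Y := by
      intro v hv
      obtain ⟨h6, h7, h8 | ⟨i, rfl⟩⟩ := hNX v hv
      · exact h8
      · exact (hnY i).resolve_left h7
    have h6 := Set.ncard_le_ncard h5 (Set.toFinite _)
    have := hd.three
    omega
  · by_cases huNb : u ∈ Nb H Y
    · -- (D2)
      have h2 := htwo u huNb
      -- two legs entering `Y`
      obtain ⟨i, j, hij, hi, hj⟩ : ∃ i j, i ≠ j ∧ (i ∉ B ∧ ((i ∈ O ∧ t i ∈ Y) ∨ (i ∈ E ∧ hh i ∈ Y)))
          ∧ (j ∉ B ∧ ((j ∈ O ∧ t j ∈ Y) ∨ (j ∈ E ∧ hh j ∈ Y))) := by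
        have hidx : ∀ v ∈ H.neighborSet u ∩ Y, ∃ i, i ∉ B ∧ ((i ∈ O ∧ v = t i) ∨
            (i ∈ E ∧ v = hh i)) := by
          rintro v ⟨hv, hvY⟩
          rcases (hs.adj_u).1 hv with ⟨i, hi, h1⟩ | ⟨i, hi, h1⟩
          · exact ⟨i, fun hiB => (hB i hiB).2.1 (h1 ▸ hvY), Or.inl ⟨hi, h1⟩⟩
          · exact ⟨i, fun hiB => (hB i hiB).2.2 (h1 ▸ hvY), Or.inr ⟨hi, h1⟩⟩
        obtain ⟨v, hv, hvu⟩ := exists_ne_of_two h2 u
        obtain ⟨v', hv', hvv'⟩ := exists_ne_of_two h2 v
        obtain ⟨i, hiB, hi⟩ := hidx v hv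
        obtain ⟨j, hjB, hj⟩ := hidx v' hv'
        refine ⟨i, j, ?_, ⟨hiB, ?_⟩, ⟨hjB, ?_⟩⟩
        · rintro rfl
          rcases hi with ⟨h3, h4⟩ | ⟨h3, h4⟩ <;> rcases hj with ⟨h5, h6⟩ | ⟨h5, h6⟩
          · exact hvv' (h6.trans h4.symm)
          · exact hEO i h5 hiB h3
          · exact hEO i h3 hiB h5
          · exact hvv' (h6.trans h4.symm)
        · rcases hi with ⟨h3, h4⟩ | ⟨h3, h4⟩
          · exact Or.inl ⟨h3, h4 ▸ hv.2⟩
          · exact Or.inr ⟨h3, h4 ▸ hv.2⟩
        · rcases hj with ⟨h3, h4⟩ | ⟨h3, h4⟩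
          · exact Or.inl ⟨h3, h4 ▸ hv'.2⟩
          · exact Or.inr ⟨h3, h4 ▸ hv'.2⟩
      obtain ⟨k, hk⟩ : ∃ k : Fin 3, ∀ l, l = i ∨ l = j ∨ l = k := by
        clear * - hij
        revert i j; decide
      -- legs entering `Y` are consistent and their ends are in `Y` or its boundary
      have hin : ∀ l, l ∉ B → ((l ∈ O ∧ t l ∈ Y) ∨ (l ∈ E ∧ hh l ∈ Y)) →
          κ1 (n l) = κ (n l) + δ ∧ (n l ∈ Y ∨ n l ∈ Nb H Y) := by
        intro l hlB hl
        rcases hl with ⟨h3, h4⟩ | ⟨h3, h4⟩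
        · refine ⟨hleg l hlB (fun _ => Or.inr h4) (fun h5 => absurd h3 (hEO l h5 hlB)), ?_⟩
          rw [← htn l hlB]; exact Or.inl h4
        · refine ⟨hleg l hlB (fun h5 => absurd h5 (hEO l h3 hlB))
            (fun _ => ⟨Or.inr h4, Or.inl h4⟩), ?_⟩
          rw [← htn l hlB]; exact hYN _ h4 _ (aht l h3)
      have hNX2 : Nb G X ⊆ insert (n k) (Nb H Y \ {u}) := by
        intro v hv
        obtain ⟨h6, h7, h8⟩ := hNX v hv
        have hvu : v ≠ u := fun h9 => h6 (h9 ▸ hu)
        rcases h8 with h8 | ⟨l, rfl⟩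
        · exact Or.inr ⟨h8, hvu⟩
        · rcases hk l with rfl | rfl | rfl
          · exact Or.inr ⟨(hin l hi.1 hi.2).2.resolve_left h7, hvu⟩
          · exact Or.inr ⟨(hin l hj.1 hj.2).2.resolve_left h7, hvu⟩
          · exact Or.inl rfl
      have hdu : (Nb H Y \ {u}).ncard + 1 = (Nb H Y).ncard :=
        Set.ncard_sdiff_singleton_add_one huNb (Set.toFinite _)
      have hd3 := hd.three
      -- `Y` is not contained in `F`
      have hne : ∃ y ∈ Y, y ∉ F := by
        rcases hi.2 with ⟨h3, h4⟩ | ⟨h3, h4⟩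
        · exact ⟨t i, h4, hs.t_notF i⟩
        · exact hYnF ⟨i, h3, hi.1, h4⟩
      by_cases hcons : (n k ∈ Y ∨ n k ∈ Nb H Y) → κ1 (n k) = κ (n k) + δ
      · obtain ⟨f, hf⟩ := hext (fun l hl => by
          rcases hk l with rfl | rfl | rfl
          · exact (hin l hi.1 hi.2).1
          · exact (hin l hj.1 hj.2).1
          · exact hcons hl)
        have h4 := h.bm.max X hMX hXU (hXne hne) f hf
        have h5 := Set.ncard_le_ncard hNX2 (Set.toFinite _)
        have h6 := Set.ncard_insert_le (n k) (Nb H Y \ {u})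
        omega
      · push Not at hcons
        obtain ⟨hc1, hc2⟩ := hcons
        have hkB : k ∉ B := fun hkB => hc1.elim (hnB k hkB).1 (hnB k hkB).2
        have hkY : n k ∉ Y := by
          intro hkY
          apply hc2
          apply hleg k hkB
          · intro _; right; rw [htn k hkB]; exact hkY
          · intro hkE
            have h3 : hh k ∈ Y := by
              by_contra hcon
              have h4 : hh k ∈ Nb H Y := by
                refine (hYN (t k) (by rw [htn k hkB]; exact hkY) _ (aht k hkE).symm).resolve_left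
                  hcon
              exact huY (hA k hkE h4).1
            exact ⟨Or.inr h3, Or.inl h3⟩
        have hkN : n k ∈ Nb H Y \ {u} :=
          ⟨hc1.resolve_left hkY, fun h3 => huN ((Set.mem_singleton_iff.1 h3) ▸ h.nN k)⟩
        rw [Set.insert_eq_of_mem hkN] at hNX2
        have hc2' := Set.ncard_le_ncard hNX2 (Set.toFinite _)
        have hX2 : 2 ≤ X.ncard := h.bm.two.trans (Set.ncard_le_ncard hMX (Set.toFinite _))
        have hrest := h.bm.pre.conn X hXU hX2 (by omega)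
        -- the second separator vertex
        obtain ⟨z, hz⟩ := Set.ncard_eq_one.1 (by
          have := Set.ncard_sdiff_singleton_add_one hkN (Set.toFinite _)
          omega : ((Nb H Y \ {u}) \ {n k}).ncard = 1)
        have hNz : ∀ v ∈ Nb G X, v = n k ∨ v = z := by
          intro v hv
          by_cases hvk : v = n k
          · exact Or.inl hvk
          · right
            have : v ∈ (Nb H Y \ {u}) \ {n k} := ⟨hNX2 hv, hvk⟩
            rw [hz] at this
            exact this
        apply h.bm.ind3 (n k) z (fun v => if v ∈ M then κ v + δ else κ1 v)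
        set g : V → ZMod 2 := fun v => if v ∈ M then κ v + δ else κ1 v with hg
        have gM : ∀ v ∈ M, g v = κ v + δ := fun v hv => if_pos hv
        have gN : ∀ v, v ∉ M → g v = κ1 v := fun v hv => if_neg hv
        have gn : ∀ l, n l ≠ n k → g (n l) = κ (n l) + δ := by
          intro l hl
          rw [gN _ (h.nM l)]
          rcases hk l with rfl | rfl | rfl
          · exact (hin l hi.1 hi.2).1
          · exact (hin l hj.1 hj.2).1
          · exact absurd rfl hl
        have hside : ∀ a b, a ∈ X → a ≠ n k → b ≠ n k → b ≠ z → G.Adj a b → g a ≠ g b := by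
          intro a b ha hak hbk hbz hab
          rcases ha with ⟨ha, haF⟩ | ha
          · have haM : a ∉ M := fun h1 => haF (hMF h1)
            rcases hYout a ha haF b hab with h3 | ⟨h4, h3⟩
            · obtain ⟨l, rfl⟩ := h.exists_n ⟨haM, b, h3, hab.symm⟩
              rw [gn l hak, gM b h3]
              intro h5
              exact h.bm.bal b _ h3 hab.symm (add_right_cancel h5).symm
            · rw [gN a haM, gN b (fun h5 => h4 (hMF h5))]
              exact hd.bal a b ha ((hs.adj_out haF h4).2 hab)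
          · rw [gM a ha]
            by_cases hbM : b ∈ M
            · rw [gM b hbM]
              intro h5
              exact h.bm.bal a b ha hab (add_right_cancel h5)
            · obtain ⟨l, rfl⟩ := h.exists_n ⟨hbM, a, ha, hab⟩
              rw [gn l hbk]
              intro h5
              exact h.bm.bal a _ ha hab (add_right_cancel h5)
        intro a b hak haz hbk hbz hab
        by_cases haX : a ∈ X
        · exact hside a b haX hak hbk hbz hab
        · by_cases hbX : b ∈ X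
          · exact (hside b a hbX hbk hak haz hab.symm).symm
          · exfalso
            have haR : a ∈ U \ (X ∪ Nb G X) := by
              refine ⟨h.bm.pre.edge_mem a b hab, ?_⟩
              rintro (h3 | h3)
              · exact haX h3
              · rcases hNz a h3 with h4 | h4
                · exact hak h4
                · exact haz h4
            have hbR : b ∈ U \ (X ∪ Nb G X) := by
              refine ⟨h.bm.pre.edge_mem b a hab.symm, ?_⟩
              rintro (h3 | h3)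
              · exact hbX h3
              · rcases hNz b h3 with h4 | h4
                · exact hbk h4
                · exact hbz h4
            have h3 : ({a, b} : Set V) ⊆ U \ (X ∪ Nb G X) := by
              rintro y (rfl | hy)
              · exact haR
              · rw [Set.mem_singleton_iff] at hy; rw [hy]; exact hbR
            have h4 := Set.ncard_le_ncard h3 (Set.toFinite _)
            rw [Set.ncard_pair hab.ne] at h4
            omega
    · -- (D1)
      have hYF' : ∀ y ∈ Y, y ∉ F := by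
        intro y hy hyF
        rcases hYF y hy hyF with h1 | ⟨i, hi, -, h1⟩
        · exact huY (h1 ▸ hy)
        · subst h1
          rcases hYN _ hy _ (auh i hi).symm with h2 | h2
          · exact huY h2
          · exact huNb h2
      have hYt : ∀ i, t i ∉ Y := by
        intro i hi
        rcases hs.OE i with h1 | h1
        · rcases hYN _ hi _ (aut i h1).symm with h2 | h2
          · exact huY h2
          · exact huNb h2
        · rcases hYN _ hi _ (aht i h1).symm with h2 | h2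
          · exact hYF' _ h2 (hs.hF i h1)
          · exact huY (hA i h1 h2).1
      have d1 : Disjoint Y F := by rw [Set.disjoint_left]; exact hYF'
      have d2 : Disjoint Y (Nb G F) := by
        rw [Set.disjoint_left, hs.nb]
        rintro _ hy ⟨i, rfl⟩
        exact hYt i hy
      obtain ⟨e1, e2, e3⟩ := hs.away_eq d1 d2
      have hYU : Y ⊆ U := fun y hy => hs.starLU_sub (hd.sub hy)
      have h5 := h.bm.sparse Y hYU hd.two (by rw [← e1]; exact hd.three) ?_ κ1 ?_
      · have h6 := hd.dense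
        rw [e1, e2] at h6
        linarith
      · refine ⟨u, h.bm.MU hu, ?_⟩
        rintro (h6 | ⟨-, y, hy, hyu⟩)
        · exact huY h6
        · exact (Set.disjoint_left.1 d2) hy ⟨hYF' y hy, u, huF, hyu.symm⟩
      · intro a b ha hab
        exact hd.bal a b ha ((e3 a b ha).2 hab)

end Pool.Agent.Helper82.TK
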