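import Pool.Agent.Helper82.TK.BalDens
import Pool.Agent.Helper82.TK.BalSparse
import Pool.Agent.Helper57.TOP.Defs

/-!
# P1' : balanced sets with three neighbours in a minimal counterexample

In a minimal counterexample a balanced set with at most three neighbours has at most one vertex of
degree at least three.
-/

set_option autoImplicit false

namespace Pool.Agent.Helper82.TK

open SimpleGraph Pool.Agent.Helper57.TOK Pool.Agent.Helper57.TD Pool.Agent.Helper57.TOP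

variable {V : Type*}

lemma balOn_one {G : SimpleGraph V} {κ : V → ZMod 2} {Y : Set V} :
    BalOn G (One V) Y κ ↔ PB G κ Y := by
  constructor
  · intro h u v hu huv
    exact add_eq_one_iff.1 (h u v hu huv).symm
  · intro h u v hu huv
    exact (add_eq_one_iff.2 (h u v hu huv)).symm

/-- A minimal counterexample has index at least three. -/
theorem gmin_ind3 [Finite V] {G : SimpleGraph V} {U : Set V} (hM : GMin G U) : Ind3 G := by
  intro z1 z2 κ hκ
  apply hM.bad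
  have h1 := hM.ex.index_two (z1 := z1) (z2 := z2) (κ := κ) (by
    intro u v hu hv huv
    have hu1 : u ≠ z1 := fun hh => hu (Or.inl hh)
    have hu2 : u ≠ z2 := fun hh => hu (Or.inr hh)
    have hv1 : v ≠ z1 := fun hh => hv (Or.inl hh)
    have hv2 : v ≠ z2 := fun hh => hv (Or.inr hh)
    exact (add_eq_one_iff.2 (hκ u v hu1 hu2 hv1 hv2 huv)).symm) theorem_goal
  rwa [hasTOK4_iff] at h1

lemma Ex3.toPre2 {G : SimpleGraph V} {U : Set V} (h : Ex3 G (One V) U) : Pre2 G U :=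
  ⟨h.edge_mem, h.deg2, h.conn⟩

/-- The rest of a balanced set with at most three neighbours has at least two vertices. -/
lemma Ind3.rest [Finite V] {G : SimpleGraph V} {U M : Set V} {κ : V → ZMod 2} (hi : Ind3 G)
    (hp : Pre2 G U) (hb : PB G κ M) (h3 : (Nb G M).ncard ≤ 3) (v0 : V) :
    2 ≤ (U \ (M ∪ Nb G M)).ncard := by
  classical
  by_contra hlt
  push Not at hlt
  -- three names
  obtain ⟨a, b, c, habc⟩ : ∃ a b c : V, ∀ y ∈ Nb G M, y = a ∨ y = b ∨ y = c := by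
    by_cases hne : (Nb G M).ncard ≤ 2
    · by_cases h0 : (Nb G M).ncard = 0
      · rw [Set.ncard_eq_zero (Set.toFinite _)] at h0
        exact ⟨v0, v0, v0, fun y hy => absurd (h0 ▸ hy) (Set.notMem_empty y)⟩
      · by_cases h1 : (Nb G M).ncard = 1
        · obtain ⟨a, ha⟩ := Set.ncard_eq_one.1 h1
          exact ⟨a, a, a, fun y hy => Or.inl (by rw [ha] at hy; exact hy)⟩
        · obtain ⟨a, b, -, ha⟩ := Set.ncard_eq_two.1 (by omega : (Nb G M).ncard = 2)
          refine ⟨a, b, b, fun y hy => ?_⟩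
          rw [ha] at hy
          rcases hy with hy | hy
          · exact Or.inl hy
          · exact Or.inr (Or.inl hy)
    · obtain ⟨a, b, c, -, -, -, ha⟩ := Set.ncard_eq_three.1 (by omega : (Nb G M).ncard = 3)
      refine ⟨a, b, c, fun y hy => ?_⟩
      rw [ha] at hy
      exact hy
  obtain ⟨r, hr⟩ : ∃ r : V, ∀ y ∈ U \ (M ∪ Nb G M), y = r := by
    by_cases h0 : (U \ (M ∪ Nb G M)).ncard = 0
    · rw [Set.ncard_eq_zero (Set.toFinite _)] at h0
      exact ⟨a, fun y hy => absurd (h0 ▸ hy) (Set.notMem_empty y)⟩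
    · obtain ⟨r, hr⟩ := Set.ncard_eq_one.1 (by omega : (U \ (M ∪ Nb G M)).ncard = 1)
      exact ⟨r, fun y hy => by rw [hr] at hy; exact hy⟩
  set R := U \ (M ∪ Nb G M) with hR
  refine hi a b (fun v => if v ∈ R then κ c + 1 else κ v) ?_
  have hadd : ∀ a : ZMod 2, a ≠ a + 1 := by decide
  have kM : ∀ v w, v ∈ M → G.Adj v w →
      (if v ∈ R then κ c + 1 else κ v) ≠ (if w ∈ R then κ c + 1 else κ w) := by
    intro v w hv hvw
    have h1 : v ∉ R := fun hh => hh.2 (Or.inl hv)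
    have h2 : w ∉ R := by
      intro hh
      apply hh.2
      by_cases hw : w ∈ M
      · exact Or.inl hw
      · exact Or.inr ⟨hw, v, hv, hvw⟩
    rw [if_neg h1, if_neg h2]
    exact hb v w hv hvw
  intro v w hv1 hv2 hw1 hw2 hvw
  by_cases hvM : v ∈ M
  · exact kM v w hvM hvw
  by_cases hwM : w ∈ M
  · exact (kM w v hwM hvw.symm).symm
  have hvU := hp.edge_mem v w hvw
  have hwU := hp.edge_mem w v hvw.symm
  have cls : ∀ y ∈ U, y ∉ M → y ≠ a → y ≠ b → (y = c ∧ y ∈ Nb G M) ∨ (y = r ∧ y ∈ R) := by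
    intro y hyU hyM hya hyb
    by_cases hyN : y ∈ Nb G M
    · rcases habc y hyN with h1 | h1 | h1
      · exact absurd h1 hya
      · exact absurd h1 hyb
      · exact Or.inl ⟨h1, hyN⟩
    · have : y ∈ R := ⟨hyU, fun hh => by
        rcases hh with hh | hh
        · exact hyM hh
        · exact hyN hh⟩
      exact Or.inr ⟨hr y this, this⟩
  rcases cls v hvU hvM hv1 hv2 with ⟨h1, h1'⟩ | ⟨h1, h1'⟩ <;>
    rcases cls w hwU hwM hw1 hw2 with ⟨h2, h2'⟩ | ⟨h2, h2'⟩
  · exact absurd (h1.trans h2.symm) hvw.ne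
  · have h3 : v ∉ R := fun hh => hh.2 (Or.inr h1')
    rw [if_neg h3, if_pos h2', h1]
    exact hadd _
  · have h3 : w ∉ R := fun hh => hh.2 (Or.inr h2')
    rw [if_pos h1', if_neg h3, h2]
    exact (hadd _).symm
  · exact absurd (h1.trans h2.symm) hvw.ne

/-- **P1'.** -/
theorem gmin_no_two_real [Finite V] {G : SimpleGraph V} {U : Set V} (hM : GMin G U) {Y : Set V}
    (hYU : Y ⊆ U) {κ : V → ZMod 2} (hb : PB G κ Y) (h3 : (Nb G Y).ncard ≤ 3) {r1 r2 : V}
    (h1 : r1 ∈ Y) (h2 : r2 ∈ Y) (hne : r1 ≠ r2) (hd1 : 3 ≤ (G.neighborSet r1).ncard)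
    (hd2 : 3 ≤ (G.neighborSet r2).ncard) : False := by
  classical
  have hp := Ex3.toPre2 hM.ex
  have hi := gmin_ind3 hM
  -- a maximal set
  let Q : ℕ → Prop := fun k => ∃ X : Set V, ∃ κ' : V → ZMod 2, Y ⊆ X ∧ X ⊆ U ∧ PB G κ' X ∧
    (Nb G X).ncard ≤ 3 ∧ X.ncard + k = U.ncard
  have hQ : ∃ k, Q k := by
    refine ⟨U.ncard - Y.ncard, Y, κ, subset_rfl, hYU, hb, h3, ?_⟩
    have := Set.ncard_le_ncard hYU (Set.toFinite _)
    omega
  obtain ⟨M, κ', hYM, hMU, hMb, hM3, hMc⟩ := Nat.find_spec hQ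
  have hmax : ∀ X, M ⊆ X → X ⊆ U → X ≠ M → ∀ κ'', PB G κ'' X → 4 ≤ (Nb G X).ncard := by
    intro X hMX hXU hXM κ'' hXb
    by_contra hlt
    push Not at hlt
    have hss : M ⊂ X := lt_of_le_of_ne hMX hXM.symm
    have hc := Set.ncard_lt_ncard hss (Set.toFinite _)
    have hc2 := Set.ncard_le_ncard hXU (Set.toFinite _)
    have := Nat.find_min' hQ (m := U.ncard - X.ncard)
      ⟨X, κ'', hYM.trans hMX, hXU, hXb, by omega, by omega⟩
    omega
  have hM2 : 2 ≤ M.ncard := by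
    have h4 : ({r1, r2} : Set V) ⊆ M := by
      rintro y (rfl | hy)
      · exact hYM h1
      · rw [Set.mem_singleton_iff] at hy; rw [hy]; exact hYM h2
    have h5 := Set.ncard_le_ncard h4 (Set.toFinite _)
    rwa [Set.ncard_pair hne] at h5
  have hrest := hi.rest hp hMb hM3 r1
  have hM3' : (Nb G M).ncard = 3 := by
    by_contra hne3
    have := hp.conn M hMU hM2 (by omega)
    omega
  have hBM : BalMax G U M κ' := by
    refine ⟨hp, hi, ?_, ?_, hMU, hMb, hM2, hM3', hrest, hmax⟩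
    · intro Y' hY' hY2 hN3 hR κ'' hκ''
      have h4 := hM.ex.sparse Y' hY' hY2 hN3 hR κ'' (balOn_one.2 hκ'')
      rwa [odG_one] at h4
    · have h4 := hM.ex.dens
      rwa [odG_one] at h4
  obtain ⟨u, hu, hdeg, hf⟩ := hBM.exists_centre ⟨r1, hYM h1, hd1⟩
  have hr : ∃ r ∈ M, r ≠ u ∧ 3 ≤ (G.neighborSet r).ncard := by
    by_cases h4 : r1 = u
    · exact ⟨r2, hYM h2, fun h5 => hne (h4.trans h5.symm), hd2⟩
    · exact ⟨r1, hYM h1, h4, hd1⟩
  obtain ⟨n, P, hP⟩ := hBM.exists_fan hu hdeg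
  obtain ⟨m, x, B, hBD⟩ := hBM.exists_BD hP.ninj hP.nrange
  obtain ⟨hh, hs, hhB, hhM, hhD⟩ := hBD.exists_star hP hu
  have hp' := hs.pre2' hp hBD.F_two hBD.goodB
  have hex : Ex3 (starL G (FB M n m B) u (tB n x B) hh (OB κ' n u B) (EB κ' n u B)) (One V)
      (starLU U (FB M n m B) u hh (EB κ' n u B)) := by
    refine ⟨hp'.edge_mem, hp'.deg2, hp'.conn, ?_, ?_, ?_⟩
    · rw [odG_one]
      exact hs.dens hBM.dens (hBD.fden_le hf)
    · intro w κ1 hκ1
      refine hBD.index2 hs w κ1 ?_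
      intro a b ha hb' hab
      exact add_eq_one_iff.1 (hκ1 a b ha hb' hab).symm
    · intro Y' hY' hY2 hN3 hR κ'' hκ''
      rw [odG_one]
      by_contra hlt
      push Not at hlt
      exact hBD.no_dense hu hs hhB (fun i hi hiB => (hhM i hi hiB).1)
        ⟨Y', κ'', hY', hY2, hN3, hR, balOn_one.1 hκ'', hlt⟩
  have hT := hM.IH _ _ hex (Or.inl (hBD.card_lt hu hdeg hf hr hP hs hhM))
  exact hM.bad (hs.lift (hBD.legs hP hu) hT)

/-- P1' in cardinality form. -/
theorem gmin_real_le_one [Finite V] {G : SimpleGraph V} {U : Set V} (hM : GMin G U) {Y : Set V}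
    (hYU : Y ⊆ U) {κ : V → ZMod 2} (hb : PB G κ Y) (h3 : (Nb G Y).ncard ≤ 3) :
    {y | y ∈ Y ∧ 3 ≤ (G.neighborSet y).ncard}.ncard ≤ 1 := by
  by_contra hlt
  push Not at hlt
  obtain ⟨r1, h1, r2, h2, hne⟩ := (Set.one_lt_ncard (Set.toFinite _)).1 hlt
  exact gmin_no_two_real hM hYU hb h3 h1.1 h2.1 hne h1.2 h2.2

end Pool.Agent.Helper82.TK
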