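import Pool.Agent.Helper82.TK.HFrame

/-!
# Vertices of degree two in a minimal counterexample: the two cases
-/

set_option autoImplicit false

namespace Pool.Agent.Helper82.TK

open SimpleGraph Pool.Agent.Helper57.TOK Pool.Agent.Helper57.TD Pool.Agent.Helper57.TOP
open Pool.Agent.Helper1.GL

variable {V : Type*}

section

variable {G : SimpleGraph V} {U : Set V} {h p q : V}

lemma delV_Nb {Y : Set V} (hY : h ∉ Y) : Nb (delV G h) Y = Nb G Y \ {h} := by
  ext v
  constructor
  · rintro ⟨h1, y, hy, h2⟩
    exact ⟨⟨h1, y, hy, h2.1⟩, h2.2.2⟩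
  · rintro ⟨⟨h1, y, hy, h2⟩, h3⟩
    exact ⟨h1, y, hy, h2, fun h4 => hY (h4 ▸ hy), h3⟩

lemma Hand.mem_Nb (hh : Hand G h p q) {Y : Set V} (hY : h ∉ Y) :
    h ∈ Nb G Y ↔ p ∈ Y ∨ q ∈ Y := by
  constructor
  · rintro ⟨-, y, hy, h2⟩
    rcases hh.adj.1 h2.symm with h3 | h3
    · exact Or.inl (h3 ▸ hy)
    · exact Or.inr (h3 ▸ hy)
  · rintro (h1 | h1)
    · exact ⟨hY, p, h1, hh.hp.symm⟩
    · exact ⟨hY, q, h1, hh.hq.symm⟩

/-- Adding `h` to a set. -/
lemma delV_fden_insert [Finite V] (hh : Hand G h p q) {Y : Set V} (hY : h ∉ Y) :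
    fden G (insert h Y) = fden (delV G h) Y := by
  classical
  have h1 : EAt G (insert h Y) = EAt (delV G h) Y ∪ {s(h, p), s(h, q)} := by
    ext e
    induction e using Sym2.ind with
    | _ x y =>
      constructor
      · intro hxy
        have hxy' : G.Adj x y := hxy.1
        have hmem := (mem_EAt.1 hxy).2
        by_cases hx : x = h
        · right
          subst hx
          rcases hh.adj.1 hxy' with h1 | h1
          · exact Or.inl (by rw [h1])
          · exact Or.inr (by rw [Set.mem_singleton_iff, h1])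
        · by_cases hy : y = h
          · right
            subst hy
            rcases hh.adj.1 hxy'.symm with h1 | h1
            · exact Or.inl (by rw [h1, Sym2.eq_swap])
            · exact Or.inr (by rw [Set.mem_singleton_iff, h1, Sym2.eq_swap])
          · left
            rw [mem_EAt]
            refine ⟨⟨hxy', hx, hy⟩, ?_⟩
            rcases hmem with h1 | h1
            · exact Or.inl (h1.resolve_left hx)
            · exact Or.inr (h1.resolve_left hy)
      · rintro (h1 | h1 | h1)
        · rw [mem_EAt] at h1 ⊢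
          refine ⟨h1.1.1, ?_⟩
          rcases h1.2 with h2 | h2
          · exact Or.inl (Or.inr h2)
          · exact Or.inr (Or.inr h2)
        · rw [h1, mem_EAt]; exact ⟨hh.hp, Or.inl (Or.inl rfl)⟩
        · rw [Set.mem_singleton_iff] at h1
          rw [h1, mem_EAt]; exact ⟨hh.hq, Or.inl (Or.inl rfl)⟩
  have h2 : Disjoint (EAt (delV G h) Y) ({s(h, p), s(h, q)} : Set (Sym2 V)) := by
    rw [Set.disjoint_left]
    rintro e he (h1 | h1)
    · rw [h1, mem_EAt] at he
      exact he.1.2.1 rfl
    · rw [Set.mem_singleton_iff] at h1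
      rw [h1, mem_EAt] at he
      exact he.1.2.1 rfl
  have h3 : s(h, p) ≠ s(h, q) := by
    intro h4
    rw [Sym2.eq_iff] at h4
    rcases h4 with h4 | h4
    · exact hh.ne h4.2
    · exact hh.hp.ne h4.2.symm
  unfold fden rho
  rw [h1, Set.ncard_union_eq h2 (Set.toFinite _) (Set.toFinite _), Set.ncard_pair h3,
    Set.ncard_insert_of_notMem hY (Set.toFinite _)]
  push_cast
  ring

lemma delV_fden [Finite V] (hh : Hand G h p q) {Y : Set V} (hY : h ∉ Y) :
    fden (delV G h) Y = fden G Y + (({p, q} \ Y : Set V).ncard : ℤ) - 2 := by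
  rw [← delV_fden_insert hh hY, fden_insert G hY, hh.nb]

lemma delV_PB_none (hh : Hand G h p q) {Y : Set V} {κ : V → ZMod 2} (hY : h ∉ Y) (hp : p ∉ Y)
    (hq : q ∉ Y) (hb : PB (delV G h) κ Y) : PB G κ Y := by
  intro x y hx hxy
  refine hb x y hx ⟨hxy, fun h1 => hY (h1 ▸ hx), ?_⟩
  rintro rfl
  rcases hh.adj.1 hxy.symm with h1 | h1
  · exact hp (h1 ▸ hx)
  · exact hq (h1 ▸ hx)

lemma delV_PB_one [DecidableEq V] (hh : Hand G h p q) {Y : Set V} {κ : V → ZMod 2} (hY : h ∉ Y)
    (hq : q ∉ Y) (hb : PB (delV G h) κ Y) :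
    PB G (Function.update κ h (κ p + 1)) Y := by
  intro x y hx hxy
  have hxh : x ≠ h := fun h1 => hY (h1 ▸ hx)
  rw [Function.update_of_ne hxh]
  by_cases hyh : y = h
  · subst hyh
    rw [Function.update_self]
    rcases hh.adj.1 hxy.symm with h1 | h1
    · rw [h1]
      generalize κ p = a
      revert a; decide
    · exact absurd (h1 ▸ hx) hq
  · rw [Function.update_of_ne hyh]
    exact hb x y hx ⟨hxy, hxh, hyh⟩

lemma delV_PB_both [DecidableEq V] (hh : Hand G h p q) {Y : Set V} {κ : V → ZMod 2} (hY : h ∉ Y)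
    (hc : κ p = κ q) (hb : PB (delV G h) κ Y) :
    PB G (Function.update κ h (κ p + 1)) (insert h Y) := by
  have hpq : ∀ y, G.Adj h y → Function.update κ h (κ p + 1) h ≠
      Function.update κ h (κ p + 1) y := by
    intro y hy
    rw [Function.update_self, Function.update_of_ne hy.ne']
    rcases hh.adj.1 hy with h1 | h1
    · rw [h1]
      generalize κ p = a
      revert a; decide
    · rw [h1, hc]
      generalize κ q = a
      revert a; decide
  intro x y hx hxy
  by_cases hxh : x = h
  · subst hxh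
    exact hpq y hxy
  · by_cases hyh : y = h
    · subst hyh
      exact (hpq x hxy.symm).symm
    · rw [Function.update_of_ne hxh, Function.update_of_ne hyh]
      exact hb x y (hx.resolve_left hxh) ⟨hxy, hxh, hyh⟩

/-- A violation of connectivity in `G - h` is a mixed cut (for one order of `p`, `q`). -/
lemma gmin_mix_of [Finite V] (hM : GMin G U) (hU : h ∈ U) (hh : Hand G h p q) {Y : Set V}
    (hYU : Y ⊆ U) (hY : h ∉ Y) (hp : p ∈ Y) (hqY : q ∉ Y) (hqN : q ∉ Nb (delV G h) Y)
    (h2 : 2 ≤ Y.ncard) (hN : (Nb (delV G h) Y).ncard ≤ 2)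
    (hr : 2 ≤ ((U \ {h}) \ (Y ∪ Nb (delV G h) Y)).ncard) :
    ∃ a b, Mix G U h p q a b Y ((U \ {h}) \ (Y ∪ Nb (delV G h) Y)) := by
  classical
  set B : Set V := (U \ {h}) \ (Y ∪ Nb (delV G h) Y) with hB
  set N := Nb (delV G h) Y with hNdef
  have hNU : N ⊆ U := fun x hx => by
    obtain ⟨-, y, hy, h1⟩ := hx
    exact hM.ex.edge_mem x y h1.1.symm
  have hhN : h ∉ N := fun hx => by
    obtain ⟨-, y, hy, h1⟩ := hx
    exact h1.2.2 rfl
  have hqU : q ∈ U := hM.ex.edge_mem q h hh.hq.symm
  have hpU : p ∈ U := hM.ex.edge_mem p h hh.hp.symm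
  have hqB : q ∈ B := ⟨⟨hqU, hh.hq.ne'⟩, by
    rintro (h1 | h1)
    · exact hqY h1
    · exact hqN h1⟩
  have hYB : ∀ y ∈ Y, ∀ b ∈ B, ¬ G.Adj y b := by
    intro y hy b hb hyb
    apply hb.2
    right
    exact ⟨fun h1 => hb.2 (Or.inl h1), y, hy, hyb, fun h1 => hY (h1 ▸ hy), hb.1.2⟩
  have hcov : ∀ x ∈ U, x ∈ Y ∨ x ∈ B ∨ x ∈ N ∨ x = h := by
    intro x hx
    by_cases h1 : x = h
    · exact Or.inr (Or.inr (Or.inr h1))
    by_cases h3 : x ∈ Y
    · exact Or.inl h3
    by_cases h4 : x ∈ N
    · exact Or.inr (Or.inr (Or.inl h4))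
    · refine Or.inr (Or.inl ⟨⟨hx, h1⟩, ?_⟩)
      rintro (h5 | h5)
      · exact h3 h5
      · exact h4 h5
  have hpB : p ∉ B := fun h1 => h1.2 (Or.inl hp)
  -- neighbours of `B ∪ {h}`
  have hNB : ∀ C : Set V, (∀ x ∈ N, x ∉ C → ∀ b ∈ B, ¬ G.Adj b x) →
      Nb G (insert h B) ⊆ insert p (N ∩ C) := by
    rintro C hC v ⟨hv, y, hy, hyv⟩
    rcases hy with rfl | hy
    · rcases hh.adj.1 hyv with h1 | h1
      · exact Or.inl h1
      · exact absurd (Or.inr (h1 ▸ hqB)) hv
    · have hvU : v ∈ U := hM.ex.edge_mem v y hyv.symm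
      rcases hcov v hvU with h1 | h1 | h1 | h1
      · exact absurd hyv.symm (hYB v h1 y hy)
      · exact absurd (Or.inr h1) hv
      · by_cases h3 : v ∈ C
        · exact Or.inr ⟨h1, h3⟩
        · exact absurd hyv (hC v h1 h3 y hy)
      · exact absurd (Or.inl h1) hv
  have hNY : Nb G (insert h Y) ⊆ insert q N := by
    rintro v ⟨hv, y, hy, hyv⟩
    rcases hy with rfl | hy
    · rcases hh.adj.1 hyv with h1 | h1
      · exact absurd (Or.inr (h1 ▸ hp)) hv
      · exact Or.inl h1
    · right
      exact ⟨fun h1 => hv (Or.inr h1), y, hy, hyv, fun h1 => hY (h1 ▸ hy),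
        fun h1 => hv (Or.inl h1)⟩
  have hhB : h ∉ B := fun h1 => h1.1.2 rfl
  have hBU : B ⊆ U := fun x hx => hx.1.1
  have hBh : insert h B ⊆ U := by
    rintro x (rfl | hx)
    · exact hU
    · exact hBU hx
  have hYh : insert h Y ⊆ U := by
    rintro x (rfl | hx)
    · exact hU
    · exact hYU hx
  -- small separators
  have hYp : (Y \ {p}).ncard + 1 = Y.ncard := Set.ncard_sdiff_singleton_add_one hp (Set.toFinite _)
  have hBq : (B \ {q}).ncard + 1 = B.ncard := Set.ncard_sdiff_singleton_add_one hqB (Set.toFinite _)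
  have sepB : ∀ C : Set V, (∀ x ∈ N, x ∉ C → ∀ b ∈ B, ¬ G.Adj b x) → (N ∩ C).ncard ≤ 1 →
      ∀ D ⊆ U, Disjoint D (insert h B) → Disjoint D (insert p (N ∩ C)) → D.ncard ≤ 1 := by
    intro C hC hC1 D hDU hD1 hD2
    have h3 : (Nb G (insert h B)).ncard ≤ 2 := by
      refine (Set.ncard_le_ncard (hNB C hC) (Set.toFinite _)).trans ?_
      have := Set.ncard_insert_le p (N ∩ C)
      omega
    have h4 : 2 ≤ (insert h B).ncard := by
      rw [Set.ncard_insert_of_notMem hhB (Set.toFinite _)]
      omega
    have h5 := hM.ex.conn (insert h B) hBh h4 h3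
    refine (Set.ncard_le_ncard (?_ : D ⊆ _) (Set.toFinite _)).trans h5
    intro x hx
    refine ⟨hDU hx, ?_⟩
    rintro (h6 | h6)
    · exact (Set.disjoint_left.1 hD1) hx h6
    · exact (Set.disjoint_left.1 hD2) hx (hNB C hC h6)
  by_cases hN1 : N.ncard ≤ 1
  · exfalso
    obtain ⟨b, hb⟩ : ∃ b : V, ∀ x ∈ N, x = b := by
      by_cases h0 : N.ncard = 0
      · rw [Set.ncard_eq_zero (Set.toFinite _)] at h0
        exact ⟨p, fun y hy => absurd (h0 ▸ hy) (Set.notMem_empty y)⟩
      · obtain ⟨b, hb⟩ := Set.ncard_eq_one.1 (by omega : N.ncard = 1)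
        exact ⟨b, fun y hy => by rw [hb] at hy; exact hy⟩
    have hY1 : (Y \ {p}).ncard ≤ 1 := by
      refine sepB N (fun x hx hx' => absurd hx hx') (by rw [Set.inter_self]; exact hN1) _
        (fun x hx => hYU hx.1) ?_ ?_
      · rw [Set.disjoint_left]
        rintro x ⟨hx, hx'⟩ (h3 | h3)
        · exact hY (h3 ▸ hx)
        · exact h3.2 (Or.inl hx)
      · rw [Set.disjoint_left]
        rintro x ⟨hx, hx'⟩ (h3 | h3)
        · exact hx' h3
        · exact h3.1.1 hx
    have hB1 : (B \ {q}).ncard ≤ 1 := by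
      have h3 : (Nb G (insert h Y)).ncard ≤ 2 := by
        refine (Set.ncard_le_ncard hNY (Set.toFinite _)).trans ?_
        have := Set.ncard_insert_le q N
        omega
      have h4 : 2 ≤ (insert h Y).ncard := by
        rw [Set.ncard_insert_of_notMem hY (Set.toFinite _)]
        omega
      have h5 := hM.ex.conn (insert h Y) hYh h4 h3
      refine (Set.ncard_le_ncard (?_ : B \ {q} ⊆ _) (Set.toFinite _)).trans h5
      rintro x ⟨hx, hx'⟩
      refine ⟨hBU hx, ?_⟩
      rintro ((h6 | h6) | h6)
      · exact hhB (h6 ▸ hx)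
      · exact hx.2 (Or.inl h6)
      · rcases hNY h6 with h7 | h7
        · exact hx' h7
        · exact hx.2 (Or.inr h7)
    obtain ⟨y0, hy0⟩ : ∃ y0 : V, ∀ x ∈ Y, x ≠ p → x = y0 := by
      obtain ⟨y0, hy0⟩ := Set.ncard_eq_one.1 (by omega : (Y \ {p}).ncard = 1)
      exact ⟨y0, fun x hx hxp => by
        have : x ∈ Y \ {p} := ⟨hx, hxp⟩
        rw [hy0] at this; exact this⟩
    obtain ⟨z0, hz0⟩ : ∃ z0 : V, ∀ x ∈ B, x ≠ q → x = z0 := by
      obtain ⟨z0, hz0⟩ := Set.ncard_eq_one.1 (by omega : (B \ {q}).ncard = 1)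
      exact ⟨z0, fun x hx hxp => by
        have : x ∈ B \ {q} := ⟨hx, hxp⟩
        rw [hz0] at this; exact this⟩
    refine gmin_ind3 hM b b (fun v => if v = p ∨ v = q then 0 else 1) ?_
    intro v w hv _ hw _ hvw
    have hvU := hM.ex.edge_mem v w hvw
    have hwU := hM.ex.edge_mem w v hvw.symm
    show (if v = p ∨ v = q then (0 : ZMod 2) else 1) ≠ (if w = p ∨ w = q then 0 else 1)
    by_cases h3 : v = p ∨ v = q <;> by_cases h4 : w = p ∨ w = q
    · exfalso
      rcases h3 with h3 | h3 <;> rcases h4 with h4 | h4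
      · exact hvw.ne (h3.trans h4.symm)
      · exact hYB p hp q hqB (h3 ▸ h4 ▸ hvw)
      · exact hYB p hp q hqB (h3 ▸ h4 ▸ hvw.symm)
      · exact hvw.ne (h3.trans h4.symm)
    · rw [if_pos h3, if_neg h4]; decide
    · rw [if_neg h3, if_pos h4]; decide
    · exfalso
      have cls : ∀ x ∈ U, x ≠ b → ¬ (x = p ∨ x = q) → (x ∈ Y ∧ x = y0) ∨ (x ∈ B ∧ x = z0) ∨
          x = h := by
        intro x hxU hxb hxpq
        rcases hcov x hxU with h5 | h5 | h5 | h5
        · exact Or.inl ⟨h5, hy0 x h5 (fun h6 => hxpq (Or.inl h6))⟩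
        · exact Or.inr (Or.inl ⟨h5, hz0 x h5 (fun h6 => hxpq (Or.inr h6))⟩)
        · exact absurd (hb x h5) hxb
        · exact Or.inr (Or.inr h5)
      rcases cls v hvU hv h3 with ⟨h5, h6⟩ | ⟨h5, h6⟩ | h5 <;>
        rcases cls w hwU hw h4 with ⟨h7, h8⟩ | ⟨h7, h8⟩ | h7
      · exact hvw.ne (h6.trans h8.symm)
      · exact hYB v h5 w h7 hvw
      · exact h3 (hh.adj.1 (h7 ▸ hvw.symm))
      · exact hYB w h7 v h5 hvw.symm
      · exact hvw.ne (h6.trans h8.symm)
      · exact h3 (hh.adj.1 (h7 ▸ hvw.symm))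
      · exact h4 (hh.adj.1 (h5 ▸ hvw))
      · exact h4 (hh.adj.1 (h5 ▸ hvw))
      · exact h4 (hh.adj.1 (h5 ▸ hvw))
  · obtain ⟨a, b, hab, hNab⟩ := Set.ncard_eq_two.1 (by omega : N.ncard = 2)
    have hattB : ∀ a b, N = {a, b} → a ≠ b → ∃ y ∈ B, G.Adj y a := by
      intro a b hNab hab
      by_contra hcon
      push Not at hcon
      have h3 := sepB {b} (fun x hx hxb y hy hyx => by
          rw [hNab] at hx
          rcases hx with h4 | h4
          · exact hcon y hy (h4 ▸ hyx)
          · exact hxb h4) ?_ (insert a (Y \ {p})) ?_ ?_ ?_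
      · have h4 : a ∉ Y \ {p} := by
          intro h5
          have h6 : a ∈ N := by rw [hNab]; exact Or.inl rfl
          exact h6.1 h5.1
        rw [Set.ncard_insert_of_notMem h4 (Set.toFinite _)] at h3
        omega
      · exact (Set.ncard_le_ncard Set.inter_subset_right (Set.toFinite _)).trans
          (by rw [Set.ncard_singleton])
      · rintro x (rfl | hx)
        · exact hNU (by rw [hNab]; exact Or.inl rfl)
        · exact hYU hx.1
      · rw [Set.disjoint_left]
        have haN : a ∈ N := by rw [hNab]; exact Or.inl rfl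
        rintro x (rfl | ⟨hx, hx'⟩) (h5 | h5)
        · exact hhN (h5 ▸ haN)
        · exact h5.2 (Or.inr haN)
        · exact hY (h5 ▸ hx)
        · exact h5.2 (Or.inl hx)
      · rw [Set.disjoint_left]
        rintro x (rfl | ⟨hx, hx'⟩) (h5 | h5)
        · have h6 : x ∈ N := by rw [hNab]; exact Or.inl rfl
          exact h6.1 (h5 ▸ hp)
        · exact hab h5.2
        · exact hx' h5
        · exact h5.1.1 hx
    refine ⟨a, b, hh, hU, hYU, hBU, ?_, hY, hhB, hab, hp, hqB, h2, hr, ?_, ?_, ?_⟩
    · rw [Set.disjoint_left]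
      intro x hx hx'
      exact hx'.2 (Or.inl hx)
    · have h3 : N = Nb G Y \ {h} := delV_Nb hY
      have h4 : h ∈ Nb G Y := (hh.mem_Nb hY).2 (Or.inl hp)
      ext x
      constructor
      · intro hx
        by_cases hxh : x = h
        · exact Or.inr (Or.inr hxh)
        · have h5 : x ∈ N := by rw [h3]; exact ⟨hx, hxh⟩
          rw [hNab] at h5
          rcases h5 with h5 | h5
          · exact Or.inl h5
          · exact Or.inr (Or.inl h5)
      · have h6 : N ⊆ Nb G Y := by rw [h3]; exact Set.sdiff_subset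
        rintro (h5 | h5 | h5)
        · exact h6 (by rw [hNab]; exact Or.inl h5)
        · exact h6 (by rw [hNab]; exact Or.inr h5)
        · rw [Set.mem_singleton_iff] at h5; rw [h5]; exact h4
    · obtain ⟨ya, hya, hya'⟩ := hattB a b hNab hab
      obtain ⟨yb, hyb, hyb'⟩ := hattB b a (by rw [hNab, Set.pair_comm]) hab.symm
      ext x
      constructor
      · rintro ⟨hx, y, hy, hyx⟩
        have hxU : x ∈ U := hM.ex.edge_mem x y hyx.symm
        rcases hcov x hxU with h5 | h5 | h5 | h5
        · exact absurd hyx.symm (hYB x h5 y hy)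
        · exact absurd h5 hx
        · rw [hNab] at h5
          rcases h5 with h5 | h5
          · exact Or.inl h5
          · exact Or.inr (Or.inl h5)
        · exact Or.inr (Or.inr h5)
      · have haN : a ∈ N := by rw [hNab]; exact Or.inl rfl
        have hbN : b ∈ N := by rw [hNab]; exact Or.inr rfl
        rintro (h5 | h5 | h5)
        · rw [h5]; exact ⟨fun h6 => h6.2 (Or.inr haN), ya, hya, hya'⟩
        · rw [h5]; exact ⟨fun h6 => h6.2 (Or.inr hbN), yb, hyb, hyb'⟩
        · rw [Set.mem_singleton_iff] at h5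
          rw [h5]; exact ⟨hhB, q, hqB, hh.hq.symm⟩
    · intro x hx
      rcases hcov x hx with h5 | h5 | h5 | h5
      · exact Or.inl h5
      · exact Or.inr (Or.inl h5)
      · rw [hNab] at h5
        rcases h5 with h5 | h5
        · exact Or.inr (Or.inr (Or.inl h5))
        · exact Or.inr (Or.inr (Or.inr (Or.inl h5)))
      · exact Or.inr (Or.inr (Or.inr (Or.inr h5)))

lemma Mix.swap {a b : V} {A B : Set V} (m : Mix G U h p q a b A B) : Mix G U h q p a b B A where
  hand := m.hand.symm
  hU := m.hU
  AU := m.BU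
  BU := m.AU
  AB := m.AB.symm
  hA := m.hB
  hB := m.hA
  ab := m.ab
  pA := m.qB
  qB := m.pA
  A2 := m.B2
  B2 := m.A2
  NA := m.NB
  NB := m.NA
  cover := fun x hx => by
    rcases m.cover x hx with h1 | h1 | h1
    · exact Or.inr (Or.inl h1)
    · exact Or.inl h1
    · exact Or.inr (Or.inr h1)

lemma beta_insert_le [Finite V] {κ κ' : V → ZMod 2} {N N' : Set V} (h3 : N.ncard = 3)
    (h4 : N'.ncard = 4) (hN : N ⊆ N') (hκ : ∀ x ∈ N, κ' x = κ x) :
    beta κ' N' ≤ beta κ N + 1 := by
  by_cases hm : Mono κ' N'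
  · have hm' : Mono κ N := by
      intro x hx y hy
      rw [← hκ x hx, ← hκ y hy]
      exact hm x (hN hx) y (hN hy)
    rw [beta_of_mono hm, beta_of_mono hm']
    omega
  · rw [beta_of_not_mono hm]
    by_cases hm' : Mono κ N
    · rw [beta_of_mono hm']; omega
    · rw [beta_of_not_mono hm']; omega

/-- **The two cases.** -/
theorem gmin_hand_cases [Finite V] (hM : GMin G U) (hU : h ∈ U) (hh : Hand G h p q) :
    (∃ a b A B, Mix G U h p q a b A B) ∨ (∃ Y κ, F2c G U h p q Y κ) := by
  classical
  by_contra hcon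
  push Not at hcon
  obtain ⟨hc1, hc2⟩ := hcon
  have hp3 := gmin_hand_real hM hU hh
  have hq3 := gmin_hand_real hM hU hh.symm
  have hpU : p ∈ U := hM.ex.edge_mem p h hh.hp.symm
  have hqU : q ∈ U := hM.ex.edge_mem q h hh.hq.symm
  have hex : Ex3 (delV G h) (One V) (U \ {h}) := by
    refine ⟨?_, ?_, ?_, ?_, ?_, ?_⟩
    · intro u v huv
      exact ⟨hM.ex.edge_mem u v huv.1, huv.2.1⟩
    · intro y hy
      rw [delV_nb y hy.2]
      by_cases h1 : h ∈ G.neighborSet y
      · have h2 := Set.ncard_sdiff_singleton_add_one h1 (Set.toFinite _)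
        rcases hh.adj.1 (SimpleGraph.Adj.symm h1) with h3 | h3
        · rw [h3] at h2 ⊢; omega
        · rw [h3] at h2 ⊢; omega
      · rw [Set.sdiff_singleton_eq_self h1]
        exact hM.ex.deg2 y hy.1
    · intro Y hY h2 hN
      by_contra hlt
      push Not at hlt
      have hYU : Y ⊆ U := fun x hx => (hY hx).1
      have hhY : h ∉ Y := fun hx => (hY hx).2 rfl
      set N := Nb (delV G h) Y with hNdef
      set B := (U \ {h}) \ (Y ∪ N) with hB
      by_cases hpY : p ∈ Y
      · by_cases hqY : q ∉ Y ∧ q ∉ N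
        · obtain ⟨a, b, hm⟩ := gmin_mix_of hM hU hh hYU hhY hpY hqY.1 hqY.2 h2 hN (by rw [← hNdef, ← hB]; omega)
          exact hc1 a b _ _ hm
        · -- add `h` to `Y`
          have h3 : Nb G (insert h Y) ⊆ N := by
            rintro v ⟨hv, y, hy, hyv⟩
            rcases hy with rfl | hy
            · rcases hh.adj.1 hyv with h1 | h1
              · exact absurd (Or.inr (h1 ▸ hpY)) hv
              · by_contra hvN
                exact hqY ⟨fun h4 => hv (Or.inr (h1 ▸ h4)), fun h4 => hvN (h1 ▸ h4)⟩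
            · exact ⟨fun h1 => hv (Or.inr h1), y, hy, hyv, fun h1 => hhY (h1 ▸ hy),
                fun h1 => hv (Or.inl h1)⟩
          have h4 := hM.ex.conn (insert h Y) (by
            rintro x (rfl | hx)
            · exact hU
            · exact hYU hx) (by
              rw [Set.ncard_insert_of_notMem hhY (Set.toFinite _)]; omega)
            ((Set.ncard_le_ncard h3 (Set.toFinite _)).trans hN)
          have h5 : B ⊆ U \ (insert h Y ∪ Nb G (insert h Y)) := by
            rintro x ⟨⟨hx1, hx2⟩, hx3⟩
            refine ⟨hx1, ?_⟩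
            rintro ((h6 | h6) | h6)
            · exact hx2 h6
            · exact hx3 (Or.inl h6)
            · exact hx3 (Or.inr (h3 h6))
          have h6 := Set.ncard_le_ncard h5 (Set.toFinite _)
          omega
      · by_cases hqY : q ∈ Y
        · by_cases hpN : p ∈ N
          · have h3 : Nb G (insert h Y) ⊆ N := by
              rintro v ⟨hv, y, hy, hyv⟩
              rcases hy with rfl | hy
              · rcases hh.adj.1 hyv with h1 | h1
                · rw [h1]; exact hpN
                · exact absurd (Or.inr (h1 ▸ hqY)) hv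
              · exact ⟨fun h1 => hv (Or.inr h1), y, hy, hyv, fun h1 => hhY (h1 ▸ hy),
                  fun h1 => hv (Or.inl h1)⟩
            have h4 := hM.ex.conn (insert h Y) (by
              rintro x (rfl | hx)
              · exact hU
              · exact hYU hx) (by
                rw [Set.ncard_insert_of_notMem hhY (Set.toFinite _)]; omega)
              ((Set.ncard_le_ncard h3 (Set.toFinite _)).trans hN)
            have h5 : B ⊆ U \ (insert h Y ∪ Nb G (insert h Y)) := by
              rintro x ⟨⟨hx1, hx2⟩, hx3⟩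
              refine ⟨hx1, ?_⟩
              rintro ((h6 | h6) | h6)
              · exact hx2 h6
              · exact hx3 (Or.inl h6)
              · exact hx3 (Or.inr (h3 h6))
            have h6 := Set.ncard_le_ncard h5 (Set.toFinite _)
            omega
          · obtain ⟨a, b, hm⟩ := gmin_mix_of hM hU hh.symm hYU hhY hqY hpY hpN h2 hN (by rw [← hNdef, ← hB]; omega)
            exact hc1 a b _ _ hm.swap
        · -- neither
          have h3 : Nb G Y = N := by
            rw [hNdef, delV_Nb hhY, Set.sdiff_singleton_eq_self]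
            rw [hh.mem_Nb hhY]
            rintro (h1 | h1)
            · exact hpY h1
            · exact hqY h1
          have h4 := hM.ex.conn Y hYU h2 (by rw [h3]; exact hN)
          have h5 : B ⊆ U \ (Y ∪ Nb G Y) := by
            rintro x ⟨⟨hx1, hx2⟩, hx3⟩
            rw [h3]
            exact ⟨hx1, hx3⟩
          have h6 := Set.ncard_le_ncard h5 (Set.toFinite _)
          omega
    · rw [odG_one]
      have h1 := delV_card_edges (G := G) hh
      have h2 := hM.ex.dens
      rw [odG_one] at h2
      have h3 := Set.ncard_sdiff_singleton_add_one hU (Set.toFinite _)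
      omega
    · intro w κ hκ
      refine gmin_ind3 hM w h κ ?_
      intro x y hx1 hx2 hy1 hy2 hxy
      exact add_eq_one_iff.1 (hκ x y hx1 hy1 ⟨hxy, hx2, hy2⟩).symm
    · intro Y hY h2 hN hr κ hκ
      rw [odG_one]
      by_contra hlt
      push Not at hlt
      have hb : PB (delV G h) κ Y := balOn_one.1 hκ
      have hYU : Y ⊆ U := fun x hx => (hY hx).1
      have hhY : h ∉ Y := fun hx => (hY hx).2 rfl
      have hfd := delV_fden hh hhY
      by_cases hpY : p ∈ Y <;> by_cases hqY : q ∈ Y
      · by_cases hc : κ p = κ q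
        · -- both, same colour
          have hb' := delV_PB_both hh hhY hc hb
          have hYh : insert h Y ⊆ U := by
            rintro x (rfl | hx)
            · exact hU
            · exact hYU hx
          have h3 : Nb G (insert h Y) ⊆ Nb (delV G h) Y := by
            rintro v ⟨hv, y, hy, hyv⟩
            rcases hy with rfl | hy
            · rcases hh.adj.1 hyv with h1 | h1
              · exact absurd (Or.inr (h1 ▸ hpY)) hv
              · exact absurd (Or.inr (h1 ▸ hqY)) hv
            · exact ⟨fun h1 => hv (Or.inr h1), y, hy, hyv, fun h1 => hhY (h1 ▸ hy),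
                fun h1 => hv (Or.inl h1)⟩
          exact gmin_no_two_real hM hYh hb'
            ((Set.ncard_le_ncard h3 (Set.toFinite _)).trans hN.le)
            (Or.inr hpY) (Or.inr hqY) hh.ne hp3 hq3
        · exact hc2 Y κ ⟨hh, hU, hYU, hhY, hpY, hqY, hN, hr, hb, hc, hlt⟩
      · -- only `p`
        have hb' := delV_PB_one hh hhY hqY hb
        have hmem : h ∈ Nb G Y := (hh.mem_Nb hhY).2 (Or.inl hpY)
        have hNe : Nb (delV G h) Y = Nb G Y \ {h} := delV_Nb hhY
        have hN4 : (Nb G Y).ncard = 4 := by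
          have := Set.ncard_sdiff_singleton_add_one hmem (Set.toFinite _)
          rw [← hNe] at this
          omega
        have h3 := gmin_P2 hM hYU hb' hN4
        have h4 := beta_insert_le (κ := κ) (κ' := Function.update κ h (κ p + 1)) hN hN4
          (by rw [hNe]; exact Set.sdiff_subset) (by
            intro x hx
            rw [hNe] at hx
            exact Function.update_of_ne hx.2 _ _)
        have h5 : ({p, q} \ Y : Set V) = {q} := by
          ext x
          constructor
          · rintro ⟨h6 | h6, h7⟩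
            · exact absurd (h6 ▸ hpY) h7
            · exact h6
          · intro h6
            rw [Set.mem_singleton_iff] at h6
            rw [h6]; exact ⟨Or.inr rfl, hqY⟩
        rw [h5, Set.ncard_singleton] at hfd
        push_cast at hfd
        omega
      · -- only `q`
        have hb' := delV_PB_one hh.symm hhY hpY hb
        have hmem : h ∈ Nb G Y := (hh.mem_Nb hhY).2 (Or.inr hqY)
        have hNe : Nb (delV G h) Y = Nb G Y \ {h} := delV_Nb hhY
        have hN4 : (Nb G Y).ncard = 4 := by
          have := Set.ncard_sdiff_singleton_add_one hmem (Set.toFinite _)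
          rw [← hNe] at this
          omega
        have h3 := gmin_P2 hM hYU hb' hN4
        have h4 := beta_insert_le (κ := κ) (κ' := Function.update κ h (κ q + 1)) hN hN4
          (by rw [hNe]; exact Set.sdiff_subset) (by
            intro x hx
            rw [hNe] at hx
            exact Function.update_of_ne hx.2 _ _)
        have h5 : ({p, q} \ Y : Set V) = {p} := by
          ext x
          constructor
          · rintro ⟨h6 | h6, h7⟩
            · exact h6
            · exact absurd (h6 ▸ hqY) h7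
          · intro h6
            rw [Set.mem_singleton_iff] at h6
            rw [h6]; exact ⟨Or.inl rfl, hpY⟩
        rw [h5, Set.ncard_singleton] at hfd
        push_cast at hfd
        omega
      · -- none
        have hb' := delV_PB_none hh hhY hpY hqY hb
        have h3 : Nb (delV G h) Y = Nb G Y := by
          rw [delV_Nb hhY, Set.sdiff_singleton_eq_self]
          rw [hh.mem_Nb hhY]
          rintro (h1 | h1)
          · exact hpY h1
          · exact hqY h1
        rw [h3] at hN hlt
        have h4 := gmin_P1 hM hYU hb' hN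
        have h5 : ({p, q} \ Y : Set V) = {p, q} := by
          ext x
          constructor
          · exact fun hx => hx.1
          · rintro (h6 | h6)
            · exact ⟨Or.inl h6, h6 ▸ hpY⟩
            · rw [Set.mem_singleton_iff] at h6
              exact ⟨Or.inr h6, h6 ▸ hqY⟩
        rw [h5, Set.ncard_pair hh.ne] at hfd
        push_cast at hfd
        omega
  have hsm : GSmaller (delV G h) (U \ {h}) G U := by
    left
    have := Set.ncard_sdiff_singleton_add_one hU (Set.toFinite _)
    omega
  exact hM.bad (HasTOK4s.mono (delV_le G h) (fun _ _ => rfl) (hM.IH _ _ hex hsm))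

end

end Pool.Agent.Helper82.TK
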