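import Pool.Agent.Helper82.TK.StarL

/-!
# Density of the star graph
-/

set_option autoImplicit false

namespace Pool.Agent.Helper82.TK

open SimpleGraph Pool.Agent.Helper57.TOK Pool.Agent.Helper57.TD

variable {V : Type*}

variable {G : SimpleGraph V} {U F : Set V} {u : V} {t h : Fin 3 → V} {O E : Finset (Fin 3)}

namespace StarPos

lemma card_U [Finite V] (hs : StarPos G U F u t h O E) :
    (starLU U F u h E).ncard + F.ncard = U.ncard + 1 + E.card := by
  classical
  have h1 : starLU U F u h E = (U \ F) ∪ insert u (h '' (E : Set (Fin 3))) := by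
    ext x
    constructor
    · rintro (h1 | h1 | ⟨i, hi, h1⟩)
      · exact Or.inl h1
      · exact Or.inr (Or.inl h1)
      · exact Or.inr (Or.inr ⟨i, hi, h1.symm⟩)
    · rintro (h1 | h1 | ⟨i, hi, h1⟩)
      · exact Or.inl h1
      · exact Or.inr (Or.inl h1)
      · exact Or.inr (Or.inr ⟨i, hi, h1.symm⟩)
  have h2 : Disjoint (U \ F) (insert u (h '' (E : Set (Fin 3)))) := by
    rw [Set.disjoint_left]
    rintro x ⟨-, hx⟩ (h1 | ⟨i, hi, h1⟩)
    · exact hx (h1 ▸ hs.uF)
    · exact hx (h1 ▸ hs.hF i hi)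
  have h3 : u ∉ h '' (E : Set (Fin 3)) := by
    rintro ⟨i, hi, h1⟩
    exact hs.hu i hi h1
  have h4 : (h '' (E : Set (Fin 3))).ncard = E.card := by
    rw [Set.InjOn.ncard_image, Set.ncard_coe_finset]
    intro i hi j hj hij
    exact hs.hinj i hi j hj hij
  rw [h1, Set.ncard_union_eq h2 (Set.toFinite _) (Set.toFinite _),
    Set.ncard_insert_of_notMem h3 (Set.toFinite _), h4]
  have h5 := Set.ncard_sdiff_add_ncard_of_subset hs.FU (Set.toFinite _)
  omega

lemma card_E [Finite V] (hs : StarPos G U F u t h O E) :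
    G.edgeSet.ncard + O.card + 2 * E.card ≤ (starL G F u t h O E).edgeSet.ncard + rho G F := by
  classical
  set H := starL G F u t h O E with hH
  set A1 : Set (Sym2 V) := G.edgeSet \ EAt G F with hA1
  set A2 : Set (Sym2 V) := (fun i => s(u, t i)) '' (O : Set (Fin 3)) with hA2
  set A3 : Set (Sym2 V) := (fun i => s(u, h i)) '' (E : Set (Fin 3)) with hA3
  set A4 : Set (Sym2 V) := (fun i => s(h i, t i)) '' (E : Set (Fin 3)) with hA4
  have hEsub : EAt G F ⊆ G.edgeSet := fun e he => he.1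
  have e1 : A1.ncard + rho G F = G.edgeSet.ncard :=
    Set.ncard_sdiff_add_ncard_of_subset hEsub (Set.toFinite _)
  have e2 : A2.ncard = O.card := by
    rw [hA2, Set.InjOn.ncard_image, Set.ncard_coe_finset]
    intro i _ j _ hij
    have hij' : s(u, t i) = s(u, t j) := hij
    rw [Sym2.eq_iff] at hij'
    rcases hij' with h1 | h1
    · exact hs.tinj h1.2
    · exact absurd h1.2 (hs.t_ne_u i)
  have e3 : A3.ncard = E.card := by
    rw [hA3, Set.InjOn.ncard_image, Set.ncard_coe_finset]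
    intro i hi j hj hij
    have hij' : s(u, h i) = s(u, h j) := hij
    rw [Sym2.eq_iff] at hij'
    rcases hij' with h1 | h1
    · exact hs.hinj i hi j hj h1.2
    · exact absurd h1.2 (hs.hu i hi)
  have e4 : A4.ncard = E.card := by
    rw [hA4, Set.InjOn.ncard_image, Set.ncard_coe_finset]
    intro i hi j hj hij
    have hij' : s(h i, t i) = s(h j, t j) := hij
    rw [Sym2.eq_iff] at hij'
    rcases hij' with h1 | h1
    · exact hs.tinj h1.2
    · exact absurd h1.2 (hs.t_ne_h i hj)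
  have d12 : Disjoint A1 A2 := by
    rw [Set.disjoint_left]
    rintro _ hx ⟨i, hi, rfl⟩
    exact hx.2 ⟨hx.1, u, hs.uF, Sym2.mem_mk_left _ _⟩
  have d13 : Disjoint A1 A3 := by
    rw [Set.disjoint_left]
    rintro _ hx ⟨i, hi, rfl⟩
    exact hx.2 ⟨hx.1, u, hs.uF, Sym2.mem_mk_left _ _⟩
  have d14 : Disjoint A1 A4 := by
    rw [Set.disjoint_left]
    rintro _ hx ⟨i, hi, rfl⟩
    exact hx.2 ⟨hx.1, h i, hs.hF i hi, Sym2.mem_mk_left _ _⟩
  have d23 : Disjoint A2 A3 := by
    rw [Set.disjoint_left]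
    rintro _ ⟨j, hj, rfl⟩ ⟨i, hi, hij⟩
    have hij' : s(u, h i) = s(u, t j) := hij
    rw [Sym2.eq_iff] at hij'
    rcases hij' with h1 | h1
    · exact hs.t_ne_h j hi h1.2.symm
    · exact hs.hu i hi h1.2
  have d24 : Disjoint A2 A4 := by
    rw [Set.disjoint_left]
    rintro _ ⟨j, hj, rfl⟩ ⟨i, hi, hij⟩
    have hij' : s(h i, t i) = s(u, t j) := hij
    rw [Sym2.eq_iff] at hij'
    rcases hij' with h1 | h1
    · exact hs.hu i hi h1.1
    · exact hs.t_ne_u i h1.2
  have d34 : Disjoint A3 A4 := by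
    rw [Set.disjoint_left]
    rintro _ ⟨j, hj, rfl⟩ ⟨i, hi, hij⟩
    have hij' : s(h i, t i) = s(u, h j) := hij
    rw [Sym2.eq_iff] at hij'
    rcases hij' with h1 | h1
    · exact hs.hu i hi h1.1
    · exact hs.t_ne_u i h1.2
  have hsub : ((A1 ∪ A2) ∪ A3) ∪ A4 ⊆ H.edgeSet := by
    rintro e (((he | he) | he) | he)
    · induction e using Sym2.ind with
      | _ x y =>
        have hxy : G.Adj x y := he.1
        have hx : x ∉ F := fun hx => he.2 ⟨he.1, x, hx, Sym2.mem_mk_left _ _⟩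
        have hy : y ∉ F := fun hy => he.2 ⟨he.1, y, hy, Sym2.mem_mk_right _ _⟩
        exact (hs.adj_out hx hy).2 hxy
    · obtain ⟨i, hi, rfl⟩ := he
      exact (hs.adj_u).2 (Or.inl ⟨i, hi, rfl⟩)
    · obtain ⟨i, hi, rfl⟩ := he
      exact (hs.adj_u).2 (Or.inr ⟨i, hi, rfl⟩)
    · obtain ⟨i, hi, rfl⟩ := he
      exact (hs.adj_h hi).2 (Or.inr rfl)
  have hc := Set.ncard_le_ncard hsub (Set.toFinite _)
  rw [Set.ncard_union_eq (by
      rw [Set.disjoint_union_left, Set.disjoint_union_left]; exact ⟨⟨d14, d24⟩, d34⟩)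
      (Set.toFinite _) (Set.toFinite _),
    Set.ncard_union_eq (by rw [Set.disjoint_union_left]; exact ⟨d13, d23⟩)
      (Set.toFinite _) (Set.toFinite _),
    Set.ncard_union_eq d12 (Set.toFinite _) (Set.toFinite _)] at hc
  omega

/-- Density of the star graph. -/
theorem dens [Finite V] (hs : StarPos G U F u t h O E)
    (hd : 2 * U.ncard ≤ G.edgeSet.ncard + 2) (hf : fden G F ≤ (O.card : ℤ) - 2) :
    2 * (starLU U F u h E).ncard ≤ (starL G F u t h O E).edgeSet.ncard + 2 := by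
  have h1 := hs.card_U
  have h2 := hs.card_E
  unfold fden at hf
  omega

end StarPos

end Pool.Agent.Helper82.TK
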