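import Pool.Agent.Helper82.TK.P1
import Pool.Agent.Helper1.GL.Weak

/-!
# P2 : balanced sets with four neighbours (vertices of degree two allowed)
-/

set_option autoImplicit false

namespace Pool.Agent.Helper82.TK

open SimpleGraph Pool.Agent.Helper57.TOK Pool.Agent.Helper57.TD Pool.Agent.Helper57.TOP
open Pool.Agent.Helper1.GL

variable {V : Type*}

/-- A set of vertices of degree at most two is not dense. -/
lemma fden_le_zero_of_deg [Finite V] {G : SimpleGraph V} {Z : Set V}
    (hdeg : ∀ a ∈ Z, (G.neighborSet a).ncard ≤ 2) : fden G Z ≤ 0 := by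
  have hfin : Z.Finite := Set.toFinite _
  induction Z, hfin using Set.Finite.induction_on with
  | empty => simp
  | @insert a A ha hA ih =>
    have h1 := ih (fun x hx => hdeg x (Or.inr hx))
    rw [fden_insert G ha]
    have h2 := Set.ncard_le_ncard (Set.sdiff_subset (s := G.neighborSet a) (t := A))
      (Set.toFinite _)
    have h3 := hdeg a (Or.inl rfl)
    omega

/-- A balanced set with at most one vertex of degree at least three is not dense. -/
lemma beta_of_real_le_one [Finite V] {G : SimpleGraph V} {Y : Set V} {κ : V → ZMod 2}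
    (hb : PB G κ Y) (hr : {y | y ∈ Y ∧ 3 ≤ (G.neighborSet y).ncard}.ncard ≤ 1)
    (hN : 3 ≤ (Nb G Y).ncard) : fden G Y ≤ beta κ (Nb G Y) := by
  classical
  by_cases hex : ∃ y ∈ Y, 3 ≤ (G.neighborSet y).ncard
  · obtain ⟨y, hy, hyd⟩ := hex
    have huniq : ∀ z ∈ Y, z ≠ y → (G.neighborSet z).ncard ≤ 2 := by
      intro z hz hzy
      by_contra hlt
      push Not at hlt
      have h1 : ({z, y} : Set V) ⊆ {y | y ∈ Y ∧ 3 ≤ (G.neighborSet y).ncard} := by
        rintro x (rfl | hx)
        · exact ⟨hz, by omega⟩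
        · rw [Set.mem_singleton_iff] at hx; rw [hx]; exact ⟨hy, hyd⟩
      have h2 := Set.ncard_le_ncard h1 (Set.toFinite _)
      rw [Set.ncard_pair hzy] at h2
      omega
    have hY : Y = insert y (Y \ {y}) := by
      rw [Set.insert_sdiff_singleton, Set.insert_eq_of_mem hy]
    have h1 : fden G (Y \ {y}) ≤ 0 :=
      fden_le_zero_of_deg (fun z hz => huniq z hz.1 hz.2)
    have h2 : fden G Y = fden G (Y \ {y}) + ((G.neighborSet y \ (Y \ {y})).ncard : ℤ) - 2 := by
      conv_lhs => rw [hY]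
      exact fden_insert G (fun hh => hh.2 rfl)
    have h3 : G.neighborSet y \ (Y \ {y}) ⊆ {z | z ∈ Nb G Y ∧ κ y ≠ κ z} := by
      rintro z ⟨hz, hzY⟩
      have hyz : G.Adj y z := hz
      have hzY' : z ∉ Y := fun hh => hzY ⟨hh, hyz.ne'⟩
      exact ⟨⟨hzY', y, hy, hyz⟩, hb y z hy hyz⟩
    have h4 := Set.ncard_le_ncard h3 (Set.toFinite _)
    have h5 : {z | z ∈ Nb G Y ∧ κ y ≠ κ z} ⊆ Nb G Y := fun z hz => hz.1
    have h6 := Set.ncard_le_ncard h5 (Set.toFinite _)
    by_cases hm : Mono κ (Nb G Y)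
    · rw [beta_of_mono hm]
      omega
    · rw [beta_of_not_mono hm]
      have h7 : {z | z ∈ Nb G Y ∧ κ y ≠ κ z} ≠ Nb G Y := by
        intro heq
        apply hm
        intro a ha b hb'
        rw [← heq] at ha hb'
        have h8 := ha.2
        have h9 := hb'.2
        revert h8 h9
        generalize κ y = p
        generalize κ a = q
        generalize κ b = r
        revert p q r; decide
      have h8 := Set.ncard_lt_ncard (lt_of_le_of_ne h5 h7) (Set.toFinite _)
      omega
  · push Not at hex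
    have h1 : fden G Y ≤ 0 := fden_le_zero_of_deg (fun z hz => by have := hex z hz; omega)
    by_cases hm : Mono κ (Nb G Y)
    · rw [beta_of_mono hm]; omega
    · rw [beta_of_not_mono hm]; omega

/-- **P1** in density form, without conditions on the size of the set or of the rest. -/
theorem gmin_P1 [Finite V] {G : SimpleGraph V} {U : Set V} (hM : GMin G U) {Y : Set V}
    (hYU : Y ⊆ U) {κ : V → ZMod 2} (hb : PB G κ Y) (h3 : (Nb G Y).ncard = 3) :
    fden G Y ≤ beta κ (Nb G Y) :=
  beta_of_real_le_one hb (gmin_real_le_one hM hYU hb h3.le) h3.ge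

/-- **P2**: balanced sets with four neighbours are not dense. -/
theorem gmin_P2 [Finite V] {G : SimpleGraph V} {U : Set V} (hM : GMin G U) {Y : Set V}
    (hYU : Y ⊆ U) {κ : V → ZMod 2} (hb : PB G κ Y) (h4 : (Nb G Y).ncard = 4) :
    fden G Y ≤ beta κ (Nb G Y) := by
  by_contra hlt
  push Not at hlt
  have h1 := (Ex3.w3 hM.ex).P2 hYU (balOn_one.2 hb) (by
    intro Y' hY' h2 h3 h5 h6
    rw [odG_one]
    exact gmin_P1 hM (hY'.trans hYU) (balOn_one.1 h6) h3) h4 (by rw [odG_one]; exact hlt)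
  rcases h1 with h1 | ⟨Y', κ', hYY', -, hY'U, hb', h3, -⟩
  · exact hM.bad h1
  · have h5 := gmin_real_le_one hM hY'U (balOn_one.1 hb') h3
    have h6 : {y | y ∈ Y ∧ 3 ≤ (G.neighborSet y).ncard} ⊆
        {y | y ∈ Y' ∧ 3 ≤ (G.neighborSet y).ncard} := fun y hy => ⟨hYY' hy.1, hy.2⟩
    have h7 := Set.ncard_le_ncard h6 (Set.toFinite _)
    have h8 := beta_of_real_le_one hb (h7.trans h5) (by omega)
    omega

/-- Balanced sets with three or four neighbours. -/
theorem gmin_P12 [Finite V] {G : SimpleGraph V} {U : Set V} (hM : GMin G U) {Y : Set V}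
    (hYU : Y ⊆ U) {κ : V → ZMod 2} (hb : PB G κ Y) (h3 : 3 ≤ (Nb G Y).ncard)
    (h4 : (Nb G Y).ncard ≤ 4) : fden G Y ≤ beta κ (Nb G Y) := by
  by_cases h : (Nb G Y).ncard = 3
  · exact gmin_P1 hM hYU hb h
  · exact gmin_P2 hM hYU hb (by omega)

end Pool.Agent.Helper82.TK
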