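import Pool.Agent.Helper82.TK.BalIndex

/-!
# Counting for the enlarged set; the remaining case of the index
-/

set_option autoImplicit false

namespace Pool.Agent.Helper82.TK

open SimpleGraph Pool.Agent.Helper57.TOK Pool.Agent.Helper57.TD

variable {V : Type*}

section

variable {G : SimpleGraph V} {U M : Set V} {κ : V → ZMod 2} {u : V} {n m x hh : Fin 3 → V}
  {B : Finset (Fin 3)}

lemma BD.count_sub [Finite V] (h : BD G U M κ n m x B) (S : Finset (Fin 3)) (hS : S ⊆ B) :
    (FB M n m S).ncard = M.ncard + 2 * S.card ∧ fden G (FB M n m S) ≤ fden G M - S.card := by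
  classical
  induction S using Finset.induction_on with
  | empty =>
    have : FB M n m ∅ = M := by
      ext y
      constructor
      · rintro (h1 | ⟨i, hi, -⟩)
        · exact h1
        · exact absurd hi (Finset.notMem_empty i)
      · exact Or.inl
    rw [this]
    simp
  | @insert i S hi ih =>
    have hS' : S ⊆ B := (Finset.subset_insert i S).trans hS
    have hiB : i ∈ B := hS (Finset.mem_insert_self i S)
    obtain ⟨ih1, ih2⟩ := ih hS'
    have hbad := h.bad i hiB
    have heq : FB M n m (insert i S) = insert (m i) (insert (n i) (FB M n m S)) := by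
      ext y
      constructor
      · rintro (h1 | ⟨j, hj, h1⟩)
        · exact Or.inr (Or.inr (Or.inl h1))
        · rcases Finset.mem_insert.1 hj with rfl | hj
          · rcases h1 with h1 | h1
            · exact Or.inr (Or.inl h1)
            · exact Or.inl h1
          · exact Or.inr (Or.inr (Or.inr ⟨j, hj, h1⟩))
      · rintro (h1 | h1 | h1 | ⟨j, hj, h1⟩)
        · exact Or.inr ⟨i, Finset.mem_insert_self i S, Or.inr h1⟩
        · exact Or.inr ⟨i, Finset.mem_insert_self i S, Or.inl h1⟩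
        · exact Or.inl h1
        · exact Or.inr ⟨j, Finset.mem_insert_of_mem hj, h1⟩
    have hn : n i ∉ FB M n m S := by
      rintro (h1 | ⟨j, hj, h1 | h1⟩)
      · exact h.nM i h1
      · exact hi (h.ninj h1 ▸ hj)
      · exact h.m_ne_n (hS' hj) i h1.symm
    have hm : m i ∉ insert (n i) (FB M n m S) := by
      rintro (h1 | h1 | ⟨j, hj, h1 | h1⟩)
      · exact h.m_ne_n hiB i h1
      · exact hbad.mM h1
      · exact h.m_ne_n hiB j h1
      · exact hi (h.m_inj hiB (hS' hj) h1 ▸ hj)
    have c1 : (G.neighborSet (n i) \ FB M n m S).ncard ≤ 2 := by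
      have h1 : G.neighborSet (n i) \ FB M n m S ⊆ {m i, x i} := by
        rw [← hbad.out]
        rintro y ⟨hy, hy'⟩
        exact ⟨hy, fun h2 => hy' (Or.inl h2)⟩
      exact (Set.ncard_le_ncard h1 (Set.toFinite _)).trans (ncard_pair_le' _ _)
    have c2 : (G.neighborSet (m i) \ insert (n i) (FB M n m S)).ncard ≤ 1 := by
      apply ncard_le_one_of' (a := x i)
      rintro y ⟨hy, hy'⟩
      rcases hbad.nbm' hy with h1 | h1
      · exact absurd (Or.inl h1) hy'
      · exact h1
    rw [heq, fden_insert G hm, fden_insert G hn,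
      Set.ncard_insert_of_notMem hm (Set.toFinite _),
      Set.ncard_insert_of_notMem hn (Set.toFinite _), Finset.card_insert_of_notMem hi]
    refine ⟨by omega, ?_⟩
    push_cast
    omega

lemma BD.card_F [Finite V] (h : BD G U M κ n m x B) :
    (FB M n m B).ncard = M.ncard + 2 * B.card := (h.count_sub B (Finset.Subset.refl B)).1

lemma BD.fden_F [Finite V] (h : BD G U M κ n m x B) :
    fden G (FB M n m B) ≤ fden G M - B.card := (h.count_sub B (Finset.Subset.refl B)).2

lemma fin3_pair : ∀ i j : Fin 3, i ≠ j →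
    ∃ k : Fin 3, (i = k + 1 ∧ j = k + 2) ∨ (j = k + 1 ∧ i = k + 2) := by decide

lemma beta_le_one {κ : V → ZMod 2} {N : Set V} (h : N.ncard ≤ 3) :
    beta κ N ≤ 1 := by
  classical
  unfold beta
  split_ifs <;> omega

/-- The last case: all boundary vertices are bad. -/
lemma BD.index_all [Finite V] (h : BD G U M κ n m x B) (hB : ∀ i, i ∈ B) (κ1 : V → ZMod 2)
    (h3 : ∀ a b, a ∉ FB M n m B → b ∉ FB M n m B → G.Adj a b → κ1 a ≠ κ1 b) : False := by
  classical
  have hBc : B.card = 3 := by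
    have : B = Finset.univ := Finset.eq_univ_iff_forall.2 hB
    rw [this]; rfl
  set F := FB M n m B with hF
  set Y : Set V := {y | y ∈ U ∧ y ∉ F ∧ ∀ i, y ≠ x i} with hY
  have hxF : ∀ i, x i ∉ F := by
    intro i
    have := h.t_notF i
    rwa [BD.t_bad (hB i)] at this
  have hNF : Nb G F = Set.range x := by
    rw [h.nbF]
    congr 1
    funext i
    exact BD.t_bad (hB i)
  have hYout : ∀ y ∈ Y, ∀ v, G.Adj y v → v ∉ F := by
    intro y hy v hyv hv
    have : y ∈ Nb G F := ⟨hy.2.1, v, hv, hyv.symm⟩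
    rw [hNF] at this
    obtain ⟨i, hi⟩ := this
    exact hy.2.2 i hi.symm
  have hYN : Nb G Y ⊆ Set.range x := by
    rintro v ⟨hv, y, hy, hyv⟩
    have h1 := hYout y hy v hyv
    by_contra hcon
    exact hv ⟨h.bm.pre.edge_mem v y hyv.symm, h1, fun i hi => hcon ⟨i, hi.symm⟩⟩
  have hrx : (Set.range x).ncard ≤ 3 := by
    rw [← Set.image_univ]
    refine (Set.ncard_image_le (Set.toFinite _)).trans ?_
    rw [Set.ncard_univ]; simp
  have hYN3 : (Nb G Y).ncard ≤ 3 := (Set.ncard_le_ncard hYN (Set.toFinite _)).trans hrx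
  have hYU : Y ⊆ U := fun y hy => hy.1
  have hMrest : M ⊆ U \ (Y ∪ Nb G Y) := by
    intro y hy
    refine ⟨h.bm.MU hy, ?_⟩
    rintro (h1 | h1)
    · exact h1.2.1 (Or.inl hy)
    · obtain ⟨i, hi⟩ := hYN h1
      exact hxF i (hi ▸ Or.inl hy)
  have hPB : PB G κ1 Y := by
    intro y v hy hyv
    exact h3 y v hy.2.1 (hYout y hy v hyv) hyv
  -- fden of Y
  have fY : fden G Y ≤ 1 := by
    by_cases hY2 : 2 ≤ Y.ncard
    · by_cases hN3 : (Nb G Y).ncard = 3
      · have h1 : (U \ (Y ∪ Nb G Y)).Nonempty := by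
          have h2 : 0 < M.ncard := by have := h.bm.two; omega
          obtain ⟨y, hy⟩ := (Set.ncard_pos (Set.toFinite _)).1 h2
          exact ⟨y, hMrest hy⟩
        exact (h.bm.sparse Y hYU hY2 hN3 h1 κ1 hPB).trans (beta_le_one hYN3)
      · have h1 := h.bm.pre.conn Y hYU hY2 (by omega)
        have h2 := Set.ncard_le_ncard hMrest (Set.toFinite _)
        have := h.bm.two
        omega
    · by_cases hY0 : Y.ncard = 0
      · rw [Set.ncard_eq_zero (Set.toFinite _)] at hY0
        rw [hY0, fden_empty]; norm_num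
      · obtain ⟨y, hy⟩ := Set.ncard_eq_one.1 (by omega : Y.ncard = 1)
        have h1 : (Nb G {y}).ncard ≤ 3 := by rw [← hy]; exact hYN3
        rw [Nb_singleton] at h1
        rw [hy]
        unfold fden
        rw [rho_singleton, Set.ncard_singleton]
        omega
  have fM : fden G M ≤ 1 := by
    have h1 : (U \ (M ∪ Nb G M)).Nonempty := by
      have h2 := h.bm.rest
      exact (Set.ncard_pos (Set.toFinite _)).1 (by omega)
    exact (h.bm.sparse M h.bm.MU h.bm.two h.bm.three h1 κ h.bm.bal).trans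
      (beta_le_one h.bm.three.le)
  -- vertices
  have hxinj : Function.Injective x := fun i j hij => h.x_inj (hB i) (hB j) hij
  have hxU : ∀ i, x i ∈ U := fun i => h.bm.pre.edge_mem _ _ (h.bad i (hB i)).nx.symm
  have hUc : M.ncard + 9 + Y.ncard ≤ U.ncard := by
    have h1 : (F ∪ Set.range x) ∪ Y ⊆ U := by
      rintro y ((hy | ⟨i, rfl⟩) | hy)
      · exact h.FU hy
      · exact hxU i
      · exact hy.1
    have h2 := Set.ncard_le_ncard h1 (Set.toFinite _)
    rw [Set.ncard_union_eq _ (Set.toFinite _) (Set.toFinite _),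
      Set.ncard_union_eq _ (Set.toFinite _) (Set.toFinite _)] at h2
    · have h4 : (Set.range x).ncard = 3 := by
        rw [← Set.image_univ, Set.ncard_image_of_injective _ hxinj, Set.ncard_univ]; simp
      have h5 := h.card_F
      rw [← hF] at h5
      omega
    · rw [Set.disjoint_left]
      rintro y hy ⟨i, rfl⟩
      exact hxF i hy
    · rw [Set.disjoint_left]
      rintro y (hy | ⟨i, rfl⟩) hy'
      · exact hy'.2.1 hy
      · exact hy'.2.2 i rfl
  -- edges
  set S : Set (Sym2 V) := (Set.range (fun i => s(n i, m i)) ∪ Set.range (fun i => s(m i, x i))) ∪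
    (Set.range (fun i => s(n i, x i)) ∪ Set.range (fun i => s(x (i + 1), x (i + 2)))) with hS
  have hr3 : ∀ f : Fin 3 → Sym2 V, (Set.range f).ncard ≤ 3 := by
    intro f
    rw [← Set.image_univ]
    refine (Set.ncard_image_le (Set.toFinite _)).trans ?_
    rw [Set.ncard_univ]; simp
  have hSc : S.ncard ≤ 12 := by
    have h1 := Set.ncard_union_le (Set.range (fun i => s(n i, m i)) ∪
      Set.range (fun i => s(m i, x i))) (Set.range (fun i => s(n i, x i)) ∪
        Set.range (fun i => s(x (i + 1), x (i + 2))))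
    have h2 := Set.ncard_union_le (Set.range (fun i => s(n i, m i)))
      (Set.range (fun i => s(m i, x i)))
    have h4 := Set.ncard_union_le (Set.range (fun i => s(n i, x i)))
      (Set.range (fun i => s(x (i + 1), x (i + 2))))
    have h5 := hr3 (fun i => s(n i, m i))
    have h6 := hr3 (fun i => s(m i, x i))
    have h7 := hr3 (fun i => s(n i, x i))
    have h8 := hr3 (fun i => s(x (i + 1), x (i + 2)))
    rw [hS]
    omega
  have hkey : ∀ a b, G.Adj a b → a ∉ M → b ∉ M → ((∃ i, a = n i) ∨ ∃ i, a = m i) →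
      s(a, b) ∈ S := by
    rintro a b hab haM hbM (⟨i, rfl⟩ | ⟨i, rfl⟩)
    · rcases (h.bad i (hB i)).out' hab hbM with h1 | h1
      · rw [h1]; exact Or.inl (Or.inl ⟨i, rfl⟩)
      · rw [h1]; exact Or.inr (Or.inl ⟨i, rfl⟩)
    · rcases (h.bad i (hB i)).nbm' hab with h1 | h1
      · rw [h1, Sym2.eq_swap]; exact Or.inl (Or.inl ⟨i, rfl⟩)
      · rw [h1]; exact Or.inl (Or.inr ⟨i, rfl⟩)
  have hcls : ∀ a, a ∈ U → a ∉ M → a ∉ Y → (∃ i, a = n i) ∨ (∃ i, a = m i) ∨ ∃ i, a = x i := by
    intro a haU haM haY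
    by_cases haF : a ∈ F
    · rcases haF with h1 | ⟨i, -, h1 | h1⟩
      · exact absurd h1 haM
      · exact Or.inl ⟨i, h1⟩
      · exact Or.inr (Or.inl ⟨i, h1⟩)
    · by_contra hcon
      push Not at hcon
      exact haY ⟨haU, haF, fun i hi => hcon.2.2 i hi⟩
  have hE : G.edgeSet ⊆ (EAt G M ∪ EAt G Y) ∪ S := by
    intro e he
    induction e using Sym2.ind with
    | _ a b =>
      have hab : G.Adj a b := he
      by_cases haM : a ∈ M
      · exact Or.inl (Or.inl ⟨he, a, haM, Sym2.mem_mk_left _ _⟩)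
      by_cases hbM : b ∈ M
      · exact Or.inl (Or.inl ⟨he, b, hbM, Sym2.mem_mk_right _ _⟩)
      by_cases haY : a ∈ Y
      · exact Or.inl (Or.inr ⟨he, a, haY, Sym2.mem_mk_left _ _⟩)
      by_cases hbY : b ∈ Y
      · exact Or.inl (Or.inr ⟨he, b, hbY, Sym2.mem_mk_right _ _⟩)
      right
      rcases hcls a (h.bm.pre.edge_mem _ _ hab) haM haY with h1 | h1 | ⟨i, rfl⟩
      · exact hkey a b hab haM hbM (Or.inl h1)
      · exact hkey a b hab haM hbM (Or.inr h1)
      rcases hcls b (h.bm.pre.edge_mem _ _ hab.symm) hbM hbY with h1 | h1 | ⟨j, rfl⟩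
      · rw [Sym2.eq_swap]; exact hkey b _ hab.symm hbM haM (Or.inl h1)
      · rw [Sym2.eq_swap]; exact hkey b _ hab.symm hbM haM (Or.inr h1)
      have hij : i ≠ j := by
        rintro rfl
        exact hab.ne rfl
      obtain ⟨k, hk⟩ := fin3_pair i j hij
      rcases hk with ⟨rfl, rfl⟩ | ⟨rfl, rfl⟩
      · exact Or.inr (Or.inr ⟨k, rfl⟩)
      · rw [Sym2.eq_swap]; exact Or.inr (Or.inr ⟨k, rfl⟩)
  have hEc : G.edgeSet.ncard ≤ rho G M + rho G Y + 12 := by
    have h1 := Set.ncard_le_ncard hE (Set.toFinite _)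
    have h2 := Set.ncard_union_le (EAt G M ∪ EAt G Y) S
    have h4 := Set.ncard_union_le (EAt G M) (EAt G Y)
    unfold rho
    omega
  have hd := h.bm.dens
  unfold fden at fY fM
  omega

/-- **No vertex of the star graph meets all odd cycles.** -/
theorem BD.index2 [Finite V] (h : BD G U M κ n m x B)
    (hs : StarPos G U (FB M n m B) u (tB n x B) hh (OB κ n u B) (EB κ n u B))
    (w : V) (κ1 : V → ZMod 2) :
    ¬ ∀ a b, a ≠ w → b ≠ w →
      (starL G (FB M n m B) u (tB n x B) hh (OB κ n u B) (EB κ n u B)).Adj a b → κ1 a ≠ κ1 b := by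
  intro hκ
  by_cases hw : w = u
  · subst hw
    have h3 : ∀ a b, a ∉ FB M n m B → b ∉ FB M n m B → G.Adj a b → κ1 a ≠ κ1 b := by
      intro a b ha hb hab
      exact hκ a b (fun hh => ha (hh ▸ hs.uF)) (fun hh => hb (hh ▸ hs.uF))
        ((hs.adj_out ha hb).2 hab)
    by_cases hi : ∃ i0, i0 ∉ B
    · obtain ⟨i0, hi0⟩ := hi
      exact h.index_u κ1 h3 hi0
    · push Not at hi
      exact h.index_all hi κ1 h3
  · exact h.index_ne hs κ1 hw hκ

end

end Pool.Agent.Helper82.TK
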