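import Pool.Agent.Helper57.TOK.Basic

/-!
# A TOK4 does not use both links of a flexible link

If `m` has only the neighbours `u`, `t`, then a TOK4 lies in a subgraph which does not contain both
the edge `ut` and an edge at `m`.
-/

set_option autoImplicit false

namespace Pool.Agent.Helper82.TK

open SimpleGraph Pool.Agent.Helper57.TOK

variable {V : Type*}

/-- No triangle in a path. -/
lemma no_triangle_in_path {G : SimpleGraph V} {a b : V} (p : G.Walk a b) (hp : p.IsPath)
    {x y z : V} (h1 : s(x, y) ∈ p.edges) (h2 : s(y, z) ∈ p.edges) (h3 : s(x, z) ∈ p.edges) :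
    False := by
  have hxy : x ≠ y := (Walk.adj_of_mem_edges _ h1).ne
  have hyz : y ≠ z := (Walk.adj_of_mem_edges _ h2).ne
  have hxz : x ≠ z := (Walk.adj_of_mem_edges _ h3).ne
  induction p with
  | nil => simp at h1
  | @cons a d b h p ih =>
    rw [Walk.cons_isPath_iff] at hp
    rw [Walk.edges_cons, List.mem_cons] at h1 h2 h3
    have key : ∀ w w', s(w, w') ∈ p.edges → w ≠ a ∧ w' ≠ a := by
      intro w w' hw
      refine ⟨?_, ?_⟩
      · rintro rfl; exact hp.2 (Walk.fst_mem_support_of_mem_edges _ hw)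
      · rintro rfl; exact hp.2 (Walk.snd_mem_support_of_mem_edges _ hw)
    have key2 : ∀ w w', (s(w, w') = s(a, d) ∨ s(w, w') ∈ p.edges) → w = a → w' = d := by
      rintro w w' (hw | hw) rfl
      · rw [Sym2.eq_iff] at hw
        rcases hw with hw | hw
        · exact hw.2
        · exact hw.2.trans hw.1
      · exact absurd rfl (key _ _ hw).1
    have key3 : ∀ w w', (s(w, w') = s(a, d) ∨ s(w, w') ∈ p.edges) → w' = a → w = d := by
      intro w w' hw
      rw [Sym2.eq_swap] at hw
      exact key2 w' w hw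
    by_cases hxa : x = a
    · exact hyz ((key2 x y h1 hxa).trans (key2 x z h3 hxa).symm)
    by_cases hya : y = a
    · exact hxz ((key3 x y h1 hya).trans (key2 y z h2 hya).symm)
    by_cases hza : z = a
    · exact hxy ((key3 x z h3 hza).trans (key3 y z h2 hza).symm)
    have key4 : ∀ w w', w ≠ a → w' ≠ a → (s(w, w') = s(a, d) ∨ s(w, w') ∈ p.edges) →
        s(w, w') ∈ p.edges := by
      rintro w w' hw hw' (h4 | h4)
      · rw [Sym2.eq_iff] at h4
        rcases h4 with h4 | h4
        · exact absurd h4.1 hw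
        · exact absurd h4.2 hw'
      · exact h4
    exact ih hp.1 (key4 x y hxa hya h1) (key4 y z hya hza h2) (key4 x z hxa hza h3)

/-- A walk between distinct vertices has an edge at its first vertex. -/
lemma exists_edge_start {G : SimpleGraph V} {a b : V} (p : G.Walk a b) (hab : a ≠ b) :
    ∃ z, s(a, z) ∈ p.edges := by
  cases p with
  | nil => exact absurd rfl hab
  | @cons _ d _ h p => exact ⟨d, by rw [Walk.edges_cons]; exact List.mem_cons_self⟩

/-- An inner vertex of a path has two edges on the path. -/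
lemma exists_two_edges {G : SimpleGraph V} {a b x : V} (p : G.Walk a b) (hp : p.IsPath)
    (hx : x ∈ p.support) (hxa : x ≠ a) (hxb : x ≠ b) :
    ∃ z1 z2, z1 ≠ z2 ∧ s(x, z1) ∈ p.edges ∧ s(x, z2) ∈ p.edges := by
  induction p with
  | nil =>
    rw [Walk.support_nil, List.mem_singleton] at hx
    exact absurd hx hxa
  | @cons a d b h p ih =>
    rw [Walk.cons_isPath_iff] at hp
    rw [Walk.support_cons, List.mem_cons] at hx
    have hx' : x ∈ p.support := hx.resolve_left hxa
    by_cases hxd : x = d
    · subst hxd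
      obtain ⟨z, hz⟩ := exists_edge_start p hxb
      refine ⟨a, z, ?_, ?_, ?_⟩
      · rintro rfl
        exact hp.2 (Walk.snd_mem_support_of_mem_edges _ hz)
      · rw [Walk.edges_cons, Sym2.eq_swap]; exact List.mem_cons_self
      · rw [Walk.edges_cons]; exact List.mem_cons_of_mem _ hz
    · obtain ⟨z1, z2, h1, h2, h3⟩ := ih hp.1 hx' hxd hxb
      exact ⟨z1, z2, h1, by rw [Walk.edges_cons]; exact List.mem_cons_of_mem _ h2,
        by rw [Walk.edges_cons]; exact List.mem_cons_of_mem _ h3⟩

private lemma fin4_pair : ∀ k l l' : Fin 4, l ≠ k → l' ≠ k → l ≠ l' →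
    ¬ (min k l = min k l' ∧ max k l = max k l') := by decide

/-- **Digon lemma.** -/
theorem tok_digon {G : SimpleGraph V} {c : Sym2 V → ZMod 2} {u t m : V} (hut : u ≠ t)
    (hm : ∀ w, G.Adj m w → w = u ∨ w = t) (hG : HasTOK4s G c) :
    ∃ K ≤ G, HasTOK4s K c ∧ (¬ K.Adj u t ∨ ∀ w, ¬ K.Adj m w) := by
  classical
  obtain ⟨v, hv, P, hP, hd⟩ := hG
  let K : SimpleGraph V :=
    { Adj := fun a b => ∃ i j : Fin 4, i < j ∧ s(a, b) ∈ (P i j).edges
      symm := ⟨fun a b ⟨i, j, hij, h⟩ => ⟨i, j, hij, by rw [Sym2.eq_swap]; exact h⟩⟩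
      loopless := ⟨fun a ⟨i, j, hij, h⟩ => by
        have := Walk.edges_subset_edgeSet _ h
        simp at this⟩ }
  have hKadj : ∀ a b, K.Adj a b ↔ ∃ i j : Fin 4, i < j ∧ s(a, b) ∈ (P i j).edges :=
    fun _ _ => Iff.rfl
  have hKG : K ≤ G := by
    intro a b h
    obtain ⟨i, j, hij, h⟩ := h
    exact Walk.adj_of_mem_edges _ h
  have hKT : HasTOK4s K c := by
    have htr : ∀ i j : Fin 4, i < j → ∀ e ∈ (P i j).edges, e ∈ K.edgeSet := by
      intro i j hij e he
      induction e using Sym2.ind with
      | _ a b => exact (SimpleGraph.mem_edgeSet K).2 ⟨i, j, hij, he⟩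
    have hex : ∀ i j : Fin 4, ∃ Q : K.Walk (v i) (v j), i < j →
        (Q.IsPath ∧ wt c Q = 1 ∧ Q.support = (P i j).support) := by
      intro i j
      by_cases hij : i < j
      · refine ⟨(P i j).transfer K (htr i j hij), fun _ => ⟨?_, ?_, ?_⟩⟩
        · exact (hP i j hij).1.transfer _
        · rw [wt_transfer]; exact (hP i j hij).2
        · exact Walk.support_transfer _ _
      · have base : ∀ i j : Fin 4, i < j → K.Walk (v i) (v j) := fun i j hij =>
          (P i j).transfer K (htr i j hij)
        rcases lt_trichotomy i j with h | h | h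
        · exact absurd h hij
        · subst h; exact ⟨Walk.nil, fun h => absurd h hij⟩
        · exact ⟨(base j i h).reverse, fun h => absurd h hij⟩
    choose Q hQ using hex
    refine ⟨v, hv, Q, fun i j hij => ⟨(hQ i j hij).1, (hQ i j hij).2.1⟩, ?_⟩
    intro i j k l hij hkl hne x hx hx'
    rw [(hQ i j hij).2.2] at hx
    rw [(hQ k l hkl).2.2] at hx'
    exact hd i j k l hij hkl hne x hx hx'
  refine ⟨K, hKG, hKT, ?_⟩
  by_contra hcon
  push Not at hcon
  obtain ⟨hut', w, hmw⟩ := hcon
  -- `m` is not a branch vertex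
  have hbranch : ∀ k, m ≠ v k := by
    rintro k rfl
    have h1 : ∀ l, ∃ z, l ≠ k → ((z = u ∨ z = t) ∧ z ≠ v k ∧
        z ∈ (P (min k l) (max k l)).support) := by
      intro l
      by_cases hl : l = k
      · exact ⟨u, fun hh => absurd hl hh⟩
      rcases lt_or_gt_of_ne hl with h2 | h2
      · have e1 : min k l = l := min_eq_right h2.le
        have e2 : max k l = k := max_eq_left h2.le
        rw [e1, e2]
        have hne : v k ≠ v l := fun hh => hl (hv hh).symm
        obtain ⟨z, hz⟩ := exists_edge_start (P l k).reverse hne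
        rw [Walk.edges_reverse, List.mem_reverse] at hz
        have hadj := Walk.adj_of_mem_edges _ hz
        exact ⟨z, fun _ => ⟨hm z hadj, hadj.ne', Walk.snd_mem_support_of_mem_edges _ hz⟩⟩
      · have e1 : min k l = k := min_eq_left h2.le
        have e2 : max k l = l := max_eq_right h2.le
        rw [e1, e2]
        have hne : v k ≠ v l := fun hh => hl (hv hh).symm
        obtain ⟨z, hz⟩ := exists_edge_start (P k l) hne
        have hadj := Walk.adj_of_mem_edges _ hz
        exact ⟨z, fun _ => ⟨hm z hadj, hadj.ne', Walk.snd_mem_support_of_mem_edges _ hz⟩⟩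
    choose z hz0 using h1
    have hz1 : ∀ l, l ≠ k → (z l = u ∨ z l = t) := fun l hl => (hz0 l hl).1
    have hz2 : ∀ l, l ≠ k → z l ≠ v k := fun l hl => (hz0 l hl).2.1
    have hz3 : ∀ l, l ≠ k → z l ∈ (P (min k l) (max k l)).support := fun l hl => (hz0 l hl).2.2
    have hne : ∀ l l', l ≠ k → l' ≠ k → l ≠ l' → z l ≠ z l' := by
      intro l l' hl hl' hll hzz
      have hlt : ∀ q : Fin 4, q ≠ k → min k q < max k q := by
        intro q hq
        rcases lt_or_gt_of_ne hq with h2 | h2
        · rw [min_eq_right h2.le, max_eq_left h2.le]; exact h2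
        · rw [min_eq_left h2.le, max_eq_right h2.le]; exact h2
      have hpair : (min k l, max k l) ≠ (min k l', max k l') := by
        intro hh
        rw [Prod.mk.injEq] at hh
        exact fin4_pair k l l' hl hl' hll hh
      have h4 := hd _ _ _ _ (hlt l hl) (hlt l' hl') hpair (z l) (hz3 l hl) (hzz ▸ hz3 l' hl')
      have h5 : ∀ q : Fin 4, (z l = v (min k q) ∨ z l = v (max k q)) → z l = v q := by
        intro q hq
        rcases le_total k q with h6 | h6
        · rw [min_eq_left h6, max_eq_right h6] at hq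
          exact hq.resolve_left (hz2 l hl)
        · rw [min_eq_right h6, max_eq_left h6] at hq
          exact hq.resolve_right (hz2 l hl)
      have h7 := h5 l h4.1
      have h8 := h5 l' h4.2
      exact hll (hv (h7.symm.trans h8))
    -- three indices
    obtain ⟨l1, l2, l3, g1, g2, g3, g4, g5, g6⟩ : ∃ l1 l2 l3 : Fin 4, l1 ≠ k ∧ l2 ≠ k ∧ l3 ≠ k ∧
        l1 ≠ l2 ∧ l1 ≠ l3 ∧ l2 ≠ l3 := by
      clear * -
      revert k; decide
    have e1 := hne l1 l2 g1 g2 g4
    have e2 := hne l1 l3 g1 g3 g5
    have e3 := hne l2 l3 g2 g3 g6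
    rcases hz1 l1 g1 with a1 | a1 <;> rcases hz1 l2 g2 with a2 | a2 <;>
      rcases hz1 l3 g3 with a3 | a3 <;> rw [a1, a2] at e1 <;> rw [a1, a3] at e2 <;>
      rw [a2, a3] at e3 <;> first
        | exact e1 rfl
        | exact e2 rfl
        | exact e3 rfl
  obtain ⟨i, j, hij, hmij⟩ := hmw
  have hms : m ∈ (P i j).support := Walk.fst_mem_support_of_mem_edges _ hmij
  obtain ⟨z1, z2, hz, hz1, hz2⟩ := exists_two_edges (P i j) (hP i j hij).1 hms (hbranch i)
    (hbranch j)
  have hz1' := hm z1 (Walk.adj_of_mem_edges _ hz1)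
  have hz2' := hm z2 (Walk.adj_of_mem_edges _ hz2)
  have hmu : s(m, u) ∈ (P i j).edges ∧ s(m, t) ∈ (P i j).edges := by
    rcases hz1' with rfl | rfl <;> rcases hz2' with rfl | rfl
    · exact absurd rfl hz
    · exact ⟨hz1, hz2⟩
    · exact ⟨hz2, hz1⟩
    · exact absurd rfl hz
  obtain ⟨k, l, hkl, hkl'⟩ := hut'
  by_cases hne : (i, j) = (k, l)
  · rw [Prod.mk.injEq] at hne
    obtain ⟨rfl, rfl⟩ := hne
    refine no_triangle_in_path (P i j) (hP i j hij).1 (x := u) (y := m) (z := t) ?_ hmu.2 hkl'
    rw [Sym2.eq_swap]; exact hmu.1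
  · have h1 := hd i j k l hij hkl hne u (Walk.snd_mem_support_of_mem_edges _ hmu.1)
      (Walk.fst_mem_support_of_mem_edges _ hkl')
    have h2 := hd i j k l hij hkl hne t (Walk.snd_mem_support_of_mem_edges _ hmu.2)
      (Walk.snd_mem_support_of_mem_edges _ hkl')
    apply hne
    rw [Prod.mk.injEq]
    obtain ⟨a1, a2⟩ := h1
    obtain ⟨b1, b2⟩ := h2
    rcases a1 with a1 | a1 <;> rcases b1 with b1 | b1
    · exact absurd (a1.trans b1.symm) hut
    · rcases a2 with a2 | a2 <;> rcases b2 with b2 | b2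
      · exact absurd (a2.trans b2.symm) hut
      · exact ⟨hv (a1.symm.trans a2), hv (b1.symm.trans b2)⟩
      · have e1 := hv (a1.symm.trans a2)
        have e2 := hv (b1.symm.trans b2)
        subst e1 e2
        exact absurd hkl (lt_asymm hij)
      · exact absurd (a2.trans b2.symm) hut
    · rcases a2 with a2 | a2 <;> rcases b2 with b2 | b2
      · exact absurd (a2.trans b2.symm) hut
      · have e1 := hv (a1.symm.trans a2)
        have e2 := hv (b1.symm.trans b2)
        subst e1 e2
        exact absurd hkl (lt_asymm hij)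
      · exact ⟨hv (b1.symm.trans b2), hv (a1.symm.trans a2)⟩
      · exact absurd (a2.trans b2.symm) hut
    · exact absurd (a1.trans b1.symm) hut

end Pool.Agent.Helper82.TK
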