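import Pool.Agent.Helper82.TK.StarL
import Pool.Agent.Helper82.TK.Digon

/-!
# Lifting a TOK4 from the star graph

If `F` contains disjoint legs from `u` to the boundary vertices with the parities of the star (both
parities for a flexible leg, not necessarily disjoint from each other), then a TOK4 of the star
graph gives a TOK4 of `G`.
-/

set_option autoImplicit false

namespace Pool.Agent.Helper82.TK

open SimpleGraph Pool.Agent.Helper57.TOK Pool.Agent.Helper57.TD

variable {V : Type*}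

/-- Legs inside `F`. -/
structure Legs (G : SimpleGraph V) (F : Set V) (u : V) (t : Fin 3 → V) (O E : Finset (Fin 3))
    (D : Fin 3 → Set V) : Prop where
  Dsub : ∀ i, D i ⊆ F
  Du : ∀ i, u ∉ D i
  Ddisj : ∀ i j, i ≠ j → Disjoint (D i) (D j)
  odd : ∀ i ∈ O, ∃ p : G.Walk u (t i), p.IsPath ∧ wt (fun _ => (1 : ZMod 2)) p = 1 ∧
    ∀ x ∈ p.support, x = u ∨ x = t i ∨ x ∈ D i
  even : ∀ i ∈ E, ∃ p : G.Walk u (t i), p.IsPath ∧ wt (fun _ => (1 : ZMod 2)) p = 0 ∧
    ∀ x ∈ p.support, x = u ∨ x = t i ∨ x ∈ D i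

variable {G : SimpleGraph V} {U F : Set V} {u : V} {t h : Fin 3 → V} {O E : Finset (Fin 3)}
  {D : Fin 3 → Set V}

lemma Legs.even' (hs : StarPos G U F u t h O E) (hl : Legs G F u t O E D) {i : Fin 3}
    (hi : i ∈ E) : ∃ z ∈ D i, G.Adj u z ∧ ∃ q : G.Walk z (t i), q.IsPath ∧
      wt (fun _ => (1 : ZMod 2)) q = 1 ∧ ∀ x ∈ q.support, x = t i ∨ x ∈ D i := by
  obtain ⟨p, hp, hw, hsup⟩ := hl.even i hi
  have hut : u ≠ t i := (hs.t_ne_u i).symm
  generalize t i = b at *
  cases p with
  | nil => exact absurd rfl hut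
  | @cons _ z _ hadj q =>
    rw [Walk.cons_isPath_iff] at hp
    rw [wt_cons] at hw
    have hw' : wt (fun _ => (1 : ZMod 2)) q = 1 := by
      generalize wt (fun _ => (1 : ZMod 2)) q = a at hw
      revert a; decide
    have hq : ∀ x ∈ q.support, x = b ∨ x ∈ D i := by
      intro x hx
      have h1 := hsup x (by rw [Walk.support_cons]; exact List.mem_cons_of_mem _ hx)
      rcases h1 with h1 | h1
      · exact absurd (h1 ▸ hx) hp.2
      · exact h1
    have hz : z ∈ D i := by
      rcases hq z (Walk.start_mem_support q) with h1 | h1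
      · exfalso
        subst h1
        have h2 := Walk.isPath_iff_nil.1 hp.1
        rw [Walk.eq_nil_iff_nil.2 h2, wt_nil] at hw'
        exact absurd hw' (by decide)
      · exact h1
    exact ⟨z, hz, hadj, q, hp.1, hw', hq⟩

/-- Resolve all flexible legs. -/
lemma StarPos.resolve (hs : StarPos G U F u t h O E) {c : Sym2 V → ZMod 2}
    (hT : HasTOK4s (starL G F u t h O E) c) (S : Finset (Fin 3)) :
    ∃ K ≤ starL G F u t h O E, HasTOK4s K c ∧
      ∀ i ∈ S, i ∈ E → (¬ K.Adj u (t i) ∨ ∀ w, ¬ K.Adj (h i) w) := by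
  classical
  induction S using Finset.induction_on with
  | empty => exact ⟨_, le_rfl, hT, fun i hi => absurd hi (Finset.notMem_empty i)⟩
  | insert a S _ ih =>
    obtain ⟨K, hK, hKT, hKS⟩ := ih
    by_cases ha : a ∈ E
    · obtain ⟨K', hK', hKT', hor⟩ := tok_digon (u := u) (t := t a) (m := h a)
        (hs.t_ne_u a).symm (fun w hw => (hs.adj_h ha).1 (hK hw)) hKT
      refine ⟨K', hK'.trans hK, hKT', ?_⟩
      intro i hi hiE
      rw [Finset.mem_insert] at hi
      rcases hi with rfl | hi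
      · exact hor
      · rcases hKS i hi hiE with h1 | h1
        · exact Or.inl (fun hh => h1 (hK' hh))
        · exact Or.inr (fun w hh => h1 w (hK' hh))
    · refine ⟨K, hK, hKT, ?_⟩
      intro i hi hiE
      rw [Finset.mem_insert] at hi
      rcases hi with rfl | hi
      · exact absurd hiE ha
      · exact hKS i hi hiE

/-- **Lifting through the star.** -/
theorem StarPos.lift (hs : StarPos G U F u t h O E) (hl : Legs G F u t O E D)
    (hT : HasTOK4s (starL G F u t h O E) (fun _ => 1)) : HasTOK4s G (fun _ => 1) := by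
  classical
  obtain ⟨K, hK, hKT, hres0⟩ := hs.resolve hT Finset.univ
  have hres : ∀ i ∈ E, (¬ K.Adj u (t i) ∨ ∀ w, ¬ K.Adj (h i) w) :=
    fun i hi => hres0 i (Finset.mem_univ i) hi
  -- data
  have hz0 : ∀ i, ∃ z, i ∈ E → (z ∈ D i ∧ G.Adj u z ∧ ∃ q : G.Walk z (t i), q.IsPath ∧
      wt (fun _ => (1 : ZMod 2)) q = 1 ∧ ∀ x ∈ q.support, x = t i ∨ x ∈ D i) := by
    intro i
    by_cases hi : i ∈ E
    · obtain ⟨z, h1, h2, h3⟩ := hl.even' hs hi
      exact ⟨z, fun _ => ⟨h1, h2, h3⟩⟩
    · exact ⟨u, fun hh => absurd hh hi⟩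
  choose z hz using hz0
  have hzD : ∀ i ∈ E, z i ∈ D i := fun i hi => (hz i hi).1
  have hzF : ∀ i ∈ E, z i ∈ F := fun i hi => hl.Dsub i (hzD i hi)
  have hzu : ∀ i ∈ E, z i ≠ u := fun i hi hh => hl.Du i (hh ▸ hzD i hi)
  have hDuniq : ∀ i j x, x ∈ D i → x ∈ D j → i = j := by
    intro i j x hi hj
    by_contra hne
    exact (Set.disjoint_left.1 (hl.Ddisj i j hne)) hi hj
  let φ : V → V := fun x => if hx : ∃ i, i ∈ E ∧ x = h i then z hx.choose else x
  have hφh : ∀ i ∈ E, φ (h i) = z i := by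
    intro i hi
    have hx : ∃ j, j ∈ E ∧ h i = h j := ⟨i, hi, rfl⟩
    have h1 : φ (h i) = z hx.choose := dif_pos hx
    rw [h1, ← hs.hinj i hi _ hx.choose_spec.1 hx.choose_spec.2]
  have hφo : ∀ x, (∀ i ∈ E, x ≠ h i) → φ x = x := by
    intro x hx
    exact dif_neg (fun ⟨i, hi, h1⟩ => hx i hi h1)
  have hφF : ∀ x, x ∉ F → φ x = x := fun x hx => hφo x (fun i hi hh => hx (hh ▸ hs.hF i hi))
  have hφu : φ u = u := hφo u (fun i hi => (hs.hu i hi).symm)
  let used : Fin 3 → Prop := fun i => i ∈ E ∧ ∃ w, K.Adj (h i) w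
  let lab : V → Sym2 V := fun x => if hx : ∃ i, x ∈ D i then
    (if used hx.choose then s(h hx.choose, t hx.choose) else s(u, t hx.choose)) else s(u, u)
  have hlab : ∀ i x, x ∈ D i → lab x = if used i then s(h i, t i) else s(u, t i) := by
    intro i x hi
    have hx : ∃ j, x ∈ D j := ⟨i, hi⟩
    have h1 : lab x = if used hx.choose then s(h hx.choose, t hx.choose)
      else s(u, t hx.choose) := dif_pos hx
    rw [h1, ← hDuniq i _ x hi hx.choose_spec]
  -- the vertices of K
  have hsupp : ∀ x ∈ supp K, x ∉ F ∨ x = u ∨ ∃ i, used i ∧ x = h i := by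
    rintro x ⟨w, hw⟩
    by_cases hxF : x ∈ F
    · right
      have hw' := hK hw
      by_cases hxu : x = u
      · exact Or.inl hxu
      · right
        by_contra hcon
        push Not at hcon
        refine hs.no_other hxF hxu (fun i hi hh => ?_) hw'
        exact hcon i ⟨hi, w, hh ▸ hw⟩ hh
    · exact Or.inl hxF
  have himg : ∀ x ∈ φ '' supp K, x ∉ F ∨ x = u ∨ ∃ i, used i ∧ x = z i := by
    rintro _ ⟨x, hx, rfl⟩
    rcases hsupp x hx with h1 | h1 | ⟨i, hi, h1⟩
    · left; rw [hφF x h1]; exact h1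
    · right; left; rw [h1]; exact hφu
    · right; right; exact ⟨i, hi, by rw [h1]; exact hφh i hi.1⟩
  have hinj : Set.InjOn φ (supp K) := by
    intro x hx y hy hxy
    rcases hsupp x hx with h1 | h1 | ⟨i, hi, h1⟩ <;> rcases hsupp y hy with h2 | h2 | ⟨j, hj, h2⟩
    · rw [hφF x h1, hφF y h2] at hxy; exact hxy
    · subst h2
      rw [hφF x h1, hφu] at hxy
      exact absurd (hxy ▸ hs.uF) h1
    · subst h2
      rw [hφF x h1, hφh j hj.1] at hxy
      exact absurd (hxy ▸ hzF j hj.1) h1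
    · subst h1
      rw [hφu, hφF y h2] at hxy
      exact absurd (hxy ▸ hs.uF) h2
    · rw [h1, h2]
    · subst h1 h2
      rw [hφu, hφh j hj.1] at hxy
      exact absurd hxy.symm (hzu j hj.1)
    · subst h1
      rw [hφh i hi.1, hφF y h2] at hxy
      exact absurd (hxy ▸ hzF i hi.1) h2
    · subst h1 h2
      rw [hφh i hi.1, hφu] at hxy
      exact absurd hxy (hzu i hi.1)
    · subst h1 h2
      rw [hφh i hi.1, hφh j hj.1] at hxy
      rw [hDuniq i j (z i) (hzD i hi.1) (hxy ▸ hzD j hj.1)]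
  let Pr : V → V → Prop := fun x y => ∃ R : G.Walk (φ x) (φ y), R.IsPath ∧
    wt (fun _ => (1 : ZMod 2)) R = 1 ∧
    ∀ w ∈ R.support, w = φ x ∨ w = φ y ∨ (lab w = s(x, y) ∧ w ∉ φ '' supp K)
  have hPsymm : ∀ x y, Pr x y → Pr y x := by
    rintro x y ⟨R, h1, h2, h3⟩
    refine ⟨R.reverse, h1.reverse, by rw [wt_reverse]; exact h2, ?_⟩
    intro w hw
    rw [Walk.support_reverse, List.mem_reverse] at hw
    rcases h3 w hw with h4 | h4 | h4
    · exact Or.inr (Or.inl h4)
    · exact Or.inl h4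
    · exact Or.inr (Or.inr ⟨by rw [Sym2.eq_swap]; exact h4.1, h4.2⟩)
  have hPs : ∀ x y a b, s(x, y) = s(a, b) → Pr a b → Pr x y := by
    intro x y a b hab hP
    rw [Sym2.eq_iff] at hab
    rcases hab with ⟨rfl, rfl⟩ | ⟨rfl, rfl⟩
    · exact hP
    · exact hPsymm _ _ hP
  have hsingle : ∀ x y, G.Adj (φ x) (φ y) → Pr x y := by
    intro x y hxy
    refine ⟨Walk.cons hxy Walk.nil, ?_, ?_, ?_⟩
    · rw [Walk.cons_isPath_iff]
      refine ⟨Walk.IsPath.nil, ?_⟩
      rw [Walk.support_nil, List.mem_singleton]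
      exact hxy.ne
    · rw [wt_cons, wt_nil]; decide
    · intro w hw
      rw [Walk.support_cons, Walk.support_nil, List.mem_cons, List.mem_singleton] at hw
      rcases hw with hw | hw
      · exact Or.inl hw
      · exact Or.inr (Or.inl hw)
  refine HasTOK4s.subst φ lab hinj ?_ hKT
  intro x y hxy
  show Pr x y
  obtain ⟨hne, hadj⟩ := hK hxy
  rcases hadj with ⟨h1, h2, h3⟩ | ⟨i, hi, h1⟩ | ⟨i, hi, h1⟩ | ⟨i, hi, h1⟩
  · apply hsingle
    rw [hφF x h1, hφF y h2]; exact h3
  · -- direct leg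
    have hKut : K.Adj u (t i) := by
      rw [← SimpleGraph.mem_edgeSet, ← h1]; exact hxy
    have hnu : ¬ used i := by
      rintro ⟨hiE, w, hw⟩
      rcases hres i hiE with h2 | h2
      · exact h2 hKut
      · exact h2 w hw
    apply hPs x y u (t i) h1
    obtain ⟨p, hp, hw, hsup⟩ := hl.odd i hi
    have e1 : φ u = u := hφu
    have e2 : φ (t i) = t i := hφF _ (hs.t_notF i)
    refine ⟨p.copy e1.symm e2.symm, ?_, ?_, ?_⟩
    · rw [Walk.isPath_copy]; exact hp
    · rw [wt_copy]; exact hw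
    · intro w hw'
      rw [Walk.support_copy] at hw'
      rw [e1, e2]
      rcases hsup w hw' with h2 | h2 | h2
      · exact Or.inl h2
      · exact Or.inr (Or.inl h2)
      · right; right
        refine ⟨?_, ?_⟩
        · rw [hlab i w h2, if_neg hnu]
        · intro hh
          rcases himg w hh with h3 | h3 | ⟨j, hj, h3⟩
          · exact h3 (hl.Dsub i h2)
          · exact hl.Du i (h3 ▸ h2)
          · have := hDuniq i j w h2 (h3 ▸ hzD j hj.1)
            exact hnu (this ▸ hj)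
  · apply hPs x y u (h i) h1
    apply hsingle
    rw [hφu, hφh i hi]
    exact (hz i hi).2.1
  · have hKht : K.Adj (h i) (t i) := by
      rw [← SimpleGraph.mem_edgeSet, ← h1]; exact hxy
    have hus : used i := ⟨hi, t i, hKht⟩
    apply hPs x y (h i) (t i) h1
    obtain ⟨q, hq, hw, hsup⟩ := (hz i hi).2.2
    have e1 : φ (h i) = z i := hφh i hi
    have e2 : φ (t i) = t i := hφF _ (hs.t_notF i)
    refine ⟨q.copy e1.symm e2.symm, ?_, ?_, ?_⟩
    · rw [Walk.isPath_copy]; exact hq
    · rw [wt_copy]; exact hw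
    · intro w hw'
      rw [Walk.support_copy] at hw'
      rw [e1, e2]
      by_cases hwz : w = z i
      · exact Or.inl hwz
      rcases hsup w hw' with h2 | h2
      · exact Or.inr (Or.inl h2)
      · right; right
        refine ⟨?_, ?_⟩
        · rw [hlab i w h2, if_pos hus]
        · intro hh
          rcases himg w hh with h3 | h3 | ⟨j, hj, h3⟩
          · exact h3 (hl.Dsub i h2)
          · exact hl.Du i (h3 ▸ h2)
          · have := hDuniq i j w h2 (h3 ▸ hzD j hj.1)
            subst this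
            exact hwz h3

end Pool.Agent.Helper82.TK
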