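import Pool.Agent.Helper82.TK.BalMax
import Pool.Agent.Helper82.TK.StarLift
import Pool.Agent.Helper82.TK.Fan

/-!
# The star inside a maximal balanced set: fan, legs
-/

set_option autoImplicit false

namespace Pool.Agent.Helper82.TK

open SimpleGraph Pool.Agent.Helper57.TOK Pool.Agent.Helper57.TD

variable {V : Type*}

/-- Three disjoint paths from `u` to the boundary of `M`. -/
structure FanM (G : SimpleGraph V) (M : Set V) (u : V) (n : Fin 3 → V)
    (P : ∀ i, G.Walk u (n i)) : Prop where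
  ninj : Function.Injective n
  nrange : Set.range n = Nb G M
  path : ∀ i, (P i).IsPath
  supp : ∀ i, ∀ y ∈ (P i).support, y = n i ∨ y ∈ M
  disj : ∀ i j, i ≠ j → ∀ y, y ∈ (P i).support → y ∈ (P j).support → y = u

section

variable {G : SimpleGraph V} {U M : Set V} {κ : V → ZMod 2} {u : V}

lemma BalMax.three_le [Finite V] (h : BalMax G U M κ) {B : Set V} (hB : B ⊆ M)
    (h2 : 2 ≤ B.ncard) : 3 ≤ (Nb G B).ncard := by
  by_contra hlt
  push Not at hlt
  have h1 := h.pre.conn B (hB.trans h.MU) h2 (by omega)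
  have h3 : U \ (M ∪ Nb G M) ⊆ U \ (B ∪ Nb G B) := by
    rintro x ⟨hxU, hx⟩
    refine ⟨hxU, ?_⟩
    rintro (h4 | ⟨-, b, hb, hbx⟩)
    · exact hx (Or.inl (hB h4))
    · exact not_adj_M (hB hb) (fun h5 => hx (Or.inl h5)) (fun h5 => hx (Or.inr h5)) hbx
  have h4 := Set.ncard_le_ncard h3 (Set.toFinite _)
  have := h.rest
  omega

lemma BalMax.exists_fan [Finite V] (h : BalMax G U M κ) (hu : u ∈ M)
    (hdeg : 3 ≤ (G.neighborSet u).ncard) :
    ∃ (n : Fin 3 → V) (P : ∀ i, G.Walk u (n i)), FanM G M u n P := by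
  classical
  have huN : u ∉ Nb G M := fun h => h.1 hu
  have hfan : Fan (restr G M) u (Nb G M) 3 := by
    apply fan_of_Nb huN
    intro Y huY hd hreach
    have hYM : Y ⊆ M := by
      intro y hy
      obtain ⟨p, hp⟩ := hreach y hy
      have key : ∀ (a b : V) (q : (restr G M).Walk a b), (∀ z ∈ q.support, z ∈ Y) → a ∈ M →
          b ∈ M := by
        intro a b q
        induction q with
        | nil => intro _ h; exact h
        | @cons a z b h q ih =>
          intro hq ha
          apply ih (fun x hx => hq x (by rw [Walk.support_cons]; exact List.mem_cons_of_mem _ hx))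
          by_contra hz
          have hzN : z ∈ Nb G M := ⟨hz, a, ha, h.1⟩
          have hzY : z ∈ Y := hq z (by
            rw [Walk.support_cons]; exact List.mem_cons_of_mem _ q.start_mem_support)
          exact (Set.disjoint_left.1 hd) hzY hzN
      exact key u y p hp hu
    rw [Nb_restr G hYM]
    by_cases h2 : 2 ≤ Y.ncard
    · exact h.three_le hYM h2
    · have hY1 : Y.ncard = 1 := by
        have : 0 < Y.ncard := (Set.ncard_pos (Set.toFinite _)).2 ⟨u, huY⟩
        omega
      obtain ⟨y, rfl⟩ := Set.ncard_eq_one.1 hY1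
      rw [Set.mem_singleton_iff] at huY
      subst huY
      rw [Nb_singleton]
      exact hdeg
  obtain ⟨b, P, hP, hPB, hPd⟩ := hfan
  have hbinj : Function.Injective b := Fan.injective_end huN (fun i => (hP i).1) hPd
  have hrange : Set.range b = Nb G M := by
    apply Set.eq_of_subset_of_ncard_le _ _ (Set.toFinite _)
    · rintro _ ⟨i, rfl⟩; exact (hP i).1
    · rw [h.three, ← Set.image_univ, Set.ncard_image_of_injective _ hbinj, Set.ncard_univ]
      simp
  have hPW : ∀ i, ∀ x ∈ (P i).support, x = b i ∨ x ∈ M := by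
    intro i x hx
    have key : ∀ (a c : V) (q : (restr G M).Walk a c), ∀ x ∈ q.support,
        a ∈ M ∪ Nb G M → x ∈ M ∪ Nb G M := by
      intro a c q
      induction q with
      | nil =>
        intro x hx ha
        simp only [Walk.support_nil, List.mem_cons, List.not_mem_nil, or_false] at hx
        exact hx ▸ ha
      | @cons a z c h q ih =>
        intro x hx ha
        rw [Walk.support_cons, List.mem_cons] at hx
        rcases hx with rfl | hx
        · exact ha
        · apply ih x hx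
          by_cases hz : z ∈ M
          · exact Or.inl hz
          · exact Or.inr ⟨hz, a, h.2.resolve_right hz, h.1⟩
    rcases key _ _ (P i) x hx (Or.inl hu) with h | h
    · exact Or.inr h
    · exact Or.inl (hPB i x hx h)
  refine ⟨b, fun i => (P i).mapLe (restr_le G M), hbinj, hrange,
    fun i => (Walk.isPath_mapLe _).2 (hP i).2, ?_, ?_⟩
  · intro i y hy
    rw [Walk.support_mapLe_eq_support] at hy
    exact hPW i y hy
  · intro i j hij y hy hy'
    rw [Walk.support_mapLe_eq_support] at hy hy'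
    exact hPd i j hij y hy hy'

/-- Weight of a bichromatic walk. -/
lemma wt_bichr {κ : V → ZMod 2} {a b : V} (p : G.Walk a b)
    (hp : ∀ x y, s(x, y) ∈ p.edges → κ x ≠ κ y) : wt (fun _ => (1 : ZMod 2)) p = κ a + κ b := by
  induction p with
  | nil => rw [wt_nil, CharTwo.add_self_eq_zero]
  | @cons a d b h q ih =>
    rw [wt_cons, ih (fun x y hxy => hp x y (by
      rw [Walk.edges_cons]; exact List.mem_cons_of_mem _ hxy))]
    have h1 : κ a ≠ κ d := hp a d (by rw [Walk.edges_cons]; exact List.mem_cons_self)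
    have key : ∀ a b d : ZMod 2, a ≠ b → 1 + (b + d) = a + d := by decide
    exact key _ _ _ h1

lemma FanM.wt_P {n : Fin 3 → V} {P : ∀ i, G.Walk u (n i)} (hf : FanM G M u n P)
    (hb : PB G κ M) (i : Fin 3) : wt (fun _ => (1 : ZMod 2)) (P i) = κ u + κ (n i) := by
  apply wt_bichr
  intro x y hxy
  have hadj := Walk.adj_of_mem_edges _ hxy
  rcases hf.supp i x (Walk.fst_mem_support_of_mem_edges _ hxy) with h1 | h1
  · rcases hf.supp i y (Walk.snd_mem_support_of_mem_edges _ hxy) with h2 | h2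
    · exact absurd (h1.trans h2.symm) hadj.ne
    · exact (hb y x h2 hadj.symm).symm
  · exact hb x y h1 hadj

/-- An even path has an inner vertex. -/
lemma exists_inner {a b : V} (p : G.Walk a b) (hp : p.IsPath) (hab : a ≠ b)
    (hw : wt (fun _ => (1 : ZMod 2)) p = 0) : ∃ z ∈ p.support, z ≠ a ∧ z ≠ b := by
  cases p with
  | nil => exact absurd rfl hab
  | @cons _ z _ hadj q =>
    refine ⟨z, ?_, hadj.ne', ?_⟩
    · rw [Walk.support_cons]; exact List.mem_cons_of_mem _ q.start_mem_support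
    · rintro rfl
      rw [Walk.cons_isPath_iff] at hp
      have h2 := Walk.isPath_iff_nil.1 hp.1
      rw [wt_cons, Walk.eq_nil_iff_nil.2 h2, wt_nil] at hw
      exact absurd hw (by decide)

end

/-- Direct legs. -/
def OB (κ : V → ZMod 2) (n : Fin 3 → V) (u : V) (B : Finset (Fin 3)) : Finset (Fin 3) :=
  B ∪ Finset.univ.filter (fun i => κ (n i) ≠ κ u)

/-- Legs with a handle. -/
def EB (κ : V → ZMod 2) (n : Fin 3 → V) (u : V) (B : Finset (Fin 3)) : Finset (Fin 3) :=
  B ∪ Finset.univ.filter (fun i => κ (n i) = κ u)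

section

variable {G : SimpleGraph V} {U M : Set V} {κ : V → ZMod 2} {u : V} {n m x : Fin 3 → V}
  {B : Finset (Fin 3)}

lemma mem_OB {i : Fin 3} : i ∈ OB κ n u B ↔ i ∈ B ∨ κ (n i) ≠ κ u := by
  unfold OB
  rw [Finset.mem_union, Finset.mem_filter]
  simp

lemma mem_EB {i : Fin 3} : i ∈ EB κ n u B ↔ i ∈ B ∨ κ (n i) = κ u := by
  unfold EB
  rw [Finset.mem_union, Finset.mem_filter]
  simp

lemma card_OB_EB : (OB κ n u B).card + (EB κ n u B).card = 3 + B.card := by
  have h1 : OB κ n u B ∪ EB κ n u B = Finset.univ := by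
    ext i
    rw [Finset.mem_union, mem_OB, mem_EB]
    simp only [Finset.mem_univ, iff_true]
    by_cases h : κ (n i) = κ u
    · exact Or.inr (Or.inr h)
    · exact Or.inl (Or.inr h)
  have h2 : OB κ n u B ∩ EB κ n u B = B := by
    ext i
    rw [Finset.mem_inter, mem_OB, mem_EB]
    constructor
    · rintro ⟨h1 | h1, h2 | h2⟩
      · exact h1
      · exact h1
      · exact h2
      · exact absurd h2 h1
    · intro h1
      exact ⟨Or.inl h1, Or.inl h1⟩
  have h3 := Finset.card_union_add_card_inter (OB κ n u B) (EB κ n u B)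
  rw [h1, h2, Finset.card_univ, Fintype.card_fin] at h3
  omega

/-- A path to `x i` of prescribed parity. -/
lemma BD.long_leg [Finite V] (h : BD G U M κ n m x B) {P : ∀ i, G.Walk u (n i)}
    (hf : FanM G M u n P) {i : Fin 3} (hi : i ∈ B) (a : ZMod 2) :
    ∃ p : G.Walk u (x i), p.IsPath ∧ wt (fun _ => (1 : ZMod 2)) p = a ∧
      ∀ y ∈ p.support, y = x i ∨ y = m i ∨ y ∈ (P i).support := by
  have hbad := h.bad i hi
  have hxs : x i ∉ (P i).support := by
    intro hh
    rcases hf.supp i _ hh with h1 | h1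
    · exact h.x_ne_n hi i h1
    · exact hbad.xM h1
  have hms : m i ∉ (P i).support := by
    intro hh
    rcases hf.supp i _ hh with h1 | h1
    · exact h.m_ne_n hi i h1
    · exact hbad.mM h1
  by_cases hw : wt (fun _ => (1 : ZMod 2)) (P i) = a + 1
  · refine ⟨(P i).concat hbad.nx, (hf.path i).concat hxs hbad.nx, ?_, ?_⟩
    · rw [Walk.concat_eq_append, wt_append, hw, wt_cons, wt_nil]
      have key : ∀ a : ZMod 2, a + 1 + (1 + 0) = a := by decide
      exact key a
    · intro y hy
      rw [Walk.support_concat, List.mem_append, List.mem_singleton] at hy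
      rcases hy with hy | hy
      · exact Or.inr (Or.inr hy)
      · exact Or.inl hy
  · have hw' : wt (fun _ => (1 : ZMod 2)) (P i) = a := by
      generalize wt (fun _ => (1 : ZMod 2)) (P i) = b at hw
      revert a b; decide
    have hp1 := (hf.path i).concat hms hbad.nm
    have hx2 : x i ∉ ((P i).concat hbad.nm).support := by
      rw [Walk.support_concat, List.mem_append, List.mem_singleton]
      rintro (h1 | h1)
      · exact hxs h1
      · exact hbad.mx h1.symm
    refine ⟨((P i).concat hbad.nm).concat hbad.mx', hp1.concat hx2 hbad.mx', ?_, ?_⟩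
    · rw [Walk.concat_eq_append, wt_append, Walk.concat_eq_append, wt_append, hw', wt_cons, wt_nil,
        wt_cons, wt_nil]
      have key : ∀ a : ZMod 2, a + (1 + 0) + (1 + 0) = a := by decide
      exact key a
    · intro y hy
      rw [Walk.support_concat, List.mem_append, List.mem_singleton,
        Walk.support_concat, List.mem_append, List.mem_singleton] at hy
      rcases hy with (hy | hy) | hy
      · exact Or.inr (Or.inr hy)
      · exact Or.inr (Or.inl hy)
      · exact Or.inl hy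

/-- The sets of the legs. -/
def DB {G : SimpleGraph V} {u : V} (n m : Fin 3 → V) (P : ∀ i, G.Walk u (n i))
    (B : Finset (Fin 3)) (i : Fin 3) : Set V :=
  {y | (y ∈ (P i).support ∧ y ≠ u ∧ y ≠ n i) ∨ (i ∈ B ∧ (y = n i ∨ y = m i))}

theorem BD.legs [Finite V] (h : BD G U M κ n m x B) {P : ∀ i, G.Walk u (n i)}
    (hf : FanM G M u n P) (hu : u ∈ M) :
    Legs G (FB M n m B) u (tB n x B) (OB κ n u B) (EB κ n u B) (DB n m P B) := by
  have huN : u ∉ Nb G M := fun hh => hh.1 hu
  have hPM : ∀ i y, y ∈ (P i).support → y ≠ n i → y ∈ M := fun i y hy hyn =>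
    (hf.supp i y hy).resolve_left hyn
  have hlong : ∀ i ∈ B, ∀ a : ZMod 2, ∃ p : G.Walk u (tB n x B i), p.IsPath ∧
      wt (fun _ => (1 : ZMod 2)) p = a ∧
      ∀ y ∈ p.support, y = u ∨ y = tB n x B i ∨ y ∈ DB n m P B i := by
    intro i hi a
    rw [BD.t_bad hi]
    obtain ⟨p, hp, hw, hs⟩ := h.long_leg hf hi a
    refine ⟨p, hp, hw, ?_⟩
    intro y hy
    by_cases hyu : y = u
    · exact Or.inl hyu
    rcases hs y hy with h1 | h1 | h1
    · exact Or.inr (Or.inl h1)
    · exact Or.inr (Or.inr (Or.inr ⟨hi, Or.inr h1⟩))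
    · by_cases hyn : y = n i
      · exact Or.inr (Or.inr (Or.inr ⟨hi, Or.inl hyn⟩))
      · exact Or.inr (Or.inr (Or.inl ⟨h1, hyu, hyn⟩))
  have hshort : ∀ i, i ∉ B → ∀ y ∈ (P i).support,
      y = u ∨ y = tB n x B i ∨ y ∈ DB n m P B i := by
    intro i hi y hy
    rw [BD.t_good hi]
    by_cases hyu : y = u
    · exact Or.inl hyu
    by_cases hyn : y = n i
    · exact Or.inr (Or.inl hyn)
    · exact Or.inr (Or.inr (Or.inl ⟨hy, hyu, hyn⟩))
  have hgood : ∀ i, i ∉ B → ∃ p : G.Walk u (tB n x B i), p.IsPath ∧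
      wt (fun _ => (1 : ZMod 2)) p = κ u + κ (n i) ∧
      ∀ y ∈ p.support, y = u ∨ y = tB n x B i ∨ y ∈ DB n m P B i := by
    intro i hi
    have e : n i = tB n x B i := (BD.t_good hi).symm
    refine ⟨(P i).copy rfl e, ?_, ?_, ?_⟩
    · rw [Walk.isPath_copy]; exact hf.path i
    · rw [wt_copy]; exact hf.wt_P h.bm.bal i
    · intro y hy
      rw [Walk.support_copy] at hy
      exact hshort i hi y hy
  constructor
  · rintro i y (h1 | h1)
    · exact Or.inl (hPM i y h1.1 h1.2.2)
    · exact Or.inr ⟨i, h1.1, h1.2⟩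
  · rintro i (h1 | ⟨hi, h1 | h1⟩)
    · exact h1.2.1 rfl
    · exact huN (h1 ▸ h.nN i)
    · exact (h.bad i hi).mM (h1 ▸ hu)
  · intro i j hij
    rw [Set.disjoint_left]
    rintro y (⟨h1, h2, h3⟩ | ⟨hi, h1⟩) (⟨h4, h5, h6⟩ | ⟨hj, h4⟩)
    · exact h2 (hf.disj i j hij y h1 h4)
    · have hyM := hPM i y h1 h3
      rcases h4 with h4 | h4
      · exact h.nM j (h4 ▸ hyM)
      · exact (h.bad j hj).mM (h4 ▸ hyM)
    · have hyM := hPM j y h4 h6
      rcases h1 with h1 | h1
      · exact h.nM i (h1 ▸ hyM)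
      · exact (h.bad i hi).mM (h1 ▸ hyM)
    · rcases h1 with h1 | h1 <;> rcases h4 with h4 | h4
      · exact hij (h.ninj (h1.symm.trans h4))
      · exact h.m_ne_n hj i (h4.symm.trans h1)
      · exact h.m_ne_n hi j (h1.symm.trans h4)
      · exact hij (h.m_inj hi hj (h1.symm.trans h4))
  · intro i hi
    rw [mem_OB] at hi
    by_cases hiB : i ∈ B
    · exact hlong i hiB 1
    · obtain ⟨p, hp, hw, hs⟩ := hgood i hiB
      refine ⟨p, hp, ?_, hs⟩
      rw [hw]
      have key : ∀ a b : ZMod 2, b ≠ a → a + b = 1 := by decide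
      exact key _ _ (hi.resolve_left hiB)
  · intro i hi
    rw [mem_EB] at hi
    by_cases hiB : i ∈ B
    · exact hlong i hiB 0
    · obtain ⟨p, hp, hw, hs⟩ := hgood i hiB
      refine ⟨p, hp, ?_, hs⟩
      rw [hw, hi.resolve_left hiB]
      exact CharTwo.add_self_eq_zero _

/-- The star exists. -/
theorem BD.exists_star [Finite V] (h : BD G U M κ n m x B) {P : ∀ i, G.Walk u (n i)}
    (hf : FanM G M u n P) (hu : u ∈ M) :
    ∃ hh : Fin 3 → V, StarPos G U (FB M n m B) u (tB n x B) hh (OB κ n u B) (EB κ n u B) ∧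
      (∀ i ∈ B, hh i = m i) ∧
      (∀ i ∈ EB κ n u B, i ∉ B → hh i ∈ M ∧ hh i ∈ (P i).support) ∧
      ∀ i ∈ EB κ n u B, hh i ∈ DB n m P B i := by
  classical
  have hl := h.legs hf hu
  have huN : u ∉ Nb G M := fun hh => hh.1 hu
  have h0 : ∀ i, ∃ z, i ∈ EB κ n u B → i ∉ B → (z ∈ (P i).support ∧ z ≠ u ∧ z ≠ n i) := by
    intro i
    by_cases hi : i ∈ EB κ n u B ∧ i ∉ B
    · obtain ⟨z, h1, h2, h3⟩ := exists_inner (P i) (hf.path i)
        (fun hh => huN (hh ▸ h.nN i)) (by
          rw [hf.wt_P h.bm.bal i, (mem_EB.1 hi.1).resolve_left hi.2]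
          exact CharTwo.add_self_eq_zero _)
      exact ⟨z, fun _ _ => ⟨h1, h2, h3⟩⟩
    · exact ⟨u, fun h1 h2 => absurd ⟨h1, h2⟩ hi⟩
  choose z hz using h0
  let hh : Fin 3 → V := fun i => if i ∈ B then m i else z i
  have hhB : ∀ i ∈ B, hh i = m i := fun i hi => if_pos hi
  have hhG : ∀ i, i ∉ B → hh i = z i := fun i hi => if_neg hi
  have hD : ∀ i ∈ EB κ n u B, hh i ∈ DB n m P B i := by
    intro i hi
    by_cases hiB : i ∈ B
    · rw [hhB i hiB]; exact Or.inr ⟨hiB, Or.inr rfl⟩
    · rw [hhG i hiB]; exact Or.inl (hz i hi hiB)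
  refine ⟨hh, ?_, hhB, ?_, hD⟩
  · refine ⟨h.FU, Or.inl hu, ?_, ?_, ?_, h.t_inj, h.nbF, ?_⟩
    · intro i hi; exact hl.Dsub i (hD i hi)
    · intro i hi h1; exact hl.Du i (h1 ▸ hD i hi)
    · intro i hi j hj hij
      by_contra hne
      exact (Set.disjoint_left.1 (hl.Ddisj i j hne)) (hD i hi) (hij ▸ hD j hj)
    · intro i
      rw [mem_OB, mem_EB]
      by_cases h1 : κ (n i) = κ u
      · exact Or.inr (Or.inr h1)
      · exact Or.inl (Or.inr h1)
  · intro i hi hiB
    rw [hhG i hiB]
    obtain ⟨h1, h2, h3⟩ := hz i hi hiB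
    exact ⟨(hf.supp i _ h1).resolve_left h3, h1⟩

end

end Pool.Agent.Helper82.TK
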