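import Pool.Agent.Helper82.TK.BalFan

/-!
# No vertex meets all odd cycles of the star graph of a maximal balanced set
-/

set_option autoImplicit false

namespace Pool.Agent.Helper82.TK

open SimpleGraph Pool.Agent.Helper57.TOK Pool.Agent.Helper57.TD

variable {V : Type*}

section

variable {G : SimpleGraph V} {U M : Set V} {κ : V → ZMod 2} {u : V} {n m x hh : Fin 3 → V}
  {B : Finset (Fin 3)}

lemma ncard_le_one_of' [Finite V] {S : Set V} {a : V} (h : ∀ x ∈ S, x = a) : S.ncard ≤ 1 := by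
  have h1 : S ⊆ {a} := fun x hx => h x hx
  have h2 := Set.ncard_le_ncard h1 (Set.toFinite _)
  rwa [Set.ncard_singleton] at h2

/-- Extension of a colouring to `F`. -/
lemma BD.exists_col (h : BD G U M κ n m x B) [Finite V] (κ1 : V → ZMod 2) (δ : ZMod 2) :
    ∃ f : V → ZMod 2, (∀ v ∈ M, f v = κ v + δ) ∧ (∀ l ∈ B, f (m l) = κ1 (x l) + 1) ∧
      ∀ v, v ∉ M → (∀ l ∈ B, v ≠ m l) → f v = κ1 v := by
  classical
  refine ⟨fun v => if v ∈ M then κ v + δ else if hv : ∃ l ∈ B, v = m l then κ1 (x hv.choose) + 1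
    else κ1 v, ?_, ?_, ?_⟩
  · intro v hv
    simp only [if_pos hv]
  · intro l hl
    have h1 : m l ∉ M := (h.bad l hl).mM
    have h2 : ∃ l' ∈ B, m l = m l' := ⟨l, hl, rfl⟩
    simp only [if_neg h1, dif_pos h2]
    have h3 := h2.choose_spec
    rw [← h.m_inj hl h3.1 h3.2]
  · intro v hv hv2
    have h2 : ¬ ∃ l ∈ B, v = m l := by
      rintro ⟨l, hl, h3⟩
      exact hv2 l hl h3
    simp only [if_neg hv, dif_neg h2]

/-- A colouring of the outside, consistent on the boundary up to two vertices. -/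
lemma BD.no_col [Finite V] (h : BD G U M κ n m x B) (κ1 : V → ZMod 2) (δ : ZMod 2) (z1 z2 : V)
    (h1 : ∀ l ∈ B, n l = z1 ∨ n l = z2)
    (h2 : ∀ j, j ∉ B → n j = z1 ∨ n j = z2 ∨ κ1 (n j) = κ (n j) + δ)
    (h3 : ∀ a b, a ∉ FB M n m B → b ∉ FB M n m B → a ≠ z1 → a ≠ z2 → b ≠ z1 → b ≠ z2 →
      G.Adj a b → κ1 a ≠ κ1 b) : False := by
  classical
  obtain ⟨f, f1, f2, f3⟩ := h.exists_col κ1 δ
  have hadd : ∀ a : ZMod 2, a ≠ a + 1 := by decide
  have hcanc : ∀ a b δ : ZMod 2, a ≠ b → a + δ ≠ b + δ := by decide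
  -- edges at M
  have kM : ∀ v w, v ∈ M → G.Adj v w → w ≠ z1 → w ≠ z2 → f v ≠ f w := by
    intro v w hv hvw hw1 hw2
    rw [f1 v hv]
    by_cases hw : w ∈ M
    · rw [f1 w hw]
      exact hcanc _ _ _ (h.bm.bal v w hv hvw)
    · have hwN : w ∈ Nb G M := ⟨hw, v, hv, hvw⟩
      obtain ⟨j, rfl⟩ := h.exists_n hwN
      rw [f3 (n j) hw (fun l hl hh => h.m_ne_n hl j hh.symm)]
      by_cases hj : j ∈ B
      · rcases h1 j hj with h4 | h4
        · exact absurd h4 hw1
        · exact absurd h4 hw2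
      · rcases h2 j hj with h4 | h4 | h4
        · exact absurd h4 hw1
        · exact absurd h4 hw2
        · rw [h4]
          exact hcanc _ _ _ (h.bm.bal v _ hv hvw)
  -- edges at m
  have km : ∀ l ∈ B, ∀ w, G.Adj (m l) w → w ≠ z1 → w ≠ z2 → f (m l) ≠ f w := by
    intro l hl w hw hw1 hw2
    rcases (h.bad l hl).nbm' hw with h4 | h4
    · subst h4
      rcases h1 l hl with h5 | h5
      · exact absurd h5 hw1
      · exact absurd h5 hw2
    · subst h4
      rw [f2 l hl, f3 (x l) (h.bad l hl).xM (fun l' hl' hh => h.m_ne_x hl' hl hh.symm)]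
      exact (hadd _).symm
  refine h.bm.ind3 z1 z2 f ?_
  intro v w hv1 hv2 hw1 hw2 hvw
  by_cases hvM : v ∈ M
  · exact kM v w hvM hvw hw1 hw2
  by_cases hwM : w ∈ M
  · exact (kM w v hwM hvw.symm hv1 hv2).symm
  by_cases hvm : ∃ l ∈ B, v = m l
  · obtain ⟨l, hl, rfl⟩ := hvm
    exact km l hl w hvw hw1 hw2
  by_cases hwm : ∃ l ∈ B, w = m l
  · obtain ⟨l, hl, rfl⟩ := hwm
    exact (km l hl v hvw.symm hv1 hv2).symm
  push Not at hvm hwm
  rw [f3 v hvM hvm, f3 w hwM hwm]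
  have key : ∀ y, y ∉ M → (∀ l ∈ B, y ≠ m l) → y ≠ z1 → y ≠ z2 → y ∉ FB M n m B := by
    rintro y hy1 hy2 hy3 hy4 (h4 | ⟨l, hl, h4 | h4⟩)
    · exact hy1 h4
    · subst h4
      rcases h1 l hl with h5 | h5
      · exact hy3 h5
      · exact hy4 h5
    · exact hy2 l hl h4
  exact h3 v w (key v hvM hvm hv1 hv2) (key w hwM hwm hw1 hw2) hv1 hv2 hw1 hw2 hvw

/-- The first case: the deleted vertex is the centre and a boundary vertex is good. -/
lemma BD.index_u [Finite V] (h : BD G U M κ n m x B) (κ1 : V → ZMod 2)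
    (h3 : ∀ a b, a ∉ FB M n m B → b ∉ FB M n m B → G.Adj a b → κ1 a ≠ κ1 b)
    {i0 : Fin 3} (hi0 : i0 ∉ B) : False := by
  obtain ⟨j, k, hj, hk, hjk, hall⟩ : ∃ j k : Fin 3, j ≠ i0 ∧ k ≠ i0 ∧ j ≠ k ∧
      ∀ l, l = i0 ∨ l = j ∨ l = k := by
    clear hi0
    revert i0; decide
  refine h.no_col κ1 (κ (n i0) + κ1 (n i0)) (n j) (n k) ?_ ?_ ?_
  · intro l hl
    rcases hall l with h1 | h1 | h1
    · exact absurd (h1 ▸ hl) hi0
    · exact Or.inl (by rw [h1])
    · exact Or.inr (by rw [h1])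
  · intro l hl
    rcases hall l with h1 | h1 | h1
    · subst h1
      right; right
      have : ∀ a b : ZMod 2, b = a + (a + b) := by decide
      exact this _ _
    · exact Or.inl (by rw [h1])
    · exact Or.inr (Or.inl (by rw [h1]))
  · intro a b ha hb _ _ _ _ hab
    exact h3 a b ha hb hab

/-- The case `w ≠ u`. -/
lemma BD.index_ne [Finite V] (h : BD G U M κ n m x B)
    (hs : StarPos G U (FB M n m B) u (tB n x B) hh (OB κ n u B) (EB κ n u B))
    (κ1 : V → ZMod 2) {w : V} (hw : w ≠ u)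
    (hκ : ∀ a b, a ≠ w → b ≠ w →
      (starL G (FB M n m B) u (tB n x B) hh (OB κ n u B) (EB κ n u B)).Adj a b → κ1 a ≠ κ1 b) :
    False := by
  classical
  -- untouched legs are consistent
  have cO : ∀ j ∈ OB κ n u B, w ≠ tB n x B j → κ1 u ≠ κ1 (tB n x B j) := by
    intro j hj h1
    exact hκ _ _ hw.symm h1.symm ((hs.adj_u).2 (Or.inl ⟨j, hj, rfl⟩))
  have cE : ∀ j ∈ EB κ n u B, w ≠ tB n x B j → w ≠ hh j → κ1 (tB n x B j) = κ1 u := by
    intro j hj h1 h2
    have e1 := hκ _ _ hw.symm h2.symm ((hs.adj_u).2 (Or.inr ⟨j, hj, rfl⟩))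
    have e2 := hκ _ _ h2.symm h1.symm ((hs.adj_h hj).2 (Or.inr rfl))
    revert e1 e2
    generalize κ1 u = a
    generalize κ1 (hh j) = b
    generalize κ1 (tB n x B j) = c
    revert a b c; decide
  obtain ⟨i0, hi0⟩ : ∃ i0 : Fin 3, ∀ j, j ≠ i0 → w ≠ tB n x B j ∧
      (j ∈ EB κ n u B → w ≠ hh j) := by
    by_cases hT : ∃ i, w = tB n x B i ∨ (i ∈ EB κ n u B ∧ w = hh i)
    · obtain ⟨i, hi⟩ := hT
      refine ⟨i, ?_⟩
      intro j hji
      rcases hi with hi | ⟨hi, hi'⟩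
      · refine ⟨fun h1 => hji (hs.tinj (h1.symm.trans hi)), fun hj h1 => ?_⟩
        exact hs.t_ne_h i hj (hi.symm.trans h1)
      · refine ⟨fun h1 => hs.t_ne_h j hi (h1.symm.trans hi'), fun hj h1 => ?_⟩
        exact hji (hs.hinj j hj i hi (h1.symm.trans hi'))
    · push Not at hT
      exact ⟨0, fun j _ => ⟨(hT j).1, (hT j).2⟩⟩
  have hB : ∀ l ∈ B, l = i0 := by
    intro l hl
    by_contra hne
    obtain ⟨h1, h2⟩ := hi0 l hne
    have hlO : l ∈ OB κ n u B := mem_OB.2 (Or.inl hl)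
    have hlE : l ∈ EB κ n u B := mem_EB.2 (Or.inl hl)
    exact cO l hlO h1 (cE l hlE h1 (h2 hlE)).symm
  refine h.no_col κ1 (κ u + κ1 u) (n i0) w ?_ ?_ ?_
  · intro l hl
    exact Or.inl (by rw [hB l hl])
  · intro j hj
    by_cases hji : j = i0
    · exact Or.inl (by rw [hji])
    · right; right
      obtain ⟨h1, h2⟩ := hi0 j hji
      have ht : tB n x B j = n j := BD.t_good hj
      by_cases hc : κ (n j) = κ u
      · have h4 := cE j (mem_EB.2 (Or.inr hc)) h1 (h2 (mem_EB.2 (Or.inr hc)))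
        rw [ht] at h4
        rw [h4, hc]
        have : ∀ a b : ZMod 2, b = a + (a + b) := by decide
        exact this _ _
      · have h4 := cO j (mem_OB.2 (Or.inr hc)) h1
        rw [ht] at h4
        revert hc h4
        generalize κ (n j) = a
        generalize κ u = b
        generalize κ1 u = c
        generalize κ1 (n j) = d
        revert a b c d; decide
  · intro a b ha hb ha1 ha2 hb1 hb2 hab
    exact hκ a b ha2 hb2 ((hs.adj_out ha hb).2 hab)

end

end Pool.Agent.Helper82.TK
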