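import Pool.Agent.Helper82.TK.StarL
import Pool.Agent.Helper82.TK.MinDense

/-!
# Maximal balanced sets with three neighbours: the boundary

`BalMax G U M κ`: `M` is an inclusion-maximal balanced set with three neighbours in a graph of index
at least three (degree-two vertices allowed). A boundary vertex is good or `Bad`: its neighbours
outside `M` are `m`, `x` with `N(m) = {n, x}`. `BD`: enumeration of the boundary; the set `FB`
consists of `M`, the bad boundary vertices and their `m`; its boundary `tB` is good.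
-/

set_option autoImplicit false

namespace Pool.Agent.Helper82.TK

open SimpleGraph Pool.Agent.Helper57.TOK Pool.Agent.Helper57.TD

variable {V : Type*}

/-- Index at least three. -/
def Ind3 (G : SimpleGraph V) : Prop :=
  ∀ z1 z2 : V, ∀ κ : V → ZMod 2, ¬ ∀ u v, u ≠ z1 → u ≠ z2 → v ≠ z1 → v ≠ z2 →
    G.Adj u v → κ u ≠ κ v

/-- A maximal balanced set. -/
structure BalMax (G : SimpleGraph V) (U M : Set V) (κ : V → ZMod 2) : Prop where
  pre : Pre2 G U
  ind3 : Ind3 G
  sparse : ∀ Y ⊆ U, 2 ≤ Y.ncard → (Nb G Y).ncard = 3 → (U \ (Y ∪ Nb G Y)).Nonempty →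
    ∀ κ', PB G κ' Y → fden G Y ≤ beta κ' (Nb G Y)
  dens : 2 * U.ncard ≤ G.edgeSet.ncard + 2
  MU : M ⊆ U
  bal : PB G κ M
  two : 2 ≤ M.ncard
  three : (Nb G M).ncard = 3
  rest : 2 ≤ (U \ (M ∪ Nb G M)).ncard
  max : ∀ X, M ⊆ X → X ⊆ U → X ≠ M → ∀ κ', PB G κ' X → 4 ≤ (Nb G X).ncard

/-- A bad boundary vertex. -/
structure Bad (G : SimpleGraph V) (M : Set V) (n m x : V) : Prop where
  nN : n ∈ Nb G M
  out : G.neighborSet n \ M = {m, x}
  nbm : G.neighborSet m = {n, x}
  mx : m ≠ x

section

variable {G : SimpleGraph V} {U M : Set V} {κ : V → ZMod 2} {n m x : V}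

lemma Bad.nm (hb : Bad G M n m x) : G.Adj n m := by
  have : m ∈ G.neighborSet n \ M := by rw [hb.out]; exact Or.inl rfl
  exact this.1

lemma Bad.nx (hb : Bad G M n m x) : G.Adj n x := by
  have : x ∈ G.neighborSet n \ M := by rw [hb.out]; exact Or.inr rfl
  exact this.1

lemma Bad.mx' (hb : Bad G M n m x) : G.Adj m x := by
  have : x ∈ G.neighborSet m := by rw [hb.nbm]; exact Or.inr rfl
  exact this

lemma Bad.mM (hb : Bad G M n m x) : m ∉ M := by
  have : m ∈ G.neighborSet n \ M := by rw [hb.out]; exact Or.inl rfl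
  exact this.2

lemma Bad.xM (hb : Bad G M n m x) : x ∉ M := by
  have : x ∈ G.neighborSet n \ M := by rw [hb.out]; exact Or.inr rfl
  exact this.2

lemma Bad.out' (hb : Bad G M n m x) {w : V} (h1 : G.Adj n w) (h2 : w ∉ M) : w = m ∨ w = x := by
  have : w ∈ G.neighborSet n \ M := ⟨h1, h2⟩
  rw [hb.out] at this
  exact this

lemma Bad.nbm' (hb : Bad G M n m x) {w : V} (h1 : G.Adj m w) : w = n ∨ w = x := by
  have : w ∈ G.neighborSet m := h1
  rw [hb.nbm] at this
  exact this

lemma Bad.mN (hb : Bad G M n m x) : m ∉ Nb G M := by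
  rintro ⟨-, y, hy, hym⟩
  rcases hb.nbm' hym.symm with h1 | h1
  · exact hb.nN.1 (h1 ▸ hy)
  · exact hb.xM (h1 ▸ hy)

/-- Boundary vertices have at least two neighbours outside `M`. -/
lemma BalMax.out2 [Finite V] (h : BalMax G U M κ) (hn : n ∈ Nb G M) :
    2 ≤ (G.neighborSet n \ M).ncard := by
  classical
  by_contra hlt
  push Not at hlt
  have hnM : n ∉ M := hn.1
  set X : Set V := insert n M with hX
  have hXU : X ⊆ U := by
    rintro x (rfl | hx)
    · exact h.pre.Nb_sub M hn
    · exact h.MU hx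
  have hX2 : 2 ≤ X.ncard := h.two.trans (Set.ncard_le_ncard (Set.subset_insert n M) (Set.toFinite _))
  have hNX : Nb G X ⊆ (Nb G M \ {n}) ∪ (G.neighborSet n \ M) := by
    rintro v ⟨hv, x, hx, hxv⟩
    have hvn : v ≠ n := fun hh => hv (Or.inl hh)
    have hvM : v ∉ M := fun hh => hv (Or.inr hh)
    rcases hx with rfl | hx
    · exact Or.inr ⟨hxv, hvM⟩
    · exact Or.inl ⟨⟨hvM, x, hx, hxv⟩, hvn⟩
  have hS2 : (Nb G M \ {n}).ncard = 2 := by
    have := Set.ncard_sdiff_singleton_add_one hn (Set.toFinite _)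
    have := h.three
    omega
  by_cases hcase : G.neighborSet n \ M ⊆ Nb G M
  · have h1 : Nb G X ⊆ Nb G M \ {n} := by
      intro v hv
      rcases hNX hv with h2 | h2
      · exact h2
      · exact ⟨hcase h2, fun hh => hv.1 (Or.inl hh)⟩
    have h2 := h.pre.conn X hXU hX2 ((Set.ncard_le_ncard h1 (Set.toFinite _)).trans (by omega))
    have h3 : U \ (M ∪ Nb G M) ⊆ U \ (X ∪ Nb G X) := by
      rintro x ⟨hxU, hx⟩
      refine ⟨hxU, ?_⟩
      rintro ((h4 | h4) | h4)
      · exact hx (Or.inr (h4 ▸ hn))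
      · exact hx (Or.inl h4)
      · exact hx (Or.inr (h1 h4).1)
    have h4 := Set.ncard_le_ncard h3 (Set.toFinite _)
    have := h.rest
    omega
  · obtain ⟨s, hs, hsN⟩ := Set.not_subset.1 hcase
    have hsM : s ∉ M := hs.2
    have hset : G.neighborSet n \ M = {s} := by
      symm
      apply Set.eq_of_subset_of_ncard_le _ _ (Set.toFinite _)
      · rintro x hx
        rw [Set.mem_singleton_iff] at hx
        rw [hx]; exact hs
      · rw [Set.ncard_singleton]; omega
    have h1 := h.max X (Set.subset_insert n M) hXU (fun hh => hnM (hh ▸ Set.mem_insert n M))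
      (Function.update κ s (κ n + 1)) ?_
    · have h2 : Nb G X ⊆ insert s (Nb G M \ {n}) := by
        intro v hv
        rcases hNX hv with h2 | h2
        · exact Or.inr h2
        · rw [hset] at h2; exact Or.inl h2
      have h3 := Set.ncard_le_ncard h2 (Set.toFinite _)
      have h4 := Set.ncard_insert_le s (Nb G M \ {n})
      omega
    · intro x y hx hxy
      have hns : n ≠ s := hs.1.ne
      rcases hx with rfl | hx
      · rw [Function.update_of_ne hns]
        by_cases hyM : y ∈ M
        · have hys : y ≠ s := fun hh => hsM (hh ▸ hyM)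
          rw [Function.update_of_ne hys]
          exact (h.bal y x hyM hxy.symm).symm
        · have : y ∈ G.neighborSet x \ M := ⟨hxy, hyM⟩
          rw [hset, Set.mem_singleton_iff] at this
          rw [this, Function.update_self]
          generalize κ x = a
          revert a; decide
      · have hxs : x ≠ s := fun hh => hsM (hh ▸ hx)
        have hys : y ≠ s := by
          intro hh
          exact hsN ⟨hsM, x, hx, hh ▸ hxy⟩
        rw [Function.update_of_ne hxs, Function.update_of_ne hys]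
        exact h.bal x y hx hxy

lemma BalMax.bad_or_good [Finite V] (h : BalMax G U M κ) (hn : n ∈ Nb G M) :
    GoodB G M n ∨ ∃ m x, Bad G M n m x := by
  classical
  by_contra hcon
  push Not at hcon
  obtain ⟨h1, h2⟩ := hcon
  apply h1
  refine ⟨h.out2 hn, ?_⟩
  intro m x hsub hm hmN
  apply h2 m x
  have hmx : m ≠ x := by
    rintro rfl
    have h3 := Set.ncard_le_ncard hsub (Set.toFinite _)
    rw [Set.pair_eq_singleton, Set.ncard_singleton] at h3
    have := h.out2 hn
    omega
  have hmU : m ∈ U := h.pre.edge_mem m n (SimpleGraph.Adj.symm hm.1)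
  refine ⟨hn, ?_, ?_, hmx⟩
  · apply Set.eq_of_subset_of_ncard_le hsub _ (Set.toFinite _)
    rw [Set.ncard_pair hmx]
    exact h.out2 hn
  · apply Set.eq_of_subset_of_ncard_le hmN _ (Set.toFinite _)
    exact (ncard_pair_le' n x).trans (h.pre.deg2 m hmU)

/-- `x` is not a boundary vertex. -/
lemma BalMax.xN [Finite V] (h : BalMax G U M κ) (hb : Bad G M n m x) : x ∉ Nb G M := by
  classical
  intro hxN
  have hS2 : (Nb G M \ {n}).ncard = 2 := by
    have := Set.ncard_sdiff_singleton_add_one hb.nN (Set.toFinite _)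
    have := h.three
    omega
  have hmU : m ∈ U := h.pre.edge_mem m n hb.nm.symm
  have hnU : n ∈ U := h.pre.edge_mem n m hb.nm
  by_cases hc : κ n = κ x
  · -- add `m`
    have h1 := h.max (insert m M) (Set.subset_insert m M) ?_
      (fun hh => hb.mM (hh ▸ Set.mem_insert m M)) (Function.update κ m (κ n + 1)) ?_
    · have h2 : Nb G (insert m M) ⊆ Nb G M := by
        rintro v ⟨hv, y, hy, hyv⟩
        have hvM : v ∉ M := fun hh => hv (Or.inr hh)
        rcases hy with rfl | hy
        · rcases hb.nbm' hyv with h3 | h3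
          · rw [h3]; exact hb.nN
          · rw [h3]; exact hxN
        · exact ⟨hvM, y, hy, hyv⟩
      have h3 := Set.ncard_le_ncard h2 (Set.toFinite _)
      have := h.three
      omega
    · rintro y (rfl | hy)
      · exact hmU
      · exact h.MU hy
    · intro y z hy hyz
      rcases hy with rfl | hy
      · rw [Function.update_self]
        rcases hb.nbm' hyz with h3 | h3
        · rw [h3, Function.update_of_ne hb.nm.ne]
          generalize κ n = a; revert a; decide
        · rw [h3, Function.update_of_ne hb.mx.symm, ← hc]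
          generalize κ n = a; revert a; decide
      · have h3 : y ≠ m := fun hh => hb.mM (hh ▸ hy)
        have h4 : z ≠ m := by
          rintro rfl
          exact hb.mN ⟨hb.mM, y, hy, hyz⟩
        rw [Function.update_of_ne h3, Function.update_of_ne h4]
        exact h.bal y z hy hyz
  · -- add `n`
    have h1 := h.max (insert n M) (Set.subset_insert n M) ?_
      (fun hh => hb.nN.1 (hh ▸ Set.mem_insert n M)) (Function.update κ m (κ n + 1)) ?_
    · have h2 : Nb G (insert n M) ⊆ insert m (Nb G M \ {n}) := by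
        rintro v ⟨hv, y, hy, hyv⟩
        have hvM : v ∉ M := fun hh => hv (Or.inr hh)
        have hvn : v ≠ n := fun hh => hv (Or.inl hh)
        rcases hy with rfl | hy
        · rcases hb.out' hyv hvM with h3 | h3
          · exact Or.inl h3
          · exact Or.inr ⟨h3 ▸ hxN, hvn⟩
        · exact Or.inr ⟨⟨hvM, y, hy, hyv⟩, hvn⟩
      have h3 := Set.ncard_le_ncard h2 (Set.toFinite _)
      have h4 := Set.ncard_insert_le m (Nb G M \ {n})
      omega
    · rintro y (rfl | hy)
      · exact hnU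
      · exact h.MU hy
    · intro y z hy hyz
      rcases hy with rfl | hy
      · rw [Function.update_of_ne hb.nm.ne]
        by_cases hzM : z ∈ M
        · have h4 : z ≠ m := fun hh => hb.mM (hh ▸ hzM)
          rw [Function.update_of_ne h4]
          exact (h.bal z y hzM hyz.symm).symm
        · rcases hb.out' hyz hzM with h3 | h3
          · rw [h3, Function.update_self]
            generalize κ y = a; revert a; decide
          · rw [h3, Function.update_of_ne hb.mx.symm]
            exact hc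
      · have h3 : y ≠ m := fun hh => hb.mM (hh ▸ hy)
        have h4 : z ≠ m := by
          rintro rfl
          exact hb.mN ⟨hb.mM, y, hy, hyz⟩
        rw [Function.update_of_ne h3, Function.update_of_ne h4]
        exact h.bal y z hy hyz

/-- The outer ends of two bad vertices are distinct. -/
lemma BalMax.x_ne [Finite V] (h : BalMax G U M κ) {n' m' x' : V} (hb : Bad G M n m x)
    (hb' : Bad G M n' m' x') (hnn : n ≠ n') : x ≠ x' := by
  classical
  rintro rfl
  -- the third boundary vertex
  have hpair : ({n, n'} : Set V) ⊆ Nb G M := by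
    rintro y (rfl | hy)
    · exact hb.nN
    · rw [Set.mem_singleton_iff] at hy; rw [hy]; exact hb'.nN
  have hc1 := Set.ncard_sdiff_add_ncard_of_subset hpair (Set.toFinite _)
  rw [Set.ncard_pair hnn, h.three] at hc1
  obtain ⟨q, hq⟩ := Set.ncard_eq_one.1 (by omega : (Nb G M \ {n, n'}).ncard = 1)
  have hqN : ∀ v ∈ Nb G M, v = n ∨ v = n' ∨ v = q := by
    intro v hv
    by_cases h1 : v ∈ ({n, n'} : Set V)
    · rcases h1 with h1 | h1
      · exact Or.inl h1
      · exact Or.inr (Or.inl h1)
    · have : v ∈ Nb G M \ {n, n'} := ⟨hv, h1⟩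
      rw [hq] at this
      exact Or.inr (Or.inr this)
  have hqmem : q ∈ Nb G M := by
    have : q ∈ Nb G M \ {n, n'} := by rw [hq]; rfl
    exact this.1
  have hxN := h.xN hb
  -- small rest
  set R : Set V := {y | y ∈ U ∧ y ∉ M ∧ y ∉ Nb G M ∧ y ≠ x ∧ y ≠ m ∧ y ≠ m'} with hR
  have hRN : ∀ y ∈ R, ∀ v, G.Adj y v → v ∈ R ∨ v = x ∨ v = q := by
    rintro y ⟨hyU, hyM, hyN, hyx, hym, hym'⟩ v hyv
    have hvM : v ∉ M := fun hh => hyN ⟨hyM, v, hh, hyv.symm⟩
    by_cases hvx : v = x
    · exact Or.inr (Or.inl hvx)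
    by_cases hvN : v ∈ Nb G M
    · rcases hqN v hvN with h1 | h1 | h1
      · exfalso
        subst h1
        rcases hb.out' hyv.symm hyM with h2 | h2
        · exact hym h2
        · exact hyx h2
      · exfalso
        subst h1
        rcases hb'.out' hyv.symm hyM with h2 | h2
        · exact hym' h2
        · exact hyx h2
      · exact Or.inr (Or.inr h1)
    · left
      refine ⟨h.pre.edge_mem v y hyv.symm, hvM, hvN, hvx, ?_, ?_⟩
      · rintro rfl
        rcases hb.nbm' hyv.symm with h2 | h2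
        · exact hyN (h2 ▸ hb.nN)
        · exact hyx h2
      · rintro rfl
        rcases hb'.nbm' hyv.symm with h2 | h2
        · exact hyN (h2 ▸ hb'.nN)
        · exact hyx h2
  have hR1 : R.ncard ≤ 1 := by
    refine h.pre.sepF h.MU h.two (B := R) (C := {x, q}) (fun y hy => hy.1) ?_ ?_ ?_
      (ncard_pair_le' x q)
    · rw [Set.disjoint_left]; exact fun y hy => hy.2.1
    · rw [Set.disjoint_left]; exact fun y hy => hy.2.2.1
    · rintro v ⟨hv, y, hy, hyv⟩
      rcases hRN y hy v hyv with h1 | h1 | h1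
      · exact absurd h1 hv
      · exact Or.inl h1
      · exact Or.inr h1
  -- two-colouring of the rest
  refine h.ind3 x q (fun v => if v = m then κ n + 1 else if v = m' then κ n' + 1 else κ v) ?_
  have hnm : n ≠ m := hb.nm.ne
  have hnm' : n ≠ m' := fun hh => hb'.mN (hh ▸ hb.nN)
  have hn'm : n' ≠ m := fun hh => hb.mN (hh ▸ hb'.nN)
  have hn'm' : n' ≠ m' := hb'.nm.ne
  have hmm' : m ≠ m' := by
    rintro rfl
    rcases hb.nbm' hb'.nm.symm with h1 | h1
    · exact hnn h1.symm
    · exact hxN (h1 ▸ hb'.nN)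
  set f : V → ZMod 2 := fun v => if v = m then κ n + 1 else if v = m' then κ n' + 1 else κ v
    with hf
  have f1 : f m = κ n + 1 := by simp [hf]
  have f2 : f m' = κ n' + 1 := by simp [hf, hmm'.symm]
  have f3 : ∀ v, v ≠ m → v ≠ m' → f v = κ v := by
    intro v h1 h2; simp [hf, h1, h2]
  have hMm : ∀ v ∈ M, v ≠ m ∧ v ≠ m' := fun v hv =>
    ⟨fun hh => hb.mM (hh ▸ hv), fun hh => hb'.mM (hh ▸ hv)⟩
  have hadd : ∀ a : ZMod 2, a ≠ a + 1 := by decide
  have key : ∀ v w, v ≠ x → v ≠ q → w ≠ x → w ≠ q → G.Adj v w →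
      (v ∈ M ∨ v = n ∨ v = n' ∨ v = m ∨ v = m') → f v ≠ f w := by
    intro v w hvx hvq hwx hwq hvw hv
    rcases hv with hv | hv | hv | hv | hv
    · have hw : w ≠ m ∧ w ≠ m' := by
        refine ⟨?_, ?_⟩
        · rintro rfl; exact hb.mN ⟨hb.mM, v, hv, hvw⟩
        · rintro rfl; exact hb'.mN ⟨hb'.mM, v, hv, hvw⟩
      rw [f3 v (hMm v hv).1 (hMm v hv).2, f3 w hw.1 hw.2]
      exact h.bal v w hv hvw
    · subst hv
      by_cases hwM : w ∈ M
      · rw [f3 v hnm hnm', f3 w (hMm w hwM).1 (hMm w hwM).2]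
        exact (h.bal w v hwM hvw.symm).symm
      · rcases hb.out' hvw hwM with h1 | h1
        · rw [h1, f1, f3 v hnm hnm']; exact hadd _
        · exact absurd h1 hwx
    · subst hv
      by_cases hwM : w ∈ M
      · rw [f3 v hn'm hn'm', f3 w (hMm w hwM).1 (hMm w hwM).2]
        exact (h.bal w v hwM hvw.symm).symm
      · rcases hb'.out' hvw hwM with h1 | h1
        · rw [h1, f2, f3 v hn'm hn'm']; exact hadd _
        · exact absurd h1 hwx
    · subst hv
      rcases hb.nbm' hvw with h1 | h1
      · rw [h1, f1, f3 n hnm hnm']; exact (hadd _).symm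
      · exact absurd h1 hwx
    · subst hv
      rcases hb'.nbm' hvw with h1 | h1
      · rw [h1, f2, f3 n' hn'm hn'm']; exact (hadd _).symm
      · exact absurd h1 hwx
  intro v w hvx hvq hwx hwq hvw
  by_cases hv : v ∈ M ∨ v = n ∨ v = n' ∨ v = m ∨ v = m'
  · exact key v w hvx hvq hwx hwq hvw hv
  · by_cases hw : w ∈ M ∨ w = n ∨ w = n' ∨ w = m ∨ w = m'
    · exact (key w v hwx hwq hvx hvq hvw.symm hw).symm
    · exfalso
      push Not at hv hw
      have hR' : ∀ y, G.Adj y v ∨ G.Adj y w → y ∈ U := by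
        rintro y (hy | hy)
        · exact h.pre.edge_mem y v hy
        · exact h.pre.edge_mem y w hy
      have hvR : v ∈ R := by
        refine ⟨h.pre.edge_mem v w hvw, hv.1, ?_, hvx, hv.2.2.2.1, hv.2.2.2.2⟩
        intro h1
        rcases hqN v h1 with h2 | h2 | h2
        · exact hv.2.1 h2
        · exact hv.2.2.1 h2
        · exact hvq h2
      have hwR : w ∈ R := by
        refine ⟨h.pre.edge_mem w v hvw.symm, hw.1, ?_, hwx, hw.2.2.2.1, hw.2.2.2.2⟩
        intro h1
        rcases hqN w h1 with h2 | h2 | h2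
        · exact hw.2.1 h2
        · exact hw.2.2.1 h2
        · exact hwq h2
      have h1 : ({v, w} : Set V) ⊆ R := by
        rintro y (rfl | hy)
        · exact hvR
        · rw [Set.mem_singleton_iff] at hy; rw [hy]; exact hwR
      have h2 := Set.ncard_le_ncard h1 (Set.toFinite _)
      rw [Set.ncard_pair hvw.ne] at h2
      omega

end

/-- The boundary of `M`: bad vertices are indexed by `B`. -/
structure BD (G : SimpleGraph V) (U M : Set V) (κ : V → ZMod 2) (n m x : Fin 3 → V)
    (B : Finset (Fin 3)) : Prop where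
  bm : BalMax G U M κ
  ninj : Function.Injective n
  nrange : Set.range n = Nb G M
  good : ∀ i, i ∉ B → GoodB G M (n i)
  bad : ∀ i ∈ B, Bad G M (n i) (m i) (x i)

/-- The enlarged set. -/
def FB (M : Set V) (n m : Fin 3 → V) (B : Finset (Fin 3)) : Set V :=
  M ∪ {y | ∃ i ∈ B, y = n i ∨ y = m i}

/-- Its boundary. -/
def tB (n x : Fin 3 → V) (B : Finset (Fin 3)) (i : Fin 3) : V := if i ∈ B then x i else n i

lemma BalMax.exists_BD [Finite V] {G : SimpleGraph V} {U M : Set V} {κ : V → ZMod 2}
    (h : BalMax G U M κ) {n : Fin 3 → V} (ninj : Function.Injective n)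
    (nrange : Set.range n = Nb G M) : ∃ m x B, BD G U M κ n m x B := by
  classical
  have hn : ∀ i, n i ∈ Nb G M := fun i => nrange ▸ Set.mem_range_self i
  have h1 : ∀ i, ∃ m x, ¬ GoodB G M (n i) → Bad G M (n i) m x := by
    intro i
    rcases h.bad_or_good (hn i) with h1 | ⟨m, x, h1⟩
    · exact ⟨n i, n i, fun hh => absurd h1 hh⟩
    · exact ⟨m, x, fun _ => h1⟩
  choose m x hmx using h1
  refine ⟨m, x, Finset.univ.filter (fun i => ¬ GoodB G M (n i)), h, ninj, nrange, ?_, ?_⟩
  · intro i hi
    by_contra hcon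
    exact hi (Finset.mem_filter.2 ⟨Finset.mem_univ i, hcon⟩)
  · intro i hi
    exact hmx i (Finset.mem_filter.1 hi).2

section BD

variable {G : SimpleGraph V} {U M : Set V} {κ : V → ZMod 2} {n m x : Fin 3 → V}
  {B : Finset (Fin 3)}

namespace BD

lemma nN (h : BD G U M κ n m x B) (i : Fin 3) : n i ∈ Nb G M := h.nrange ▸ Set.mem_range_self i

lemma nM (h : BD G U M κ n m x B) (i : Fin 3) : n i ∉ M := (h.nN i).1

lemma exists_n (h : BD G U M κ n m x B) {v : V} (hv : v ∈ Nb G M) : ∃ i, v = n i := by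
  rw [← h.nrange] at hv
  obtain ⟨i, hi⟩ := hv
  exact ⟨i, hi.symm⟩

lemma xN [Finite V] (h : BD G U M κ n m x B) {i : Fin 3} (hi : i ∈ B) : x i ∉ Nb G M :=
  h.bm.xN (h.bad i hi)

lemma x_ne_n [Finite V] (h : BD G U M κ n m x B) {i : Fin 3} (hi : i ∈ B) (j : Fin 3) :
    x i ≠ n j := fun hh => h.xN hi (hh ▸ h.nN j)

lemma m_ne_n (h : BD G U M κ n m x B) {i : Fin 3} (hi : i ∈ B) (j : Fin 3) :
    m i ≠ n j := fun hh => (h.bad i hi).mN (hh ▸ h.nN j)

lemma x_inj [Finite V] (h : BD G U M κ n m x B) {i j : Fin 3} (hi : i ∈ B) (hj : j ∈ B)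
    (hij : x i = x j) : i = j := by
  by_contra hne
  exact h.bm.x_ne (h.bad i hi) (h.bad j hj) (fun hh => hne (h.ninj hh)) hij

lemma m_inj [Finite V] (h : BD G U M κ n m x B) {i j : Fin 3} (hi : i ∈ B) (hj : j ∈ B)
    (hij : m i = m j) : i = j := by
  have h1 : G.Adj (m i) (n j) := by rw [hij]; exact (h.bad j hj).nm.symm
  rcases (h.bad i hi).nbm' h1 with h2 | h2
  · exact (h.ninj h2).symm
  · exact absurd h2.symm (h.x_ne_n hi j)

lemma m_ne_x [Finite V] (h : BD G U M κ n m x B) {i j : Fin 3} (hi : i ∈ B) (hj : j ∈ B) :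
    m i ≠ x j := by
  intro hij
  have h1 : G.Adj (m i) (n j) := by rw [hij]; exact (h.bad j hj).nx.symm
  rcases (h.bad i hi).nbm' h1 with h2 | h2
  · have := h.ninj h2
    subst this
    exact (h.bad j hj).mx hij
  · exact absurd h2.symm (h.x_ne_n hi j)

lemma mem_F {y : V} : y ∈ FB M n m B ↔ y ∈ M ∨ ∃ i ∈ B, y = n i ∨ y = m i := Iff.rfl

lemma t_good {i : Fin 3} (hi : i ∉ B) : tB n x B i = n i := if_neg hi

lemma t_bad {i : Fin 3} (hi : i ∈ B) : tB n x B i = x i := if_pos hi

lemma t_notF [Finite V] (h : BD G U M κ n m x B) (i : Fin 3) : tB n x B i ∉ FB M n m B := by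
  by_cases hi : i ∈ B
  · rw [t_bad hi]
    rintro (h1 | ⟨j, hj, h1 | h1⟩)
    · exact (h.bad i hi).xM h1
    · exact h.x_ne_n hi j h1
    · exact h.m_ne_x hj hi h1.symm
  · rw [t_good hi]
    rintro (h1 | ⟨j, hj, h1 | h1⟩)
    · exact h.nM i h1
    · exact hi (h.ninj h1 ▸ hj)
    · exact h.m_ne_n hj i h1.symm

lemma t_inj [Finite V] (h : BD G U M κ n m x B) : Function.Injective (tB n x B) := by
  intro i j hij
  by_cases hi : i ∈ B <;> by_cases hj : j ∈ B
  · rw [t_bad hi, t_bad hj] at hij; exact h.x_inj hi hj hij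
  · rw [t_bad hi, t_good hj] at hij; exact absurd hij (h.x_ne_n hi j)
  · rw [t_good hi, t_bad hj] at hij; exact absurd hij.symm (h.x_ne_n hj i)
  · rw [t_good hi, t_good hj] at hij; exact h.ninj hij

lemma FU (h : BD G U M κ n m x B) : FB M n m B ⊆ U := by
  rintro y (h1 | ⟨j, hj, h1 | h1⟩)
  · exact h.bm.MU h1
  · rw [h1]; exact h.bm.pre.Nb_sub M (h.nN j)
  · rw [h1]; exact h.bm.pre.edge_mem _ _ (h.bad j hj).nm.symm

lemma F_two [Finite V] (h : BD G U M κ n m x B) : 2 ≤ (FB M n m B).ncard :=
  h.bm.two.trans (Set.ncard_le_ncard Set.subset_union_left (Set.toFinite _))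

lemma nbF [Finite V] (h : BD G U M κ n m x B) : Nb G (FB M n m B) = Set.range (tB n x B) := by
  ext v
  constructor
  · rintro ⟨hv, y, hy, hyv⟩
    rcases hy with h1 | ⟨i, hi, h1 | h1⟩
    · have hvN : v ∈ Nb G M := ⟨fun hh => hv (Or.inl hh), y, h1, hyv⟩
      obtain ⟨i, rfl⟩ := h.exists_n hvN
      refine ⟨i, t_good (fun hi => hv (Or.inr ⟨i, hi, Or.inl rfl⟩))⟩
    · subst h1
      rcases (h.bad i hi).out' hyv (fun hh => hv (Or.inl hh)) with h2 | h2
      · exact absurd (Or.inr ⟨i, hi, Or.inr h2⟩) hv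
      · exact ⟨i, by rw [t_bad hi, h2]⟩
    · subst h1
      rcases (h.bad i hi).nbm' hyv with h2 | h2
      · exact absurd (Or.inr ⟨i, hi, Or.inl h2⟩) hv
      · exact ⟨i, by rw [t_bad hi, h2]⟩
  · rintro ⟨i, rfl⟩
    refine ⟨h.t_notF i, ?_⟩
    by_cases hi : i ∈ B
    · rw [t_bad hi]
      exact ⟨n i, Or.inr ⟨i, hi, Or.inl rfl⟩, (h.bad i hi).nx⟩
    · rw [t_good hi]
      obtain ⟨-, y, hy, hyv⟩ := h.nN i
      exact ⟨y, Or.inl hy, hyv⟩

/-- Neighbours of a good boundary vertex outside `F`. -/
lemma diff_good [Finite V] (h : BD G U M κ n m x B) {i : Fin 3} (hi : i ∉ B) :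
    G.neighborSet (n i) \ FB M n m B = G.neighborSet (n i) \ M := by
  ext v
  constructor
  · rintro ⟨h1, h2⟩
    exact ⟨h1, fun hh => h2 (Or.inl hh)⟩
  · rintro ⟨h1, h2⟩
    refine ⟨h1, ?_⟩
    have h1' : G.Adj (n i) v := h1
    rintro (h3 | ⟨j, hj, h3 | h3⟩)
    · exact h2 h3
    · subst h3
      rcases (h.bad j hj).out' h1'.symm (h.nM i) with h4 | h4
      · exact h.m_ne_n hj i h4.symm
      · exact h.x_ne_n hj i h4.symm
    · subst h3
      rcases (h.bad j hj).nbm' h1'.symm with h4 | h4
      · exact hi (h.ninj h4 ▸ hj)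
      · exact h.x_ne_n hj i h4.symm

/-- Neighbours of `x i`. -/
lemma nbr_x [Finite V] (h : BD G U M κ n m x B) {i : Fin 3} (hi : i ∈ B) {v : V}
    (hv : G.Adj (x i) v) : v = n i ∨ v = m i ∨ v ∉ FB M n m B := by
  by_cases hvF : v ∈ FB M n m B
  · rcases hvF with h1 | ⟨j, hj, h1 | h1⟩
    · exact absurd ⟨(h.bad i hi).xM, v, h1, hv.symm⟩ (h.xN hi)
    · subst h1
      rcases (h.bad j hj).out' hv.symm (h.bad i hi).xM with h4 | h4
      · exact absurd h4.symm (h.m_ne_x hj hi)
      · left; rw [h.x_inj hi hj h4]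
    · subst h1
      rcases (h.bad j hj).nbm' hv.symm with h4 | h4
      · exact absurd h4 (h.x_ne_n hi j)
      · right; left; rw [h.x_inj hi hj h4]
  · exact Or.inr (Or.inr hvF)

/-- The boundary of `F` is good. -/
theorem goodB [Finite V] (h : BD G U M κ n m x B) (i : Fin 3) :
    GoodB G (FB M n m B) (tB n x B i) := by
  classical
  by_cases hi : i ∈ B
  · rw [t_bad hi]
    have hbad := h.bad i hi
    have hG1 : 2 ≤ (G.neighborSet (x i) \ FB M n m B).ncard := by
      by_contra hlt
      push Not at hlt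
      have h1 := h.bm.pre.sepF h.bm.MU h.bm.two (B := {m i, x i})
        (C := insert (n i) (G.neighborSet (x i) \ FB M n m B)) ?_ ?_ ?_ ?_ ?_
      · rw [Set.ncard_pair hbad.mx] at h1
        omega
      · rintro y (hy | hy)
        · rw [hy]; exact h.bm.pre.edge_mem _ _ hbad.nm.symm
        · rw [Set.mem_singleton_iff] at hy
          rw [hy]; exact h.bm.pre.edge_mem _ _ hbad.nx.symm
      · rw [Set.disjoint_left]
        rintro y (hy | hy)
        · rw [hy]; exact hbad.mM
        · rw [Set.mem_singleton_iff] at hy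
          rw [hy]; exact hbad.xM
      · rw [Set.disjoint_left]
        rintro y (hy | hy)
        · rw [hy]; exact hbad.mN
        · rw [Set.mem_singleton_iff] at hy
          rw [hy]; exact h.xN hi
      · rintro v ⟨hv, y, hy, hyv⟩
        have hvm : v ≠ m i := fun hh => hv (Or.inl hh)
        have hvx : v ≠ x i := fun hh => hv (Or.inr hh)
        rcases hy with hy | hy
        · subst hy
          rcases hbad.nbm' hyv with h2 | h2
          · exact Or.inl h2
          · exact absurd h2 hvx
        · rw [Set.mem_singleton_iff] at hy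
          subst hy
          rcases h.nbr_x hi hyv with h2 | h2 | h2
          · exact Or.inl h2
          · exact absurd h2 hvm
          · exact Or.inr ⟨hyv, h2⟩
      · have := Set.ncard_insert_le (n i) (G.neighborSet (x i) \ FB M n m B)
        omega
    refine ⟨hG1, ?_⟩
    intro m' x' hsub hm' hN'
    have hm'F := hm'.2
    have hm'N : m' ∉ Nb G M := by
      intro hh
      have h1 := h.bm.out2 hh
      obtain ⟨-, y, hy, hym⟩ := hh
      have h2 : insert y (G.neighborSet m' \ M) ⊆ ({x i, x'} : Set V) := by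
        rintro z (rfl | hz)
        · exact hN' hym.symm
        · exact hN' hz.1
      have h3 := Set.ncard_le_ncard h2 (Set.toFinite _)
      rw [Set.ncard_insert_of_notMem (fun hz => hz.2 hy) (Set.toFinite _)] at h3
      have := ncard_pair_le' (x i) x'
      omega
    have h1 := h.bm.pre.sepF h.bm.MU h.bm.two (B := {m i, x i, m'})
        (C := {n i, x'}) ?_ ?_ ?_ ?_ (ncard_pair_le' _ _)
    · have h2 : ({m i, x i} : Set V) ⊆ {m i, x i, m'} := by
        rintro y (hy | hy)
        · exact Or.inl hy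
        · exact Or.inr (Or.inl hy)
      have h3 := Set.ncard_le_ncard h2 (Set.toFinite _)
      rw [Set.ncard_pair hbad.mx] at h3
      omega
    · rintro y (hy | hy | hy)
      · rw [hy]; exact h.bm.pre.edge_mem _ _ hbad.nm.symm
      · rw [hy]; exact h.bm.pre.edge_mem _ _ hbad.nx.symm
      · rw [Set.mem_singleton_iff] at hy
        rw [hy]; exact h.bm.pre.edge_mem _ _ (SimpleGraph.Adj.symm hm'.1)
    · rw [Set.disjoint_left]
      rintro y (hy | hy | hy)
      · rw [hy]; exact hbad.mM
      · rw [hy]; exact hbad.xM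
      · rw [Set.mem_singleton_iff] at hy
        rw [hy]; exact fun hh => hm'F (Or.inl hh)
    · rw [Set.disjoint_left]
      rintro y (hy | hy | hy)
      · rw [hy]; exact hbad.mN
      · rw [hy]; exact h.xN hi
      · rw [Set.mem_singleton_iff] at hy
        rw [hy]; exact hm'N
    · rintro v ⟨hv, y, hy, hyv⟩
      have hvm : v ≠ m i := fun hh => hv (Or.inl hh)
      have hvx : v ≠ x i := fun hh => hv (Or.inr (Or.inl hh))
      have hvm' : v ≠ m' := fun hh => hv (Or.inr (Or.inr hh))
      rcases hy with hy | hy | hy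
      · subst hy
        rcases hbad.nbm' hyv with h2 | h2
        · exact Or.inl h2
        · exact absurd h2 hvx
      · subst hy
        rcases h.nbr_x hi hyv with h2 | h2 | h2
        · exact Or.inl h2
        · exact absurd h2 hvm
        · rcases hsub ⟨hyv, h2⟩ with h3 | h3
          · exact absurd h3 hvm'
          · exact Or.inr h3
      · rw [Set.mem_singleton_iff] at hy
        subst hy
        rcases hN' hyv with h3 | h3
        · exact absurd h3 hvx
        · exact Or.inr h3
  · rw [t_good hi]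
    have h1 := h.good i hi
    unfold GoodB at h1 ⊢
    rw [h.diff_good hi]
    exact h1

end BD

end BD

end Pool.Agent.Helper82.TK
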