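import Pool.Agent.Helper57.TD.Defs
import Pool.Agent.Helper82.TK.Project

/-!
# The split graph of a labelled graph at two vertices, and the contraction lemma

`G` is a simple graph with labels `c : Sym2 V → ZMod 2`, `D` a set of vertices such that `G - D` is
balanced with potential `κ`. `spG G c κ D` is the graph on `V × ZMod 2` in which every vertex of `D`
is split in its two colour copies. For `D = {z1, z2}` a coloured frame of the split graph with
pairing `{z1^0 z1^1 | z2^0 z2^1}` gives a TOK4 of `G`; if `z1 z2` is an odd edge of `G`, the H-tree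
`z1^1 - z1^0 - z2^0 - z2^1` is enough.
-/

set_option autoImplicit false

namespace Pool.Agent.Helper82.TK

open SimpleGraph Pool.Agent.Helper57.TOK Pool.Agent.Helper57.TD

variable {V : Type*}

/-- The split graph. -/
def spG (G : SimpleGraph V) (c : Sym2 V → ZMod 2) (κ : V → ZMod 2) (D : Set V) :
    SimpleGraph (V × ZMod 2) where
  Adj x y := G.Adj x.1 y.1 ∧ x.2 + y.2 = c s(x.1, y.1) ∧ (x.1 ∉ D → x.2 = κ x.1) ∧
    (y.1 ∉ D → y.2 = κ y.1) ∧ (x.1 ∉ D ∨ y.1 ∉ D)
  symm := ⟨by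
    rintro x y ⟨h1, h2, h3, h4, h5⟩
    refine ⟨h1.symm, ?_, h4, h3, h5.symm⟩
    rw [add_comm, h2, Sym2.eq_swap]⟩
  loopless := ⟨fun x h => h.1.ne rfl⟩

lemma spG_adj {G : SimpleGraph V} {c : Sym2 V → ZMod 2} {κ : V → ZMod 2} {D : Set V}
    {x y : V × ZMod 2} : (spG G c κ D).Adj x y ↔ G.Adj x.1 y.1 ∧ x.2 + y.2 = c s(x.1, y.1) ∧
      (x.1 ∉ D → x.2 = κ x.1) ∧ (y.1 ∉ D → y.2 = κ y.1) ∧ (x.1 ∉ D ∨ y.1 ∉ D) := Iff.rfl

section contract

variable {G : SimpleGraph V} {c : Sym2 V → ZMod 2} {κ : V → ZMod 2} {z1 z2 : V}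

/-- virtual pair -/
def Virt (z1 z2 : V) (e : Sym2 (V × ZMod 2)) : Prop :=
  e = s((z1, 0), (z1, 1)) ∨ e = s((z2, 0), (z2, 1))

/-- a virtual edge or the (odd) edge `z1 z2` of `G` -/
def VirtM (G : SimpleGraph V) (c : Sym2 V → ZMod 2) (z1 z2 : V) (e : Sym2 (V × ZMod 2)) : Prop :=
  Virt z1 z2 e ∨ (G.Adj z1 z2 ∧ c s(z1, z2) = 1 ∧ e = s((z1, 0), (z2, 0)))

lemma virt_fst {x y : V × ZMod 2} (h : Virt z1 z2 s(x, y)) : x.1 = y.1 := by
  rcases h with h | h <;> rw [Sym2.eq_iff] at h <;> rcases h with ⟨rfl, rfl⟩ | ⟨rfl, rfl⟩ <;> rfl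

lemma virt_vl {x y : V × ZMod 2} (h : Virt z1 z2 s(x, y)) : vl Prod.snd x y = 0 := by
  have e1 : (1 : ZMod 2) + 0 + 1 = 0 := by decide
  have e2 : (1 : ZMod 2) + 1 + 0 = 0 := by decide
  unfold vl
  rcases h with h | h <;> rw [Sym2.eq_iff] at h <;> rcases h with ⟨rfl, rfl⟩ | ⟨rfl, rfl⟩
  · exact e1
  · exact e2
  · exact e1
  · exact e2

lemma virt_mem {x y : V × ZMod 2} (h : Virt z1 z2 s(x, y)) : x.1 ∈ ({z1, z2} : Set V) := by
  rcases h with h | h <;> rw [Sym2.eq_iff] at h <;> rcases h with ⟨rfl, rfl⟩ | ⟨rfl, rfl⟩ <;> simp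

/-- CONTRACTION LEMMA. -/
theorem hasTOK4s_of_frameX {E : SimpleGraph (V × ZMod 2)} (h12 : z1 ≠ z2)
    (hE : ∀ x y, E.Adj x y → VirtM G c z1 z2 s(x, y))
    (hF : FrameX (spG G c κ {z1, z2}) Prod.snd E) : HasTOK4s G c := by
  classical
  unfold FrameX at hF
  set Z := spG G c κ {z1, z2} with hZ
  rw [hasTOK4s_iff_isTOK] at hF
  obtain ⟨v, P, h⟩ := hF
  have hVD : ∀ x y, VirtM G c z1 z2 s(x, y) → x.1 ∈ ({z1, z2} : Set V) := by
    rintro x y (h1 | ⟨-, -, h1⟩)
    · exact virt_mem h1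
    · rw [Sym2.eq_iff] at h1
      rcases h1 with ⟨rfl, -⟩ | ⟨rfl, -⟩ <;> simp
  have hVn : ∀ x y, VirtM G c z1 z2 s(x, y) → ¬ Z.Adj x y := by
    intro x y h1 h2
    rcases h2.2.2.2.2 with h3 | h3
    · exact h3 (hVD x y h1)
    · rw [Sym2.eq_swap] at h1
      exact h3 (hVD y x h1)
  have hcase : ∀ x y, (Z ⊔ E).Adj x y → Z.Adj x y ∨ VirtM G c z1 z2 s(x, y) := by
    intro x y hxy
    rw [SimpleGraph.sup_adj] at hxy
    exact hxy.imp_right (hE x y)
  -- consistency
  have hcons : ∀ x y, (Z ⊔ E).Adj x y → ¬ VirtM G c z1 z2 s(x, y) →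
      cE Z Prod.snd s(x, y) = x.2 + y.2 := by
    intro x y hxy hn
    rcases hcase x y hxy with h1 | h1
    · exact cE_of_adj h1
    · exact absurd h1 hn
  -- the support
  have hsupp : ∀ x, x ∈ supp (Z ⊔ E) → x.1 ∈ ({z1, z2} : Set V) ∨ x.2 = κ x.1 := by
    rintro x ⟨y, hy⟩
    by_cases hx : x.1 ∈ ({z1, z2} : Set V)
    · exact Or.inl hx
    · right
      rcases hcase x y hy with h1 | h1
      · exact h1.2.2.1 hx
      · exact absurd (hVD x y h1) hx
  -- the two main virtual edges are used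
  have hused : ∀ e, Virt z1 z2 e → ∃ i j : Fin 4, i < j ∧ e ∈ (P i j).edges := by
    rintro e (rfl | rfl)
    · by_contra hcon
      push Not at hcon
      obtain ⟨a, b, d, f, hab, hdf, n1, n2, n3, n4, h1, h2⟩ := h.two_virt (κ := Prod.snd)
        (Vt := VirtM G c z1 z2) hcons (f1 := s((z2, 0), (z2, 1))) (f2 := s((z1, 0), (z2, 0))) (by
          rintro i j hij e he ((h3 | h3) | ⟨-, -, h3⟩)
          · exact absurd (h3 ▸ he) (hcon i j hij)
          · exact Or.inl h3
          · exact Or.inr h3)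
      have h5 := h.disj a b d f hab hdf (fun hh => n1 (congrArg Prod.fst hh)) (z2, 0)
        (Walk.fst_mem_support_of_mem_edges _ h1) (Walk.snd_mem_support_of_mem_edges _ h2)
      rcases h5.1 with h6 | h6 <;> rcases h5.2 with h7 | h7
      · exact n1 (h.inj (h6.symm.trans h7))
      · exact n2 (h.inj (h6.symm.trans h7))
      · exact n3 (h.inj (h6.symm.trans h7))
      · exact n4 (h.inj (h6.symm.trans h7))
    · by_contra hcon
      push Not at hcon
      obtain ⟨a, b, d, f, hab, hdf, n1, n2, n3, n4, h1, h2⟩ := h.two_virt (κ := Prod.snd)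
        (Vt := VirtM G c z1 z2) hcons (f1 := s((z1, 0), (z1, 1))) (f2 := s((z1, 0), (z2, 0))) (by
          rintro i j hij e he ((h3 | h3) | ⟨-, -, h3⟩)
          · exact Or.inl h3
          · exact absurd (h3 ▸ he) (hcon i j hij)
          · exact Or.inr h3)
      have h5 := h.disj a b d f hab hdf (fun hh => n1 (congrArg Prod.fst hh)) (z1, 0)
        (Walk.fst_mem_support_of_mem_edges _ h1) (Walk.fst_mem_support_of_mem_edges _ h2)
      rcases h5.1 with h6 | h6 <;> rcases h5.2 with h7 | h7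
      · exact n1 (h.inj (h6.symm.trans h7))
      · exact n2 (h.inj (h6.symm.trans h7))
      · exact n3 (h.inj (h6.symm.trans h7))
      · exact n4 (h.inj (h6.symm.trans h7))
  refine h.project Prod.fst ?_ ?_
  · intro x y hxy
    rcases hcase x y hxy with h1 | h1
    · left
      refine ⟨h1.1, ?_⟩
      rw [cE_of_adj h1]
      exact h1.2.1
    · have hn := hVn x y h1
      rw [cE_of_not_adj hn]
      rcases h1 with h1 | ⟨h2, h3, h1⟩
      · exact Or.inr ⟨virt_fst h1, virt_vl h1⟩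
      · left
        have e1 : (1 : ZMod 2) + 0 + 0 = 1 := by decide
        rw [Sym2.eq_iff] at h1
        rcases h1 with ⟨rfl, rfl⟩ | ⟨rfl, rfl⟩
        · exact ⟨h2, e1.trans h3.symm⟩
        · refine ⟨h2.symm, ?_⟩
          rw [Sym2.eq_swap]
          exact e1.trans h3.symm
  · intro x y hx hy hne hxy
    apply hused
    obtain ⟨a, i⟩ := x
    obtain ⟨b, j⟩ := y
    simp only at hxy
    subst hxy
    have hij : i ≠ j := fun hh => hne (by rw [hh])
    have hD : a ∈ ({z1, z2} : Set V) := by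
      rcases hsupp _ hx with h1 | h1
      · exact h1
      · rcases hsupp _ hy with h2 | h2
        · exact h2
        · exact absurd (h1.trans h2.symm) hij
    have key : s((a, i), (a, j)) = s((a, (0 : ZMod 2)), (a, (1 : ZMod 2))) := by
      rcases zmod2_cases i with rfl | rfl <;> rcases zmod2_cases j with rfl | rfl
      · exact absurd rfl hij
      · rfl
      · exact Sym2.eq_swap
      · exact absurd rfl hij
    simp only [Set.mem_insert_iff, Set.mem_singleton_iff] at hD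
    rcases hD with rfl | rfl
    · exact Or.inl key
    · exact Or.inr key

/-- Contraction of a frame. -/
theorem hasTOK4s_of_frame (h12 : z1 ≠ z2) (hF : FrameE (spG G c κ {z1, z2}) Prod.snd (z1, 0)
    (z1, 1) (z2, 0) (z2, 1)) : HasTOK4s G c := by
  refine hasTOK4s_of_frameX (κ := κ)
    (E := SimpleGraph.fromEdgeSet {s((z1, 0), (z1, 1)), s((z2, 0), (z2, 1))}) h12 ?_ ?_
  · intro x y hxy
    rw [SimpleGraph.fromEdgeSet_adj] at hxy
    exact Or.inl hxy.1
  · unfold FrameE at hF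
    unfold FrameX
    refine HasTOK4s.mono ?_ (fun _ _ => rfl) hF
    rintro x y ⟨hne, h4⟩
    rw [SimpleGraph.sup_adj, SimpleGraph.fromEdgeSet_adj]
    rcases h4 with h4 | h4 | h4
    · exact Or.inl h4
    · exact Or.inr ⟨Or.inl h4, hne⟩
    · exact Or.inr ⟨Or.inr h4, hne⟩

/-- Contraction of an H-tree. -/
theorem hasTOK4s_of_HT (h12 : z1 ≠ z2) (hadj : G.Adj z1 z2) (hc : c s(z1, z2) = 1)
    (hF : HT (spG G c κ {z1, z2}) Prod.snd {x | x.1 ∈ ({z1, z2} : Set V)}) : HasTOK4s G c := by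
  have h := hF (z1, 1) (z1, 0) (z2, 0) (z2, 1) ?_ ?_ ?_ rfl rfl (by simp)
  · refine hasTOK4s_of_frameX (κ := κ) h12 ?_ h
    intro x y hxy
    rw [pathE_adj] at hxy
    rcases hxy.2 with h1 | h1 | h1
    · left; left; rw [h1]; exact Sym2.eq_swap
    · right; exact ⟨hadj, hc, h1⟩
    · left; right; exact h1
  · ext ⟨a, i⟩
    simp only [Set.mem_ofPred_eq, Set.mem_insert_iff, Set.mem_singleton_iff, Prod.mk.injEq]
    constructor
    · rintro (rfl | rfl) <;> rcases zmod2_cases i with rfl | rfl <;> simp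
    · rintro (⟨rfl, -⟩ | ⟨rfl, -⟩ | ⟨rfl, -⟩ | ⟨rfl, -⟩) <;> simp
  · simp [h12]
  · simp [h12]

end contract

end Pool.Agent.Helper82.TK
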