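import Pool.Agent.Helper82.TK.P2

/-!
# Vertices of degree two in a minimal counterexample: the frame

`Hand G h p q`: `h` has exactly the neighbours `p`, `q`. `delV G h`: delete `h`.
In a minimal counterexample with a vertex `h` of degree two either there is a mixed cut `Mix`
(two vertices and `h` separate `p` from `q`), or `F2c`: a dense balanced set of `G - h` with three
neighbours which contains `p` and `q`, in different colour classes.
-/

set_option autoImplicit false

namespace Pool.Agent.Helper82.TK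

open SimpleGraph Pool.Agent.Helper57.TOK Pool.Agent.Helper57.TD Pool.Agent.Helper57.TOP
open Pool.Agent.Helper1.GL

variable {V : Type*}

/-- `h` has exactly the neighbours `p` and `q`. -/
structure Hand (G : SimpleGraph V) (h p q : V) : Prop where
  ne : p ≠ q
  nb : G.neighborSet h = {p, q}

lemma Hand.symm {G : SimpleGraph V} {h p q : V} (hh : Hand G h p q) : Hand G h q p :=
  ⟨hh.ne.symm, by rw [hh.nb, Set.pair_comm]⟩

lemma Hand.adj {G : SimpleGraph V} {h p q : V} (hh : Hand G h p q) {x : V} :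
    G.Adj h x ↔ x = p ∨ x = q := by
  rw [← SimpleGraph.mem_neighborSet, hh.nb]; rfl

lemma Hand.hp {G : SimpleGraph V} {h p q : V} (hh : Hand G h p q) : G.Adj h p :=
  hh.adj.2 (Or.inl rfl)

lemma Hand.hq {G : SimpleGraph V} {h p q : V} (hh : Hand G h p q) : G.Adj h q :=
  hh.adj.2 (Or.inr rfl)

lemma exists_hand {G : SimpleGraph V} {h : V} (h2 : (G.neighborSet h).ncard = 2) :
    ∃ p q, Hand G h p q := by
  obtain ⟨p, q, hpq, hs⟩ := Set.ncard_eq_two.1 h2
  exact ⟨p, q, hpq, hs⟩

/-- Delete the vertex `h` (it becomes isolated). -/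
def delV (G : SimpleGraph V) (h : V) : SimpleGraph V where
  Adj x y := G.Adj x y ∧ x ≠ h ∧ y ≠ h
  symm := ⟨fun _ _ hxy => ⟨hxy.1.symm, hxy.2.2, hxy.2.1⟩⟩
  loopless := ⟨fun _ hx => hx.1.ne rfl⟩

lemma delV_adj {G : SimpleGraph V} {h x y : V} :
    (delV G h).Adj x y ↔ G.Adj x y ∧ x ≠ h ∧ y ≠ h := Iff.rfl

lemma delV_le (G : SimpleGraph V) (h : V) : delV G h ≤ G := fun _ _ hxy => hxy.1

/-- A mixed cut: `{a, b, h}` separates `p` (in `A`) from `q` (in `B`). -/
structure Mix (G : SimpleGraph V) (U : Set V) (h p q a b : V) (A B : Set V) : Prop where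
  hand : Hand G h p q
  hU : h ∈ U
  AU : A ⊆ U
  BU : B ⊆ U
  AB : Disjoint A B
  hA : h ∉ A
  hB : h ∉ B
  ab : a ≠ b
  pA : p ∈ A
  qB : q ∈ B
  A2 : 2 ≤ A.ncard
  B2 : 2 ≤ B.ncard
  NA : Nb G A = {a, b, h}
  NB : Nb G B = {a, b, h}
  cover : ∀ x ∈ U, x ∈ A ∨ x ∈ B ∨ x = a ∨ x = b ∨ x = h

/-- A dense balanced set of `G - h` which contains `p` and `q`, in different colour classes. -/
structure F2c (G : SimpleGraph V) (U : Set V) (h p q : V) (Y : Set V) (κ : V → ZMod 2) :
    Prop where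
  hand : Hand G h p q
  hU : h ∈ U
  YU : Y ⊆ U
  hY : h ∉ Y
  pY : p ∈ Y
  qY : q ∈ Y
  three : (Nb (delV G h) Y).ncard = 3
  rest : ((U \ {h}) \ (Y ∪ Nb (delV G h) Y)).Nonempty
  bal : PB (delV G h) κ Y
  col : κ p ≠ κ q
  dense : beta κ (Nb (delV G h) Y) < fden (delV G h) Y

section basics

variable {G : SimpleGraph V} {U : Set V} {h p q : V}

/-- Small sets of vertices have at least three neighbours. -/
lemma gmin_three_le [Finite V] (hM : GMin G U) {Y : Set V} (hYU : Y ⊆ U) {κ : V → ZMod 2}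
    (hb : PB G κ Y) (h2 : 2 ≤ Y.ncard) : 3 ≤ (Nb G Y).ncard := by
  by_contra hlt
  push Not at hlt
  have h1 := hM.ex.conn Y hYU h2 (by omega)
  obtain ⟨v0⟩ : Nonempty V := by
    by_contra hV
    rw [not_nonempty_iff] at hV
    have : Y.ncard = 0 := by
      rw [Set.ncard_eq_zero (Set.toFinite _)]
      exact Set.eq_empty_of_isEmpty Y
    omega
  have h3 := (gmin_ind3 hM).rest (Ex3.toPre2 hM.ex) hb (by omega) v0
  omega

/-- The ends of a handle are not of degree two. -/
lemma gmin_hand_real [Finite V] (hM : GMin G U) (hU : h ∈ U) (hh : Hand G h p q) :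
    3 ≤ (G.neighborSet p).ncard := by
  classical
  by_contra hlt
  push Not at hlt
  have hpU : p ∈ U := hM.ex.edge_mem p h hh.hp.symm
  have hd := hM.ex.deg2 p hpU
  obtain ⟨r, s, hrs, hN⟩ := Set.ncard_eq_two.1 (by omega : (G.neighborSet p).ncard = 2)
  -- `r = h` or `s = h`
  have hmem : h ∈ ({r, s} : Set V) := by rw [← hN]; exact hh.hp.symm
  obtain ⟨z, hz⟩ : ∃ z, ∀ x, G.Adj p x → x = h ∨ x = z := by
    rcases hmem with h1 | h1
    · refine ⟨s, fun x hx => ?_⟩
      have : x ∈ ({r, s} : Set V) := by rw [← hN]; exact hx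
      rcases this with h2 | h2
      · exact Or.inl (h2.trans h1.symm)
      · exact Or.inr h2
    · rw [Set.mem_singleton_iff] at h1
      refine ⟨r, fun x hx => ?_⟩
      have : x ∈ ({r, s} : Set V) := by rw [← hN]; exact hx
      rcases this with h2 | h2
      · exact Or.inr h2
      · exact Or.inl (h2.trans h1.symm)
  -- the set `{h, p}`
  set Y : Set V := {h, p} with hY
  have hhp : h ≠ p := hh.hp.ne
  have hYU : Y ⊆ U := by
    rintro x (rfl | hx)
    · exact hU
    · rw [Set.mem_singleton_iff] at hx; rw [hx]; exact hpU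
  have hY2 : Y.ncard = 2 := Set.ncard_pair hhp
  have hNY : ∀ x ∈ Nb G Y, x = q ∨ x = z := by
    rintro x ⟨hx, y, hy, hyx⟩
    rcases hy with rfl | hy
    · rcases hh.adj.1 hyx with h1 | h1
      · exact absurd (Or.inr h1) hx
      · exact Or.inl h1
    · rw [Set.mem_singleton_iff] at hy
      subst hy
      rcases hz x hyx with h1 | h1
      · exact absurd (Or.inl h1) hx
      · exact Or.inr h1
  have hN2 : (Nb G Y).ncard ≤ 2 := ncard_le_two_of hNY
  have h1 := hM.ex.conn Y hYU (by omega) hN2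
  -- colouring
  obtain ⟨r', hr'⟩ : ∃ r' : V, ∀ y ∈ U \ (Y ∪ Nb G Y), y = r' := by
    by_cases h0 : (U \ (Y ∪ Nb G Y)).ncard = 0
    · rw [Set.ncard_eq_zero (Set.toFinite _)] at h0
      exact ⟨p, fun y hy => absurd (h0 ▸ hy) (Set.notMem_empty y)⟩
    · obtain ⟨r', hr'⟩ := Set.ncard_eq_one.1 (by omega : (U \ (Y ∪ Nb G Y)).ncard = 1)
      exact ⟨r', fun y hy => by rw [hr'] at hy; exact hy⟩
  refine gmin_ind3 hM q z (fun v => if v = h then 1 else 0) ?_
  intro v w hv1 hv2 hw1 hw2 hvw
  have cls : ∀ y ∈ U, y ≠ q → y ≠ z → y = h ∨ y = p ∨ (y = r' ∧ y ∉ Y ∧ y ∉ Nb G Y) := by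
    intro y hyU hyq hyz
    by_cases h2 : y ∈ Y
    · rcases h2 with h2 | h2
      · exact Or.inl h2
      · exact Or.inr (Or.inl h2)
    · have h3 : y ∉ Nb G Y := by
        intro h4
        rcases hNY y h4 with h5 | h5
        · exact hyq h5
        · exact hyz h5
      refine Or.inr (Or.inr ⟨hr' y ⟨hyU, ?_⟩, h2, h3⟩)
      rintro (h4 | h4)
      · exact h2 h4
      · exact h3 h4
  have hvU := hM.ex.edge_mem v w hvw
  have hwU := hM.ex.edge_mem w v hvw.symm
  show (if v = h then (1 : ZMod 2) else 0) ≠ (if w = h then 1 else 0)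
  rcases cls v hvU hv1 hv2 with h2 | h2 | ⟨h2, h3, h4⟩ <;>
    rcases cls w hwU hw1 hw2 with h5 | h5 | ⟨h5, h6, h7⟩
  · exact absurd (h2.trans h5.symm) hvw.ne
  · rw [if_pos h2, if_neg (fun hh' => hhp (hh'.symm.trans h5))]; decide
  · exact absurd ⟨h6, v, Or.inl h2, hvw⟩ h7
  · rw [if_neg (fun hh' => hhp (hh'.symm.trans h2)), if_pos h5]; decide
  · exact absurd (h2.trans h5.symm) hvw.ne
  · exact absurd ⟨h6, v, Or.inr h2, hvw⟩ h7
  · exact absurd ⟨h3, w, Or.inl h5, hvw.symm⟩ h4
  · exact absurd ⟨h3, w, Or.inr h5, hvw.symm⟩ h4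
  · exact absurd (h2.trans h5.symm) hvw.ne

/-- No parallel handles. -/
lemma gmin_hand_unique [Finite V] (hM : GMin G U) (hU : h ∈ U) (hh : Hand G h p q) {h' : V}
    (hU' : h' ∈ U) (hh' : Hand G h' p q) : h = h' := by
  classical
  by_contra hne
  set Y : Set V := {h, h'} with hY
  have hYU : Y ⊆ U := by
    rintro x (rfl | hx)
    · exact hU
    · rw [Set.mem_singleton_iff] at hx; rw [hx]; exact hU'
  have hY2 : Y.ncard = 2 := Set.ncard_pair hne
  have hb : PB G (fun v => if v = h ∨ v = h' then 1 else 0) Y := by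
    have hp1 : p ≠ h := hh.hp.ne'
    have hp2 : p ≠ h' := hh'.hp.ne'
    have hq1 : q ≠ h := hh.hq.ne'
    have hq2 : q ≠ h' := hh'.hq.ne'
    intro x y hx hxy
    have hx' : x = h ∨ x = h' := hx
    have hy : y = p ∨ y = q := by
      rcases hx' with h1 | h1
      · exact hh.adj.1 (h1 ▸ hxy)
      · exact hh'.adj.1 (h1 ▸ hxy)
    have hy' : ¬ (y = h ∨ y = h') := by
      rintro (h1 | h1) <;> rcases hy with h2 | h2
      · exact hp1 (h2.symm.trans h1)
      · exact hq1 (h2.symm.trans h1)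
      · exact hp2 (h2.symm.trans h1)
      · exact hq2 (h2.symm.trans h1)
    show (if x = h ∨ x = h' then (1 : ZMod 2) else 0) ≠ (if y = h ∨ y = h' then 1 else 0)
    rw [if_pos hx', if_neg hy']
    decide
  have h1 := gmin_three_le hM hYU hb (by omega)
  have h2 : (Nb G Y).ncard ≤ 2 := by
    apply ncard_le_two_of (a := p) (b := q)
    rintro x ⟨-, y, hy, hyx⟩
    rcases hy with rfl | hy
    · exact hh.adj.1 hyx
    · rw [Set.mem_singleton_iff] at hy
      subst hy
      exact hh'.adj.1 hyx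
  omega

/-! ### The graph `G - h` -/

lemma delV_nb_of [Finite V] (hh : Hand G h p q) {y : V} (hyh : y ≠ h) (hyp : y ≠ p)
    (hyq : y ≠ q) : (delV G h).neighborSet y = G.neighborSet y := by
  ext x
  constructor
  · exact fun hx => hx.1
  · intro hx
    refine ⟨hx, hyh, ?_⟩
    rintro rfl
    rcases hh.adj.1 (SimpleGraph.Adj.symm hx) with h1 | h1
    · exact hyp h1
    · exact hyq h1

lemma delV_nb (y : V) (hyh : y ≠ h) :
    (delV G h).neighborSet y = G.neighborSet y \ {h} := by
  ext x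
  constructor
  · exact fun hx => ⟨hx.1, hx.2.2⟩
  · exact fun hx => ⟨hx.1, hyh, hx.2⟩

lemma delV_card_edges [Finite V] (hh : Hand G h p q) :
    (delV G h).edgeSet.ncard + 2 = G.edgeSet.ncard := by
  classical
  have h1 : G.edgeSet = (delV G h).edgeSet ∪ {s(h, p), s(h, q)} := by
    ext e
    induction e using Sym2.ind with
    | _ x y =>
      constructor
      · intro hxy
        have hxy' : G.Adj x y := hxy
        by_cases hx : x = h
        · right
          subst hx
          rcases hh.adj.1 hxy' with h1 | h1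
          · exact Or.inl (by rw [h1])
          · exact Or.inr (by rw [Set.mem_singleton_iff, h1])
        · by_cases hy : y = h
          · right
            subst hy
            rcases hh.adj.1 hxy'.symm with h1 | h1
            · exact Or.inl (by rw [h1, Sym2.eq_swap])
            · exact Or.inr (by rw [Set.mem_singleton_iff, h1, Sym2.eq_swap])
          · exact Or.inl ⟨hxy', hx, hy⟩
      · rintro (h1 | h1 | h1)
        · exact h1.1
        · rw [h1]; exact hh.hp
        · rw [Set.mem_singleton_iff] at h1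
          rw [h1]; exact hh.hq
  have h2 : Disjoint (delV G h).edgeSet ({s(h, p), s(h, q)} : Set (Sym2 V)) := by
    rw [Set.disjoint_left]
    rintro e he (h1 | h1)
    · rw [h1] at he
      exact he.2.1 rfl
    · rw [Set.mem_singleton_iff] at h1
      rw [h1] at he
      exact he.2.1 rfl
  have h3 : s(h, p) ≠ s(h, q) := by
    intro h4
    rw [Sym2.eq_iff] at h4
    rcases h4 with h4 | h4
    · exact hh.ne h4.2
    · exact hh.hp.ne h4.2.symm
  rw [h1, Set.ncard_union_eq h2 (Set.toFinite _) (Set.toFinite _), Set.ncard_pair h3]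

end basics

end Pool.Agent.Helper82.TK
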