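import Pool.Agent.Helper57.TOK.Basic

/-!
# Two disjoint non-zero A-paths from a perfect matching of the parity double graph

`MG H c` lives on `V × ZMod 2`: `(u,i) ~ (v,j)` iff `u ~ v` in `H` and `i + j = 1 + c uv`, or
`u = v` and `i ≠ j`. Terminals `a ∈ A` have only the copy `(a, π a)`.
-/

set_option autoImplicit false

namespace Pool.Agent.Helper82.TK

open SimpleGraph Pool.Agent.Helper57.TOK

variable {V : Type*}

/-- The parity double graph. -/
def MG (H : SimpleGraph V) (c : Sym2 V → ZMod 2) : SimpleGraph (V × ZMod 2) where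
  Adj x y := (H.Adj x.1 y.1 ∧ x.2 + y.2 = 1 + c s(x.1, y.1)) ∨ (x.1 = y.1 ∧ x.2 ≠ y.2)
  symm := ⟨by
    rintro x y (⟨h1, h2⟩ | ⟨h1, h2⟩)
    · left; exact ⟨h1.symm, by rw [add_comm, h2, Sym2.eq_swap]⟩
    · right; exact ⟨h1.symm, h2.symm⟩⟩
  loopless := ⟨by
    rintro x (⟨h1, -⟩ | ⟨-, h2⟩)
    · exact h1.ne rfl
    · exact h2 rfl⟩

lemma MG_adj {H : SimpleGraph V} {c : Sym2 V → ZMod 2} {x y : V × ZMod 2} :
    (MG H c).Adj x y ↔
      (H.Adj x.1 y.1 ∧ x.2 + y.2 = 1 + c s(x.1, y.1)) ∨ (x.1 = y.1 ∧ x.2 ≠ y.2) := Iff.rfl

/-- The vertices which are present: both copies outside `A`, one copy on `A`. -/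
def Pres (A : Set V) (π : V → ZMod 2) (L : Set V) : Set (V × ZMod 2) :=
  {x | x.1 ∈ L ∨ (x.1 ∈ A ∧ x.2 = π x.1)}

/-- Two disjoint non-zero paths covering the four terminals. -/
def Two (H : SimpleGraph V) (c : Sym2 V → ZMod 2) (π : V → ZMod 2) (A L : Set V) : Prop :=
  ∃ a b a' b' : V, A = {a, b, a', b'} ∧ ∃ (P : H.Walk a b) (Q : H.Walk a' b'),
    P.IsPath ∧ Q.IsPath ∧ (∀ x ∈ P.support, x ∉ Q.support) ∧
    (∀ x ∈ P.support, x ∈ L ∨ x ∈ A) ∧ (∀ x ∈ Q.support, x ∈ L ∨ x ∈ A) ∧
    wt c P = π a + π b + 1 ∧ wt c Q = π a' + π b' + 1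

/-- Rearranged so that a given terminal is the first one. -/
lemma Two.first {H : SimpleGraph V} {c : Sym2 V → ZMod 2} {π : V → ZMod 2} {A L : Set V}
    (h : Two H c π A L) {v : V} (hv : v ∈ A) :
    ∃ b a' b' : V, A = {v, b, a', b'} ∧ ∃ (P : H.Walk v b) (Q : H.Walk a' b'),
    P.IsPath ∧ Q.IsPath ∧ (∀ x ∈ P.support, x ∉ Q.support) ∧
    (∀ x ∈ P.support, x ∈ L ∨ x ∈ A) ∧ (∀ x ∈ Q.support, x ∈ L ∨ x ∈ A) ∧
    wt c P = π v + π b + 1 ∧ wt c Q = π a' + π b' + 1 := by
  obtain ⟨a, b, a', b', hA, P, Q, h1, h2, h3, h4, h5, h6, h7⟩ := h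
  rw [hA] at hv
  simp only [Set.mem_insert_iff, Set.mem_singleton_iff] at hv
  rcases hv with rfl | rfl | rfl | rfl
  · exact ⟨b, a', b', hA, P, Q, h1, h2, h3, h4, h5, h6, h7⟩
  · refine ⟨a, a', b', ?_, P.reverse, Q, h1.reverse, h2, ?_, ?_, h5, ?_, h7⟩
    · rw [hA, Set.insert_comm]
    · intro x hx; rw [Walk.support_reverse, List.mem_reverse] at hx; exact h3 x hx
    · intro x hx; rw [Walk.support_reverse, List.mem_reverse] at hx; exact h4 x hx
    · rw [wt_reverse, h6]; ring
  · refine ⟨b', a, b, ?_, Q, P, h2, h1, ?_, h5, h4, h7, h6⟩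
    · rw [hA]; ext x; simp only [Set.mem_insert_iff, Set.mem_singleton_iff]; tauto
    · intro x hx hx'; exact h3 x hx' hx
  · refine ⟨a', a, b, ?_, Q.reverse, P, h2.reverse, h1, ?_, ?_, h4, ?_, h6⟩
    · rw [hA]; ext x; simp only [Set.mem_insert_iff, Set.mem_singleton_iff]; tauto
    · intro x hx hx'
      rw [Walk.support_reverse, List.mem_reverse] at hx
      exact h3 x hx' hx
    · intro x hx; rw [Walk.support_reverse, List.mem_reverse] at hx; exact h5 x hx
    · rw [wt_reverse, h7]; ring

lemma zmod2_cases (x : ZMod 2) : x = 0 ∨ x = 1 := by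
  revert x; decide

lemma zmod2_ne {x y : ZMod 2} (h : x ≠ y) : y = x + 1 := by
  revert x y; decide

/-- Perfect matchings give two disjoint non-zero paths. -/
theorem two_of_matching [Finite V] (H : SimpleGraph V) (c : Sym2 V → ZMod 2) :
    ∀ (n : ℕ) (A L : Set V) (π : V → ZMod 2) (σ : V × ZMod 2 → V × ZMod 2),
      L.ncard = n → A.ncard = 4 → Disjoint A L →
      (∀ x ∈ Pres A π L, σ x ∈ Pres A π L ∧ σ (σ x) = x ∧ (MG H c).Adj x (σ x)) →
      Two H c π A L := by
  classical
  intro n
  induction n with
  | zero =>
    intro A L π σ hL hA hdis hσ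
    have hL0 : L = ∅ := by rwa [Set.ncard_eq_zero (Set.toFinite _)] at hL
    exact base A L π σ hA hdis hσ (fun a _ => by
      rw [hL0]; exact Set.notMem_empty _)
  | succ n ih =>
    intro A L π σ hL hA hdis hσ
    by_cases hex : ∃ a ∈ A, (σ (a, π a)).1 ∈ L
    · obtain ⟨a, ha, hv⟩ := hex
      set v := (σ (a, π a)).1 with hvdef
      set j := (σ (a, π a)).2 with hjdef
      have haP : ((a, π a) : V × ZMod 2) ∈ Pres A π L := Or.inr ⟨ha, rfl⟩
      obtain ⟨h1, h2, h3⟩ := hσ _ haP
      have hvj : σ (a, π a) = (v, j) := rfl
      have haL : a ∉ L := Set.disjoint_left.1 hdis ha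
      have hvA : v ∉ A := Set.disjoint_right.1 hdis hv
      have hav : a ≠ v := fun h => haL (h ▸ hv)
      have hadj : H.Adj a v ∧ π a + j = 1 + c s(a, v) := by
        rw [hvj, MG_adj] at h3
        rcases h3 with h3 | ⟨h3, -⟩
        · exact h3
        · exact absurd h3 hav
      have hcl : c s(a, v) = π a + (j + 1) := by
        have h5 : ∀ x y z : ZMod 2, x + y = 1 + z → z = x + (y + 1) := by decide
        exact h5 _ _ _ hadj.2
      have hjj : ∀ i : ZMod 2, i ≠ i + 1 := by decide
      let π' := Function.update π v (j + 1)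
      let A' : Set V := insert v (A \ {a})
      let L' : Set V := L \ {v}
      have hπ' : ∀ x ∈ A, π' x = π x := by
        intro x hx
        apply Function.update_of_ne
        intro h
        rw [h] at hx
        exact hvA hx
      have hπv : π' v = j + 1 := Function.update_self _ _ _
      have hPres : ∀ x, x ∈ Pres A' π' L' ↔ x ∈ Pres A π L ∧ x ≠ (a, π a) ∧ x ≠ (v, j) := by
        rintro ⟨x, i⟩
        constructor
        · rintro (⟨hx, hxv⟩ | ⟨hx, hxi⟩)
          · refine ⟨Or.inl hx, ?_, ?_⟩
            · rintro h
              have h9 := (Prod.ext_iff.1 h).1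
              simp only at h9 hx
              rw [h9] at hx
              exact haL hx
            · rintro h; exact hxv (Prod.ext_iff.1 h).1
          · rcases hx with hx | ⟨hx, hxa⟩
            · simp only at hx hxi
              subst hx
              refine ⟨Or.inl hv, ?_, ?_⟩
              · rintro h; exact hav (Prod.ext_iff.1 h).1.symm
              · rintro h
                have := (Prod.ext_iff.1 h).2
                simp only at this
                rw [this, hπv] at hxi
                exact hjj _ hxi
            · simp only at hx hxi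
              rw [hπ' x hx] at hxi
              refine ⟨Or.inr ⟨hx, hxi⟩, ?_, ?_⟩
              · rintro h; exact hxa (Prod.ext_iff.1 h).1
              · rintro h
                have h9 := (Prod.ext_iff.1 h).1
                simp only at h9
                rw [h9] at hx
                exact hvA hx
        · rintro ⟨hx, hne1, hne2⟩
          rcases hx with hx | ⟨hx, hxi⟩
          · by_cases hxv : x = v
            · right
              simp only at hx
              refine ⟨Or.inl hxv, ?_⟩
              simp only
              rw [hxv, hπv]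
              apply zmod2_ne
              intro hh
              exact hne2 (Prod.ext hxv hh.symm)
            · left; exact ⟨hx, hxv⟩
          · right
            simp only at hx hxi
            refine ⟨Or.inr ⟨hx, ?_⟩, ?_⟩
            · rintro rfl
              exact hne1 (Prod.ext rfl hxi)
            · simp only
              rw [hπ' x hx]; exact hxi
      have hL' : L'.ncard = n := by
        have h5 := Set.ncard_sdiff_singleton_add_one hv (Set.toFinite _)
        change (L \ {v}).ncard = n
        omega
      have hA' : A'.ncard = 4 := by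
        have h5 := Set.ncard_sdiff_singleton_add_one ha (Set.toFinite _)
        have h6 : (insert v (A \ {a})).ncard = (A \ {a}).ncard + 1 :=
          Set.ncard_insert_of_notMem (fun h => hvA h.1) (Set.toFinite _)
        change (insert v (A \ {a})).ncard = 4
        omega
      have hdis' : Disjoint A' L' := by
        rw [Set.disjoint_left]
        rintro x (hx | hx) hx'
        · exact hx'.2 hx
        · exact Set.disjoint_left.1 hdis hx.1 hx'.1
      have hT := ih A' L' π' σ hL' hA' hdis' (by
        intro x hx
        obtain ⟨hx1, hx2, hx3⟩ := (hPres x).1 hx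
        obtain ⟨g1, g2, g3⟩ := hσ x hx1
        refine ⟨(hPres _).2 ⟨g1, ?_, ?_⟩, g2, g3⟩
        · intro h
          apply hx3
          rw [← g2, h, hvj]
        · intro h
          apply hx2
          rw [← g2, h, ← hvj, h2])
      obtain ⟨b, a', b', hAeq, P, Q, p1, p2, p3, p4, p5, p6, p7⟩ :=
        hT.first (v := v) (Set.mem_insert _ _)
      have hmemA' : ∀ x, x ∈ A' → x ∈ L ∨ x ∈ A := by
        rintro x (hx | hx)
        · left; rw [hx]; exact hv
        · right; exact hx.1
      have haA' : a ∉ A' := by
        rintro (h | h)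
        · exact hav h
        · exact h.2 rfl
      have haP' : ∀ {u w : V} (R : H.Walk u w), (∀ x ∈ R.support, x ∈ L' ∨ x ∈ A') →
          a ∉ R.support := by
        intro u w R hR ha'
        rcases hR a ha' with h | h
        · exact haL h.1
        · exact haA' h
      -- the terminals other than v
      have hcard4 := hA'
      rw [hAeq] at hcard4
      have hdist : v ≠ b ∧ v ≠ a' ∧ v ≠ b' := by
        refine ⟨?_, ?_, ?_⟩
        · rintro h
          rw [← h] at hcard4
          have : ({v, v, a', b'} : Set V) = {v, a', b'} := by simp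
          rw [this] at hcard4
          have := Set.ncard_insert_le v {a', b'}
          have := Set.ncard_insert_le a' {b'}
          simp only [Set.ncard_singleton] at this
          omega
        · rintro h
          rw [← h] at hcard4
          have : ({v, b, v, b'} : Set V) = {v, b, b'} := by
            ext x; simp only [Set.mem_insert_iff, Set.mem_singleton_iff]; tauto
          rw [this] at hcard4
          have := Set.ncard_insert_le v {b, b'}
          have := Set.ncard_insert_le b {b'}
          simp only [Set.ncard_singleton] at this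
          omega
        · rintro h
          rw [← h] at hcard4
          have : ({v, b, a', v} : Set V) = {v, b, a'} := by
            ext x; simp only [Set.mem_insert_iff, Set.mem_singleton_iff]; tauto
          rw [this] at hcard4
          have := Set.ncard_insert_le v {b, a'}
          have := Set.ncard_insert_le b {a'}
          simp only [Set.ncard_singleton] at this
          omega
      have hmemA : ∀ x, x ∈ A' → x ≠ v → x ∈ A := by
        rintro x (hx | hx) hne
        · exact absurd hx hne
        · exact hx.1
      have hbA : b ∈ A := hmemA b (by rw [hAeq]; simp) hdist.1.symm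
      have haA2 : a' ∈ A := hmemA a' (by rw [hAeq]; simp) hdist.2.1.symm
      have hbA2 : b' ∈ A := hmemA b' (by rw [hAeq]; simp) hdist.2.2.symm
      refine ⟨a, b, a', b', ?_, Walk.cons hadj.1 P, Q, ?_, p2, ?_, ?_, ?_, ?_, ?_⟩
      · ext x
        simp only [Set.mem_insert_iff, Set.mem_singleton_iff]
        constructor
        · intro hx
          by_cases hxa : x = a
          · exact Or.inl hxa
          · have : x ∈ A' := Or.inr ⟨hx, hxa⟩
            rw [hAeq] at this
            simp only [Set.mem_insert_iff, Set.mem_singleton_iff] at this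
            rcases this with h | h
            · exact absurd (h ▸ hx) hvA
            · exact Or.inr h
        · rintro (h | h | h | h)
          · rw [h]; exact ha
          · rw [h]; exact hbA
          · rw [h]; exact haA2
          · rw [h]; exact hbA2
      · rw [Walk.cons_isPath_iff]
        exact ⟨p1, haP' P p4⟩
      · intro x hx
        rw [Walk.support_cons, List.mem_cons] at hx
        rcases hx with rfl | hx
        · exact haP' Q p5
        · exact p3 x hx
      · intro x hx
        rw [Walk.support_cons, List.mem_cons] at hx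
        rcases hx with rfl | hx
        · exact Or.inr ha
        · rcases p4 x hx with h | h
          · exact Or.inl h.1
          · exact hmemA' x h
      · intro x hx
        rcases p5 x hx with h | h
        · exact Or.inl h.1
        · exact hmemA' x h
      · rw [wt_cons, p6, hcl, hπv, hπ' b hbA]
        have : ∀ x y z : ZMod 2, x + (y + 1) + (y + 1 + z + 1) = x + z + 1 := by decide
        exact this _ _ _
      · rw [p7, hπ' a' haA2, hπ' b' hbA2]
    · push Not at hex
      exact base A L π σ hA hdis hσ hex
where
  base [Finite V] {H : SimpleGraph V} {c : Sym2 V → ZMod 2} (A L : Set V) (π : V → ZMod 2)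
      (σ : V × ZMod 2 → V × ZMod 2) (hA : A.ncard = 4) (hdis : Disjoint A L)
      (hσ : ∀ x ∈ Pres A π L, σ x ∈ Pres A π L ∧ σ (σ x) = x ∧ (MG H c).Adj x (σ x))
      (hno : ∀ a ∈ A, (σ (a, π a)).1 ∉ L) : Two H c π A L := by
    classical
    -- all terminals are matched to terminals
    have key : ∀ a ∈ A, ∃ b ∈ A, σ (a, π a) = (b, π b) ∧ H.Adj a b ∧
        c s(a, b) = π a + π b + 1 := by
      intro a ha
      obtain ⟨h1, h2, h3⟩ := hσ (a, π a) (Or.inr ⟨ha, rfl⟩)
      rcases h1 with h1 | ⟨h1, h1'⟩
      · exact absurd h1 (hno a ha)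
      · refine ⟨(σ (a, π a)).1, h1, ?_, ?_⟩
        · exact Prod.ext rfl h1'
        · rw [MG_adj] at h3
          rcases h3 with ⟨h3, h4⟩ | ⟨h3, h4⟩
          · refine ⟨h3, ?_⟩
            simp only at h4
            rw [h1'] at h4
            rw [h4]
            have : ∀ x : ZMod 2, x = 1 + x + 1 := by decide
            exact this _
          · exfalso
            apply h4
            simp only at h3 ⊢
            rw [h1', ← h3]
    have hfin : A.Finite := Set.toFinite _
    obtain ⟨a, ha⟩ : A.Nonempty := by
      rw [← Set.ncard_pos hfin]; omega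
    obtain ⟨b, hb, hab, hadj, hc⟩ := key a ha
    have hba : σ (b, π b) = (a, π a) := by
      rw [← hab]; exact (hσ (a, π a) (Or.inr ⟨ha, rfl⟩)).2.1
    have hne : a ≠ b := hadj.ne
    have hcard2 : (A \ {a, b}).ncard = 2 := by
      have h5 : ({a, b} : Set V) ⊆ A := by
        rintro x (rfl | rfl)
        · exact ha
        · exact hb
      rw [Set.ncard_sdiff h5 (Set.toFinite _), Set.ncard_pair hne, hA]
    obtain ⟨a', ha'⟩ : (A \ {a, b}).Nonempty := by
      rw [← Set.ncard_pos (Set.toFinite _)]; omega
    obtain ⟨b', hb', hab', hadj', hc'⟩ := key a' ha'.1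
    have hb'ab : b' ∉ ({a, b} : Set V) := by
      have h7 : σ (b', π b') = (a', π a') := by
        rw [← hab']; exact (hσ (a', π a') (Or.inr ⟨ha'.1, rfl⟩)).2.1
      rintro (h | h)
      · rw [h, hab] at h7
        exact ha'.2 (Or.inr (Prod.ext_iff.1 h7).1.symm)
      · rw [h, hba] at h7
        exact ha'.2 (Or.inl (Prod.ext_iff.1 h7).1.symm)
    have hne' : a' ≠ b' := hadj'.ne
    have hAeq : A = {a, b, a', b'} := by
      symm
      apply Set.eq_of_subset_of_ncard_le _ _ hfin
      · rintro x (rfl | rfl | rfl | rfl)
        · exact ha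
        · exact hb
        · exact ha'.1
        · exact hb'
      · rw [hA]
        rw [Set.ncard_insert_of_notMem, Set.ncard_insert_of_notMem, Set.ncard_pair hne']
        · rintro (h | h)
          · exact ha'.2 (Or.inr h.symm)
          · exact hb'ab (Or.inr h.symm)
        · rintro (h | h | h)
          · exact hne h
          · exact ha'.2 (Or.inl h.symm)
          · exact hb'ab (Or.inl h.symm)
    refine ⟨a, b, a', b', hAeq, Walk.cons hadj Walk.nil, Walk.cons hadj' Walk.nil, ?_, ?_, ?_,
      ?_, ?_, ?_, ?_⟩
    · simp [Walk.cons_isPath_iff, hne]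
    · simp [Walk.cons_isPath_iff, hne']
    · intro x hx hx'
      simp only [Walk.support_cons, Walk.support_nil, List.mem_cons, List.not_mem_nil,
        or_false] at hx hx'
      rcases hx with rfl | rfl
      · rcases hx' with h | h
        · exact ha'.2 (Or.inl h.symm)
        · exact hb'ab (Or.inl h.symm)
      · rcases hx' with h | h
        · exact ha'.2 (Or.inr h.symm)
        · exact hb'ab (Or.inr h.symm)
    · intro x hx
      simp only [Walk.support_cons, Walk.support_nil, List.mem_cons, List.not_mem_nil,
        or_false] at hx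
      rcases hx with rfl | rfl
      · exact Or.inr ha
      · exact Or.inr hb
    · intro x hx
      simp only [Walk.support_cons, Walk.support_nil, List.mem_cons, List.not_mem_nil,
        or_false] at hx
      rcases hx with rfl | rfl
      · exact Or.inr ha'.1
      · exact Or.inr hb'
    · rw [wt_cons, wt_nil, add_zero, hc]
    · rw [wt_cons, wt_nil, add_zero, hc']

end Pool.Agent.Helper82.TK
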