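import Pool.Agent.Helper57.TD.R1
import Pool.Agent.Helper82.TK.Enter

/-!
# Global R1: replacing a maximal balanced set with three neighbours (all edges odd)

* `PB G κ Y`: `κ` is proper on the edges meeting `Y`.
* `Pre3 G U`: the connectivity and index part of the global class.
* `Ex3r G U`: the global class; sparsity only for sets whose complement has at least two vertices.
* `RepHyp G U M κ r`: the situation in which `M` is replaced.
-/

set_option autoImplicit false

namespace Pool.Agent.Helper82.TK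

open SimpleGraph Pool.Agent.Helper57.TOK Pool.Agent.Helper57.TD

variable {V : Type*}

/-- `κ` is proper on the edges which meet `Y`. -/
def PB (G : SimpleGraph V) (κ : V → ZMod 2) (Y : Set V) : Prop :=
  ∀ u v, u ∈ Y → G.Adj u v → κ u ≠ κ v

/-- Connectivity and index. -/
structure Pre3 (G : SimpleGraph V) (U : Set V) : Prop where
  edge_mem : ∀ u v, G.Adj u v → u ∈ U
  deg2 : ∀ y ∈ U, 2 ≤ (G.neighborSet y).ncard
  conn : ∀ Y ⊆ U, 2 ≤ Y.ncard → (Nb G Y).ncard ≤ 2 → (U \ (Y ∪ Nb G Y)).ncard ≤ 1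
  index2 : ∀ w, ∀ κ : V → ZMod 2, ¬ ∀ u v, u ≠ w → v ≠ w → G.Adj u v → κ u ≠ κ v

/-- The global class. -/
structure Ex3r (G : SimpleGraph V) (U : Set V) : Prop extends Pre3 G U where
  dens : 2 * U.ncard ≤ G.edgeSet.ncard + 2
  sparse : ∀ Y ⊆ U, 2 ≤ Y.ncard → (Nb G Y).ncard = 3 → 2 ≤ (U \ (Y ∪ Nb G Y)).ncard →
    ∀ κ, PB G κ Y → fden G Y ≤ beta κ (Nb G Y)

section basics

variable {G : SimpleGraph V} {κ : V → ZMod 2} {Y U : Set V}

lemma PB.mono {Y' : Set V} (h : PB G κ Y) (hs : Y' ⊆ Y) : PB G κ Y' := fun u v hu hadj =>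
  h u v (hs hu) hadj

lemma PB.fden [Finite V] (h : PB G κ Y) : fden G Y = fO G κ Y := by
  unfold fO Pool.Agent.Helper57.TOK.fden rho
  have : EAt G Y = EAt (oddG G κ) Y := by
    ext e
    induction e using Sym2.ind with
    | _ u v =>
      rw [mem_EAt, mem_EAt, oddG_adj]
      constructor
      · rintro ⟨h1, h2⟩
        refine ⟨⟨h1, ?_⟩, h2⟩
        rw [add_eq_one_iff]
        rcases h2 with h2 | h2
        · exact h u v h2 h1
        · exact (h v u h2 h1.symm).symm
      · rintro ⟨h1, h2⟩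
        exact ⟨h1.1, h2⟩
  rw [this]

/-- A single vertex is not dense. -/
lemma PB.single [Finite V] {y : V} (h : PB G κ {y}) (hne : (G.neighborSet y).Nonempty) :
    Pool.Agent.Helper57.TOK.fden G {y} ≤ beta κ (Nb G {y}) := by
  rw [h.fden]
  exact fO_singleton_le G κ y hne

lemma Pre3.Nb_sub (h : Pre3 G U) (Y : Set V) : Nb G Y ⊆ U := by
  rintro v ⟨-, u, -, huv⟩
  exact h.edge_mem v u huv.symm

/-- Connectivity in terms of separations. -/
lemma Pre3.sep [Finite V] (h : Pre3 G U) {A B C : Set V} (hA : A ⊆ U) (hB : B ⊆ U)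
    (hAB : Disjoint A B) (hno : ∀ a ∈ A, ∀ b ∈ B, ¬ G.Adj a b)
    (hC : ∀ x ∈ U, x ∉ A → x ∉ B → x ∈ C) (hC2 : C.ncard ≤ 2) (hA2 : 2 ≤ A.ncard)
    (hB2 : 2 ≤ B.ncard) : False := by
  have hAB' := Set.disjoint_left.1 hAB
  have hN : Nb G A ⊆ C := by
    rintro v ⟨hv, a, ha, hav⟩
    exact hC v (h.edge_mem v a hav.symm) hv (fun hvB => hno a ha v hvB hav)
  have h1 := h.conn A hA hA2 ((Set.ncard_le_ncard hN (Set.toFinite _)).trans hC2)
  have h2 : B ⊆ U \ (A ∪ Nb G A) := by
    intro b hb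
    refine ⟨hB hb, ?_⟩
    rintro (h3 | ⟨-, a, ha, hab⟩)
    · exact hAB' h3 hb
    · exact hno a ha b hb hab
  have h3 := Set.ncard_le_ncard h2 (Set.toFinite _)
  omega

lemma exists_ne_of_two [Finite V] {M : Set V} (h : 2 ≤ M.ncard) (u : V) : ∃ v ∈ M, v ≠ u := by
  by_contra hno
  push Not at hno
  have : M ⊆ {u} := fun x hx => hno x hx
  have := Set.ncard_le_ncard this (Set.toFinite _)
  rw [Set.ncard_singleton] at this
  omega

lemma ncard_le_two_of [Finite V] {S : Set V} {a b : V} (h : ∀ x ∈ S, x = a ∨ x = b) :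
    S.ncard ≤ 2 := by
  have h1 : S ⊆ {a, b} := fun x hx => by
    rcases h x hx with h2 | h2
    · exact Or.inl h2
    · exact Or.inr h2
  exact (Set.ncard_le_ncard h1 (Set.toFinite _)).trans (ncard_pair_le' a b)

end basics

/-- The situation in which the balanced set `M` is replaced by a star. -/
structure RepHyp (G : SimpleGraph V) (U M : Set V) (κ : V → ZMod 2) (r : V) : Prop where
  pre : Pre3 G U
  hM : M ⊆ U
  two : 2 ≤ M.ncard
  bal : PB G κ M
  three : (Nb G M).ncard = 3
  rest : 2 ≤ (U \ (M ∪ Nb G M)).ncard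
  max : ∀ X, M ⊆ X → X ⊆ U → X ≠ M → ∀ κ', PB G κ' X → 4 ≤ (Nb G X).ncard
  rM : r ∈ M
  deg3 : ∀ y ∈ U, y ≠ r → 3 ≤ (G.neighborSet y).ncard
  away : ∀ Y ⊆ U, 2 ≤ Y.ncard → Disjoint Y M → Disjoint Y (Nb G M) → (Nb G Y).ncard = 3 →
    ∀ κ', PB G κ' Y → fden G Y ≤ beta κ' (Nb G Y)

section rep

variable {G : SimpleGraph V} {U M : Set V} {κ : V → ZMod 2} {r : V}

lemma not_adj_M {x y : V} (hx : x ∈ M) (hyM : y ∉ M) (hyN : y ∉ Nb G M) : ¬ G.Adj x y :=
  fun h => hyN ⟨hyM, x, hx, h⟩

/-- Small degree outside `M ∪ Nb G M` is impossible. -/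
lemma RepHyp.not_small [Finite V] (h : RepHyp G U M κ r) {z a b : V} (hz : z ∈ U) (hzM : z ∉ M)
    (hN : ∀ w, G.Adj z w → w = a ∨ w = b) : False := by
  have h1 := h.deg3 z hz (fun hh => hzM (hh ▸ h.rM))
  have h2 : (G.neighborSet z).ncard ≤ 2 := ncard_le_two_of (a := a) (b := b) (fun x hx => hN x hx)
  omega

/-- A separation of `G` with `M` on one side and a small separator. -/
lemma RepHyp.sepM [Finite V] (h : RepHyp G U M κ r) {B C : Set V} (hB : B ⊆ U)
    (hBM : Disjoint B M) (hBN : Disjoint B (Nb G M))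
    (hC : Nb G B ⊆ C) (hC2 : C.ncard ≤ 2) : B.ncard ≤ 1 := by
  by_contra hlt
  push Not at hlt
  have hBM' := Set.disjoint_left.1 hBM
  have hBN' := Set.disjoint_left.1 hBN
  have h1 := h.pre.conn B hB (by omega) ((Set.ncard_le_ncard hC (Set.toFinite _)).trans hC2)
  have h2 : M ⊆ U \ (B ∪ Nb G B) := by
    intro x hx
    refine ⟨h.hM hx, ?_⟩
    rintro (h3 | ⟨-, b, hb, hbx⟩)
    · exact hBM' h3 hx
    · exact not_adj_M hx (hBM' hb) (hBN' hb) hbx.symm
  have h3 := Set.ncard_le_ncard h2 (Set.toFinite _)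
  have := h.two
  omega

/-- Subsets of `M` of size at least two have at least three neighbours. -/
lemma RepHyp.three_le [Finite V] (h : RepHyp G U M κ r) {B : Set V} (hB : B ⊆ M)
    (h2 : 2 ≤ B.ncard) : 3 ≤ (Nb G B).ncard := by
  by_contra hlt
  push Not at hlt
  have h1 := h.pre.conn B (hB.trans h.hM) h2 (by omega)
  have h3 : U \ (M ∪ Nb G M) ⊆ U \ (B ∪ Nb G B) := by
    rintro x ⟨hxU, hx⟩
    refine ⟨hxU, ?_⟩
    rintro (h4 | ⟨-, b, hb, hbx⟩)
    · exact hx (Or.inl (hB h4))
    · exact not_adj_M (hB hb) (fun h5 => hx (Or.inl h5)) (fun h5 => hx (Or.inr h5)) hbx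
  have h4 := Set.ncard_le_ncard h3 (Set.toFinite _)
  have := h.rest
  omega

/-- Boundary vertices have at least two neighbours outside `M`. -/
lemma RepHyp.out2 [Finite V] (h : RepHyp G U M κ r) {n : V} (hn : n ∈ Nb G M) :
    2 ≤ (G.neighborSet n \ M).ncard := by
  classical
  by_contra hlt
  push Not at hlt
  have hnM : n ∉ M := hn.1
  set X : Set V := insert n M with hX
  have hXU : X ⊆ U := by
    rintro x (rfl | hx)
    · exact h.pre.Nb_sub M hn
    · exact h.hM hx
  have hX2 : 2 ≤ X.ncard := h.two.trans (Set.ncard_le_ncard (Set.subset_insert n M) (Set.toFinite _))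
  have hNX : Nb G X ⊆ (Nb G M \ {n}) ∪ (G.neighborSet n \ M) := by
    rintro v ⟨hv, x, hx, hxv⟩
    have hvn : v ≠ n := fun hh => hv (Or.inl hh)
    have hvM : v ∉ M := fun hh => hv (Or.inr hh)
    rcases hx with rfl | hx
    · exact Or.inr ⟨hxv, hvM⟩
    · exact Or.inl ⟨⟨hvM, x, hx, hxv⟩, hvn⟩
  have hS2 : (Nb G M \ {n}).ncard = 2 := by
    have := Set.ncard_sdiff_singleton_add_one hn (Set.toFinite _)
    have := h.three
    omega
  by_cases hcase : G.neighborSet n \ M ⊆ Nb G M
  · have h1 : Nb G X ⊆ Nb G M \ {n} := by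
      intro v hv
      rcases hNX hv with h2 | h2
      · exact h2
      · exact ⟨hcase h2, fun hh => hv.1 (Or.inl hh)⟩
    have h2 := h.pre.conn X hXU hX2 ((Set.ncard_le_ncard h1 (Set.toFinite _)).trans (by omega))
    have h3 : U \ (M ∪ Nb G M) ⊆ U \ (X ∪ Nb G X) := by
      rintro x ⟨hxU, hx⟩
      refine ⟨hxU, ?_⟩
      rintro ((h4 | h4) | h4)
      · exact hx (Or.inr (h4 ▸ hn))
      · exact hx (Or.inl h4)
      · exact hx (Or.inr (h1 h4).1)
    have h4 := Set.ncard_le_ncard h3 (Set.toFinite _)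
    have := h.rest
    omega
  · obtain ⟨s, hs, hsN⟩ := Set.not_subset.1 hcase
    have hsM : s ∉ M := hs.2
    have hset : G.neighborSet n \ M = {s} := by
      symm
      apply Set.eq_of_subset_of_ncard_le _ _ (Set.toFinite _)
      · rintro x hx
        rw [Set.mem_singleton_iff] at hx
        rw [hx]; exact hs
      · rw [Set.ncard_singleton]; omega
    have h1 := h.max X (Set.subset_insert n M) hXU (fun hh => hnM (hh ▸ Set.mem_insert n M))
      (Function.update κ s (κ n + 1)) ?_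
    · have h2 : Nb G X ⊆ insert s (Nb G M \ {n}) := by
        intro v hv
        rcases hNX hv with h2 | h2
        · exact Or.inr h2
        · rw [hset] at h2; exact Or.inl h2
      have h3 := Set.ncard_le_ncard h2 (Set.toFinite _)
      have h4 := Set.ncard_insert_le s (Nb G M \ {n})
      omega
    · intro x y hx hxy
      have hns : n ≠ s := hs.1.ne
      rcases hx with rfl | hx
      · rw [Function.update_of_ne hns]
        by_cases hyM : y ∈ M
        · have hys : y ≠ s := fun hh => hsM (hh ▸ hyM)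
          rw [Function.update_of_ne hys]
          exact (h.bal y x hyM hxy.symm).symm
        · have : y ∈ G.neighborSet x \ M := ⟨hxy, hyM⟩
          rw [hset, Set.mem_singleton_iff] at this
          rw [this, Function.update_self]
          generalize κ x = a
          revert a; decide
      · have hxs : x ≠ s := fun hh => hsM (hh ▸ hx)
        have hys : y ≠ s := by
          intro hh
          exact hsN ⟨hsM, x, hx, hh ▸ hxy⟩
        rw [Function.update_of_ne hxs, Function.update_of_ne hys]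
        exact h.bal x y hx hxy

/-- Choice of the centre of the star. -/
lemma RepHyp.exists_centre [Finite V] (h : RepHyp G U M κ r) :
    ∃ u ∈ M, 3 ≤ (G.neighborSet u).ncard ∧ {z | z ∈ Nb G M ∧ κ z = κ u}.ncard ≤ 1 := by
  classical
  obtain ⟨c, hc⟩ := exists_majority κ h.three
  by_contra hno
  push Not at hno
  -- every vertex of M with the good colour is r
  have hgood : ∀ v ∈ M, κ v ≠ c → v = r := by
    intro v hv hvc
    by_contra hvr
    have h1 := hno v hv (h.deg3 v (h.hM hv) hvr)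
    have h2 : {z | z ∈ Nb G M ∧ κ z = κ v} ⊆ {z | z ∈ Nb G M ∧ κ z ≠ c} := by
      rintro z ⟨hz, hzv⟩
      exact ⟨hz, fun hh => hvc (hzv.symm.trans hh)⟩
    have h3 := Set.ncard_le_ncard h2 (Set.toFinite _)
    omega
  -- the neighbours of M minus r
  have hN : Nb G (M \ {r}) ⊆ insert r {z | z ∈ Nb G M ∧ κ z ≠ c} := by
    rintro v ⟨hv, x, hx, hxv⟩
    by_cases hvM : v ∈ M
    · left
      by_contra hvr
      exact hv ⟨hvM, hvr⟩
    · right
      refine ⟨⟨hvM, x, hx.1, hxv⟩, ?_⟩
      intro hvc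
      have h1 := h.bal x v hx.1 hxv
      exact hx.2 (hgood x hx.1 (fun hh => h1 (hh.trans hvc.symm)))
  have hN2 : (Nb G (M \ {r})).ncard ≤ 2 := by
    have h1 := Set.ncard_le_ncard hN (Set.toFinite _)
    have h2 := Set.ncard_insert_le r {z | z ∈ Nb G M ∧ κ z ≠ c}
    omega
  by_cases h2 : 2 ≤ (M \ {r}).ncard
  · have := h.three_le Set.sdiff_subset h2
    omega
  · obtain ⟨x, hxM, hxr⟩ := exists_ne_of_two h.two r
    have h3 : M \ {r} = {x} := by
      symm
      apply Set.eq_of_subset_of_ncard_le _ _ (Set.toFinite _)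
      · rintro y hy
        rw [Set.mem_singleton_iff] at hy
        rw [hy]; exact ⟨hxM, hxr⟩
      · rw [Set.ncard_singleton]; omega
    rw [h3, Nb_singleton] at hN2
    have := h.deg3 x (h.hM hxM) hxr
    omega

end rep

end Pool.Agent.Helper82.TK
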