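import Pool.Agent.Helper82.TK.RepStar

/-!
# Sparsity of the star graph
-/

set_option autoImplicit false

namespace Pool.Agent.Helper82.TK

open SimpleGraph Pool.Agent.Helper57.TOK Pool.Agent.Helper57.TD

variable {V : Type*}

section star

variable {G : SimpleGraph V} {U M E : Set V} {κ : V → ZMod 2} {r u h : V}

/-- `u` or `h`, on the other side of the edge to a boundary vertex. -/
lemma StarHyp.link [Finite V] (hs : StarHyp G U M κ E u h) {n : V} (hn : n ∈ Nb G M) :
    ∃ q, (q = u ∨ q = h) ∧ (n ∉ E → q = u) ∧ (n ∈ E → q = h) ∧ (starG G M E u h).Adj n q := by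
  classical
  by_cases hnE : n ∈ E
  · exact ⟨h, Or.inr rfl, fun hh => absurd hnE hh, fun _ => rfl, ((hs.adj_h).2 (Or.inr hnE)).symm⟩
  · exact ⟨u, Or.inl rfl, fun _ => rfl, fun hh => absurd hh hnE,
      ((hs.adj_u).2 (Or.inl ⟨hn, hnE⟩)).symm⟩

/-- The colour of a boundary vertex seen through the star. -/
lemma StarHyp.colour (hs : StarHyp G U M κ E u h) {X : Set V} {κ1 : V → ZMod 2}
    (hκ : PB (starG G M E u h) κ1 X) {n : V} (hn : n ∈ Nb G M)
    (h1 : n ∉ E → u ∈ X ∨ n ∈ X) (h2 : n ∈ E → (u ∈ X ∨ h ∈ X) ∧ (h ∈ X ∨ n ∈ X)) :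
    κ1 n = κ n + (κ1 u + κ u) := by
  classical
  by_cases hnE : n ∈ E
  · obtain ⟨h3, h4⟩ := h2 hnE
    have e1 : (starG G M E u h).Adj u h := (hs.adj_u).2 (Or.inr ⟨rfl, ⟨n, hnE⟩⟩)
    have e2 : (starG G M E u h).Adj h n := (hs.adj_h).2 (Or.inr hnE)
    have g1 : κ1 u ≠ κ1 h := by
      rcases h3 with h3 | h3
      · exact hκ u h h3 e1
      · exact (hκ h u h3 e1.symm).symm
    have g2 : κ1 h ≠ κ1 n := by
      rcases h4 with h4 | h4
      · exact hκ h n h4 e2
      · exact (hκ n h h4 e2.symm).symm
    have g3 : κ n = κ u := by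
      have := hnE
      rw [hs.E_def] at this
      exact this.2
    rw [g3]
    clear g3
    generalize κ1 u = a at *
    generalize κ1 h = b at *
    generalize κ1 n = c at *
    generalize κ u = d at *
    revert a b c d; decide
  · have e1 : (starG G M E u h).Adj u n := (hs.adj_u).2 (Or.inl ⟨hn, hnE⟩)
    have g1 : κ1 u ≠ κ1 n := by
      rcases h1 hnE with h3 | h3
      · exact hκ u n h3 e1
      · exact (hκ n u h3 e1.symm).symm
    have g2 : κ n ≠ κ u := by
      intro hh
      apply hnE
      rw [hs.E_def]
      exact ⟨hn, hh⟩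
    generalize κ1 u = a at *
    generalize κ1 n = c at *
    generalize κ u = d at *
    generalize κ n = e at *
    revert a c d e; decide

/-- Extending a colouring over `M`. -/
lemma StarHyp.extend [Finite V] (hs : StarHyp G U M κ E u h) (hr : RepHyp G U M κ r)
    {X : Set V} (hX : X ⊆ starU U M E u h) {κ1 : V → ZMod 2} (hκ : PB (starG G M E u h) κ1 X)
    {D : Set V} (hD : ∀ x ∈ D, x ∉ X ∧ x ∉ Nb (starG G M E u h) X)
    (hcol : ∀ n ∈ Nb G M, n ∉ D → κ1 n = κ n + (κ1 u + κ u)) :
    ∃ κ', PB G κ' ({x | x ∈ X ∧ x ∉ M} ∪ M) := by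
  classical
  let f : V → ZMod 2 := fun v => if v ∈ M ∪ D then κ v + (κ1 u + κ u) else κ1 v
  have fp : ∀ v, v ∈ M ∪ D → f v = κ v + (κ1 u + κ u) := fun v hv => if_pos hv
  have fn : ∀ v, v ∉ M ∪ D → f v = κ1 v := fun v hv => if_neg hv
  have key : ∀ n ∈ Nb G M, f n = κ n + (κ1 u + κ u) := by
    intro n hn
    by_cases h1 : n ∈ M ∪ D
    · exact fp n h1
    · rw [fn n h1]
      exact hcol n hn (fun h2 => h1 (Or.inr h2))
  refine ⟨f, ?_⟩
  rintro x y (⟨hx, hxM⟩ | hx) hxy
  · have hxD : x ∉ M ∪ D := fun h1 => h1.elim hxM (fun h2 => (hD x h2).1 hx)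
    by_cases hyM : y ∈ M
    · have hxN : x ∈ Nb G M := ⟨hxM, y, hyM, hxy.symm⟩
      rw [key x hxN, fp y (Or.inl hyM)]
      intro hh
      exact hr.bal y x hyM hxy.symm (add_right_cancel hh).symm
    · have hyD : y ∉ M ∪ D := by
        rintro (h1 | h1)
        · exact hyM h1
        · have h2 := hD y h1
          exact h2.2 ⟨h2.1, x, hx, (hs.adj_out hxM hyM).2 hxy⟩
      rw [fn x hxD, fn y hyD]
      exact hκ x y hx ((hs.adj_out hxM hyM).2 hxy)
  · rw [fp x (Or.inl hx)]
    by_cases hyM : y ∈ M
    · rw [fp y (Or.inl hyM)]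
      intro hh
      exact hr.bal x y hx hxy (add_right_cancel hh)
    · have hyN : y ∈ Nb G M := ⟨hyM, x, hx, hxy⟩
      rw [key y hyN]
      intro hh
      exact hr.bal x y hx hxy (add_right_cancel hh)

/-- Sets away from `M` and its boundary. -/
lemma StarHyp.away_eq [Finite V] (hs : StarHyp G U M κ E u h) {Y : Set V} (hYM : Disjoint Y M)
    (hYN : Disjoint Y (Nb G M)) : Nb (starG G M E u h) Y = Nb G Y ∧
      fden (starG G M E u h) Y = fden G Y := by
  have hM' := Set.disjoint_left.1 hYM
  have hN' := Set.disjoint_left.1 hYN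
  have hadj : ∀ x y, x ∈ Y → ((starG G M E u h).Adj x y ↔ G.Adj x y) := by
    intro x y hx
    have hxM := hM' hx
    by_cases hyM : y ∈ M
    · constructor
      · rintro ⟨h1, h2 | h2 | h2 | h2 | h2⟩
        · exact absurd hyM h2.2.1
        · exact absurd (h2.1 ▸ hs.uM) hxM
        · rcases h2.2 with h3 | h3
          · exact absurd h3.1 (hN' hx)
          · exact absurd (h3.1 ▸ hs.hM) hxM
        · exact absurd (h2.1 ▸ hs.hM) hxM
        · exact absurd (hs.E_sub h2.2) (hN' hx)
      · intro h1
        exact absurd ⟨hxM, y, hyM, h1.symm⟩ (hN' hx)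
    · exact hs.adj_out hxM hyM
  constructor
  · exact Nb_congr (fun x y hx _ => hadj x y hx)
  · unfold fden rho
    have : EAt (starG G M E u h) Y = EAt G Y := by
      ext e
      induction e using Sym2.ind with
      | _ x y =>
        rw [mem_EAt, mem_EAt]
        constructor
        · rintro ⟨h1, h2 | h2⟩
          · exact ⟨(hadj x y h2).1 h1, Or.inl h2⟩
          · exact ⟨((hadj y x h2).1 h1.symm).symm, Or.inr h2⟩
        · rintro ⟨h1, h2 | h2⟩
          · exact ⟨(hadj x y h2).2 h1, Or.inl h2⟩
          · exact ⟨((hadj y x h2).2 h1.symm).symm, Or.inr h2⟩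
    rw [this]

/-- One boundary vertex `n` in `Y` (the arithmetic step). -/
lemma StarHyp.one_step [Finite V] (hs : StarHyp G U M κ E u h) (hr : RepHyp G U M κ r)
    {Y : Set V} (hYU : Y ⊆ U) (hYM : Disjoint Y M) {κ1 : V → ZMod 2}
    (hκ : PB (starG G M E u h) κ1 Y) {n q : V} (hnY : n ∈ Y) (hnN : n ∈ Nb G M)
    (hJ : ∀ x ∈ Y, x ∈ Nb G M → x = n) {R : Set V} (hR2 : R.ncard = 2) (hqM : q ∈ M)
    (hqR : q ∉ R) (hRY : ∀ x ∈ R, x ∉ Y) (hN : Nb (starG G M E u h) Y ⊆ insert q R) :
    fden (starG G M E u h) Y ≤ beta κ1 (insert q R) := by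
  classical
  have hYM' := Set.disjoint_left.1 hYM
  have hnR : n ∉ R := fun hh => hRY n hh hnY
  set G1 := starG G M E u h with hG1
  by_cases hY0 : (Y \ {n}).Nonempty
  · set Y0 := Y \ {n} with hY0d
    have hY0M : Disjoint Y0 M := hYM.mono_left Set.sdiff_subset
    have hY0N : Disjoint Y0 (Nb G M) := by
      rw [Set.disjoint_left]; exact fun x hx hxN => hx.2 (hJ x hx.1 hxN)
    obtain ⟨e1, e2⟩ := hs.away_eq hY0M hY0N
    have hκ0 : PB G κ1 Y0 := by
      intro x y hx hxy
      have hxM := hYM' hx.1
      have hyM : y ∉ M := fun hyM => (Set.disjoint_left.1 hY0N) hx ⟨hxM, y, hyM, hxy.symm⟩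
      exact hκ x y hx.1 ((hs.adj_out hxM hyM).2 hxy)
    have hN0 : Nb G Y0 ⊆ insert n R := by
      rw [← e1]
      rintro v ⟨hv, x, hx, hxv⟩
      by_cases hvn : v = n
      · exact Or.inl hvn
      · have hvY : v ∉ Y := fun hh => hv ⟨hh, hvn⟩
        rcases hN ⟨hvY, x, hx.1, hxv⟩ with h1 | h1
        · exfalso
          -- x adjacent to M
          have hxN := (Set.disjoint_left.1 hY0N) hx
          have hxM := hYM' hx.1
          have hvM : v ∈ M := h1 ▸ hqM
          obtain ⟨g1, g2 | g2 | g2 | g2 | g2⟩ := hxv
          · exact g2.2.1 hvM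
          · exact hxM (g2.1 ▸ hs.uM)
          · rcases g2.2 with g3 | g3
            · exact hxN g3.1
            · exact hxM (g3.1 ▸ hs.hM)
          · exact hxM (g2.1 ▸ hs.hM)
          · exact hxN (hs.E_sub g2.2)
        · exact Or.inr h1
    have hcard : (insert n R).ncard = 3 := by
      rw [Set.ncard_insert_of_notMem hnR (Set.toFinite _), hR2]
    have hf0 : fden G Y0 ≤ beta κ1 (Nb G Y0) := by
      by_cases h2 : 2 ≤ Y0.ncard
      · apply hr.away Y0 (Set.sdiff_subset.trans hYU) h2 hY0M hY0N _ κ1 hκ0
        have h3 := Set.ncard_le_ncard hN0 (Set.toFinite _)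
        by_contra hne
        have h4 : Y0.ncard ≤ 1 := hr.sepM (B := Y0) (C := Nb G Y0) (Set.sdiff_subset.trans hYU)
          hY0M hY0N subset_rfl (by omega)
        omega
      · have hpos := (Set.ncard_pos (Set.toFinite _)).2 hY0
        obtain ⟨z, hz⟩ := Set.ncard_eq_one.1 (by omega : Y0.ncard = 1)
        rw [hz]
        apply PB.single
        · rw [← hz]; exact hκ0
        · have hzU : z ∈ U := hYU (hz ▸ rfl : z ∈ Y0).1
          have := hr.pre.deg2 z hzU
          exact (Set.ncard_pos (Set.toFinite _)).1 (by omega)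
    have h15 := beta_mono (κ := κ1) hN0
    have h16 := beta_swap (κ := κ1) hR2 hqR hnR
    have hYn : Y = insert n Y0 := by
      rw [hY0d, Set.insert_sdiff_singleton, Set.insert_eq_of_mem hnY]
    have h17 : fden G1 Y = fden G1 Y0 + ((G1.neighborSet n \ Y0).ncard : ℤ) - 2 := by
      conv_lhs => rw [hYn]
      exact fden_insert G1 (fun hh => hh.2 rfl)
    have h18 : (G1.neighborSet n \ Y0).ncard ≤ ({w | w ∈ insert q R ∧ κ1 n + κ1 w = 1}).ncard := by
      apply Set.ncard_le_ncard _ (Set.toFinite _)
      rintro w ⟨g1, g2⟩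
      have g1' : G1.Adj n w := g1
      refine ⟨hN ⟨?_, n, hnY, g1'⟩, ?_⟩
      · intro hw
        exact g2 ⟨hw, fun hh => g1'.ne (Set.mem_singleton_iff.1 hh).symm⟩
      · rw [add_eq_one_iff]
        exact hκ n w hnY g1'
    have h19 : ((G1.neighborSet n \ Y0).ncard : ℤ) ≤
        (({w | w ∈ insert q R ∧ κ1 n + κ1 w = 1}).ncard : ℤ) := by exact_mod_cast h18
    rw [h17, e2]
    linarith
  · rw [Set.not_nonempty_iff_eq_empty] at hY0
    have hYn : Y = {n} := by
      have : Y = insert n (Y \ {n}) := by
        rw [Set.insert_sdiff_singleton, Set.insert_eq_of_mem hnY]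
      rw [this, hY0]; simp
    have h1 : fden G1 {n} ≤ beta κ1 (Nb G1 {n}) := by
      apply PB.single
      · rw [← hYn]; exact hκ
      · obtain ⟨q', -, -, -, h2⟩ := hs.link hnN
        exact ⟨q', h2⟩
    rw [hYn] at hN ⊢
    exact h1.trans (beta_mono hN)

lemma ncard_eq_two_of_diff [Finite V] {C : Set V} {q : V} (hC : C.ncard = 3) (hq : q ∈ C) :
    (C \ {q}).ncard = 2 := by
  have := Set.ncard_sdiff_singleton_add_one hq (Set.toFinite _)
  omega

/-- **Sparsity of the star graph.** -/
theorem StarHyp.star_sparse [Finite V] (hs : StarHyp G U M κ E u h) (hr : RepHyp G U M κ r)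
    (X : Set V) (hX : X ⊆ starU U M E u h) (hX2 : 2 ≤ X.ncard)
    (hC3 : (Nb (starG G M E u h) X).ncard = 3)
    (hB2 : 2 ≤ (starU U M E u h \ (X ∪ Nb (starG G M E u h) X)).ncard)
    (κ1 : V → ZMod 2) (hκ : PB (starG G M E u h) κ1 X) :
    fden (starG G M E u h) X ≤ beta κ1 (Nb (starG G M E u h) X) := by
  classical
  set G1 := starG G M E u h with hG1
  set C := Nb G1 X with hCd
  set B := starU U M E u h \ (X ∪ C) with hBd
  have hbeta0 : (0 : ℤ) ≤ beta κ1 C := by
    have := le_beta κ1 C
    rw [hC3] at this
    norm_num at this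
    exact this
  have hnoXB : ∀ x ∈ X, ∀ y, G1.Adj x y → y ∈ X ∨ y ∈ C := by
    intro x hx y hxy
    by_cases hy : y ∈ X
    · exact Or.inl hy
    · exact Or.inr ⟨hy, x, hx, hxy⟩
  have hCX : ∀ x ∈ C, x ∉ X := fun x hx => hx.1
  -- sets in G
  set Xh : Set V := {x | x ∈ X ∧ x ∉ M} ∪ M with hXh
  have hXhU : Xh ⊆ U := by
    rintro x (⟨h1, h2⟩ | h1)
    · exact hs.starU_sub hr.hM (hX h1)
    · exact hr.hM h1
  have hMXh : M ⊆ Xh := Set.subset_union_right
  have hXh2 : 2 ≤ Xh.ncard := hr.two.trans (Set.ncard_le_ncard hMXh (Set.toFinite _))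
  -- neighbours of Xh
  have hNXh : ∀ v ∈ Nb G Xh, v ∉ M ∧ v ∉ X ∧ (v ∈ C ∨ v ∈ Nb G M) := by
    rintro v ⟨hv, x, hx, hxv⟩
    have hvM : v ∉ M := fun hh => hv (Or.inr hh)
    have hvX : v ∉ X := fun hh => hv (Or.inl ⟨hh, hvM⟩)
    refine ⟨hvM, hvX, ?_⟩
    rcases hx with ⟨h1, h2⟩ | h1
    · exact Or.inl ⟨hvX, x, h1, (hs.adj_out h2 hvM).2 hxv⟩
    · exact Or.inr ⟨hvM, x, h1, hxv⟩
  -- elements of B outside M
  have hBout : ∀ b ∈ B, b ≠ u → b ≠ h → b ∈ U ∧ b ∉ M := fun b hb h1 h2 =>
    hs.mem_out hb.1 h1 h2
  have hcov : ∀ x ∈ U, x ∉ M → x ∈ X ∨ x ∈ C ∨ x ∈ B := by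
    intro x hxU hxM
    by_cases h1 : x ∈ X
    · exact Or.inl h1
    by_cases h2 : x ∈ C
    · exact Or.inr (Or.inl h2)
    · exact Or.inr (Or.inr ⟨Or.inl ⟨hxU, hxM⟩, fun h3 => h3.elim h1 h2⟩)
  have hnoXB' : ∀ x ∈ X, ∀ y ∈ B, ¬ G1.Adj x y := by
    intro x hx y hy hxy
    rcases hnoXB x hx y hxy with h1 | h1
    · exact hy.2 (Or.inl h1)
    · exact hy.2 (Or.inr h1)
  -- separation of G with Xh on one side
  have hsepXh : ∀ (B' C' : Set V), B' ⊆ B → (∀ b ∈ B', b ∈ U ∧ b ∉ M ∧ b ∉ Nb G M) →
      (∀ x ∈ U, x ∉ M → x ∉ X → x ∉ B' → x ∈ C') → C'.ncard ≤ 2 → 2 ≤ B'.ncard → False := by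
    intro B' C' hB' hB'' hC' hC2 hB2'
    refine hr.pre.sep (A := Xh) (B := B') (C := C') hXhU (fun x hx => (hB'' x hx).1) ?_ ?_ ?_ hC2
      hXh2 hB2'
    · rw [Set.disjoint_left]
      rintro x (hx | hx) hxB
      · exact (hB' hxB).2 (Or.inl hx.1)
      · exact (hB'' x hxB).2.1 hx
    · rintro a (ha | ha) b hb hab
      · exact hnoXB' a ha.1 b (hB' hb) ((hs.adj_out ha.2 (hB'' b hb).2.1).2 hab)
      · exact (hB'' b hb).2.2 ⟨(hB'' b hb).2.1, a, ha, hab⟩
    · intro x hxU hxA hxB
      have hxM : x ∉ M := fun hh => hxA (Or.inr hh)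
      exact hC' x hxU hxM (fun hh => hxA (Or.inl ⟨hh, hxM⟩)) hxB
  by_cases huX : u ∈ X
  · -- u ∈ X
    have huB : u ∉ B := fun hh => hh.2 (Or.inl huX)
    have hhB : h ∉ B := by
      intro hh
      have h1 : E.Nonempty := by
        rcases hh.1 with h2 | h2 | h2
        · exact absurd hs.hM h2.2
        · exact absurd h2 hs.hu
        · exact h2.2
      exact hnoXB' u huX h hh ((hs.adj_u).2 (Or.inr ⟨rfl, h1⟩))
    have hBE : ∀ b ∈ B, b ∈ Nb G M → b ∈ E := by
      intro b hb hbN
      by_contra hbE
      exact hnoXB' u huX b hb ((hs.adj_u).2 (Or.inl ⟨hbN, hbE⟩))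
    by_cases hbad : ∃ n ∈ E, n ∈ C ∧ h ∈ C
    · exfalso
      obtain ⟨n, hnE, hnC, hhC⟩ := hbad
      have hBN : ∀ b ∈ B, b ∉ Nb G M := by
        intro b hb hbN
        have := hs.E_eq (hBE b hb hbN) hnE
        exact hb.2 (Or.inr (this ▸ hnC))
      refine hsepXh B (C \ {h}) subset_rfl (fun b hb => ?_) ?_
        (ncard_eq_two_of_diff hC3 hhC).le hB2
      · obtain ⟨h1, h2⟩ := hBout b hb (fun hh => huB (hh ▸ hb)) (fun hh => hhB (hh ▸ hb))
        exact ⟨h1, h2, hBN b hb⟩
      · intro x hxU hxM hxX hxB
        rcases hcov x hxU hxM with h1 | h1 | h1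
        · exact absurd h1 hxX
        · exact ⟨h1, fun hh => hxM (hh ▸ hs.hM)⟩
        · exact absurd h1 hxB
    · -- Xh is balanced
      obtain ⟨κ', hκ'⟩ := hs.extend hr hX hκ (D := {x | x ∈ E ∧ x ∉ X ∧ x ∉ C})
        (fun x hx => ⟨hx.2.1, hx.2.2⟩) (by
          intro n hn hnD
          apply hs.colour hκ hn (fun _ => Or.inl huX)
          intro hnE
          refine ⟨Or.inl huX, ?_⟩
          by_contra hcon
          push Not at hcon
          have hhC : h ∈ C := ⟨hcon.1, u, huX, (hs.adj_u).2 (Or.inr ⟨rfl, ⟨n, hnE⟩⟩)⟩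
          have hnC : n ∈ C := by
            by_contra hnC
            exact hnD ⟨hnE, hcon.2, hnC⟩
          exact hbad ⟨n, hnE, hnC, hhC⟩)
      have hXM : Xh = M := by
        by_contra hne
        have h4 := hr.max Xh hMXh hXhU hne κ' hκ'
        -- |Nb G Xh| ≤ 3
        have h5 : (Nb G Xh).ncard ≤ 3 := by
          by_cases hhC : h ∈ C
          · have h6 : Nb G Xh ⊆ (C \ {h}) ∪ E := by
              intro v hv
              obtain ⟨h7, h8, h9 | h9⟩ := hNXh v hv
              · exact Or.inl ⟨h9, fun hh => h7 (hh ▸ hs.hM)⟩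
              · by_cases hvE : v ∈ E
                · exact Or.inr hvE
                · left
                  refine ⟨?_, fun hh => h7 (hh ▸ hs.hM)⟩
                  rcases hnoXB u huX v ((hs.adj_u).2 (Or.inl ⟨h9, hvE⟩)) with h10 | h10
                  · exact absurd h10 h8
                  · exact h10
            have h7 := Set.ncard_le_ncard h6 (Set.toFinite _)
            have h8 := Set.ncard_union_le (C \ {h}) E
            have h9 := ncard_eq_two_of_diff hC3 hhC
            have h10 := hs.E1
            omega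
          · have h6 : Nb G Xh ⊆ C := by
              intro v hv
              obtain ⟨h7, h8, h9 | h9⟩ := hNXh v hv
              · exact h9
              · by_cases hvE : v ∈ E
                · have hhX : h ∈ X := by
                    rcases hnoXB u huX h ((hs.adj_u).2 (Or.inr ⟨rfl, ⟨v, hvE⟩⟩)) with h10 | h10
                    · exact h10
                    · exact absurd h10 hhC
                  rcases hnoXB h hhX v ((hs.adj_h).2 (Or.inr hvE)) with h10 | h10
                  · exact absurd h10 h8
                  · exact h10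
                · rcases hnoXB u huX v ((hs.adj_u).2 (Or.inl ⟨h9, hvE⟩)) with h10 | h10
                  · exact absurd h10 h8
                  · exact h10
            have h7 := Set.ncard_le_ncard h6 (Set.toFinite _)
            omega
        omega
      -- X = {u, h}
      have hXsub : ∀ x ∈ X, x = u ∨ x = h := by
        intro x hx
        by_contra hcon
        push Not at hcon
        obtain ⟨-, h1⟩ := hs.mem_out (hX hx) hcon.1 hcon.2
        have : x ∈ Xh := Or.inl ⟨hx, h1⟩
        rw [hXM] at this
        exact h1 this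
      obtain ⟨x, hx, hxu⟩ := exists_ne_of_two hX2 u
      have hxh : x = h := (hXsub x hx).resolve_left hxu
      rw [hxh] at hx
      have hE : E.Nonempty := by
        rcases hX hx with h1 | h1 | h1
        · exact absurd hs.hM h1.2
        · exact absurd h1 hs.hu
        · exact h1.2
      have hXeq : X = insert u {h} := by
        ext y
        constructor
        · intro hy
          rcases hXsub y hy with h1 | h1
          · exact Or.inl h1
          · exact Or.inr h1
        · rintro (h1 | h1)
          · rw [h1]; exact huX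
          · rw [Set.mem_singleton_iff] at h1; rw [h1]; exact hx
      have hf : fden G1 X ≤ 0 := by
        rw [hXeq, fden_insert G1 (fun hh => hs.hu (Set.mem_singleton_iff.1 hh).symm)]
        have h1 : fden G1 {h} ≤ 0 := by
          unfold fden
          rw [rho_singleton, Set.ncard_singleton]
          obtain ⟨n, hn⟩ := hE
          have h2 : (G1.neighborSet h).ncard ≤ 2 := by
            apply ncard_le_two_of (a := u) (b := n)
            intro y hy
            rcases (hs.adj_h).1 hy with h3 | h3
            · exact Or.inl h3.1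
            · exact Or.inr (hs.E_eq h3 hn)
          have h3 : ((G1.neighborSet h).ncard : ℤ) ≤ 2 := by exact_mod_cast h2
          push_cast
          linarith
        have h2 : (G1.neighborSet u \ {h}).ncard = 2 := by
          have h3 : h ∈ G1.neighborSet u := (hs.adj_u).2 (Or.inr ⟨rfl, hE⟩)
          have h4 := Set.ncard_sdiff_singleton_add_one h3 (Set.toFinite _)
          have h5 : (G1.neighborSet u).ncard = 3 := hs.nbr_u hr
          omega
        rw [h2]
        push_cast
        linarith
      linarith
  · -- u ∉ X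
    set Y : Set V := X \ {h} with hYd
    have hYout : ∀ x ∈ Y, x ∈ U ∧ x ∉ M := fun x hx =>
      hs.mem_out (hX hx.1) (fun hh => huX (hh ▸ hx.1)) hx.2
    have hYU : Y ⊆ U := fun x hx => (hYout x hx).1
    have hYM : Disjoint Y M := by rw [Set.disjoint_left]; exact fun x hx => (hYout x hx).2
    have hκY : PB G1 κ1 Y := hκ.mono Set.sdiff_subset
    have hXhY : {x | x ∈ X ∧ x ∉ M} = Y := by
      ext x
      constructor
      · rintro ⟨h1, h2⟩
        exact ⟨h1, fun hh => h2 (hh ▸ hs.hM)⟩
      · intro h1
        exact ⟨h1.1, (hYout x h1).2⟩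
    -- if h ∈ X then u ∈ C
    have hhu : h ∈ X → E.Nonempty ∧ u ∈ C := by
      intro hh
      have h1 : E.Nonempty := by
        rcases hX hh with h2 | h2 | h2
        · exact absurd hs.hM h2.2
        · exact absurd h2 hs.hu
        · exact h2.2
      exact ⟨h1, huX, h, hh, (hs.adj_h).2 (Or.inl ⟨rfl, h1⟩)⟩
    set J : Set V := Y ∩ Nb G M with hJd
    have hSE := hs.S_E hr
    by_cases hJ2 : 2 ≤ J.ncard
    · exfalso
      -- some element of J is outside E
      have huC : u ∈ C := by
        obtain ⟨n, hnJ, hnE⟩ : ∃ n ∈ J, n ∉ E := by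
          by_contra hno
          push Not at hno
          have := Set.ncard_le_ncard (fun x hx => hno x hx : J ⊆ E) (Set.toFinite _)
          have := hs.E1
          omega
        exact ⟨huX, n, hnJ.1.1, ((hs.adj_u).2 (Or.inl ⟨hnJ.2, hnE⟩)).symm⟩
      have hSJ : (Nb G M \ J).ncard + J.ncard = 3 := by
        have := Set.ncard_sdiff_add_ncard_of_subset (Set.inter_subset_right : J ⊆ Nb G M)
          (Set.toFinite _)
        rw [hr.three] at this
        exact this
      have huB : u ∉ B := fun hh => hh.2 (Or.inr huC)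
      by_cases hJ3 : J.ncard = 3
      · -- all boundary vertices in X
        have hall : ∀ n ∈ Nb G M, n ∈ X := by
          intro n hn
          by_contra hnX
          have h1 : (Nb G M \ J).Nonempty := ⟨n, hn, fun hh => hnX hh.1.1⟩
          have := (Set.ncard_pos (Set.toFinite _)).2 h1
          omega
        have hhB : h ∉ B := by
          intro hh
          have h1 : E.Nonempty := by
            rcases hh.1 with h2 | h2 | h2
            · exact absurd hs.hM h2.2
            · exact absurd h2 hs.hu
            · exact h2.2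
          obtain ⟨n, hn⟩ := h1
          exact hnoXB' n (hall n (hs.E_sub hn)) h hh ((hs.adj_h).2 (Or.inr hn)).symm
        refine hsepXh B (C \ {u}) subset_rfl (fun b hb => ?_) ?_
          (ncard_eq_two_of_diff hC3 huC).le hB2
        · obtain ⟨h1, h2⟩ := hBout b hb (fun hh => huB (hh ▸ hb)) (fun hh => hhB (hh ▸ hb))
          exact ⟨h1, h2, fun hbN => hb.2 (Or.inl (hall b hbN))⟩
        · intro x hxU hxM hxX hxB
          rcases hcov x hxU hxM with h1 | h1 | h1
          · exact absurd h1 hxX
          · exact ⟨h1, fun hh => hxM (hh ▸ hs.uM)⟩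
          · exact absurd h1 hxB
      · -- exactly two
        have h1 : (Nb G M \ J).ncard = 1 := by omega
        obtain ⟨m, hm⟩ := Set.ncard_eq_one.1 h1
        have hmN : m ∈ Nb G M ∧ m ∉ J := by
          have : m ∈ Nb G M \ J := hm ▸ rfl
          exact this
        have hmM : m ∉ M := hmN.1.1
        have hmX : m ∉ X := fun hh => hmN.2 ⟨⟨hh, fun h2 => hmM (h2 ▸ hs.hM)⟩, hmN.1⟩
        have hothers : ∀ n ∈ Nb G M, n ≠ m → n ∈ X := by
          intro n hn hnm
          by_contra hnX
          have : n ∈ Nb G M \ J := ⟨hn, fun hh => hnX hh.1.1⟩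
          rw [hm] at this
          exact hnm this
        by_cases hhC : h ∈ C
        · -- C = {u, h, s}
          obtain ⟨s, hsC⟩ : ∃ s, ∀ x ∈ C, x ≠ u → x ≠ h → x = s := by
            have h2 := ncard_eq_two_of_diff hC3 huC
            have h3 : h ∈ C \ {u} := ⟨hhC, fun hh => hs.hu hh⟩
            have h4 := Set.ncard_sdiff_singleton_add_one h3 (Set.toFinite _)
            obtain ⟨s, hs'⟩ := Set.ncard_eq_one.1 (by omega : ((C \ {u}) \ {h}).ncard = 1)
            refine ⟨s, fun x hx hxu hxh => ?_⟩
            have : x ∈ (C \ {u}) \ {h} := ⟨⟨hx, hxu⟩, hxh⟩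
            rw [hs'] at this
            exact this
          have hhB : h ∉ B := fun hh => hh.2 (Or.inr hhC)
          have hBo : ∀ b ∈ B, b ∈ U ∧ b ∉ M := fun b hb =>
            hBout b hb (fun hh => huB (hh ▸ hb)) (fun hh => hhB (hh ▸ hb))
          by_cases hB1 : 2 ≤ (B \ {m}).ncard
          · refine hsepXh (B \ {m}) {s, m} Set.sdiff_subset (fun b hb => ?_) ?_
              (ncard_pair_le' s m) hB1
            · exact ⟨(hBo b hb.1).1, (hBo b hb.1).2, fun hbN =>
                hb.1.2 (Or.inl (hothers b hbN hb.2))⟩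
            · intro x hxU hxM hxX hxB
              rcases hcov x hxU hxM with h2 | h2 | h2
              · exact absurd h2 hxX
              · exact Or.inl (hsC x h2 (fun hh => hxM (hh ▸ hs.uM)) (fun hh => hxM (hh ▸ hs.hM)))
              · right
                by_contra hxm
                exact hxB ⟨h2, hxm⟩
          · obtain ⟨z, hzB, hzm⟩ := exists_ne_of_two hB2 m
            have hBz : ∀ x ∈ B, x ≠ m → x = z := by
              intro x hx hxm
              by_contra hxz
              have h2 : ({x, z} : Set V) ⊆ B \ {m} := by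
                rintro y (rfl | hy)
                · exact ⟨hx, hxm⟩
                · rw [Set.mem_singleton_iff] at hy; rw [hy]; exact ⟨hzB, hzm⟩
              have h3 := Set.ncard_le_ncard h2 (Set.toFinite _)
              rw [Set.ncard_pair hxz] at h3
              omega
            have hzM := (hBo z hzB).2
            have hzN : z ∉ Nb G M := fun hh => hzB.2 (Or.inl (hothers z hh hzm))
            apply hr.not_small (a := m) (b := s) (hBo z hzB).1 hzM
            intro w hzw
            have hwM : w ∉ M := fun hh => not_adj_M hh hzM hzN hzw.symm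
            rcases hcov w (hr.pre.edge_mem w z hzw.symm) hwM with h2 | h2 | h2
            · exact absurd ((hs.adj_out hwM hzM).2 hzw.symm) (hnoXB' w h2 z hzB)
            · right
              exact hsC w h2 (fun hh => hwM (hh ▸ hs.uM)) (fun hh => hwM (hh ▸ hs.hM))
            · left
              by_contra hwm
              exact hzw.ne (hBz w h2 hwm).symm
        · by_cases hmC : m ∈ C
          · -- rest
            by_cases hB1 : 2 ≤ (B \ {h}).ncard
            · refine hsepXh (B \ {h}) (C \ {u}) Set.sdiff_subset (fun b hb => ?_) ?_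
                (ncard_eq_two_of_diff hC3 huC).le hB1
              · obtain ⟨h2, h3⟩ := hBout b hb.1 (fun hh => huB (hh ▸ hb.1)) hb.2
                refine ⟨h2, h3, fun hbN => ?_⟩
                by_cases hbm : b = m
                · exact hb.1.2 (Or.inr (hbm ▸ hmC))
                · exact hb.1.2 (Or.inl (hothers b hbN hbm))
              · intro x hxU hxM hxX hxB
                rcases hcov x hxU hxM with h2 | h2 | h2
                · exact absurd h2 hxX
                · exact ⟨h2, fun hh => hxM (hh ▸ hs.uM)⟩
                · exact absurd ⟨h2, fun hh => hxM (hh ▸ hs.hM)⟩ hxB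
            · obtain ⟨z, hzB, hzh⟩ := exists_ne_of_two hB2 h
              have hBz : ∀ x ∈ B, x ≠ h → x = z := by
                intro x hx hxm
                by_contra hxz
                have h2 : ({x, z} : Set V) ⊆ B \ {h} := by
                  rintro y (rfl | hy)
                  · exact ⟨hx, hxm⟩
                  · rw [Set.mem_singleton_iff] at hy; rw [hy]; exact ⟨hzB, hzh⟩
                have h3 := Set.ncard_le_ncard h2 (Set.toFinite _)
                rw [Set.ncard_pair hxz] at h3
                omega
              obtain ⟨hzU, hzM⟩ := hBout z hzB (fun hh => huB (hh ▸ hzB)) hzh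
              have hzN : z ∉ Nb G M := by
                intro hh
                by_cases hzm : z = m
                · exact hzB.2 (Or.inr (hzm ▸ hmC))
                · exact hzB.2 (Or.inl (hothers z hh hzm))
              obtain ⟨s, t, hst, hR⟩ := Set.ncard_eq_two.1 (ncard_eq_two_of_diff hC3 huC)
              apply hr.not_small (a := s) (b := t) hzU hzM
              intro w hzw
              have hwM : w ∉ M := fun hh => not_adj_M hh hzM hzN hzw.symm
              rcases hcov w (hr.pre.edge_mem w z hzw.symm) hwM with h2 | h2 | h2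
              · exact absurd ((hs.adj_out hwM hzM).2 hzw.symm) (hnoXB' w h2 z hzB)
              · have h3 : w ∈ C \ {u} := ⟨h2, fun hh => hwM (hh ▸ hs.uM)⟩
                rw [hR] at h3
                rcases h3 with h3 | h3
                · exact Or.inl h3
                · exact Or.inr h3
              · exact absurd (hBz w h2 (fun hh => hwM (hh ▸ hs.hM))) hzw.ne.symm
          · -- Xh is balanced
            obtain ⟨κ', hκ'⟩ := hs.extend hr hX hκ (D := {m})
              (fun x hx => by rw [Set.mem_singleton_iff] at hx; rw [hx]; exact ⟨hmX, hmC⟩) (by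
                intro n hn hnD
                have hnX := hothers n hn hnD
                apply hs.colour hκ hn (fun _ => Or.inr hnX)
                intro hnE
                have hhX : h ∈ X := by
                  rcases hnoXB n hnX h ((hs.adj_h).2 (Or.inr hnE)).symm with h2 | h2
                  · exact h2
                  · exact absurd h2 hhC
                exact ⟨Or.inr hhX, Or.inl hhX⟩)
            have h4 := hr.max Xh hMXh hXhU ?_ κ' hκ'
            · have h5 : Nb G Xh ⊆ insert m (C \ {u}) := by
                intro v hv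
                obtain ⟨h7, h8, h9 | h9⟩ := hNXh v hv
                · exact Or.inr ⟨h9, fun hh => h7 (hh ▸ hs.uM)⟩
                · left
                  by_contra hvm
                  exact h8 (hothers v h9 hvm)
              have h6 := Set.ncard_le_ncard h5 (Set.toFinite _)
              have h7 := Set.ncard_insert_le m (C \ {u})
              have h8 := ncard_eq_two_of_diff hC3 huC
              omega
            · intro hh
              have h5 : 0 < J.ncard := by omega
              obtain ⟨n, hn⟩ := (Set.ncard_pos (Set.toFinite _)).1 h5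
              have h6 : n ∈ Xh := Or.inl ⟨hn.1.1, hn.2.1⟩
              rw [hh] at h6
              exact hn.2.1 h6
    · by_cases hJ0 : J.Nonempty
      · -- exactly one boundary vertex
        obtain ⟨n, hn⟩ := hJ0
        have hJn : ∀ x ∈ Y, x ∈ Nb G M → x = n := by
          intro x hx hxN
          by_contra hne
          have h2 : ({x, n} : Set V) ⊆ J := by
            rintro y (rfl | hy)
            · exact ⟨hx, hxN⟩
            · rw [Set.mem_singleton_iff] at hy; rw [hy]; exact hn
          have h3 := Set.ncard_le_ncard h2 (Set.toFinite _)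
          rw [Set.ncard_pair hne] at h3
          omega
        have hnX : n ∈ X := hn.1.1
        by_cases hhX : h ∈ X
        · obtain ⟨hE, huC⟩ := hhu hhX
          have hXY : X = insert h Y := by
            rw [hYd, Set.insert_sdiff_singleton, Set.insert_eq_of_mem hhX]
          have hhY : h ∉ Y := fun hh => hh.2 rfl
          have hfX : fden G1 X = fden G1 Y + ((G1.neighborSet h \ Y).ncard : ℤ) - 2 := by
            conv_lhs => rw [hXY]
            exact fden_insert G1 hhY
          have hR2 := ncard_eq_two_of_diff hC3 huC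
          by_cases hnE : n ∈ E
          · -- E = {n}
            have hle := hs.one_step hr hYU hYM hκY hn.1 hn.2 hJn (q := h) (R := C \ {u}) hR2 hs.hM
              (fun hh => hCX h hh.1 hhX) (fun x hx hxY => hCX x hx.1 hxY.1) ?_
            · have h5 : (G1.neighborSet h \ Y).ncard ≤ 1 := by
                rw [← Set.ncard_singleton u]
                apply Set.ncard_le_ncard _ (Set.toFinite _)
                rintro y ⟨hy, hyY⟩
                rcases (hs.adj_h).1 hy with h6 | h6
                · exact h6.1
                · exact absurd ((hs.E_eq h6 hnE) ▸ hn.1) hyY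
              have h6 : beta κ1 (insert h (C \ {u})) ≤ 1 := by
                have h7 := beta_le κ1 (insert h (C \ {u}))
                have h8 := Set.ncard_insert_le h (C \ {u})
                have h9 : ((insert h (C \ {u})).ncard : ℤ) ≤ 3 := by
                  have : (insert h (C \ {u})).ncard ≤ 3 := by omega
                  exact_mod_cast this
                linarith
              have h7 : ((G1.neighborSet h \ Y).ncard : ℤ) ≤ 1 := by exact_mod_cast h5
              linarith
            · rintro v ⟨hv, x, hx, hxv⟩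
              by_cases hvh : v = h
              · exact Or.inl hvh
              · right
                have hvX : v ∉ X := fun hh => hv ⟨hh, hvh⟩
                refine ⟨⟨hvX, x, hx.1, hxv⟩, ?_⟩
                intro hvu
                rw [Set.mem_singleton_iff] at hvu
                subst hvu
                rcases (hs.adj_u).1 hxv.symm with h6 | h6
                · exact h6.2 ((hJn x hx h6.1) ▸ hnE)
                · exact hhY (h6.1 ▸ hx)
          · -- n ∉ E
            have hle := hs.one_step hr hYU hYM hκY hn.1 hn.2 hJn (q := u) (R := C \ {u}) hR2 hs.uM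
              (fun hh => hh.2 rfl) (fun x hx hxY => hCX x hx.1 hxY.1) ?_
            · have h4 : insert u (C \ {u}) = C := by
                rw [Set.insert_sdiff_singleton, Set.insert_eq_of_mem huC]
              rw [h4] at hle
              have h5 : (G1.neighborSet h \ Y).ncard ≤ 2 := by
                obtain ⟨m, hm⟩ := hE
                apply ncard_le_two_of (a := u) (b := m)
                rintro y ⟨hy, -⟩
                rcases (hs.adj_h).1 hy with h6 | h6
                · exact Or.inl h6.1
                · exact Or.inr (hs.E_eq h6 hm)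
              have h7 : ((G1.neighborSet h \ Y).ncard : ℤ) ≤ 2 := by exact_mod_cast h5
              linarith
            · rintro v ⟨hv, x, hx, hxv⟩
              rw [Set.insert_sdiff_singleton]
              right
              refine ⟨?_, x, hx.1, hxv⟩
              intro hvX
              have hvh : v = h := by
                by_contra hne
                exact hv ⟨hvX, hne⟩
              subst hvh
              rcases (hs.adj_h).1 hxv.symm with h6 | h6
              · exact huX (h6.1 ▸ hx.1)
              · exact hnE ((hJn x hx (hs.E_sub h6)) ▸ h6)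
        · have hXY : X = Y := by
            rw [hYd, Set.sdiff_singleton_eq_self hhX]
          obtain ⟨q, hq1, hq2, hq3, hq4⟩ := hs.link hn.2
          have hqM : q ∈ M := by
            rcases hq1 with h1 | h1
            · rw [h1]; exact hs.uM
            · rw [h1]; exact hs.hM
          have hqX : q ∉ X := by
            rcases hq1 with h1 | h1
            · rw [h1]; exact huX
            · rw [h1]; exact hhX
          have hqC : q ∈ C := ⟨hqX, n, hnX, hq4⟩
          have hle := hs.one_step hr hYU hYM hκY hn.1 hn.2 hJn (q := q) (R := C \ {q})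
            (ncard_eq_two_of_diff hC3 hqC) hqM (fun hh => hh.2 rfl)
            (fun x hx hxY => hCX x hx.1 hxY.1) ?_
          · rw [Set.insert_sdiff_singleton, Set.insert_eq_of_mem hqC] at hle
            rw [← hXY] at hle
            exact hle
          · rw [Set.insert_sdiff_singleton, Set.insert_eq_of_mem hqC, ← hXY]
      · -- no boundary vertex
        have hYN : Disjoint Y (Nb G M) := by
          rw [Set.disjoint_left]; exact fun x hx hxN => hJ0 ⟨x, hx, hxN⟩
        by_cases hhX : h ∈ X
        · exfalso
          obtain ⟨hE, huC⟩ := hhu hhX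
          obtain ⟨m, hm⟩ := hE
          have hmX : m ∉ X := by
            intro hmX
            exact hJ0 ⟨m, ⟨hmX, fun hh => (hs.E_notM hm) (hh ▸ hs.hM)⟩, hs.E_sub hm⟩
          obtain ⟨s, t, hst, hR⟩ := Set.ncard_eq_two.1 (ncard_eq_two_of_diff hC3 huC)
          have hNY : ∀ x ∈ Y, ∀ w, G.Adj x w → w ∈ Y ∨ w = s ∨ w = t := by
            intro x hx w hxw
            have hxM := (hYout x hx).2
            have hxN := (Set.disjoint_left.1 hYN) hx
            have hwM : w ∉ M := fun hh => not_adj_M hh hxM hxN hxw.symm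
            rcases hnoXB x hx.1 w ((hs.adj_out hxM hwM).2 hxw) with h1 | h1
            · exact Or.inl ⟨h1, fun hh => hwM (hh ▸ hs.hM)⟩
            · have h2 : w ∈ C \ {u} := ⟨h1, fun hh => hwM (hh ▸ hs.uM)⟩
              rw [hR] at h2
              rcases h2 with h2 | h2
              · exact Or.inr (Or.inl h2)
              · exact Or.inr (Or.inr h2)
          have h1 : Y.ncard ≤ 1 := by
            apply hr.sepM (C := {s, t}) hYU hYM hYN _ (ncard_pair_le' s t)
            rintro v ⟨hv, x, hx, hxv⟩
            rcases hNY x hx v hxv with h2 | h2 | h2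
            · exact absurd h2 hv
            · exact Or.inl h2
            · exact Or.inr h2
          obtain ⟨z, hzX, hzh⟩ := exists_ne_of_two hX2 h
          have hzY : z ∈ Y := ⟨hzX, hzh⟩
          apply hr.not_small (a := s) (b := t) (hYU hzY) ((Set.disjoint_left.1 hYM) hzY)
          intro w hzw
          rcases hNY z hzY w hzw with h3 | h3 | h3
          · exfalso
            have h4 : ({z, w} : Set V) ⊆ Y := by
              rintro y (rfl | hy)
              · exact hzY
              · rw [Set.mem_singleton_iff] at hy; rw [hy]; exact h3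
            have h5 := Set.ncard_le_ncard h4 (Set.toFinite _)
            rw [Set.ncard_pair hzw.ne] at h5
            omega
          · exact Or.inl h3
          · exact Or.inr h3
        · have hXY : X = Y := by
            rw [hYd, Set.sdiff_singleton_eq_self hhX]
          obtain ⟨e1, e2⟩ := hs.away_eq hYM hYN
          have hC' : C = Nb G Y := by rw [hCd, hXY]; exact e1
          have hf' : fden G1 X = fden G Y := by rw [hXY]; exact e2
          rw [hf', hC']
          apply hr.away Y hYU (by rw [← hXY]; exact hX2) hYM hYN (by rw [← hC']; exact hC3)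
          intro x y hx hxy
          have hxM := (Set.disjoint_left.1 hYM) hx
          have hyM : y ∉ M := fun hyM => (Set.disjoint_left.1 hYN) hx ⟨hxM, y, hyM, hxy.symm⟩
          exact hκY x y hx ((hs.adj_out hxM hyM).2 hxy)

end star

end Pool.Agent.Helper82.TK
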