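import Pool.Agent.Helper82.TK.RepDef

/-!
# The star graph: `M` is replaced by `u` (and a handle `h` for the even boundary vertex)
-/

set_option autoImplicit false

namespace Pool.Agent.Helper82.TK

open SimpleGraph Pool.Agent.Helper57.TOK Pool.Agent.Helper57.TD

variable {V : Type*}

/-- Delete `M` except `u` and the handle `h`; join `u` to `Nb G M \ E`, and `u - h - E`. -/
def starG (G : SimpleGraph V) (M E : Set V) (u h : V) : SimpleGraph V where
  Adj x y := x ≠ y ∧ ((x ∉ M ∧ y ∉ M ∧ G.Adj x y) ∨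
    (x = u ∧ ((y ∈ Nb G M ∧ y ∉ E) ∨ (y = h ∧ E.Nonempty))) ∨
    (y = u ∧ ((x ∈ Nb G M ∧ x ∉ E) ∨ (x = h ∧ E.Nonempty))) ∨
    (x = h ∧ y ∈ E) ∨ (y = h ∧ x ∈ E))
  symm := ⟨by
    rintro x y ⟨h1, h2⟩
    refine ⟨h1.symm, ?_⟩
    rcases h2 with h2 | h2 | h2 | h2 | h2
    · exact Or.inl ⟨h2.2.1, h2.1, h2.2.2.symm⟩
    · exact Or.inr (Or.inr (Or.inl h2))
    · exact Or.inr (Or.inl h2)
    · exact Or.inr (Or.inr (Or.inr (Or.inr h2)))
    · exact Or.inr (Or.inr (Or.inr (Or.inl h2)))⟩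
  loopless := ⟨fun _ h => h.1 rfl⟩

/-- Vertex set of the star graph. -/
def starU (U M E : Set V) (u h : V) : Set V := {x | (x ∈ U ∧ x ∉ M) ∨ x = u ∨ (x = h ∧ E.Nonempty)}

/-- Position of the star. -/
structure StarHyp (G : SimpleGraph V) (U M : Set V) (κ : V → ZMod 2) (E : Set V) (u h : V) :
    Prop where
  uM : u ∈ M
  hM : h ∈ M
  hu : h ≠ u
  E_def : E = {z | z ∈ Nb G M ∧ κ z = κ u}
  E1 : E.ncard ≤ 1

section star

variable {G : SimpleGraph V} {U M E : Set V} {κ : V → ZMod 2} {r u h : V}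

lemma StarHyp.E_sub (hs : StarHyp G U M κ E u h) : E ⊆ Nb G M := by
  rw [hs.E_def]; exact fun x hx => hx.1

lemma StarHyp.E_notM (hs : StarHyp G U M κ E u h) {x : V} (hx : x ∈ E) : x ∉ M :=
  (hs.E_sub hx).1

lemma StarHyp.E_eq [Finite V] (hs : StarHyp G U M κ E u h) {x y : V} (hx : x ∈ E) (hy : y ∈ E) :
    x = y := by
  by_contra hne
  have h1 : ({x, y} : Set V) ⊆ E := by
    rintro z (rfl | hz)
    · exact hx
    · rw [Set.mem_singleton_iff] at hz; rw [hz]; exact hy
  have h2 := Set.ncard_le_ncard h1 (Set.toFinite _)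
  rw [Set.ncard_pair hne] at h2
  have := hs.E1
  omega

lemma StarHyp.adj_out (hs : StarHyp G U M κ E u h) {x y : V} (hx : x ∉ M) (hy : y ∉ M) :
    (starG G M E u h).Adj x y ↔ G.Adj x y := by
  constructor
  · rintro ⟨h1, h2 | h2 | h2 | h2 | h2⟩
    · exact h2.2.2
    · exact absurd (h2.1 ▸ hs.uM) hx
    · exact absurd (h2.1 ▸ hs.uM) hy
    · exact absurd (h2.1 ▸ hs.hM) hx
    · exact absurd (h2.1 ▸ hs.hM) hy
  · intro h1
    exact ⟨h1.ne, Or.inl ⟨hx, hy, h1⟩⟩

lemma StarHyp.adj_u (hs : StarHyp G U M κ E u h) {y : V} :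
    (starG G M E u h).Adj u y ↔ (y ∈ Nb G M ∧ y ∉ E) ∨ (y = h ∧ E.Nonempty) := by
  constructor
  · rintro ⟨h1, h2 | h2 | h2 | h2 | h2⟩
    · exact absurd hs.uM h2.1
    · exact h2.2
    · exact absurd h2.1.symm h1
    · exact absurd h2.1.symm hs.hu
    · exact absurd hs.uM (hs.E_notM h2.2)
  · intro h1
    refine ⟨?_, Or.inr (Or.inl ⟨rfl, h1⟩)⟩
    rcases h1 with h1 | h1
    · intro hh; exact h1.1.1 (hh ▸ hs.uM)
    · rw [h1.1]; exact hs.hu.symm

lemma StarHyp.adj_h (hs : StarHyp G U M κ E u h) {y : V} :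
    (starG G M E u h).Adj h y ↔ (y = u ∧ E.Nonempty) ∨ y ∈ E := by
  constructor
  · rintro ⟨h1, h2 | h2 | h2 | h2 | h2⟩
    · exact absurd hs.hM h2.1
    · exact absurd h2.1 hs.hu
    · rcases h2.2 with h3 | h3
      · exact absurd hs.hM h3.1.1
      · exact Or.inl ⟨h2.1, h3.2⟩
    · exact Or.inr h2.2
    · exact absurd h2.1.symm h1
  · rintro (h1 | h1)
    · exact ⟨fun hh => hs.hu (hh.trans h1.1), Or.inr (Or.inr (Or.inl ⟨h1.1, Or.inr ⟨rfl, h1.2⟩⟩))⟩
    · exact ⟨fun hh => hs.E_notM h1 (hh ▸ hs.hM), Or.inr (Or.inr (Or.inr (Or.inl ⟨rfl, h1⟩)))⟩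

lemma StarHyp.no_other (hs : StarHyp G U M κ E u h) {x y : V} (hx : x ∈ M) (hxu : x ≠ u)
    (hxh : x ≠ h) : ¬ (starG G M E u h).Adj x y := by
  rintro ⟨h1, h2 | h2 | h2 | h2 | h2⟩
  · exact h2.1 hx
  · exact hxu h2.1
  · rcases h2.2 with h3 | h3
    · exact h3.1.1 hx
    · exact hxh h3.1
  · exact hxh h2.1
  · exact hs.E_notM h2.2 hx

lemma mem_starU {x : V} : x ∈ starU U M E u h ↔
    (x ∈ U ∧ x ∉ M) ∨ x = u ∨ (x = h ∧ E.Nonempty) := Iff.rfl

lemma StarHyp.mem_out (_ : StarHyp G U M κ E u h) {x : V} (hx : x ∈ starU U M E u h)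
    (hxu : x ≠ u) (hxh : x ≠ h) : x ∈ U ∧ x ∉ M := by
  rcases hx with h1 | h1 | h1
  · exact h1
  · exact absurd h1 hxu
  · exact absurd h1.1 hxh

lemma StarHyp.starU_sub (hs : StarHyp G U M κ E u h) (hM : M ⊆ U) : starU U M E u h ⊆ U := by
  rintro x (h1 | h1 | h1)
  · exact h1.1
  · rw [h1]; exact hM hs.uM
  · rw [h1.1]; exact hM hs.hM

lemma StarHyp.star_edge_mem (hs : StarHyp G U M κ E u h) (hr : RepHyp G U M κ r) (x y : V)
    (hxy : (starG G M E u h).Adj x y) : x ∈ starU U M E u h := by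
  by_cases hxM : x ∈ M
  · by_cases hxu : x = u
    · exact Or.inr (Or.inl hxu)
    by_cases hxh : x = h
    · subst hxh
      right; right
      refine ⟨rfl, ?_⟩
      rcases (hs.adj_h).1 hxy with h1 | h1
      · exact h1.2
      · exact ⟨y, h1⟩
    · exact absurd hxy (hs.no_other hxM hxu hxh)
  · left
    refine ⟨?_, hxM⟩
    obtain ⟨h1, h2 | h2 | h2 | h2 | h2⟩ := hxy
    · exact hr.pre.edge_mem _ _ h2.2.2
    · exact absurd (h2.1 ▸ hs.uM) hxM
    · rcases h2.2 with h3 | h3
      · exact hr.pre.Nb_sub M h3.1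
      · exact absurd (h3.1 ▸ hs.hM) hxM
    · exact absurd (h2.1 ▸ hs.hM) hxM
    · exact hr.pre.Nb_sub M (hs.E_sub h2.2)

lemma StarHyp.S_E [Finite V] (hs : StarHyp G U M κ E u h) (hr : RepHyp G U M κ r) :
    (Nb G M \ E).ncard + E.ncard = 3 := by
  have := Set.ncard_sdiff_add_ncard_of_subset hs.E_sub (Set.toFinite _)
  rw [hr.three] at this
  exact this

lemma StarHyp.nbr_u [Finite V] (hs : StarHyp G U M κ E u h) (hr : RepHyp G U M κ r) :
    ((starG G M E u h).neighborSet u).ncard = 3 := by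
  classical
  have hSE := hs.S_E hr
  by_cases hE : E.Nonempty
  · have h1 : (starG G M E u h).neighborSet u = insert h (Nb G M \ E) := by
      ext y
      rw [SimpleGraph.mem_neighborSet, hs.adj_u]
      constructor
      · rintro (h2 | h2)
        · exact Or.inr h2
        · exact Or.inl h2.1
      · rintro (h2 | h2)
        · exact Or.inr ⟨h2, hE⟩
        · exact Or.inl h2
    have h2 : h ∉ Nb G M \ E := fun hh => hh.1.1 hs.hM
    have h3 : 0 < E.ncard := (Set.ncard_pos (Set.toFinite _)).2 hE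
    have := hs.E1
    rw [h1, Set.ncard_insert_of_notMem h2 (Set.toFinite _)]
    omega
  · have h1 : (starG G M E u h).neighborSet u = Nb G M \ E := by
      ext y
      rw [SimpleGraph.mem_neighborSet, hs.adj_u]
      constructor
      · rintro (h2 | h2)
        · exact h2
        · exact absurd h2.2 hE
      · intro h2; exact Or.inl h2
    rw [Set.not_nonempty_iff_eq_empty] at hE
    rw [h1]
    rw [hE, Set.ncard_empty] at hSE
    rw [hE]; omega

lemma StarHyp.star_deg2 [Finite V] (hs : StarHyp G U M κ E u h) (hr : RepHyp G U M κ r) (y : V)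
    (hy : y ∈ starU U M E u h) : 2 ≤ ((starG G M E u h).neighborSet y).ncard := by
  classical
  by_cases hyu : y = u
  · subst hyu; rw [hs.nbr_u hr]; norm_num
  by_cases hyh : y = h
  · subst hyh
    rcases hy with h1 | h1 | h1
    · exact absurd hs.hM h1.2
    · exact absurd h1 hyu
    · obtain ⟨n, hn⟩ := h1.2
      have h2 : ({u, n} : Set V) ⊆ (starG G M E u y).neighborSet y := by
        rintro z (rfl | hz)
        · exact (hs.adj_h).2 (Or.inl ⟨rfl, h1.2⟩)
        · rw [Set.mem_singleton_iff] at hz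
          rw [hz]; exact (hs.adj_h).2 (Or.inr hn)
      have h3 := Set.ncard_le_ncard h2 (Set.toFinite _)
      have h4 : u ≠ n := fun hh => hs.E_notM hn (hh ▸ hs.uM)
      rw [Set.ncard_pair h4] at h3
      exact h3
  · obtain ⟨hyU, hyM⟩ := hs.mem_out hy hyu hyh
    by_cases hyN : y ∈ Nb G M
    · refine (hr.out2 hyN).trans (Set.ncard_le_ncard ?_ (Set.toFinite _))
      rintro z ⟨hz, hzM⟩
      exact (hs.adj_out hyM hzM).2 hz
    · have h1 := hr.deg3 y hyU (fun hh => hyM (hh ▸ hr.rM))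
      have h2 : G.neighborSet y ⊆ (starG G M E u h).neighborSet y := by
        intro z hz
        have hz' : G.Adj y z := hz
        have hzM : z ∉ M := fun hzM => not_adj_M hzM hyM hyN hz'.symm
        exact (hs.adj_out hyM hzM).2 hz'
      have h3 := Set.ncard_le_ncard h2 (Set.toFinite _)
      omega

/-- index -/
lemma StarHyp.star_index [Finite V] (hs : StarHyp G U M κ E u h) (hr : RepHyp G U M κ r) (w : V)
    (κ1 : V → ZMod 2) (hκ : ∀ x y, x ≠ w → y ≠ w → (starG G M E u h).Adj x y → κ1 x ≠ κ1 y) :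
    False := by
  classical
  by_cases hw : w ∈ M
  · -- `κ1` is proper outside `M`
    have hout : ∀ x y, x ∉ M → y ∉ M → G.Adj x y → κ1 x ≠ κ1 y := fun x y hx hy hxy =>
      hκ x y (fun hh => hx (hh ▸ hw)) (fun hh => hy (hh ▸ hw)) ((hs.adj_out hx hy).2 hxy)
    -- one of the two classes has at most one element
    have hsum : {z | z ∈ Nb G M ∧ κ1 z = κ z}.ncard + {z | z ∈ Nb G M ∧ κ1 z ≠ κ z}.ncard = 3 := by
      rw [← hr.three, ← Set.ncard_union_eq _ (Set.toFinite _) (Set.toFinite _)]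
      · congr 1
        ext z
        simp only [Set.mem_union, Set.mem_ofPred_eq]
        by_cases hz : κ1 z = κ z <;> simp [hz]
      · rw [Set.disjoint_left]
        rintro z ⟨-, h1⟩ ⟨-, h2⟩
        exact h2 h1
    have hfin : ∀ (δ : ZMod 2) (n : V), (∀ z ∈ Nb G M, z ≠ n → κ1 z = κ z + δ) → False := by
      intro δ n hn
      apply hr.pre.index2 n (fun v => if v ∈ M then κ v + δ else κ1 v)
      intro x y hx hy hxy
      by_cases hxM : x ∈ M <;> by_cases hyM : y ∈ M
      · simp only [hxM, hyM, if_true]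
        intro hh
        exact hr.bal x y hxM hxy (add_right_cancel hh)
      · simp only [hxM, hyM, if_true, if_false]
        rw [hn y ⟨hyM, x, hxM, hxy⟩ hy]
        intro hh
        exact hr.bal x y hxM hxy (add_right_cancel hh)
      · simp only [hxM, hyM, if_true, if_false]
        rw [hn x ⟨hxM, y, hyM, hxy.symm⟩ hx]
        intro hh
        exact hr.bal y x hyM hxy.symm (add_right_cancel hh).symm
      · simp only [hxM, hyM, if_false]
        exact hout x y hxM hyM hxy
    have hone : ∀ A : Set V, A.ncard ≤ 1 → ∃ n, ∀ z ∈ A, z = n := by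
      intro A hA
      by_cases hAe : A.Nonempty
      · obtain ⟨n, hn⟩ := hAe
        refine ⟨n, fun z hz => ?_⟩
        by_contra hzn
        have h1 : ({z, n} : Set V) ⊆ A := by
          rintro y (rfl | hy)
          · exact hz
          · rw [Set.mem_singleton_iff] at hy; rw [hy]; exact hn
        have h2 := Set.ncard_le_ncard h1 (Set.toFinite _)
        rw [Set.ncard_pair hzn] at h2
        omega
      · exact ⟨u, fun z hz => absurd ⟨z, hz⟩ hAe⟩
    by_cases hcase : {z | z ∈ Nb G M ∧ κ1 z = κ z}.ncard ≤ 1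
    · obtain ⟨n, hn⟩ := hone _ hcase
      apply hfin 1 n
      intro z hz hzn
      by_contra hne
      apply hzn
      apply hn z
      refine ⟨hz, ?_⟩
      generalize κ1 z = a at hne
      generalize κ z = b at hne
      revert a b; decide
    · obtain ⟨n, hn⟩ := hone {z | z ∈ Nb G M ∧ κ1 z ≠ κ z} (by omega)
      apply hfin 0 n
      intro z hz hzn
      by_contra hne
      rw [add_zero] at hne
      exact hzn (hn z ⟨hz, hne⟩)
  · -- `w` outside `M`
    have huw : u ≠ w := fun hh => hw (hh ▸ hs.uM)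
    have hhw : h ≠ w := fun hh => hw (hh ▸ hs.hM)
    have hN : ∀ z ∈ Nb G M, z ≠ w → κ1 z = κ z + (κ1 u + κ u) := by
      intro z hz hzw
      by_cases hzE : z ∈ E
      · have h1 := hκ u h huw hhw ((hs.adj_u).2 (Or.inr ⟨rfl, ⟨z, hzE⟩⟩))
        have h2 := hκ h z hhw hzw ((hs.adj_h).2 (Or.inr hzE))
        have h3 : κ z = κ u := by
          have := hzE
          rw [hs.E_def] at this
          exact this.2
        rw [h3]
        clear h3
        generalize κ1 u = a at *
        generalize κ1 h = b at *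
        generalize κ1 z = c at *
        generalize κ u = d at *
        revert a b c d; decide
      · have h1 := hκ u z huw hzw ((hs.adj_u).2 (Or.inl ⟨hz, hzE⟩))
        have h3 : κ z ≠ κ u := by
          intro hh
          apply hzE
          rw [hs.E_def]
          exact ⟨hz, hh⟩
        generalize κ1 u = a at *
        generalize κ1 z = c at *
        generalize κ u = d at *
        generalize κ z = e at *
        revert a c d e; decide
    apply hr.pre.index2 w (fun v => if v ∈ M then κ v + (κ1 u + κ u) else κ1 v)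
    intro x y hx hy hxy
    by_cases hxM : x ∈ M <;> by_cases hyM : y ∈ M
    · simp only [hxM, hyM, if_true]
      intro hh
      exact hr.bal x y hxM hxy (add_right_cancel hh)
    · simp only [hxM, hyM, if_true, if_false]
      rw [hN y ⟨hyM, x, hxM, hxy⟩ hy]
      intro hh
      exact hr.bal x y hxM hxy (add_right_cancel hh)
    · simp only [hxM, hyM, if_true, if_false]
      rw [hN x ⟨hxM, y, hyM, hxy.symm⟩ hx]
      intro hh
      exact hr.bal y x hyM hxy.symm (add_right_cancel hh).symm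
    · simp only [hxM, hyM, if_false]
      exact hκ x y hx hy ((hs.adj_out hxM hyM).2 hxy)

/-- Connectivity, separation form, `u` on one side. -/
lemma StarHyp.sep_u [Finite V] (hs : StarHyp G U M κ E u h) (hr : RepHyp G U M κ r)
    {A B : Set V} (hA : A ⊆ starU U M E u h) (hB : B ⊆ starU U M E u h) (hAB : Disjoint A B)
    (hno : ∀ a ∈ A, ∀ b ∈ B, ¬ (starG G M E u h).Adj a b)
    (hC : (starU U M E u h \ (A ∪ B)).ncard ≤ 2) (hB2 : 2 ≤ B.ncard) (huA : u ∈ A) : False := by
  classical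
  have hAB' := Set.disjoint_left.1 hAB
  set C := starU U M E u h \ (A ∪ B) with hCd
  have huB : u ∉ B := hAB' huA
  have hhB : h ∉ B := by
    intro hh
    have h1 : E.Nonempty := by
      rcases hB hh with h2 | h2 | h2
      · exact absurd hs.hM h2.2
      · exact absurd h2 hs.hu
      · exact h2.2
    exact hno u huA h hh ((hs.adj_u).2 (Or.inr ⟨rfl, h1⟩))
  have hBout : ∀ b ∈ B, b ∈ U ∧ b ∉ M := fun b hb =>
    hs.mem_out (hB hb) (fun hh => huB (hh ▸ hb)) (fun hh => hhB (hh ▸ hb))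
  have hBE : ∀ b ∈ B, b ∈ Nb G M → b ∈ E := by
    intro b hb hbN
    by_contra hbE
    exact hno u huA b hb ((hs.adj_u).2 (Or.inl ⟨hbN, hbE⟩))
  set A' : Set V := {x | x ∈ A ∧ x ∉ M} ∪ M with hA'
  have hA'U : A' ⊆ U := by
    rintro x (⟨h1, h2⟩ | h1)
    · exact hs.starU_sub hr.hM (hA h1)
    · exact hr.hM h1
  have hA'2 : 2 ≤ A'.ncard := hr.two.trans (Set.ncard_le_ncard Set.subset_union_right (Set.toFinite _))
  -- vertices of U
  have hcov : ∀ x ∈ U, x ∉ M → x ∈ A ∨ x ∈ B ∨ x ∈ C := by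
    intro x hxU hxM
    by_cases h1 : x ∈ A
    · exact Or.inl h1
    by_cases h2 : x ∈ B
    · exact Or.inr (Or.inl h2)
    · exact Or.inr (Or.inr ⟨Or.inl ⟨hxU, hxM⟩, fun h3 => h3.elim h1 h2⟩)
  by_cases hBE' : ∃ n ∈ B, n ∈ E
  · obtain ⟨n, hnB, hnE⟩ := hBE'
    -- the handle is in the separator
    have hhU : h ∈ starU U M E u h := Or.inr (Or.inr ⟨rfl, ⟨n, hnE⟩⟩)
    have hhA : h ∉ A := fun hh => hno h hh n hnB ((hs.adj_h).2 (Or.inr hnE))
    have hhC : h ∈ C := ⟨hhU, fun h3 => h3.elim hhA hhB⟩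
    have hC1 : (C \ {h}).ncard ≤ 1 := by
      have := Set.ncard_sdiff_singleton_add_one hhC (Set.toFinite _)
      omega
    obtain ⟨z, hzB, hzn⟩ := exists_ne_of_two hB2 n
    by_cases hB1 : 2 ≤ (B \ {n}).ncard
    · -- separation of `G`
      refine hr.pre.sep (A := A') (B := B \ {n}) (C := insert n (C \ {h})) hA'U
        (fun x hx => (hBout x hx.1).1) ?_ ?_ ?_ ?_ hA'2 hB1
      · rw [Set.disjoint_left]
        rintro x (hx | hx) hxB
        · exact hAB' hx.1 hxB.1
        · exact (hBout x hxB.1).2 hx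
      · rintro a (ha | ha) b hb hab
        · exact hno a ha.1 b hb.1 ((hs.adj_out ha.2 (hBout b hb.1).2).2 hab)
        · have hbN : b ∈ Nb G M := ⟨(hBout b hb.1).2, a, ha, hab⟩
          exact hb.2 (hs.E_eq (hBE b hb.1 hbN) hnE)
      · intro x hxU hxA hxB
        have hxM : x ∉ M := fun hh => hxA (Or.inr hh)
        rcases hcov x hxU hxM with h1 | h1 | h1
        · exact absurd (Or.inl ⟨h1, hxM⟩) hxA
        · by_cases hxn : x = n
          · exact Or.inl hxn
          · exact absurd ⟨h1, hxn⟩ hxB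
        · exact Or.inr ⟨h1, fun hh => hxM (hh ▸ hs.hM)⟩
      · have := Set.ncard_insert_le n (C \ {h})
        omega
    · -- `B = {n, z}`
      have hBz : ∀ x ∈ B, x ≠ n → x = z := by
        intro x hx hxn
        by_contra hxz
        have h1 : ({x, z} : Set V) ⊆ B \ {n} := by
          rintro y (rfl | hy)
          · exact ⟨hx, hxn⟩
          · rw [Set.mem_singleton_iff] at hy; rw [hy]; exact ⟨hzB, hzn⟩
        have h2 := Set.ncard_le_ncard h1 (Set.toFinite _)
        rw [Set.ncard_pair hxz] at h2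
        omega
      have hzM := (hBout z hzB).2
      have hzN : z ∉ Nb G M := fun hh => hzn (hs.E_eq (hBE z hzB hh) hnE)
      -- element of C minus h
      obtain ⟨s, hsC⟩ : ∃ s, ∀ x ∈ C \ {h}, x = s := by
        by_cases hne : (C \ {h}).Nonempty
        · obtain ⟨s, hs'⟩ := hne
          refine ⟨s, fun x hx => ?_⟩
          by_contra hxs
          have h1 : ({x, s} : Set V) ⊆ C \ {h} := by
            rintro y (rfl | hy)
            · exact hx
            · rw [Set.mem_singleton_iff] at hy; rw [hy]; exact hs'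
          have h2 := Set.ncard_le_ncard h1 (Set.toFinite _)
          rw [Set.ncard_pair hxs] at h2
          omega
        · exact ⟨n, fun x hx => absurd ⟨x, hx⟩ hne⟩
      apply hr.not_small (a := n) (b := s) (hBout z hzB).1 hzM
      intro w hzw
      have hwM : w ∉ M := fun hh => not_adj_M hh hzM hzN hzw.symm
      rcases hcov w (hr.pre.edge_mem w z hzw.symm) hwM with h1 | h1 | h1
      · exact absurd ((hs.adj_out hwM hzM).2 hzw.symm) (hno w h1 z hzB)
      · left
        by_contra hwn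
        exact hzw.ne (hBz w h1 hwn).symm
      · right
        exact hsC w ⟨h1, fun hh => hwM (hh ▸ hs.hM)⟩
  · push Not at hBE'
    have hBN : ∀ b ∈ B, b ∉ Nb G M := fun b hb hbN => hBE' b hb (hBE b hb hbN)
    refine hr.pre.sep (A := A') (B := B) (C := C) hA'U (fun x hx => (hBout x hx).1) ?_ ?_ ?_ hC
      hA'2 hB2
    · rw [Set.disjoint_left]
      rintro x (hx | hx) hxB
      · exact hAB' hx.1 hxB
      · exact (hBout x hxB).2 hx
    · rintro a (ha | ha) b hb hab
      · exact hno a ha.1 b hb ((hs.adj_out ha.2 (hBout b hb).2).2 hab)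
      · exact hBN b hb ⟨(hBout b hb).2, a, ha, hab⟩
    · intro x hxU hxA hxB
      have hxM : x ∉ M := fun hh => hxA (Or.inr hh)
      rcases hcov x hxU hxM with h1 | h1 | h1
      · exact absurd (Or.inl ⟨h1, hxM⟩) hxA
      · exact absurd h1 hxB
      · exact h1

/-- Connectivity, `u` in the separator and at most one boundary vertex on the side `A`. -/
lemma StarHyp.sep_c [Finite V] (hs : StarHyp G U M κ E u h) (hr : RepHyp G U M κ r)
    {A B : Set V} (hA : A ⊆ starU U M E u h) (hAB : Disjoint A B)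
    (hno : ∀ a ∈ A, ∀ b ∈ B, ¬ (starG G M E u h).Adj a b)
    (hC : (starU U M E u h \ (A ∪ B)).ncard ≤ 2) (hA2 : 2 ≤ A.ncard) (huA : u ∉ A)
    (huB : u ∉ B) (hJ : (A ∩ Nb G M).ncard ≤ 1) : False := by
  classical
  set C := starU U M E u h \ (A ∪ B) with hCd
  have huC : u ∈ C := ⟨Or.inr (Or.inl rfl), fun h3 => h3.elim huA huB⟩
  obtain ⟨s, hsC⟩ : ∃ s, ∀ x ∈ C \ {u}, x = s := by
    have hC1 : (C \ {u}).ncard ≤ 1 := by
      have := Set.ncard_sdiff_singleton_add_one huC (Set.toFinite _)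
      omega
    by_cases hne : (C \ {u}).Nonempty
    · obtain ⟨s, hs'⟩ := hne
      refine ⟨s, fun x hx => ?_⟩
      by_contra hxs
      have h1 : ({x, s} : Set V) ⊆ C \ {u} := by
        rintro y (rfl | hy)
        · exact hx
        · rw [Set.mem_singleton_iff] at hy; rw [hy]; exact hs'
      have h2 := Set.ncard_le_ncard h1 (Set.toFinite _)
      rw [Set.ncard_pair hxs] at h2
      omega
    · exact ⟨u, fun x hx => absurd ⟨x, hx⟩ hne⟩
  have hcov : ∀ x ∈ U, x ∉ M → x ∈ A ∨ x ∈ B ∨ x = s := by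
    intro x hxU hxM
    by_cases h1 : x ∈ A
    · exact Or.inl h1
    by_cases h2 : x ∈ B
    · exact Or.inr (Or.inl h2)
    · right; right
      exact hsC x ⟨⟨Or.inl ⟨hxU, hxM⟩, fun h3 => h3.elim h1 h2⟩, fun hh => hxM (hh ▸ hs.uM)⟩
  have hAout : ∀ a ∈ A, a ≠ h → a ∈ U ∧ a ∉ M := fun a ha hah =>
    hs.mem_out (hA ha) (fun hh => huA (hh ▸ ha)) hah
  obtain ⟨n, hn⟩ : ∃ n, ∀ x ∈ A ∩ Nb G M, x = n := by
    by_cases hne : (A ∩ Nb G M).Nonempty
    · obtain ⟨n, hn'⟩ := hne
      refine ⟨n, fun x hx => ?_⟩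
      by_contra hxs
      have h1 : ({x, n} : Set V) ⊆ A ∩ Nb G M := by
        rintro y (rfl | hy)
        · exact hx
        · rw [Set.mem_singleton_iff] at hy; rw [hy]; exact hn'
      have h2 := Set.ncard_le_ncard h1 (Set.toFinite _)
      rw [Set.ncard_pair hxs] at h2
      omega
    · exact ⟨u, fun x hx => absurd ⟨x, hx⟩ hne⟩
  -- the part of A away from the boundary
  set A1 : Set V := {x | x ∈ A ∧ x ≠ h ∧ x ≠ n} with hA1
  have hA1U : A1 ⊆ U := fun x hx => (hAout x hx.1 hx.2.1).1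
  have hA1M : Disjoint A1 M := by
    rw [Set.disjoint_left]; exact fun x hx => (hAout x hx.1 hx.2.1).2
  have hA1N : Disjoint A1 (Nb G M) := by
    rw [Set.disjoint_left]; exact fun x hx hxN => hx.2.2 (hn x ⟨hx.1, hxN⟩)
  have hNA1 : ∀ x ∈ A1, ∀ w, G.Adj x w → w ∈ A1 ∨ w = n ∨ w = s := by
    intro x hx w hxw
    have hxM := (hAout x hx.1 hx.2.1).2
    have hxN : x ∉ Nb G M := (Set.disjoint_left.1 hA1N) hx
    have hwM : w ∉ M := fun hh => not_adj_M hh hxM hxN hxw.symm
    rcases hcov w (hr.pre.edge_mem w x hxw.symm) hwM with h1 | h1 | h1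
    · by_cases hwn : w = n
      · exact Or.inr (Or.inl hwn)
      · exact Or.inl ⟨h1, fun hh => hwM (hh ▸ hs.hM), hwn⟩
    · exact absurd ((hs.adj_out hxM hwM).2 hxw) (hno x hx.1 w h1)
    · exact Or.inr (Or.inr h1)
  have h1 : A1.ncard ≤ 1 := by
    apply hr.sepM (C := {n, s}) hA1U hA1M hA1N _ (ncard_pair_le' n s)
    rintro v ⟨hv, x, hx, hxv⟩
    rcases hNA1 x hx v hxv with h2 | h2 | h2
    · exact absurd h2 hv
    · exact Or.inl h2
    · exact Or.inr h2
  have h2 : A1 = ∅ := by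
    rw [← Set.not_nonempty_iff_eq_empty]
    rintro ⟨z, hz⟩
    apply hr.not_small (a := n) (b := s) (hA1U hz) ((Set.disjoint_left.1 hA1M) hz)
    intro w hzw
    rcases hNA1 z hz w hzw with h3 | h3 | h3
    · exfalso
      have h4 : ({z, w} : Set V) ⊆ A1 := by
        rintro y (rfl | hy)
        · exact hz
        · rw [Set.mem_singleton_iff] at hy; rw [hy]; exact h3
      have h5 := Set.ncard_le_ncard h4 (Set.toFinite _)
      rw [Set.ncard_pair hzw.ne] at h5
      omega
    · exact Or.inl h3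
    · exact Or.inr h3
  -- so `A = {n, h}`
  have hAsub : ∀ x ∈ A, x = h ∨ x = n := by
    intro x hx
    by_contra hcon
    push Not at hcon
    have : x ∈ A1 := ⟨hx, hcon⟩
    rw [h2] at this; exact this
  have hnA : n ∈ A ∧ n ≠ h := by
    obtain ⟨x, hx, hxh⟩ := exists_ne_of_two hA2 h
    rcases hAsub x hx with h3 | h3
    · exact absurd h3 hxh
    · rw [← h3]; exact ⟨hx, hxh⟩
  have hnout := hAout n hnA.1 hnA.2
  -- n is a boundary vertex
  by_cases hnN : n ∈ Nb G M
  · have h3 := hr.out2 hnN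
    have h4 : G.neighborSet n \ M ⊆ {s} := by
      rintro w ⟨hw, hwM⟩
      have hw' : G.Adj n w := hw
      rcases hcov w (hr.pre.edge_mem w n hw'.symm) hwM with h5 | h5 | h5
      · exfalso
        rcases hAsub w h5 with h6 | h6
        · exact hwM (h6 ▸ hs.hM)
        · exact (G.ne_of_adj hw) h6.symm
      · exact absurd ((hs.adj_out hnout.2 hwM).2 hw) (hno n hnA.1 w h5)
      · exact h5
    have h5 := Set.ncard_le_ncard h4 (Set.toFinite _)
    rw [Set.ncard_singleton] at h5
    omega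
  · apply hr.not_small (a := s) (b := s) hnout.1 hnout.2
    intro w hw
    have hwM : w ∉ M := fun hh => not_adj_M hh hnout.2 hnN hw.symm
    rcases hcov w (hr.pre.edge_mem w n hw.symm) hwM with h5 | h5 | h5
    · exfalso
      rcases hAsub w h5 with h6 | h6
      · exact hwM (h6 ▸ hs.hM)
      · exact hw.ne h6.symm
    · exact absurd ((hs.adj_out hnout.2 hwM).2 hw) (hno n hnA.1 w h5)
    · exact Or.inl h5

lemma StarHyp.star_conn [Finite V] (hs : StarHyp G U M κ E u h) (hr : RepHyp G U M κ r)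
    (Y : Set V) (hY : Y ⊆ starU U M E u h) (hY2 : 2 ≤ Y.ncard)
    (hN : (Nb (starG G M E u h) Y).ncard ≤ 2) :
    (starU U M E u h \ (Y ∪ Nb (starG G M E u h) Y)).ncard ≤ 1 := by
  classical
  by_contra hlt
  push Not at hlt
  set B := starU U M E u h \ (Y ∪ Nb (starG G M E u h) Y) with hBd
  have hB : B ⊆ starU U M E u h := Set.sdiff_subset
  have hYB : Disjoint Y B := by
    rw [Set.disjoint_left]; exact fun x hx hxB => hxB.2 (Or.inl hx)
  have hno : ∀ a ∈ Y, ∀ b ∈ B, ¬ (starG G M E u h).Adj a b := by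
    intro a ha b hb hab
    exact hb.2 (Or.inr ⟨fun hbY => hb.2 (Or.inl hbY), a, ha, hab⟩)
  have hC : (starU U M E u h \ (Y ∪ B)).ncard ≤ 2 := by
    refine (Set.ncard_le_ncard ?_ (Set.toFinite _)).trans hN
    rintro x ⟨hxU, hx⟩
    by_contra hxN
    exact hx (Or.inr ⟨hxU, fun h3 => h3.elim (fun h4 => hx (Or.inl h4)) hxN⟩)
  have hC' : (starU U M E u h \ (B ∪ Y)).ncard ≤ 2 := by rw [Set.union_comm]; exact hC
  have hno' : ∀ a ∈ B, ∀ b ∈ Y, ¬ (starG G M E u h).Adj a b :=
    fun a ha b hb hab => hno b hb a ha hab.symm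
  by_cases huY : u ∈ Y
  · exact hs.sep_u hr hY hB hYB hno hC (by omega) huY
  by_cases huB : u ∈ B
  · exact hs.sep_u hr hB hY hYB.symm hno' hC' hY2 huB
  by_cases hJ : (Y ∩ Nb G M).ncard ≤ 1
  · exact hs.sep_c hr hY hYB hno hC hY2 huY huB hJ
  · refine hs.sep_c hr hB hYB.symm hno' hC' (by omega) huB huY ?_
    have h1 : Disjoint (Y ∩ Nb G M) (B ∩ Nb G M) :=
      hYB.mono Set.inter_subset_left Set.inter_subset_left
    have h2 : (Y ∩ Nb G M) ∪ (B ∩ Nb G M) ⊆ Nb G M := by
      rintro x (hx | hx)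
      · exact hx.2
      · exact hx.2
    have h3 := Set.ncard_le_ncard h2 (Set.toFinite _)
    rw [Set.ncard_union_eq h1 (Set.toFinite _) (Set.toFinite _), hr.three] at h3
    omega

theorem StarHyp.star_pre [Finite V] (hs : StarHyp G U M κ E u h) (hr : RepHyp G U M κ r) :
    Pre3 (starG G M E u h) (starU U M E u h) where
  edge_mem := hs.star_edge_mem hr
  deg2 := hs.star_deg2 hr
  conn := hs.star_conn hr
  index2 := fun w κ1 hκ => hs.star_index hr w κ1 hκ

end star

end Pool.Agent.Helper82.TK
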