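import Pool.Agent.Helper82.TK.RepDef

/-!
# The star lemma

`F` is a set with three neighbours `t 0, t 1, t 2`. It is replaced by one vertex `u` with three legs
to `t i`: a direct edge for `i ∈ O`, a path of length two through the new vertex `h i` of degree two
for `i ∈ E`; both for flexible legs. If the boundary is good (`GoodB`), the new graph has minimum
degree two and is 3-connected up to vertices of degree two.
-/

set_option autoImplicit false

namespace Pool.Agent.Helper82.TK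

open SimpleGraph Pool.Agent.Helper57.TOK Pool.Agent.Helper57.TD

variable {V : Type*}

/-- Replace `F` by a star with centre `u`. -/
def starL (G : SimpleGraph V) (F : Set V) (u : V) (t h : Fin 3 → V) (O E : Finset (Fin 3)) :
    SimpleGraph V where
  Adj x y := x ≠ y ∧ ((x ∉ F ∧ y ∉ F ∧ G.Adj x y) ∨ (∃ i ∈ O, s(x, y) = s(u, t i)) ∨
    (∃ i ∈ E, s(x, y) = s(u, h i)) ∨ (∃ i ∈ E, s(x, y) = s(h i, t i)))
  symm := ⟨by
    rintro x y ⟨h1, h2⟩
    refine ⟨h1.symm, ?_⟩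
    rcases h2 with h2 | h2 | h2 | h2
    · exact Or.inl ⟨h2.2.1, h2.1, h2.2.2.symm⟩
    · obtain ⟨i, hi, h3⟩ := h2
      exact Or.inr (Or.inl ⟨i, hi, by rw [Sym2.eq_swap]; exact h3⟩)
    · obtain ⟨i, hi, h3⟩ := h2
      exact Or.inr (Or.inr (Or.inl ⟨i, hi, by rw [Sym2.eq_swap]; exact h3⟩))
    · obtain ⟨i, hi, h3⟩ := h2
      exact Or.inr (Or.inr (Or.inr ⟨i, hi, by rw [Sym2.eq_swap]; exact h3⟩))⟩
  loopless := ⟨fun _ h => h.1 rfl⟩

/-- Vertex set of the new graph. -/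
def starLU (U F : Set V) (u : V) (h : Fin 3 → V) (E : Finset (Fin 3)) : Set V :=
  {x | (x ∈ U ∧ x ∉ F) ∨ x = u ∨ ∃ i ∈ E, x = h i}

/-- Position of the star. -/
structure StarPos (G : SimpleGraph V) (U F : Set V) (u : V) (t h : Fin 3 → V)
    (O E : Finset (Fin 3)) : Prop where
  FU : F ⊆ U
  uF : u ∈ F
  hF : ∀ i ∈ E, h i ∈ F
  hu : ∀ i ∈ E, h i ≠ u
  hinj : ∀ i ∈ E, ∀ j ∈ E, h i = h j → i = j
  tinj : Function.Injective t
  nb : Nb G F = Set.range t
  OE : ∀ i, i ∈ O ∨ i ∈ E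

/-- A good boundary vertex: at least two neighbours outside `F`, and no pendant flexible link. -/
def GoodB (G : SimpleGraph V) (F : Set V) (t : V) : Prop :=
  2 ≤ (G.neighborSet t \ F).ncard ∧
    ∀ m x, G.neighborSet t \ F ⊆ {m, x} → m ∈ G.neighborSet t \ F → ¬ G.neighborSet m ⊆ {t, x}

/-- Three-connected up to vertices of degree two. -/
structure Pre2 (G : SimpleGraph V) (U : Set V) : Prop where
  edge_mem : ∀ u v, G.Adj u v → u ∈ U
  deg2 : ∀ y ∈ U, 2 ≤ (G.neighborSet y).ncard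
  conn : ∀ Y ⊆ U, 2 ≤ Y.ncard → (Nb G Y).ncard ≤ 2 → (U \ (Y ∪ Nb G Y)).ncard ≤ 1

lemma Pre3.pre2 {G : SimpleGraph V} {U : Set V} (h : Pre3 G U) : Pre2 G U :=
  ⟨h.edge_mem, h.deg2, h.conn⟩

section star

variable {G : SimpleGraph V} {U F : Set V} {u : V} {t h : Fin 3 → V} {O E : Finset (Fin 3)}

lemma Pre2.Nb_sub (hp : Pre2 G U) (Y : Set V) : Nb G Y ⊆ U := by
  rintro v ⟨-, u, -, huv⟩
  exact hp.edge_mem v u huv.symm

/-- A small separator with `F` on the other side. -/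
lemma Pre2.sepF [Finite V] (hp : Pre2 G U) (hF : F ⊆ U) (hF2 : 2 ≤ F.ncard) {B C : Set V}
    (hB : B ⊆ U) (hBF : Disjoint B F) (hBN : Disjoint B (Nb G F)) (hC : Nb G B ⊆ C)
    (hC2 : C.ncard ≤ 2) : B.ncard ≤ 1 := by
  by_contra hlt
  push Not at hlt
  have hBF' := Set.disjoint_left.1 hBF
  have hBN' := Set.disjoint_left.1 hBN
  have h1 := hp.conn B hB (by omega) ((Set.ncard_le_ncard hC (Set.toFinite _)).trans hC2)
  have h2 : F ⊆ U \ (B ∪ Nb G B) := by
    intro x hx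
    refine ⟨hF hx, ?_⟩
    rintro (h3 | ⟨-, b, hb, hbx⟩)
    · exact hBF' h3 hx
    · exact not_adj_M hx (hBF' hb) (hBN' hb) hbx.symm
  have h3 := Set.ncard_le_ncard h2 (Set.toFinite _)
  omega

namespace StarPos

lemma t_mem (hs : StarPos G U F u t h O E) (i : Fin 3) : t i ∈ Nb G F := by
  rw [hs.nb]; exact Set.mem_range_self i

lemma t_notF (hs : StarPos G U F u t h O E) (i : Fin 3) : t i ∉ F := (hs.t_mem i).1

lemma t_ne_u (hs : StarPos G U F u t h O E) (i : Fin 3) : t i ≠ u := fun hh =>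
  hs.t_notF i (hh ▸ hs.uF)

lemma t_ne_h (hs : StarPos G U F u t h O E) (i : Fin 3) {j : Fin 3} (hj : j ∈ E) : t i ≠ h j :=
  fun hh => hs.t_notF i (hh ▸ hs.hF j hj)

lemma adj_out (hs : StarPos G U F u t h O E) {x y : V} (hx : x ∉ F) (hy : y ∉ F) :
    (starL G F u t h O E).Adj x y ↔ G.Adj x y := by
  constructor
  · rintro ⟨h1, h2 | ⟨i, hi, h2⟩ | ⟨i, hi, h2⟩ | ⟨i, hi, h2⟩⟩
    · exact h2.2.2
    · rw [Sym2.eq_iff] at h2
      rcases h2 with h2 | h2
      · exact absurd (h2.1 ▸ hs.uF) hx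
      · exact absurd (h2.2 ▸ hs.uF) hy
    · rw [Sym2.eq_iff] at h2
      rcases h2 with h2 | h2
      · exact absurd (h2.1 ▸ hs.uF) hx
      · exact absurd (h2.2 ▸ hs.uF) hy
    · rw [Sym2.eq_iff] at h2
      rcases h2 with h2 | h2
      · exact absurd (h2.1 ▸ hs.hF i hi) hx
      · exact absurd (h2.2 ▸ hs.hF i hi) hy
  · intro h1
    exact ⟨h1.ne, Or.inl ⟨hx, hy, h1⟩⟩

lemma adj_u (hs : StarPos G U F u t h O E) {y : V} :
    (starL G F u t h O E).Adj u y ↔ (∃ i ∈ O, y = t i) ∨ (∃ i ∈ E, y = h i) := by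
  constructor
  · rintro ⟨h1, h2 | ⟨i, hi, h2⟩ | ⟨i, hi, h2⟩ | ⟨i, hi, h2⟩⟩
    · exact absurd hs.uF h2.1
    · rw [Sym2.eq_iff] at h2
      rcases h2 with h2 | h2
      · exact Or.inl ⟨i, hi, h2.2⟩
      · exact absurd h2.1.symm (hs.t_ne_u i)
    · rw [Sym2.eq_iff] at h2
      rcases h2 with h2 | h2
      · exact Or.inr ⟨i, hi, h2.2⟩
      · exact absurd h2.1.symm (hs.hu i hi)
    · rw [Sym2.eq_iff] at h2
      rcases h2 with h2 | h2
      · exact absurd h2.1.symm (hs.hu i hi)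
      · exact absurd h2.1.symm (hs.t_ne_u i)
  · rintro (⟨i, hi, rfl⟩ | ⟨i, hi, rfl⟩)
    · exact ⟨(hs.t_ne_u i).symm, Or.inr (Or.inl ⟨i, hi, rfl⟩)⟩
    · exact ⟨(hs.hu i hi).symm, Or.inr (Or.inr (Or.inl ⟨i, hi, rfl⟩))⟩

lemma adj_h (hs : StarPos G U F u t h O E) {i : Fin 3} (hi : i ∈ E) {y : V} :
    (starL G F u t h O E).Adj (h i) y ↔ y = u ∨ y = t i := by
  constructor
  · rintro ⟨h1, h2 | ⟨j, hj, h2⟩ | ⟨j, hj, h2⟩ | ⟨j, hj, h2⟩⟩
    · exact absurd (hs.hF i hi) h2.1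
    · rw [Sym2.eq_iff] at h2
      rcases h2 with h2 | h2
      · exact absurd h2.1 (hs.hu i hi)
      · exact absurd h2.1.symm (hs.t_ne_h j hi)
    · rw [Sym2.eq_iff] at h2
      rcases h2 with h2 | h2
      · exact absurd h2.1 (hs.hu i hi)
      · exact Or.inl h2.2
    · rw [Sym2.eq_iff] at h2
      rcases h2 with h2 | h2
      · right
        rw [h2.2, hs.hinj i hi j hj h2.1]
      · exact absurd h2.1.symm (hs.t_ne_h j hi)
  · rintro (rfl | rfl)
    · exact ⟨hs.hu i hi, Or.inr (Or.inr (Or.inl ⟨i, hi, Sym2.eq_swap⟩))⟩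
    · exact ⟨(hs.t_ne_h i hi).symm, Or.inr (Or.inr (Or.inr ⟨i, hi, rfl⟩))⟩

lemma no_other (hs : StarPos G U F u t h O E) {x y : V} (hx : x ∈ F) (hxu : x ≠ u)
    (hxh : ∀ i ∈ E, x ≠ h i) : ¬ (starL G F u t h O E).Adj x y := by
  rintro ⟨h1, h2 | ⟨j, hj, h2⟩ | ⟨j, hj, h2⟩ | ⟨j, hj, h2⟩⟩
  · exact h2.1 hx
  · rw [Sym2.eq_iff] at h2
    rcases h2 with h2 | h2
    · exact hxu h2.1
    · exact hs.t_notF j (h2.1 ▸ hx)
  · rw [Sym2.eq_iff] at h2
    rcases h2 with h2 | h2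
    · exact hxu h2.1
    · exact hxh j hj h2.1
  · rw [Sym2.eq_iff] at h2
    rcases h2 with h2 | h2
    · exact hxh j hj h2.1
    · exact hs.t_notF j (h2.1 ▸ hx)

/-- The neighbours of a vertex outside `F` in the star. -/
lemma adj_FF (hs : StarPos G U F u t h O E) {x y : V} (hx : x ∉ F) (hy : y ∈ F)
    (hxy : (starL G F u t h O E).Adj x y) :
    ∃ i, x = t i ∧ ((i ∈ O ∧ y = u) ∨ (i ∈ E ∧ y = h i)) := by
  by_cases hyu : y = u
  · subst hyu
    rcases (hs.adj_u).1 hxy.symm with ⟨i, hi, h1⟩ | ⟨i, hi, h1⟩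
    · exact ⟨i, h1, Or.inl ⟨hi, rfl⟩⟩
    · exact absurd (h1 ▸ hs.hF i hi) hx
  · by_cases hyh : ∃ i ∈ E, y = h i
    · obtain ⟨i, hi, rfl⟩ := hyh
      rcases (hs.adj_h hi).1 hxy.symm with h1 | h1
      · exact absurd (h1 ▸ hs.uF) hx
      · exact ⟨i, h1, Or.inr ⟨hi, rfl⟩⟩
    · push Not at hyh
      exact absurd hxy.symm (hs.no_other hy hyu hyh)

lemma mem_U {x : V} : x ∈ starLU U F u h E ↔ (x ∈ U ∧ x ∉ F) ∨ x = u ∨ ∃ i ∈ E, x = h i := Iff.rfl

lemma u_mem : u ∈ starLU U F u h E := Or.inr (Or.inl rfl)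

lemma h_mem {i : Fin 3} (hi : i ∈ E) : h i ∈ starLU U F u h E := Or.inr (Or.inr ⟨i, hi, rfl⟩)

lemma out_mem {x : V} (h1 : x ∈ U) (h2 : x ∉ F) : x ∈ starLU U F u h E := Or.inl ⟨h1, h2⟩

lemma mem_F (_ : StarPos G U F u t h O E) {x : V} (hx : x ∈ starLU U F u h E) (hxF : x ∈ F) :
    x = u ∨ ∃ i ∈ E, x = h i := by
  rcases hx with h1 | h1
  · exact absurd hxF h1.2
  · exact h1

lemma starLU_sub (hs : StarPos G U F u t h O E) : starLU U F u h E ⊆ U := by
  rintro x (h1 | h1 | ⟨i, hi, h1⟩)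
  · exact h1.1
  · rw [h1]; exact hs.FU hs.uF
  · rw [h1]; exact hs.FU (hs.hF i hi)

lemma edge_mem' (hs : StarPos G U F u t h O E) (hp : Pre2 G U) (x y : V)
    (hxy : (starL G F u t h O E).Adj x y) : x ∈ starLU U F u h E := by
  by_cases hxF : x ∈ F
  · by_contra hx
    refine hs.no_other hxF (fun hh => hx (Or.inr (Or.inl hh))) (fun i hi hh => ?_) hxy
    exact hx (Or.inr (Or.inr ⟨i, hi, hh⟩))
  · left
    refine ⟨?_, hxF⟩
    by_cases hyF : y ∈ F
    · obtain ⟨i, h1, -⟩ := hs.adj_FF hxF hyF hxy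
      rw [h1]
      exact hp.Nb_sub F (hs.t_mem i)
    · exact hp.edge_mem _ _ ((hs.adj_out hxF hyF).1 hxy)

/-- The first vertex of the leg `i`. -/
lemma exists_leg (hs : StarPos G U F u t h O E) (i : Fin 3) :
    ∃ v, (starL G F u t h O E).Adj u v ∧ ((i ∈ O ∧ v = t i) ∨ (i ∈ E ∧ v = h i)) := by
  rcases hs.OE i with hi | hi
  · exact ⟨t i, (hs.adj_u).2 (Or.inl ⟨i, hi, rfl⟩), Or.inl ⟨hi, rfl⟩⟩
  · exact ⟨h i, (hs.adj_u).2 (Or.inr ⟨i, hi, rfl⟩), Or.inr ⟨hi, rfl⟩⟩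

lemma three_u [Finite V] (hs : StarPos G U F u t h O E) :
    3 ≤ ((starL G F u t h O E).neighborSet u).ncard := by
  classical
  choose f hf1 hf2 using hs.exists_leg
  have hinj : Function.Injective f := by
    intro i j hij
    rcases hf2 i with ⟨hi, h1⟩ | ⟨hi, h1⟩ <;> rcases hf2 j with ⟨hj, h2⟩ | ⟨hj, h2⟩
    · exact hs.tinj (by rw [← h1, ← h2, hij])
    · exact absurd (by rw [← h1, ← h2, hij] : t i = h j) (hs.t_ne_h i hj)
    · exact absurd (by rw [← h1, ← h2, hij] : t j = h i) (hs.t_ne_h j hi)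
    · exact hs.hinj i hi j hj (by rw [← h1, ← h2, hij])
  have h1 : Set.range f ⊆ (starL G F u t h O E).neighborSet u := by
    rintro _ ⟨i, rfl⟩
    exact hf1 i
  have h2 : (Set.range f).ncard = 3 := by
    rw [← Set.image_univ, Set.ncard_image_of_injective _ hinj, Set.ncard_univ]
    simp
  have h3 := Set.ncard_le_ncard h1 (Set.toFinite _)
  omega

lemma deg2' [Finite V] (hs : StarPos G U F u t h O E) (hp : Pre2 G U)
    (hg : ∀ i, GoodB G F (t i)) (y : V) (hy : y ∈ starLU U F u h E) :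
    2 ≤ ((starL G F u t h O E).neighborSet y).ncard := by
  classical
  by_cases hyF : y ∈ F
  · rcases hs.mem_F hy hyF with rfl | ⟨i, hi, rfl⟩
    · have := hs.three_u; omega
    · have h2 : ({u, t i} : Set V) ⊆ (starL G F u t h O E).neighborSet (h i) := by
        rintro z (rfl | hz)
        · exact (hs.adj_h hi).2 (Or.inl rfl)
        · rw [Set.mem_singleton_iff] at hz
          exact (hs.adj_h hi).2 (Or.inr hz)
      have h3 := Set.ncard_le_ncard h2 (Set.toFinite _)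
      rw [Set.ncard_pair (hs.t_ne_u i).symm] at h3
      exact h3
  · have hyU : y ∈ U := by
      rcases hy with h1 | h1 | ⟨i, hi, h1⟩
      · exact h1.1
      · exact absurd (h1 ▸ hs.uF) hyF
      · exact absurd (h1 ▸ hs.hF i hi) hyF
    have hsub : G.neighborSet y \ F ⊆ (starL G F u t h O E).neighborSet y := by
      rintro z ⟨hz, hzF⟩
      exact (hs.adj_out hyF hzF).2 hz
    by_cases hyN : y ∈ Nb G F
    · rw [hs.nb] at hyN
      obtain ⟨i, rfl⟩ := hyN
      exact (hg i).1.trans (Set.ncard_le_ncard hsub (Set.toFinite _))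
    · have h1 : G.neighborSet y ⊆ G.neighborSet y \ F := by
        intro z hz
        exact ⟨hz, fun hzF => hyN ⟨hyF, z, hzF, SimpleGraph.Adj.symm hz⟩⟩
      exact (hp.deg2 y hyU).trans (Set.ncard_le_ncard (h1.trans hsub) (Set.toFinite _))

/-- The contradiction with a good boundary vertex. -/
lemma good_contra [Finite V] (_ : Pre2 G U) {i : Fin 3} (hg : GoodB G F (t i)) {B W C' : Set V}
    (hN : G.neighborSet (t i) \ F ⊆ B ∪ W) (hB : B.ncard ≤ 1) (hBW : B.ncard + W.ncard ≤ 2)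
    (hBU : B ⊆ U) (hNB : Nb G B ⊆ C') (hC' : C' ⊆ insert (t i) W) (hW : W.ncard ≤ 1) :
    False := by
  classical
  have h1 := hg.1
  have h2 : (B ∪ W).ncard ≤ 2 := (Set.ncard_union_le B W).trans hBW
  have h3 : G.neighborSet (t i) \ F = B ∪ W :=
    Set.eq_of_subset_of_ncard_le hN (by omega) (Set.toFinite _)
  -- B = {z}, W = {s}
  have h4 : (B ∪ W).ncard = 2 := by rw [← h3] at h2 ⊢; omega
  have h4' := Set.ncard_union_le B W
  obtain ⟨z, hz⟩ := Set.ncard_eq_one.1 (by omega : B.ncard = 1)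
  obtain ⟨s, hs⟩ := Set.ncard_eq_one.1 (by omega : W.ncard = 1)
  subst hz hs
  have hzU : z ∈ U := hBU rfl
  refine hg.2 z s ?_ ?_ ?_
  · rw [h3]
    rintro x (hx | hx)
    · exact Or.inl hx
    · exact Or.inr hx
  · rw [h3]; exact Or.inl rfl
  · intro w hw
    have hzw : G.Adj z w := hw
    have h5 : w ∈ Nb G {z} := by
      rw [Nb_singleton]; exact hw
    have h6 := hC' (hNB h5)
    rcases h6 with h6 | h6
    · exact Or.inl h6
    · exact Or.inr h6

/-- Separation with the centre on the side `A`. -/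
lemma sep_u [Finite V] (hs : StarPos G U F u t h O E) (hp : Pre2 G U) (hF2 : 2 ≤ F.ncard)
    (hg : ∀ i, GoodB G F (t i)) {A B : Set V} (hB : B ⊆ starLU U F u h E)
    (hAB : Disjoint A B)
    (hno : ∀ a ∈ A, ∀ b ∈ B, ¬ (starL G F u t h O E).Adj a b)
    (hC : (starLU U F u h E \ (A ∪ B)).ncard ≤ 2) (hB2 : 2 ≤ B.ncard) (huA : u ∈ A) : False := by
  classical
  have hAB' := Set.disjoint_left.1 hAB
  set C := starLU U F u h E \ (A ∪ B) with hCd
  have huB : u ∉ B := hAB' huA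
  have hhB : ∀ i ∈ E, h i ∉ B := fun i hi hh => hno u huA (h i) hh ((hs.adj_u).2 (Or.inr ⟨i, hi, rfl⟩))
  have hBout : ∀ b ∈ B, b ∈ U ∧ b ∉ F := by
    intro b hb
    rcases hB hb with h1 | h1 | ⟨i, hi, h1⟩
    · exact h1
    · exact absurd (h1 ▸ hb) huB
    · exact absurd (h1 ▸ hb) (hhB i hi)
  have hcov : ∀ x ∈ U, x ∉ F → x ∈ A ∨ x ∈ B ∨ x ∈ C := by
    intro x hxU hxF
    by_cases h1 : x ∈ A
    · exact Or.inl h1
    by_cases h2 : x ∈ B
    · exact Or.inr (Or.inl h2)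
    · exact Or.inr (Or.inr ⟨Or.inl ⟨hxU, hxF⟩, fun h3 => h3.elim h1 h2⟩)
  -- the legs entering B
  set J : Set (Fin 3) := {i | t i ∈ B} with hJ
  have hJE : ∀ i ∈ J, i ∈ E ∧ h i ∈ C := by
    intro i hi
    have h1 : i ∉ O := fun hO => hno u huA (t i) hi ((hs.adj_u).2 (Or.inl ⟨i, hO, rfl⟩))
    have h2 : i ∈ E := (hs.OE i).resolve_left h1
    refine ⟨h2, h_mem h2, ?_⟩
    rintro (h3 | h3)
    · exact hno (h i) h3 (t i) hi ((hs.adj_h h2).2 (Or.inr rfl))
    · exact hhB i h2 h3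
  have hJc : (t '' J).ncard + (C \ F).ncard ≤ 2 := by
    have h1 : (t '' J).ncard = J.ncard := Set.ncard_image_of_injective _ hs.tinj
    have h2 : (h '' J).ncard = J.ncard := Set.InjOn.ncard_image
      (fun i hi j hj hij => hs.hinj i (hJE i hi).1 j (hJE j hj).1 hij)
    have h3 : h '' J ⊆ C ∩ F := by
      rintro _ ⟨i, hi, rfl⟩
      exact ⟨(hJE i hi).2, hs.hF i (hJE i hi).1⟩
    have h4 := Set.ncard_le_ncard h3 (Set.toFinite _)
    have h5 := Set.ncard_inter_add_ncard_sdiff_eq_ncard C F (Set.toFinite _)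
    omega
  set B' : Set V := B \ Set.range t with hB'
  have hTB : ∀ x ∈ B, x ∈ Set.range t → x ∈ t '' J := by
    rintro _ hx ⟨i, rfl⟩
    exact ⟨i, hx, rfl⟩
  have hB'U : B' ⊆ U := fun x hx => (hBout x hx.1).1
  have hB'F : Disjoint B' F := by
    rw [Set.disjoint_left]; exact fun x hx => (hBout x hx.1).2
  have hB'N : Disjoint B' (Nb G F) := by
    rw [Set.disjoint_left, hs.nb]; exact fun x hx => hx.2
  have hNout : ∀ b ∈ B, ∀ v, G.Adj b v → v ∉ F → v ∈ B ∨ v ∈ C \ F := by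
    intro b hb v hbv hvF
    rcases hcov v (hp.edge_mem v b hbv.symm) hvF with h1 | h1 | h1
    · exact absurd ((hs.adj_out hvF (hBout b hb).2).2 hbv.symm) (hno v h1 b hb)
    · exact Or.inl h1
    · exact Or.inr ⟨h1, hvF⟩
  have hNB' : Nb G B' ⊆ t '' J ∪ (C \ F) := by
    rintro v ⟨hv, b, hb, hbv⟩
    have hvF : v ∉ F := fun hvF =>
      not_adj_M hvF (hBout b hb.1).2 ((Set.disjoint_left.1 hB'N) hb) hbv.symm
    rcases hNout b hb.1 v hbv hvF with h1 | h1
    · left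
      apply hTB v h1
      by_contra h2
      exact hv ⟨h1, h2⟩
    · exact Or.inr h1
  have hB'1 : B'.ncard ≤ 1 :=
    hp.sepF hs.FU hF2 hB'U hB'F hB'N hNB' ((Set.ncard_union_le _ _).trans hJc)
  have hBsub : B ⊆ B' ∪ t '' J := by
    intro x hx
    by_cases h1 : x ∈ Set.range t
    · exact Or.inr (hTB x hx h1)
    · exact Or.inl ⟨hx, h1⟩
  have hBc := (Set.ncard_le_ncard hBsub (Set.toFinite _)).trans (Set.ncard_union_le _ _)
  obtain ⟨i, hi⟩ : J.Nonempty := by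
    rw [Set.nonempty_iff_ne_empty]
    intro hh
    rw [hh, Set.image_empty, Set.ncard_empty] at hBc
    omega
  have hti : t i ∈ t '' J := ⟨i, hi, rfl⟩
  have hdiff := Set.ncard_sdiff_singleton_add_one hti (Set.toFinite _)
  have hW : (t '' J \ {t i} ∪ (C \ F)).ncard ≤ 1 := by
    have := Set.ncard_union_le (t '' J \ {t i}) (C \ F)
    omega
  refine good_contra hp (i := i) (hg i) (B := B') (W := t '' J \ {t i} ∪ (C \ F))
    (C' := t '' J ∪ (C \ F)) ?_ hB'1 (by omega) hB'U hNB' ?_ hW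
  · rintro v ⟨hv, hvF⟩
    rcases hNout (t i) hi v hv hvF with h1 | h1
    · rcases hBsub h1 with h2 | h2
      · exact Or.inl h2
      · exact Or.inr (Or.inl ⟨h2, fun hh => (G.ne_of_adj hv) hh.symm⟩)
    · exact Or.inr (Or.inr h1)
  · rintro x (hx | hx)
    · by_cases h1 : x = t i
      · exact Or.inl h1
      · exact Or.inr (Or.inl ⟨hx, h1⟩)
    · exact Or.inr (Or.inr hx)

/-- Separation with the centre in the separator; at most one boundary vertex on the side `A`. -/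
lemma sep_c [Finite V] (hs : StarPos G U F u t h O E) (hp : Pre2 G U) (hF2 : 2 ≤ F.ncard)
    (hg : ∀ i, GoodB G F (t i)) {A B : Set V} (hA : A ⊆ starLU U F u h E)
    (hno : ∀ a ∈ A, ∀ b ∈ B, ¬ (starL G F u t h O E).Adj a b)
    (hC : (starLU U F u h E \ (A ∪ B)).ncard ≤ 2) (hA2 : 2 ≤ A.ncard) (huA : u ∉ A) (huB : u ∉ B)
    (hJ1 : {i | t i ∈ A}.ncard ≤ 1) : False := by
  classical
  set C := starLU U F u h E \ (A ∪ B) with hCd
  have huC : u ∈ C ∩ F := ⟨⟨u_mem, fun h1 => h1.elim huA huB⟩, hs.uF⟩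
  have hC1 : (C \ F).ncard ≤ 1 := by
    have h5 := Set.ncard_inter_add_ncard_sdiff_eq_ncard C F (Set.toFinite _)
    have h6 : 0 < (C ∩ F).ncard := (Set.ncard_pos (Set.toFinite _)).2 ⟨u, huC⟩
    omega
  set J : Set (Fin 3) := {i | t i ∈ A} with hJ
  have hTc : (t '' J).ncard = J.ncard := Set.ncard_image_of_injective _ hs.tinj
  have hcov : ∀ x ∈ U, x ∉ F → x ∈ A ∨ x ∈ B ∨ x ∈ C := by
    intro x hxU hxF
    by_cases h1 : x ∈ A
    · exact Or.inl h1
    by_cases h2 : x ∈ B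
    · exact Or.inr (Or.inl h2)
    · exact Or.inr (Or.inr ⟨Or.inl ⟨hxU, hxF⟩, fun h3 => h3.elim h1 h2⟩)
  have hAU : ∀ x ∈ A, x ∉ F → x ∈ U := by
    intro x hx hxF
    rcases hA hx with h1 | h1 | ⟨i, hi, h1⟩
    · exact h1.1
    · exact absurd (h1 ▸ hs.uF) hxF
    · exact absurd (h1 ▸ hs.hF i hi) hxF
  have hNout : ∀ a ∈ A, a ∉ F → ∀ v, G.Adj a v → v ∉ F → v ∈ A ∨ v ∈ C \ F := by
    intro a ha haF v hav hvF
    rcases hcov v (hp.edge_mem v a hav.symm) hvF with h1 | h1 | h1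
    · exact Or.inl h1
    · exact absurd ((hs.adj_out haF hvF).2 hav) (hno a ha v h1)
    · exact Or.inr ⟨h1, hvF⟩
  set A0 : Set V := {x | x ∈ A ∧ x ∉ F ∧ x ∉ Set.range t} with hA0
  have hA0U : A0 ⊆ U := fun x hx => hAU x hx.1 hx.2.1
  have hA0F : Disjoint A0 F := by
    rw [Set.disjoint_left]; exact fun x hx => hx.2.1
  have hA0N : Disjoint A0 (Nb G F) := by
    rw [Set.disjoint_left, hs.nb]; exact fun x hx => hx.2.2
  have hNA0 : Nb G A0 ⊆ t '' J ∪ (C \ F) := by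
    rintro v ⟨hv, a, ha, hav⟩
    have hvF : v ∉ F := fun hvF =>
      not_adj_M hvF ha.2.1 ((Set.disjoint_left.1 hA0N) ha) hav.symm
    rcases hNout a ha.1 ha.2.1 v hav hvF with h1 | h1
    · left
      by_cases h2 : v ∈ Set.range t
      · obtain ⟨i, rfl⟩ := h2
        exact ⟨i, h1, rfl⟩
      · exact absurd ⟨h1, hvF, h2⟩ hv
    · exact Or.inr h1
  have hA01 : A0.ncard ≤ 1 :=
    hp.sepF hs.FU hF2 hA0U hA0F hA0N hNA0 ((Set.ncard_union_le _ _).trans (by omega))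
  by_cases hJe : J.Nonempty
  · obtain ⟨i, hi⟩ := hJe
    have hJi : ∀ j ∈ J, j = i := by
      intro j hj
      by_contra hne
      have h1 : ({j, i} : Set (Fin 3)) ⊆ J := by
        rintro y (rfl | hy)
        · exact hj
        · rw [Set.mem_singleton_iff] at hy; rw [hy]; exact hi
      have h2 := Set.ncard_le_ncard h1 (Set.toFinite _)
      rw [Set.ncard_pair hne] at h2
      omega
    refine good_contra hp (i := i) (hg i) (B := A0) (W := C \ F)
      (C' := t '' J ∪ (C \ F)) ?_ hA01 (by omega) hA0U hNA0 ?_ hC1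
    · rintro v ⟨hv, hvF⟩
      rcases hNout (t i) hi (hs.t_notF i) v hv hvF with h1 | h1
      · left
        refine ⟨h1, hvF, ?_⟩
        rintro ⟨j, rfl⟩
        rw [hJi j h1] at hv
        exact (G.ne_of_adj hv) rfl
      · exact Or.inr h1
    · rintro x (⟨j, hj, rfl⟩ | hx)
      · left; rw [hJi j hj]
      · exact Or.inr hx
  · have hJ0 : ∀ i, t i ∉ A := fun i hi => hJe ⟨i, hi⟩
    by_cases hA0e : A0.Nonempty
    · -- a vertex of degree at most one
      obtain ⟨z, hz⟩ := hA0e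
      have h1 : G.neighborSet z ⊆ C \ F := by
        intro v hv
        have hzv : G.Adj z v := hv
        have hvF : v ∉ F := fun hvF =>
          not_adj_M hvF hz.2.1 ((Set.disjoint_left.1 hA0N) hz) hzv.symm
        rcases hNout z hz.1 hz.2.1 v hzv hvF with h2 | h2
        · exfalso
          have h3 : v ∈ A0 := ⟨h2, hvF, fun ⟨j, hj⟩ => hJ0 j (hj ▸ h2)⟩
          have h4 : ({z, v} : Set V) ⊆ A0 := by
            rintro y (rfl | hy)
            · exact hz
            · rw [Set.mem_singleton_iff] at hy; rw [hy]; exact h3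
          have h5 := Set.ncard_le_ncard h4 (Set.toFinite _)
          rw [Set.ncard_pair hzv.ne] at h5
          omega
        · exact h2
      have h2 := Set.ncard_le_ncard h1 (Set.toFinite _)
      have h3 := hp.deg2 z (hA0U hz)
      omega
    · -- A consists of handles
      have hAh : ∀ x ∈ A, ∃ i ∈ E, x = h i ∧ t i ∈ C \ F := by
        intro x hx
        have hxF : x ∈ F := by
          by_contra hxF
          exact hA0e ⟨x, hx, hxF, fun ⟨j, hj⟩ => hJ0 j (hj ▸ hx)⟩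
        rcases hs.mem_F (hA hx) hxF with h1 | ⟨i, hi, h1⟩
        · exact absurd (h1 ▸ hx) huA
        · refine ⟨i, hi, h1, ?_, hs.t_notF i⟩
          refine ⟨Or.inl ⟨hp.Nb_sub F (hs.t_mem i), hs.t_notF i⟩, ?_⟩
          rintro (h2 | h2)
          · exact hJ0 i h2
          · exact hno x hx (t i) h2 (by rw [h1]; exact (hs.adj_h hi).2 (Or.inr rfl))
      have : ∃ a ∈ A, ∃ b ∈ A, a ≠ b := by
        by_contra hcon
        push Not at hcon
        have h1 : A.ncard ≤ 1 := by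
          by_cases hAe : A.Nonempty
          · obtain ⟨a, ha⟩ := hAe
            have : A ⊆ {a} := fun x hx => hcon x hx a ha
            have := Set.ncard_le_ncard this (Set.toFinite _)
            rwa [Set.ncard_singleton] at this
          · rw [Set.not_nonempty_iff_eq_empty] at hAe
            rw [hAe, Set.ncard_empty]; omega
        omega
      obtain ⟨a, ha, b, hb, hab⟩ := this
      obtain ⟨i, hi, h1, h2⟩ := hAh a ha
      obtain ⟨j, hj, h3, h4⟩ := hAh b hb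
      have hij : i ≠ j := by
        rintro rfl
        exact hab (h1.trans h3.symm)
      have h5 : ({t i, t j} : Set V) ⊆ C \ F := by
        rintro y (rfl | hy)
        · exact h2
        · rw [Set.mem_singleton_iff] at hy; rw [hy]; exact h4
      have h6 := Set.ncard_le_ncard h5 (Set.toFinite _)
      rw [Set.ncard_pair (fun hh => hij (hs.tinj hh))] at h6
      omega

/-- **STAR LEMMA**, connectivity. -/
theorem conn' [Finite V] (hs : StarPos G U F u t h O E) (hp : Pre2 G U) (hF2 : 2 ≤ F.ncard)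
    (hg : ∀ i, GoodB G F (t i)) (Y : Set V) (hY : Y ⊆ starLU U F u h E) (hY2 : 2 ≤ Y.ncard)
    (hN : (Nb (starL G F u t h O E) Y).ncard ≤ 2) :
    (starLU U F u h E \ (Y ∪ Nb (starL G F u t h O E) Y)).ncard ≤ 1 := by
  classical
  by_contra hlt
  push Not at hlt
  set B := starLU U F u h E \ (Y ∪ Nb (starL G F u t h O E) Y) with hBd
  have hB : B ⊆ starLU U F u h E := Set.sdiff_subset
  have hYB : Disjoint Y B := by
    rw [Set.disjoint_left]; exact fun x hx hxB => hxB.2 (Or.inl hx)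
  have hno : ∀ a ∈ Y, ∀ b ∈ B, ¬ (starL G F u t h O E).Adj a b := by
    intro a ha b hb hab
    exact hb.2 (Or.inr ⟨fun hbY => hb.2 (Or.inl hbY), a, ha, hab⟩)
  have hC : (starLU U F u h E \ (Y ∪ B)).ncard ≤ 2 := by
    refine (Set.ncard_le_ncard ?_ (Set.toFinite _)).trans hN
    rintro x ⟨hxU, hx⟩
    by_contra hxN
    exact hx (Or.inr ⟨hxU, fun h3 => h3.elim (fun h4 => hx (Or.inl h4)) hxN⟩)
  have hC' : (starLU U F u h E \ (B ∪ Y)).ncard ≤ 2 := by rw [Set.union_comm]; exact hC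
  have hno' : ∀ a ∈ B, ∀ b ∈ Y, ¬ (starL G F u t h O E).Adj a b :=
    fun a ha b hb hab => hno b hb a ha hab.symm
  by_cases huY : u ∈ Y
  · exact hs.sep_u hp hF2 hg hB hYB hno hC (by omega) huY
  by_cases huB : u ∈ B
  · exact hs.sep_u hp hF2 hg hY hYB.symm hno' hC' hY2 huB
  by_cases hJ : {i | t i ∈ Y}.ncard ≤ 1
  · exact hs.sep_c hp hF2 hg hY hno hC hY2 huY huB hJ
  · refine hs.sep_c hp hF2 hg hB hno' hC' (by omega) huB huY ?_
    have h1 : Disjoint {i | t i ∈ Y} {i | t i ∈ B} := by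
      rw [Set.disjoint_left]
      exact fun i h1 h2 => (Set.disjoint_left.1 hYB) h1 h2
    have h3 := Set.ncard_le_ncard (Set.subset_univ ({i | t i ∈ Y} ∪ {i | t i ∈ B})) (Set.toFinite _)
    rw [Set.ncard_union_eq h1 (Set.toFinite _) (Set.toFinite _), Set.ncard_univ] at h3
    simp at h3
    omega

/-- **STAR LEMMA**. -/
theorem pre2' [Finite V] (hs : StarPos G U F u t h O E) (hp : Pre2 G U) (hF2 : 2 ≤ F.ncard)
    (hg : ∀ i, GoodB G F (t i)) : Pre2 (starL G F u t h O E) (starLU U F u h E) where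
  edge_mem := hs.edge_mem' hp
  deg2 := hs.deg2' hp hg
  conn := hs.conn' hp hF2 hg

end StarPos

end star

end Pool.Agent.Helper82.TK
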